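import Pool.Agent.H.MP_1b807b_an.HO.Defs

/-! MP_1b807b_an, balls with holes, module SphVol: volumes -/

set_option autoImplicit false

namespace Pool.Agent.RH

open MeasureTheory Metric Set Filter Pool.Agent.RG
open scoped Topology

variable {n : ℕ}

theorem om_pos (n : ℕ) : 0 < om n := by
  unfold om
  rw [measureReal_def]
  exact ENNReal.toReal_pos (measure_ball_pos _ _ one_pos).ne' measure_ball_lt_top.ne

theorem SphVol_nontrivial (hn : 2 ≤ n) : Nontrivial (E n) := by
  have h : 0 < Module.finrank ℝ (E n) := by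
    rw [finrank_euclideanSpace_fin]
    omega
  exact Module.nontrivial_of_finrank_pos h

/-- PROOF: `Measure.addHaar_ball`. -/
theorem vol_ball (hn : 2 ≤ n) (x₀ : E n) {R : ℝ} (hR : 0 ≤ R) :
    volume.real (ball x₀ R) = om n * R ^ n ∧ volume.real (closedBall x₀ R) = om n * R ^ n := by
  have hE := SphVol_nontrivial hn
  have h2 : volume.real (closedBall x₀ R) = om n * R ^ n := by
    rw [Measure.addHaar_real_closedBall volume x₀ hR, finrank_euclideanSpace_fin, om, mul_comm]
  refine ⟨?_, h2⟩
  rw [← Measure.addHaar_real_closedBall_eq_addHaar_real_ball, h2]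

/-- PROOF: `om 2 = π`: `EuclideanSpace.volume_ball_fin_two`. -/
theorem om_two : om 2 = Real.pi := by
  rw [om, measureReal_def, EuclideanSpace.volume_ball_fin_two, ENNReal.ofReal_one, one_pow, one_mul,
    ENNReal.toReal_ofReal Real.pi_pos.le]

/-- PROOF: the closed balls are disjoint and contained in `ball x₀ R`; `vol_ball`. -/
theorem sph_vol (hn : 2 ≤ n) {S : Set (E n)} {x₀ : E n} {R : ℝ} {m : ℕ} {y : Fin m → E n}
    {r : Fin m → ℝ} (h : SphHoles S x₀ R m y r) :
    volume.real S = om n * (R ^ n - ∑ i, r i ^ n) := by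
  have h1 : (⋃ i, closedBall (y i) (r i)) ⊆ ball x₀ R := iUnion_subset h.sub
  have h2 : MeasurableSet (⋃ i, closedBall (y i) (r i)) :=
    MeasurableSet.iUnion fun i => measurableSet_closedBall
  have h3 : volume.real (⋃ i, closedBall (y i) (r i)) = ∑ i, volume.real (closedBall (y i) (r i)) :=
    measureReal_iUnion_fintype (fun i j hij => h.disj i j hij) (fun i => measurableSet_closedBall)
      (fun i => measure_closedBall_lt_top.ne)
  have h4 := measureReal_sdiff_add_inter (μ := volume) (s := ball x₀ R) h2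
    measure_ball_lt_top.ne
  rw [inter_eq_self_of_subset_right h1, h3, (vol_ball hn x₀ h.Rpos.le).1] at h4
  rw [h.eq, mul_sub, Finset.mul_sum]
  have h5 : ∑ i, volume.real (closedBall (y i) (r i)) = ∑ i, om n * r i ^ n :=
    Finset.sum_congr rfl fun i _ => (vol_ball hn (y i) (h.rpos i).le).2
  rw [← h5]
  linarith

/-- PROOF: for `x ∈ ball x₀ R` and `z ∉ ball x₀ R`: `dist x z ≥ R - dist x x₀`, so
`infDist x (ball x₀ R)ᶜ ≥ R - dist x x₀` (the complement is nonempty, `n ≥ 1`); the set is contained in
`ball x₀ R \ ball x₀ (R - t)`. -/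
theorem ball_collar (hn : 2 ≤ n) {S : Set (E n)} {x₀ : E n} {R : ℝ} (hR : 0 < R)
    (h : S ⊆ ball x₀ R) {t : ℝ} (ht : 0 ≤ t) (htR : t ≤ R) :
    volume.real (S ∩ {x | infDist x (ball x₀ R)ᶜ ≤ t}) ≤ om n * (R ^ n - (R - t) ^ n) := by
  have hE := SphVol_nontrivial hn
  obtain ⟨z0, hz0⟩ : (sphere x₀ R).Nonempty := NormedSpace.sphere_nonempty.mpr hR.le
  have hne : (ball x₀ R)ᶜ.Nonempty := ⟨z0, by
    rw [mem_compl_iff, mem_ball, mem_sphere.mp hz0]
    exact lt_irrefl _⟩
  have hsub : S ∩ {x | infDist x (ball x₀ R)ᶜ ≤ t} ⊆ ball x₀ R \ ball x₀ (R - t) := by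
    rintro x ⟨hxS, hx⟩
    refine ⟨h hxS, fun hx2 => ?_⟩
    have h1 : R - dist x x₀ ≤ infDist x (ball x₀ R)ᶜ := by
      rw [le_infDist hne]
      intro z hz
      have h2 : R ≤ dist z x₀ := by
        rw [mem_compl_iff, mem_ball, not_lt] at hz
        exact hz
      have h3 := dist_triangle_left z x₀ x
      linarith
    have h4 : infDist x (ball x₀ R)ᶜ ≤ t := hx
    rw [mem_ball] at hx2
    linarith
  refine (measureReal_mono hsub
    (measure_ne_top_of_subset sdiff_subset measure_ball_lt_top.ne)).trans (le_of_eq ?_)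
  have h5 := measureReal_sdiff_add_inter (μ := volume) (s := ball x₀ R)
    (t := ball x₀ (R - t)) measurableSet_ball measure_ball_lt_top.ne
  rw [inter_eq_self_of_subset_right (ball_subset_ball (by linarith)),
    (vol_ball hn x₀ hR.le).1, (vol_ball hn x₀ (by linarith)).1] at h5
  rw [mul_sub]
  linarith

/-- PROOF: for `x ∉ closedBall y r`: `infDist x (closedBall y r) ≥ dist x y - r`; the set is contained in
`closedBall y (r + t) \ closedBall y r`. -/
theorem hole_collar (hn : 2 ≤ n) {S : Set (E n)} {y : E n} {r : ℝ} (hr : 0 < r)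
    (h : Disjoint S (closedBall y r)) {t : ℝ} (ht : 0 ≤ t) :
    volume.real (S ∩ {x | infDist x (closedBall y r) ≤ t}) ≤ om n * ((r + t) ^ n - r ^ n) := by
  have hsub : S ∩ {x | infDist x (closedBall y r) ≤ t} ⊆ closedBall y (r + t) \ closedBall y r := by
    rintro x ⟨hxS, hx⟩
    refine ⟨?_, fun hx2 => Set.disjoint_left.mp h hxS hx2⟩
    have h1 : dist x y - r ≤ infDist x (closedBall y r) := by
      rw [le_infDist ⟨y, mem_closedBall_self hr.le⟩]
      intro z hz
      rw [mem_closedBall] at hz
      have h3 := dist_triangle x z y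
      linarith
    have h4 : infDist x (closedBall y r) ≤ t := hx
    rw [mem_closedBall]
    linarith
  refine (measureReal_mono hsub
    (measure_ne_top_of_subset sdiff_subset measure_closedBall_lt_top.ne)).trans (le_of_eq ?_)
  have h5 := measureReal_sdiff_add_inter (μ := volume) (s := closedBall y (r + t))
    (t := closedBall y r) measurableSet_closedBall measure_closedBall_lt_top.ne
  rw [inter_eq_self_of_subset_right (closedBall_subset_closedBall (by linarith)),
    (vol_ball hn y (R := r + t) (by linarith)).2, (vol_ball hn y hr.le).2] at h5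
  rw [mul_sub]
  linarith

end Pool.Agent.RH
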