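import Pool.Agent.H.MP_1b807b_an.HO.PLK
import Pool.Agent.H.MP_1b807b_an.HO.SphVol

/-! MP_1b807b_an, balls with holes, module Bm: the Brunn-Minkowski inequality -/

set_option autoImplicit false

namespace Pool.Agent.RH

open MeasureTheory Metric Set Filter Pool.Agent.RG
open scoped ENNReal Pointwise Topology

variable {n : ℕ}

private lemma bm_transfer (f : E n → ℝ≥0∞) (hf : Measurable f) :
    ∫⁻ v : Fin n → ℝ, f (WithLp.toLp 2 v) = ∫⁻ x, f x :=
  (PiLp.volume_preserving_toLp (Fin n)).lintegral_comp hf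

private lemma bm_ind {S : Set (E n)} (hS : MeasurableSet S) :
    ∫⁻ x, S.indicator (fun _ => (1 : ℝ≥0∞)) x = volume S :=
  lintegral_indicator_one hS

private lemma bm_mul {A B C : Set (E n)} (hA : MeasurableSet A) (hB : MeasurableSet B)
    (hC : MeasurableSet C) {a b : ℝ} (ha : 0 < a) (hb : 0 < b) (hab : a + b = 1)
    (h : ∀ x ∈ A, ∀ y ∈ B, a • x + b • y ∈ C) :
    volume A ^ a * volume B ^ b ≤ volume C := by
  have hto : Measurable (WithLp.toLp 2 : (Fin n → ℝ) → E n) :=
    (PiLp.volume_preserving_toLp (Fin n)).measurable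
  have h1 : Measurable (fun _ : E n => (1 : ℝ≥0∞)) := measurable_const
  have hPL := PLK.prekopa_leindler
    (f := fun v : Fin n → ℝ => A.indicator (fun _ => (1 : ℝ≥0∞)) (WithLp.toLp 2 v))
    (g := fun v => B.indicator (fun _ => (1 : ℝ≥0∞)) (WithLp.toLp 2 v))
    (h := fun v => C.indicator (fun _ => (1 : ℝ≥0∞)) (WithLp.toLp 2 v))
    ((h1.indicator hA).comp hto) ((h1.indicator hB).comp hto) ((h1.indicator hC).comp hto)
    (a := a) (b := b) ha hb hab (fun x y => by
      by_cases hx : (WithLp.toLp 2 x : E n) ∈ A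
      · by_cases hy : (WithLp.toLp 2 y : E n) ∈ B
        · have hxy : (WithLp.toLp 2 (a • x + b • y) : E n) =
              a • (WithLp.toLp 2 x : E n) + b • (WithLp.toLp 2 y : E n) := rfl
          have h1 := h _ hx _ hy
          rw [← hxy] at h1
          rw [Set.indicator_of_mem hx, Set.indicator_of_mem hy, Set.indicator_of_mem h1,
            ENNReal.one_rpow, ENNReal.one_rpow, one_mul]
        · rw [Set.indicator_of_notMem hy, ENNReal.zero_rpow_of_pos hb, mul_zero]
          exact zero_le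
      · rw [Set.indicator_of_notMem hx, ENNReal.zero_rpow_of_pos ha, zero_mul]
        exact zero_le)
  rw [bm_transfer _ (h1.indicator hA), bm_transfer _ (h1.indicator hB),
    bm_transfer _ (h1.indicator hC), bm_ind hA, bm_ind hB, bm_ind hC] at hPL
  exact hPL

private lemma bm_scale {A : Set (E n)} {α κ : ℝ} (hα : 0 < α)
    (hvA : volume.real A = om n * κ ^ n) (hfin : volume A ≠ ⊤) :
    volume (α⁻¹ • A) = ENNReal.ofReal (α⁻¹ ^ n * (om n * κ ^ n)) := by
  have h1 : volume A = ENNReal.ofReal (om n * κ ^ n) := by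
    rw [← hvA, measureReal_def, ENNReal.ofReal_toReal hfin]
  rw [Measure.addHaar_smul, finrank_euclideanSpace_fin, h1,
    abs_of_nonneg (by positivity), ← ENNReal.ofReal_mul (by positivity)]

/-- The Brunn-Minkowski inequality in terms of the volume radii.
PROOF: multiplicative form from `PLK.prekopa_leindler` (indicator functions; transfer from `ι → ℝ` to
`E n` by the volume preserving equivalence, `EuclideanSpace.volume_preserving_symm_measurableEquiv_toLp` or
`PiLp.volume_preserving_ofLp`; cf. `plg_transfer` in `Pool/Agent/H/MP_4bcbbd_co/h39f/PLG.lean`):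
`|A'| ^ a' |B'| ^ b' ≤ |C'|` whenever `a' x + b' y ∈ C'` for `x ∈ A'`, `y ∈ B'`. Apply it to
`A' = α⁻¹ • A`, `B' = γ⁻¹ • B` (both of volume `om n`), `κ' = a α + b γ`, `a' = a α / κ'`, `b' = b γ / κ'`,
`C' = κ'⁻¹ • C`: `om n ≤ |C'| = κ'⁻¹ ^ n * om n * κ ^ n`, so `κ' ^ n ≤ κ ^ n`. -/
theorem bm_radii (hn : 2 ≤ n) {A B C : Set (E n)} (hA : MeasurableSet A) (hB : MeasurableSet B)
    (hC : MeasurableSet C) {α γ κ a b : ℝ} (hα : 0 < α) (hγ : 0 < γ) (hκ : 0 ≤ κ) (ha : 0 < a)
    (hb : 0 < b) (hab : a + b = 1) (hvA : volume.real A = om n * α ^ n)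
    (hvB : volume.real B = om n * γ ^ n) (hvC : volume.real C = om n * κ ^ n)
    (hCfin : volume C ≠ ⊤) (h : ∀ x ∈ A, ∀ y ∈ B, a • x + b • y ∈ C) :
    a * α + b * γ ≤ κ := by
  have hom := om_pos n
  have hfA : volume A ≠ ⊤ := fun h0 => by
    rw [measureReal_def, h0, ENNReal.toReal_top] at hvA
    have : 0 < om n * α ^ n := by positivity
    exact absurd hvA this.ne
  have hfB : volume B ≠ ⊤ := fun h0 => by
    rw [measureReal_def, h0, ENNReal.toReal_top] at hvB
    have : 0 < om n * γ ^ n := by positivity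
    exact absurd hvB this.ne
  have hκ' : 0 < a * α + b * γ := by positivity
  have hA' : volume (α⁻¹ • A) = ENNReal.ofReal (om n) := by
    rw [bm_scale hα hvA hfA]
    congr 1
    rw [inv_pow]
    field_simp
  have hB' : volume (γ⁻¹ • B) = ENNReal.ofReal (om n) := by
    rw [bm_scale hγ hvB hfB]
    congr 1
    rw [inv_pow]
    field_simp
  have hC' := bm_scale hκ' hvC hCfin
  have hs : a * α / (a * α + b * γ) + b * γ / (a * α + b * γ) = 1 := by
    rw [← add_div, div_self hκ'.ne']
  have hm := bm_mul (A := α⁻¹ • A) (B := γ⁻¹ • B) (C := (a * α + b * γ)⁻¹ • C)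
    (hA.const_smul₀ _) (hB.const_smul₀ _) (hC.const_smul₀ _)
    (a := a * α / (a * α + b * γ)) (b := b * γ / (a * α + b * γ)) (by positivity) (by positivity) hs
    (by
      rintro _ ⟨x, hx, rfl⟩ _ ⟨y, hy, rfl⟩
      refine ⟨a • x + b • y, h x hx y hy, ?_⟩
      show (a * α + b * γ)⁻¹ • (a • x + b • y) =
        (a * α / (a * α + b * γ)) • (α⁻¹ • x) + (b * γ / (a * α + b * γ)) • (γ⁻¹ • y)
      rw [smul_add, smul_smul, smul_smul, smul_smul, smul_smul]
      congr 2
      · field_simp
      · field_simp)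
  rw [hA', hB', hC', ← ENNReal.rpow_add _ _ (by
      rw [Ne, ENNReal.ofReal_eq_zero, not_le]
      exact hom) ENNReal.ofReal_ne_top, hs, ENNReal.rpow_one,
    ENNReal.ofReal_le_ofReal_iff (by positivity)] at hm
  have h2 : (a * α + b * γ) ^ n ≤ κ ^ n := by
    have h3 : om n * (a * α + b * γ) ^ n ≤ om n * κ ^ n := by
      have h4 := mul_le_mul_of_nonneg_right hm (pow_nonneg hκ'.le n)
      have h5 : (a * α + b * γ)⁻¹ ^ n * (om n * κ ^ n) * (a * α + b * γ) ^ n = om n * κ ^ n := by
        rw [inv_pow]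
        field_simp
      rwa [h5] at h4
    exact le_of_mul_le_mul_left h3 hom
  exact (pow_le_pow_iff_left₀ hκ'.le hκ (by omega)).mp h2

end Pool.Agent.RH
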