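import Mathlib

/-! MP_1b807b_an, balls with holes, module CakeG: a layer cake inequality -/

set_option autoImplicit false

namespace Pool.Agent.RH

open MeasureTheory Set

/-- PROOF: both sides are integrals of nonnegative functions: with `g₊` = `g` on `[0,T]` and `0` outside
(`g ≥ 0` on `[0,T]` as it is antitone there with `g T = 0`). Layer cake
(`lintegral_eq_lintegral_meas_lt` / `Integrable.integral_eq_integral_meas_lt`): left side
`= ∫_{s>0} μ{x | s < g (δ x)} ds`, right side `= ∫_{s>0} ν{t | s < g₊ t} ds` with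
`ν = volume.restrict (Ioc 0 T)` with density `w`. For `s > 0` the set `A = {t ∈ [0,T] | s < g t}` is an
initial interval of `[0,T]`; if it is nonempty let `t₀ = sSup A`: `{x | s < g (δ x)} ⊆ {x | δ x ≤ t₀}`,
so its measure is `≤ ∫_0^{t₀} w = ν (Ioo 0 t₀) ≤ ν A`. -/
theorem cakeG {X : Type*} [MeasurableSpace X] {μ : Measure X} [IsFiniteMeasure μ] {δ : X → ℝ}
    (hδ : Measurable δ) (hδ0 : ∀ x, 0 ≤ δ x) {T : ℝ} (hT : 0 ≤ T) {g w : ℝ → ℝ}
    (hgc : Continuous g) (hg : AntitoneOn g (Icc 0 T)) (hgT : ∀ t, T ≤ t → g t = 0)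
    (hw : Continuous w) (hw0 : ∀ t ∈ Icc 0 T, 0 ≤ w t)
    (hν : ∀ t ∈ Icc 0 T, μ.real {x | δ x ≤ t} ≤ ∫ s in (0 : ℝ)..t, w s) :
    ∫ x, g (δ x) ∂μ ≤ ∫ t in (0 : ℝ)..T, g t * w t := by
  have hg0 : ∀ t, 0 ≤ t → 0 ≤ g t := by
    intro t ht
    rcases le_total t T with h | h
    · have h1 := hg ⟨ht, h⟩ ⟨hT, le_refl T⟩ h
      rw [hgT T le_rfl] at h1
      exact h1
    · rw [hgT t h]
  have hgb : ∀ t, 0 ≤ t → g t ≤ g 0 := by
    intro t ht
    rcases le_total t T with h | h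
    · exact hg ⟨le_refl 0, hT⟩ ⟨ht, h⟩ ht
    · rw [hgT t h]
      exact hg0 0 le_rfl
  have hfm : Measurable (fun x => g (δ x)) := hgc.measurable.comp hδ
  have hfi : Integrable (fun x => g (δ x)) μ := by
    refine Integrable.of_bound hfm.aestronglyMeasurable (g 0) ?_
    refine Filter.Eventually.of_forall fun x => ?_
    rw [Real.norm_of_nonneg (hg0 _ (hδ0 x))]
    exact hgb _ (hδ0 x)
  have hgw0 : ∀ t ∈ Icc 0 T, 0 ≤ g t * w t := fun t ht => mul_nonneg (hg0 t ht.1) (hw0 t ht)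
  have hR0 : 0 ≤ ∫ t in (0 : ℝ)..T, g t * w t := intervalIntegral.integral_nonneg hT hgw0
  rw [← ENNReal.ofReal_le_ofReal_iff hR0, ofReal_integral_eq_lintegral_ofReal hfi
    (Filter.Eventually.of_forall fun x => hg0 _ (hδ0 x)),
    lintegral_eq_lintegral_meas_lt μ (Filter.Eventually.of_forall fun x => hg0 _ (hδ0 x))
      hfm.aemeasurable]
  obtain ⟨ν, hνd⟩ : ∃ ν : Measure ℝ, ν = (volume.restrict (Ioc 0 T)).withDensity
      (fun t => ENNReal.ofReal (w t)) := ⟨_, rfl⟩
  have hwm : Measurable (fun t => ENNReal.ofReal (w t)) := hw.measurable.ennreal_ofReal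
  have hν0 : ∀ᵐ t ∂ν, 0 ≤ g t := by
    rw [hνd]
    have h1 : ∀ᵐ t ∂(volume.restrict (Ioc 0 T)), 0 ≤ g t :=
      (ae_restrict_mem measurableSet_Ioc).mono fun t ht => hg0 t ht.1.le
    exact (withDensity_absolutelyContinuous _ _).ae_le h1
  have hR : ENNReal.ofReal (∫ t in (0 : ℝ)..T, g t * w t) =
      ∫⁻ t, ENNReal.ofReal (g t) ∂ν := by
    have h1 : ∀ᵐ t ∂(volume.restrict (Ioc 0 T)), 0 ≤ g t * w t :=
      (ae_restrict_mem measurableSet_Ioc).mono fun t ht => hgw0 t ⟨ht.1.le, ht.2⟩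
    have h2 : Integrable (fun t => g t * w t) (volume.restrict (Ioc 0 T)) :=
      (hgc.mul hw).integrableOn_Ioc
    rw [intervalIntegral.integral_of_le hT, ofReal_integral_eq_lintegral_ofReal h2 h1, hνd,
      lintegral_withDensity_eq_lintegral_mul _ hwm hgc.measurable.ennreal_ofReal]
    refine setLIntegral_congr_fun measurableSet_Ioc (fun t ht => ?_)
    show ENNReal.ofReal (g t * w t) = ENNReal.ofReal (w t) * ENNReal.ofReal (g t)
    rw [ENNReal.ofReal_mul (hg0 t ht.1.le), mul_comm]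
  rw [hR, lintegral_eq_lintegral_meas_lt ν hν0 hgc.measurable.aemeasurable]
  refine setLIntegral_mono' measurableSet_Ioi (fun s hs => ?_)
  have hs0 : 0 < s := hs
  obtain ⟨A, hA⟩ : ∃ A : Set ℝ, A = {t | t ∈ Icc 0 T ∧ s < g t} := ⟨_, rfl⟩
  have hmem : ∀ x, s < g (δ x) → δ x ∈ A := by
    intro x hx
    rw [hA]
    refine ⟨⟨hδ0 x, ?_⟩, hx⟩
    by_contra h
    rw [hgT _ (not_le.1 h).le] at hx
    exact absurd hx (not_lt.2 hs0.le)
  rcases A.eq_empty_or_nonempty with hAe | hAn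
  · have h1 : {x | s < g (δ x)} = ∅ := by
      rw [Set.eq_empty_iff_forall_notMem]
      intro x hx
      have h2 := hmem x hx
      rw [hAe] at h2
      exact h2
    rw [h1, measure_empty]
    exact bot_le
  · have hbdd : BddAbove A := by
      refine ⟨T, fun t ht => ?_⟩
      rw [hA] at ht
      exact ht.1.2
    obtain ⟨a, ha⟩ := hAn
    have ht0 : sSup A ∈ Icc 0 T := by
      constructor
      · refine le_trans ?_ (le_csSup hbdd ha)
        rw [hA] at ha
        exact ha.1.1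
      · refine csSup_le ⟨a, ha⟩ (fun t ht => ?_)
        rw [hA] at ht
        exact ht.1.2
    have h1 : {x | s < g (δ x)} ⊆ {x | δ x ≤ sSup A} := fun x hx => le_csSup hbdd (hmem x hx)
    have h2 : Ioo 0 (sSup A) ⊆ {t | s < g t} := by
      intro t ht
      obtain ⟨b, hb, htb⟩ := exists_lt_of_lt_csSup ⟨a, ha⟩ ht.2
      rw [hA] at hb
      exact lt_of_lt_of_le hb.2 (hg ⟨ht.1.le, ht.2.le.trans ht0.2⟩ hb.1 htb.le)
    calc μ {x | s < g (δ x)} ≤ μ {x | δ x ≤ sSup A} := measure_mono h1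
      _ = ENNReal.ofReal (μ.real {x | δ x ≤ sSup A}) := (ofReal_measureReal).symm
      _ ≤ ENNReal.ofReal (∫ s in (0 : ℝ)..(sSup A), w s) :=
          ENNReal.ofReal_le_ofReal (hν _ ht0)
      _ = ν (Ioo 0 (sSup A)) := by
          have h3 : ∀ᵐ t ∂(volume.restrict (Ioc 0 (sSup A))), 0 ≤ w t :=
            (ae_restrict_mem measurableSet_Ioc).mono fun t ht =>
              hw0 t ⟨ht.1.le, ht.2.trans ht0.2⟩
          rw [hνd, withDensity_apply _ measurableSet_Ioo,
            Measure.restrict_restrict measurableSet_Ioo,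
            intervalIntegral.integral_of_le ht0.1, ofReal_integral_eq_lintegral_ofReal
              (hw.integrableOn_Ioc) h3]
          have h4 : Ioo 0 (sSup A) ∩ Ioc 0 T = Ioo 0 (sSup A) := by
            rw [Set.inter_eq_left]
            intro t ht
            exact ⟨ht.1, ht.2.le.trans ht0.2⟩
          rw [h4]
          exact setLIntegral_congr Ioo_ae_eq_Ioc.symm
      _ ≤ ν {t | s < g t} := measure_mono h2

end Pool.Agent.RH
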