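import Pool.Agent.H.MP_1b807b_an.HO.Defs
import Pool.Agent.H.MP_1b807b_an.A.Defs

/-! MP_1b807b_an, balls with holes, module Class: the class of domains -/

set_option autoImplicit false

namespace Pool.Agent.RH

open MeasureTheory Metric Set Pool.Agent.RG Pool.Agent.RA

variable {n : ℕ}

/-- `S` is the open ball of centre `x₀` and radius `R` with the `m` pairwise disjoint convex bodies
`K i` (compact convex sets with interior points) removed -/
structure CvxHoles (S : Set (E n)) (x₀ : E n) (R : ℝ) (m : ℕ) (K : Fin m → Set (E n)) : Prop where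
  Rpos : 0 < R
  compact : ∀ i, IsCompact (K i)
  convex : ∀ i, Convex ℝ (K i)
  int : ∀ i, (interior (K i)).Nonempty
  sub : ∀ i, K i ⊆ ball x₀ R
  disj : ∀ i j, i ≠ j → Disjoint (K i) (K j)
  eq : S = ball x₀ R \ ⋃ i, K i

/-- `D` is a ball with finitely many disjoint convex bodies removed -/
def ConvexHoles (D : Domain n) : Prop :=
  ∃ (x₀ : E n) (R : ℝ) (m : ℕ) (K : Fin m → Set (E n)), CvxHoles D.carrier x₀ R m K

/-- `D` together with its holes is a ball, i.e. `D` is a ball with holes (of any shape) -/
def BallWithHoles (D : Domain n) : Prop :=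
  ∃ (x₀ : E n) (R : ℝ), 0 < R ∧ D.carrier ∪ ⋃₀ holes D = ball x₀ R

/-- the planar domains: finitely many rectifiable Jordan boundary curves, and `D` is a disc with holes
of any shape, or the square of the length of the outer boundary is at most `4 π |D|` plus the sum of
the squares of the lengths of the boundaries of the holes -/
def PlanarClass (D : Domain 2) : Prop :=
  Nonempty (JordanBoundary D) ∧
    ((∃ (x₀ : E 2) (R : ℝ), 0 < R ∧ D.carrier ∪ ⋃₀ holes D = ball x₀ R) ∨
      D.surface.real (⋃₀ holes D)ᶜ ^ 2 ≤
        4 * Real.pi * volume.real D.carrier + ∑ᶠ K ∈ holes D, D.surface.real K ^ 2)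

/-- The class of domains: balls with convex holes; in the plane also the domains of
`PlanarClass`. -/
def Cls : (n : ℕ) → Domain n → Prop
  | 2, D => ConvexHoles D ∨ PlanarClass D
  | _, D => ConvexHoles D

/-- `D` has volume `V` and maximises `λ₁(·; α)` in the class -/
def IsMax (n : ℕ) (V α : ℝ) (D : Domain n) : Prop :=
  Cls n D ∧ volume D.carrier = ENNReal.ofReal V ∧
    ∀ D' : Domain n, Cls n D' → volume D'.carrier = ENNReal.ofReal V → D'.robin α ≤ D.robin α

end Pool.Agent.RH
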