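import Pool.Agent.H.MP_1b807b_an.HO.Defs
import Pool.Agent.H.MP_1b807b_an.HO.CakeG

/-! MP_1b807b_an, balls with holes, module CoreA: the energy in a collar -/

set_option autoImplicit false

namespace Pool.Agent.RH

open MeasureTheory Metric Set Filter Pool.Agent.RG
open scoped Topology

variable {n : ℕ}

/-- PROOF: `f t = μ`, `f' t = 0` for `t ≥ T`, so `enr = 0` there; `f t > μ > 0` for `0 ≤ t < T`. -/
theorem enr_nonneg {k μ T : ℝ} {f f' : ℝ → ℝ} (hμ : 0 < μ) (hf : Prof k μ T f f') {t : ℝ}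
    (ht : 0 ≤ t) : 0 ≤ enr k μ f f' t := by
  unfold enr
  rcases lt_or_ge t T with h | h
  · have h1 := hf.gt t ht h
    have h2 : 0 ≤ f t ^ 2 - μ ^ 2 := by nlinarith
    positivity
  · have h1 := hf.tail t h
    rw [h1.1, h1.2]
    simp

theorem enr_pos {k μ T : ℝ} {f f' : ℝ → ℝ} (hμ : 0 < μ) (hk : 0 < k) (hf : Prof k μ T f f') {t : ℝ}
    (ht : 0 ≤ t) (htT : t < T) : 0 < enr k μ f f' t := by
  unfold enr
  have h1 := hf.gt t ht htT
  have h2 : 0 < f t ^ 2 - μ ^ 2 := by nlinarith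
  positivity

/-- PROOF: `f` is differentiable, `f'` continuous. -/
theorem enr_cont {k μ T : ℝ} {f f' : ℝ → ℝ} (hf : Prof k μ T f f') :
    Continuous (enr k μ f f') := by
  have h1 : Continuous f := continuous_iff_continuousAt.2 fun t => (hf.der t).continuousAt
  have h2 := hf.cont
  unfold enr
  fun_prop

/-- PROOF: continuous function on a bounded measurable set. -/
theorem enr_integrable {k μ T : ℝ} {f f' : ℝ → ℝ} (hf : Prof k μ T f f') {D : Set (E n)}
    (hb : Bornology.IsBounded D) (K : Set (E n)) :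
    IntegrableOn (fun x => enr k μ f f' (infDist x K)) D := by
  obtain ⟨r, hr⟩ := hb.subset_closedBall (0 : E n)
  have h1 : Continuous fun x : E n => enr k μ f f' (infDist x K) :=
    (enr_cont hf).comp (continuous_infDist_pt K)
  exact (h1.continuousOn.integrableOn_compact (isCompact_closedBall (0 : E n) r)).mono_set hr

/-- the weight of `collar_hole` -/
private theorem coreA_int_hole (ρ t : ℝ) :
    ∫ s in (0 : ℝ)..t, (n : ℝ) * om n * (ρ + s) ^ (n - 1) = om n * ((ρ + t) ^ n - ρ ^ n) := by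
  have h1 : ∀ s ∈ uIcc (0 : ℝ) t,
      HasDerivAt (fun s : ℝ => om n * (ρ + s) ^ n) ((n : ℝ) * om n * (ρ + s) ^ (n - 1)) s := by
    intro s _
    have h2 : HasDerivAt (fun s : ℝ => ρ + s) 1 s := (hasDerivAt_id s).const_add ρ
    have h3 := (h2.pow n).const_mul (om n)
    refine h3.congr_deriv ?_
    ring
  have h4 : IntervalIntegrable (fun s : ℝ => (n : ℝ) * om n * (ρ + s) ^ (n - 1)) volume 0 t :=
    (by fun_prop : Continuous fun s : ℝ => (n : ℝ) * om n * (ρ + s) ^ (n - 1)).intervalIntegrable _ _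
  rw [intervalIntegral.integral_eq_sub_of_hasDerivAt h1 h4]
  simp only [add_zero]
  ring

/-- the weight of `collar_outer` -/
private theorem coreA_int_outer (r t : ℝ) :
    ∫ s in (0 : ℝ)..t, (n : ℝ) * om n * (r - s) ^ (n - 1) = om n * (r ^ n - (r - t) ^ n) := by
  have h1 : ∀ s ∈ uIcc (0 : ℝ) t,
      HasDerivAt (fun s : ℝ => -(om n * (r - s) ^ n)) ((n : ℝ) * om n * (r - s) ^ (n - 1)) s := by
    intro s _
    have h2 : HasDerivAt (fun s : ℝ => r - s) (-1) s := by
      simpa using (hasDerivAt_id s).const_sub r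
    have h3 := ((h2.pow n).const_mul (om n)).neg
    refine h3.congr_deriv ?_
    ring
  have h4 : IntervalIntegrable (fun s : ℝ => (n : ℝ) * om n * (r - s) ^ (n - 1)) volume 0 t :=
    (by fun_prop : Continuous fun s : ℝ => (n : ℝ) * om n * (r - s) ^ (n - 1)).intervalIntegrable _ _
  rw [intervalIntegral.integral_eq_sub_of_hasDerivAt h1 h4]
  simp only [sub_zero]
  ring

/-- the general collar inequality -/
private theorem coreA_collar {D : Set (E n)} (hb : Bornology.IsBounded D) {K : Set (E n)}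
    {k μ T : ℝ} {f f' : ℝ → ℝ} (hf : Prof k μ T f f') {w : ℝ → ℝ} (hw : Continuous w)
    (hw0 : ∀ t ∈ Icc 0 T, 0 ≤ w t)
    (hc : ∀ t ∈ Icc 0 T, volume.real (D ∩ {x | infDist x K ≤ t}) ≤ ∫ s in (0 : ℝ)..t, w s) :
    ∫ x in D, enr k μ f f' (infDist x K) ≤ ∫ t in (0 : ℝ)..T, enr k μ f f' t * w t := by
  haveI : IsFiniteMeasure (volume.restrict D) := by
    constructor
    rw [Measure.restrict_apply_univ]
    exact hb.measure_lt_top
  refine cakeG (μ := volume.restrict D) (δ := fun x => infDist x K)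
    (continuous_infDist_pt K).measurable (fun x => infDist_nonneg) hf.Tnn (enr_cont hf) hf.anti
    (fun t ht => ?_) hw hw0 (fun t ht => ?_)
  · have h1 := hf.tail t ht
    unfold enr
    rw [h1.1, h1.2]
    simp
  · have hm : MeasurableSet {x : E n | infDist x K ≤ t} :=
      (isClosed_le (continuous_infDist_pt K) continuous_const).measurableSet
    have h2 : (volume.restrict D).real {x : E n | infDist x K ≤ t} =
        volume.real (D ∩ {x | infDist x K ≤ t}) := by
      rw [measureReal_def, measureReal_def, Measure.restrict_apply hm, inter_comm]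
    rw [h2]
    exact hc t ht

/-- PROOF: `cakeG` with the finite measure `volume.restrict D`, `δ = infDist · K`, `g = enr`,
`w t = n * om n * (ρ + t) ^ (n - 1)`: `∫_0^t w = om n * ((ρ + t) ^ n - ρ ^ n)` (`n ≥ 1`).
`{x | δ x ≤ t}` is measurable: `Measure.restrict_apply`. -/
theorem collar_hole (hn : 2 ≤ n) {D : Set (E n)} (hD : MeasurableSet D)
    (hb : Bornology.IsBounded D) {K : Set (E n)} {k μ T ρ : ℝ} {f f' : ℝ → ℝ} (hμ : 0 < μ)
    (hρ : 0 < ρ) (hf : Prof k μ T f f')
    (hc : ∀ t, 0 ≤ t → volume.real (D ∩ {x | infDist x K ≤ t}) ≤ om n * ((ρ + t) ^ n - ρ ^ n)) :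
    ∫ x in D, enr k μ f f' (infDist x K) ≤
      n * om n * ∫ t in (0 : ℝ)..T, enr k μ f f' t * (ρ + t) ^ (n - 1) := by
  have hom : 0 ≤ om n := measureReal_nonneg
  have h := coreA_collar (K := K) hb hf (w := fun t => (n : ℝ) * om n * (ρ + t) ^ (n - 1))
    (by fun_prop) (fun t ht => by have := ht.1; positivity)
    (fun t ht => by
      rw [coreA_int_hole]
      exact hc t ht.1)
  refine h.trans (le_of_eq ?_)
  rw [← intervalIntegral.integral_const_mul]
  congr 1
  funext t
  ring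

/-- PROOF: as `collar_hole`, `w t = n * om n * (r₂ - t) ^ (n - 1)`,
`∫_0^t w = om n * (r₂ ^ n - (r₂ - t) ^ n)`. -/
theorem collar_outer (hn : 2 ≤ n) {D : Set (E n)} (hD : MeasurableSet D)
    (hb : Bornology.IsBounded D) {K : Set (E n)} {k μ T r₂ : ℝ} {f f' : ℝ → ℝ} (hμ : 0 < μ)
    (hT : T ≤ r₂) (hf : Prof k μ T f f')
    (hc : ∀ t ∈ Icc 0 r₂, volume.real (D ∩ {x | infDist x K ≤ t}) ≤
      om n * (r₂ ^ n - (r₂ - t) ^ n)) :
    ∫ x in D, enr k μ f f' (infDist x K) ≤
      n * om n * ∫ t in (0 : ℝ)..T, enr k μ f f' t * (r₂ - t) ^ (n - 1) := by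
  have hom : 0 ≤ om n := measureReal_nonneg
  have h := coreA_collar (K := K) hb hf (w := fun t => (n : ℝ) * om n * (r₂ - t) ^ (n - 1))
    (by fun_prop) (fun t ht => by
      have h1 : 0 ≤ r₂ - t := by linarith [ht.2]
      positivity)
    (fun t ht => by
      rw [coreA_int_outer]
      exact hc t ⟨ht.1, ht.2.trans hT⟩)
  refine h.trans (le_of_eq ?_)
  rw [← intervalIntegral.integral_const_mul]
  congr 1
  funext t
  ring

end Pool.Agent.RH
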