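import Pool.Agent.H.MP_1b807b_an.HO.Zero
import Pool.Agent.H.MP_1b807b_an.Comp

/-! MP_1b807b_an, balls with holes, module HoleA: the profile of a hole in the variable of the shell -/

set_option autoImplicit false

namespace Pool.Agent.RH

open MeasureTheory Set Pool.Agent.H.MP_1b807b_an

/-- the power profile -/
noncomputable def Gs (u : ℝ → ℝ) (rm s x : ℝ) : ℝ := u rm * (u x / u rm) ^ s

/-- PROOF: chain rule, `Real.rpow`, `u > 0` on `[r₁,r₂]`. -/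
theorem Gs_deriv {m : ℕ} {r₁ r₂ β k rm s : ℝ} {u p : ℝ → ℝ} (g : GS m r₁ r₂ β k u p)
    (h2 : rm < r₂) (h1 : r₁ < rm) {x : ℝ} (hx : x ∈ Icc r₁ rm) :
    HasDerivAt (Gs u rm s) (s * (p x / u x) * Gs u rm s x) x := by
  have hx2 : x ∈ Icc r₁ r₂ := ⟨hx.1, hx.2.trans h2.le⟩
  have hu := g.pos x hx2
  have hm := g.pos rm ⟨h1.le, h2.le⟩
  have hq : 0 < u x / u rm := div_pos hu hm
  have hd := (((g.du x hx2).div_const (u rm)).rpow_const (p := s) (Or.inl hq.ne')).const_mul (u rm)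
  refine hd.congr_deriv ?_
  rw [Real.rpow_sub_one hq.ne']
  unfold Gs
  field_simp

/-- PROOF: `u` is strictly decreasing on `[r₁,rm]` (`p < 0`), `Gs rm = u rm * 1 ^ s`. -/
theorem Gs_gt {m : ℕ} {r₁ r₂ β k rm s : ℝ} {u p : ℝ → ℝ} (g : GS m r₁ r₂ β k u p)
    (h1 : r₁ < rm) (h2 : rm < r₂) (hp : ∀ r, r₁ ≤ r → r < rm → p r < 0) (hs : 0 < s) :
    (∀ x, r₁ ≤ x → x < rm → u rm < Gs u rm s x) ∧ Gs u rm s rm = u rm := by
  have hm := g.pos rm ⟨h1.le, h2.le⟩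
  refine ⟨fun x hx hxm => ?_, ?_⟩
  · have hanti : StrictAntiOn u (Icc r₁ rm) := by
      refine strictAntiOn_of_deriv_neg (convex_Icc _ _)
        (g.cu.mono (Icc_subset_Icc_right h2.le)) (fun y hy => ?_)
      rw [interior_Icc] at hy
      rw [(g.du y ⟨hy.1.le, hy.2.le.trans h2.le⟩).deriv]
      exact hp y hy.1.le hy.2
    have h := hanti ⟨hx, hxm.le⟩ (right_mem_Icc.2 h1.le) hxm
    have hq : 1 < u x / u rm := (one_lt_div hm).2 h
    have h3 := Real.one_lt_rpow hq hs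
    unfold Gs
    nlinarith
  · unfold Gs
    rw [div_self hm.ne', Real.one_rpow, mul_one]

theorem Gs_posA {m : ℕ} {r₁ r₂ β k rm s : ℝ} {u p : ℝ → ℝ} (g : GS m r₁ r₂ β k u p)
    (h2 : rm < r₂) (h1 : r₁ < rm) {x : ℝ} (hx : x ∈ Icc r₁ rm) : 0 < Gs u rm s x := by
  have hu := g.pos x ⟨hx.1, hx.2.trans h2.le⟩
  have hm := g.pos rm ⟨h1.le, h2.le⟩
  unfold Gs
  positivity

theorem Gs_ricA {m : ℕ} {r₁ r₂ β k rm : ℝ} {u p : ℝ → ℝ} (g : GS m r₁ r₂ β k u p)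
    (h2 : rm < r₂) {x : ℝ} (hx : x ∈ Ioo r₁ rm) :
    HasDerivAt (fun x => - (p x / u x)) ((p x / u x) ^ 2 - k ^ 2 + (m / x) * (p x / u x)) x := by
  have hx2 : x ∈ Ioo r₁ r₂ := ⟨hx.1, hx.2.trans h2⟩
  have hu := g.pos x (Ioo_subset_Icc_self hx2)
  have hd := ((g.dp x hx2).div (g.du x (Ioo_subset_Icc_self hx2)) hu.ne').neg
  refine hd.congr_deriv ?_
  field_simp
  ring

theorem Gs_sqA {m : ℕ} {r₁ r₂ β k rm : ℝ} {u p : ℝ → ℝ} (hβ : 0 < β) (hk : 0 < k)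
    (h0 : 0 < r₁) (h12 : r₁ < r₂) (g : GS m r₁ r₂ β k u p) (h2 : rm < r₂) {x : ℝ}
    (hx : x ∈ Icc r₁ rm) : (p x / u x) ^ 2 < k ^ 2 := by
  have hx2 : x ∈ Icc r₁ r₂ := ⟨hx.1, hx.2.trans h2.le⟩
  have hu := g.pos x hx2
  have h := g.abs_lt h0 h12 hβ.le (g.beta_lt h0 h12 hβ.le hk) x hx2
  rw [div_pow, div_lt_iff₀ (by positivity)]
  exact h

/-- PROOF: `G = Gs u rm s > 0` is nonincreasing (`G' = s (p / u) G ≤ 0`). With `v = - p / u`: `0 ≤ v` on
`[r₁,rm]`, `v ^ 2 < k ^ 2` (`GS.beta_lt` gives `β < k`, then `GS.abs_lt`), and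
`v' = v ^ 2 - k ^ 2 - (m / x) v ≤ 0` in the interior, so `v` is nonincreasing (`antitoneOn_of_deriv_nonpos`).
So `(p / u) ^ 2 = v ^ 2` is nonincreasing, and the product of nonnegative nonincreasing functions. -/
theorem Gs_anti {m : ℕ} {r₁ r₂ β k rm s : ℝ} {u p : ℝ → ℝ} (hβ : 0 < β) (hk : 0 < k)
    (h0 : 0 < r₁) (h12 : r₁ < r₂) (g : GS m r₁ r₂ β k u p) (h1 : r₁ < rm) (h2 : rm < r₂)
    (hz : p rm = 0) (hp : ∀ r, r₁ ≤ r → r < rm → p r < 0) (hs : 0 < s) :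
    AntitoneOn (fun x => Gs u rm s x ^ 2 * ((p x / u x) ^ 2 + k ^ 2)) (Icc r₁ rm) := by
  have hv : ∀ x ∈ Icc r₁ rm, 0 ≤ - (p x / u x) := by
    intro x hx
    have hu := g.pos x ⟨hx.1, hx.2.trans h2.le⟩
    have hp' : p x ≤ 0 := by
      rcases eq_or_lt_of_le hx.2 with h | h
      · rw [h, hz]
      · exact (hp x hx.1 h).le
    have := div_nonpos_of_nonpos_of_nonneg hp' hu.le
    linarith
  have hG : AntitoneOn (Gs u rm s) (Icc r₁ rm) := by
    refine antitoneOn_of_deriv_nonpos (convex_Icc _ _)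
      (fun x hx => (Gs_deriv g h2 h1 hx).continuousAt.continuousWithinAt)
      (fun x hx => ?_) (fun x hx => ?_)
    · rw [interior_Icc] at hx
      exact (Gs_deriv g h2 h1 (Ioo_subset_Icc_self hx)).differentiableAt.differentiableWithinAt
    · rw [interior_Icc] at hx
      have hx' := Ioo_subset_Icc_self hx
      rw [(Gs_deriv g h2 h1 hx').deriv]
      have h3 := hv x hx'
      have h4 := Gs_posA (s := s) g h2 h1 hx'
      have h5 : 0 ≤ s * (- (p x / u x)) * Gs u rm s x := by positivity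
      nlinarith
  have hV : AntitoneOn (fun x => - (p x / u x)) (Icc r₁ rm) := by
    refine antitoneOn_of_deriv_nonpos (convex_Icc _ _) ?_ (fun x hx => ?_) (fun x hx => ?_)
    · have hs2 : Icc r₁ rm ⊆ Icc r₁ r₂ := Icc_subset_Icc_right h2.le
      exact ((g.cp.mono hs2).div (g.cu.mono hs2) (fun x hx => (g.pos x (hs2 hx)).ne')).neg
    · rw [interior_Icc] at hx
      exact (Gs_ricA g h2 hx).differentiableAt.differentiableWithinAt
    · rw [interior_Icc] at hx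
      have hx' := Ioo_subset_Icc_self hx
      rw [(Gs_ricA g h2 hx).deriv]
      have h3 := hv x hx'
      have h4 := Gs_sqA hβ hk h0 h12 g h2 hx'
      have hx0 : 0 < x := h0.trans hx.1
      have h5 : 0 ≤ (m / x) * (- (p x / u x)) := by positivity
      nlinarith
  intro x hx y hy hxy
  have e1 := hG hx hy hxy
  have e2 := hV hx hy hxy
  have e3 := hv x hx
  have e4 := hv y hy
  have e5 := (Gs_posA (s := s) g h2 h1 hy).le
  simp only at e2 ⊢
  have e6 : Gs u rm s y ^ 2 ≤ Gs u rm s x ^ 2 := pow_le_pow_left₀ e5 e1 2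
  have e7 : (p y / u y) ^ 2 ≤ (p x / u x) ^ 2 := by
    have := pow_le_pow_left₀ e4 e2 2
    simpa using this
  exact mul_le_mul e6 (by linarith) (by positivity) (by positivity)

/-- PROOF: `v = - p / u`, `v r₁ = β` (`GS.left`, `r₁ > 0`), `v rm = 0`. On `(r₁,rm)`:
`(v x ^ m G ^ 2)' = (v ^ 2 - k ^ 2 - 2 s v ^ 2) x ^ m G ^ 2`
(`v' = v ^ 2 - k ^ 2 - (m / x) v`, `(x ^ m)' = (m / x) x ^ m`, `G' = - s v G`), hence by
`intervalIntegral.integral_eq_sub_of_hasDerivAt_of_le`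
`β r₁ ^ m G(r₁) ^ 2 = ∫ (k ^ 2 - v ^ 2 + 2 s v ^ 2) x ^ m G ^ 2`. Subtract:
`β r₁ ^ m G(r₁) ^ 2 - s ∫ x ^ m G ^ 2 (v ^ 2 + k ^ 2) = (1 - s) ∫ x ^ m (k ^ 2 - v ^ 2) G ^ 2`, which is `≥ 0` and
`> 0` if `s < 1` (`GS.abs_lt`). -/
theorem Gs_int {m : ℕ} {r₁ r₂ β k rm s : ℝ} {u p : ℝ → ℝ} (hβ : 0 < β) (hk : 0 < k)
    (h0 : 0 < r₁) (h12 : r₁ < r₂) (g : GS m r₁ r₂ β k u p) (h1 : r₁ < rm) (h2 : rm < r₂)
    (hz : p rm = 0) (hs : 0 < s) (hs1 : s ≤ 1) :
    s * (∫ x in r₁..rm, Gs u rm s x ^ 2 * ((p x / u x) ^ 2 + k ^ 2) * x ^ m) ≤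
        β * (r₁ ^ m * Gs u rm s r₁ ^ 2) ∧
      (s < 1 → s * (∫ x in r₁..rm, Gs u rm s x ^ 2 * ((p x / u x) ^ 2 + k ^ 2) * x ^ m) <
        β * (r₁ ^ m * Gs u rm s r₁ ^ 2)) := by
  have hss : Icc r₁ rm ⊆ Icc r₁ r₂ := Icc_subset_Icc_right h2.le
  have hcu : ContinuousOn u (Icc r₁ rm) := g.cu.mono hss
  have hcp : ContinuousOn p (Icc r₁ rm) := g.cp.mono hss
  have hcq : ContinuousOn (fun x => p x / u x) (Icc r₁ rm) :=
    hcp.div hcu (fun x hx => (g.pos x (hss hx)).ne')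
  have hcG : ContinuousOn (Gs u rm s) (Icc r₁ rm) :=
    fun x hx => (Gs_deriv g h2 h1 hx).continuousAt.continuousWithinAt
  have hcx : ContinuousOn (fun x : ℝ => x ^ m) (Icc r₁ rm) := (continuous_pow m).continuousOn
  -- the primitive
  set W : ℝ → ℝ := fun x => (- (p x / u x)) * (x ^ m * Gs u rm s x ^ 2) with hW
  set W' : ℝ → ℝ := fun x =>
    ((p x / u x) ^ 2 - k ^ 2 - 2 * s * (p x / u x) ^ 2) * (x ^ m * Gs u rm s x ^ 2) with hW'
  have hWc : ContinuousOn W (Icc r₁ rm) := hcq.neg.mul (hcx.mul (hcG.pow 2))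
  have hWd : ∀ x ∈ Ioo r₁ rm, HasDerivAt W (W' x) x := by
    intro x hx
    have hx0 : 0 < x := h0.trans hx.1
    have hd := (Gs_ricA g h2 hx).mul ((hasDerivAt_pow m x).mul
      ((Gs_deriv (s := s) g h2 h1 (Ioo_subset_Icc_self hx)).pow 2))
    refine hd.congr_deriv ?_
    have hxm : (m : ℝ) * x ^ (m - 1) = m / x * x ^ m := by
      rcases Nat.eq_zero_or_pos m with h | h
      · subst h
        simp
      · obtain ⟨j, rfl⟩ : ∃ j, m = j + 1 := ⟨m - 1, by omega⟩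
        rw [Nat.add_sub_cancel, pow_succ]
        field_simp
    simp only [hW', Pi.mul_apply, Pi.pow_apply]
    rw [hxm]
    push_cast
    ring
  have hWi : IntervalIntegrable W' volume r₁ rm := by
    refine ContinuousOn.intervalIntegrable ?_
    rw [uIcc_of_le h1.le]
    exact (((hcq.pow 2).sub continuousOn_const).sub (continuousOn_const.mul (hcq.pow 2))).mul
      (hcx.mul (hcG.pow 2))
  have hI := intervalIntegral.integral_eq_sub_of_hasDerivAt_of_le h1.le hWc hWd hWi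
  have hWm : W rm = 0 := by
    simp only [hW, hz]
    ring
  have hv1 : - (p r₁ / u r₁) = β := by
    have hu := g.pos r₁ (left_mem_Icc.2 h12.le)
    have hl := g.left
    have hr : r₁ ^ m ≠ 0 := (pow_pos h0 m).ne'
    have h3 : p r₁ + β * u r₁ = 0 := by
      rcases mul_eq_zero.1 hl with h | h
      · exact absurd h hr
      · exact h
    have h4 : p r₁ = - β * u r₁ := by linarith
    rw [h4]
    field_simp
  have hW1 : W r₁ = β * (r₁ ^ m * Gs u rm s r₁ ^ 2) := by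
    simp only [hW]
    rw [hv1]
  rw [hWm, hW1, zero_sub] at hI
  -- the difference
  have hI2 : IntervalIntegrable (fun x => Gs u rm s x ^ 2 * ((p x / u x) ^ 2 + k ^ 2) * x ^ m)
      volume r₁ rm := by
    refine ContinuousOn.intervalIntegrable ?_
    rw [uIcc_of_le h1.le]
    exact ((hcG.pow 2).mul ((hcq.pow 2).add continuousOn_const)).mul hcx
  have hcD : ContinuousOn (fun x => (k ^ 2 - (p x / u x) ^ 2) * (x ^ m * Gs u rm s x ^ 2))
      (Icc r₁ rm) := (continuousOn_const.sub (hcq.pow 2)).mul (hcx.mul (hcG.pow 2))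
  have hI3 : IntervalIntegrable (fun x => (k ^ 2 - (p x / u x) ^ 2) * (x ^ m * Gs u rm s x ^ 2))
      volume r₁ rm := by
    refine ContinuousOn.intervalIntegrable ?_
    rw [uIcc_of_le h1.le]
    exact hcD
  have hpos : 0 < ∫ x in r₁..rm, (k ^ 2 - (p x / u x) ^ 2) * (x ^ m * Gs u rm s x ^ 2) := by
    refine intervalIntegral.intervalIntegral_pos_of_pos_on hI3 (fun x hx => ?_) h1
    have hx' := Ioo_subset_Icc_self hx
    have h3 := Gs_sqA hβ hk h0 h12 g h2 hx'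
    have h4 := Gs_posA (s := s) g h2 h1 hx'
    have hx0 : 0 < x := h0.trans hx.1
    have h5 : 0 < k ^ 2 - (p x / u x) ^ 2 := by linarith
    positivity
  have hkey : β * (r₁ ^ m * Gs u rm s r₁ ^ 2) =
      s * (∫ x in r₁..rm, Gs u rm s x ^ 2 * ((p x / u x) ^ 2 + k ^ 2) * x ^ m) +
      (1 - s) * ∫ x in r₁..rm, (k ^ 2 - (p x / u x) ^ 2) * (x ^ m * Gs u rm s x ^ 2) := by
    rw [← intervalIntegral.integral_const_mul, ← intervalIntegral.integral_const_mul,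
      ← intervalIntegral.integral_add (hI2.const_mul s) (hI3.const_mul (1 - s))]
    have h3 : β * (r₁ ^ m * Gs u rm s r₁ ^ 2) = ∫ x in r₁..rm, - W' x := by
      rw [intervalIntegral.integral_neg, hI, neg_neg]
    rw [h3]
    congr 1
    ext x
    simp only [hW']
    ring
  refine ⟨?_, fun hs2 => ?_⟩
  · rw [hkey]
    have : 0 ≤ (1 - s) * ∫ x in r₁..rm, (k ^ 2 - (p x / u x) ^ 2) * (x ^ m * Gs u rm s x ^ 2) :=
      mul_nonneg (by linarith) hpos.le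
    linarith
  · rw [hkey]
    have : 0 < (1 - s) * ∫ x in r₁..rm, (k ^ 2 - (p x / u x) ^ 2) * (x ^ m * Gs u rm s x ^ 2) :=
      mul_pos (by linarith) hpos
    linarith

end Pool.Agent.RH
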