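import Pool.Agent.H.MP_1b807b_an.HO.Ext
import Pool.Agent.H.MP_1b807b_an.HO.HoleA

/-! MP_1b807b_an, balls with holes, module HoleP: the profile of a hole -/

set_option autoImplicit false

namespace Pool.Agent.RH

open MeasureTheory Set Pool.Agent.H.MP_1b807b_an

/-- The profile of a hole of radius `s r₁`, `0 < s ≤ 1`.
PROOF: `μ = u rm`, `F σ = Gs u rm s (r₁ + σ / s)`, `F₁ σ = (p / u)(r₁ + σ / s) * Gs u rm s (r₁ + σ / s)` on
`[0, s (rm - r₁)]` (`Gs_deriv`, chain rule), extended by `ext_prof` (`F₁ = 0` at the end as `p rm = 0`,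
`F = μ` there, `Gs_gt`). On `[0, s (rm - r₁)]`, with `x = r₁ + σ / s`:
`enr = Gs x ^ 2 * ((p x / u x) ^ 2 + k ^ 2) - k ^ 2 μ ^ 2`, antitone by `Gs_anti`. Integral: substitute
`σ = s (x - r₁)`, `s r₁ + σ = s x` (`intervalIntegral.integral_comp_...` or `mul_integral_comp`), so the left side is
`s ^ (m+1) ∫_{r₁}^{rm} (Gs ^ 2 ((p/u) ^ 2 + k ^ 2) - k ^ 2 μ ^ 2) x ^ m dx - β s ^ m r₁ ^ m Gs(r₁) ^ 2`; use `Gs_int`
(times `s ^ m`) and `∫ x ^ m = (rm ^ (m+1) - r₁ ^ (m+1)) / (m+1)` (`integral_pow`). -/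
theorem hole_prof {m : ℕ} (hm : 1 ≤ m) {r₁ r₂ β k rm s : ℝ} {u p : ℝ → ℝ} (hβ : 0 < β) (hk : 0 < k)
    (h0 : 0 < r₁) (h12 : r₁ < r₂) (g : GS m r₁ r₂ β k u p) (h1 : r₁ < rm) (h2 : rm < r₂)
    (hz : p rm = 0) (hp : ∀ r, r₁ ≤ r → r < rm → p r < 0) (hs : 0 < s) (hs1 : s ≤ 1) :
    ∃ f f' : ℝ → ℝ, Prof k (u rm) (s * (rm - r₁)) f f' ∧
      (∫ t in (0 : ℝ)..(s * (rm - r₁)), enr k (u rm) f f' t * (s * r₁ + t) ^ m) -
          β * ((s * r₁) ^ m * f 0 ^ 2) ≤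
        -(k ^ 2 * u rm ^ 2 * (s ^ (m + 1) * (rm ^ (m + 1) - r₁ ^ (m + 1)) / (m + 1))) ∧
      (s < 1 → (∫ t in (0 : ℝ)..(s * (rm - r₁)), enr k (u rm) f f' t * (s * r₁ + t) ^ m) -
          β * ((s * r₁) ^ m * f 0 ^ 2) <
        -(k ^ 2 * u rm ^ 2 * (s ^ (m + 1) * (rm ^ (m + 1) - r₁ ^ (m + 1)) / (m + 1)))) := by
  have hT : 0 ≤ s * (rm - r₁) := mul_nonneg hs.le (sub_nonneg.2 h1.le)
  have hs0 : s ≠ 0 := hs.ne'
  have hmem : ∀ t ∈ Icc 0 (s * (rm - r₁)), r₁ + t / s ∈ Icc r₁ rm := by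
    intro t ht
    have ha : 0 ≤ t / s := div_nonneg ht.1 hs.le
    have hb : t / s ≤ rm - r₁ := by
      rw [div_le_iff₀ hs, mul_comm]
      exact ht.2
    exact ⟨by linarith, by linarith⟩
  have hsub : Icc r₁ rm ⊆ Icc r₁ r₂ := Icc_subset_Icc le_rfl h2.le
  have hcG : ContinuousOn (Gs u rm s) (Icc r₁ rm) := fun x hx =>
    (Gs_deriv g h2 h1 hx).continuousAt.continuousWithinAt
  have hcq : ContinuousOn (fun x => p x / u x) (Icc r₁ rm) :=
    (g.cp.mono hsub).div (g.cu.mono hsub) fun x hx => (g.pos x (hsub hx)).ne'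
  have hcx : ContinuousOn (fun t : ℝ => r₁ + t / s) (Icc 0 (s * (rm - r₁))) := by fun_prop
  have hcF : ContinuousOn (fun t => p (r₁ + t / s) / u (r₁ + t / s) * Gs u rm s (r₁ + t / s))
      (Icc 0 (s * (rm - r₁))) := (hcq.mul hcG).comp hcx hmem
  have hF : ∀ t ∈ Icc 0 (s * (rm - r₁)), HasDerivAt (fun t => Gs u rm s (r₁ + t / s))
      (p (r₁ + t / s) / u (r₁ + t / s) * Gs u rm s (r₁ + t / s)) t := by
    intro t ht
    have hd := Gs_deriv (s := s) g h2 h1 (hmem t ht)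
    have he : HasDerivAt (fun t : ℝ => r₁ + t / s) (1 / s) t :=
      ((hasDerivAt_id t).div_const s).const_add r₁
    refine (hd.comp t he).congr_deriv ?_
    field_simp
  have hend : r₁ + s * (rm - r₁) / s = rm := by
    rw [mul_div_cancel_left₀ _ hs0]
    ring
  obtain ⟨f, f', hd, hc, hb, hin, hout⟩ := ext_prof hT hF hcF (by
    show p (r₁ + s * (rm - r₁) / s) / u (r₁ + s * (rm - r₁) / s) *
      Gs u rm s (r₁ + s * (rm - r₁) / s) = 0
    rw [hend, hz, zero_div, zero_mul])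
  obtain ⟨hGgt, hGe⟩ := Gs_gt (s := s) g h1 h2 hp hs
  have henr : ∀ t ∈ Icc 0 (s * (rm - r₁)), enr k (u rm) f f' t =
      Gs u rm s (r₁ + t / s) ^ 2 * ((p (r₁ + t / s) / u (r₁ + t / s)) ^ 2 + k ^ 2) -
        k ^ 2 * u rm ^ 2 := by
    intro t ht
    unfold enr
    rw [(hin t ht).1, (hin t ht).2]
    ring
  have hprof : Prof k (u rm) (s * (rm - r₁)) f f' := by
    refine ⟨hT, hd, hc, hb, ?_, ?_, ?_⟩
    · intro t ht
      refine ⟨?_, (hout t ht).2⟩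
      rw [(hout t ht).1]
      show Gs u rm s (r₁ + s * (rm - r₁) / s) = u rm
      rw [hend, hGe]
    · intro t ht ht'
      rw [(hin t ⟨ht, ht'.le⟩).1]
      show u rm < Gs u rm s (r₁ + t / s)
      refine hGgt _ (hmem t ⟨ht, ht'.le⟩).1 ?_
      have : t / s < rm - r₁ := by
        rw [div_lt_iff₀ hs, mul_comm]
        exact ht'
      linarith
    · intro a ha b hb' hab
      rw [henr a ha, henr b hb']
      have hab' : r₁ + a / s ≤ r₁ + b / s := by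
        have := div_le_div_of_nonneg_right hab hs.le
        linarith
      have := Gs_anti hβ hk h0 h12 g h1 h2 hz hp hs (hmem a ha) (hmem b hb') hab'
      have e : Gs u rm s (r₁ + b / s) ^ 2 * ((p (r₁ + b / s) / u (r₁ + b / s)) ^ 2 + k ^ 2) ≤
          Gs u rm s (r₁ + a / s) ^ 2 * ((p (r₁ + a / s) / u (r₁ + a / s)) ^ 2 + k ^ 2) := this
      linarith
  have hI : IntervalIntegrable (fun x => Gs u rm s x ^ 2 * ((p x / u x) ^ 2 + k ^ 2) * x ^ m)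
      volume r₁ rm := by
    refine ContinuousOn.intervalIntegrable ?_
    rw [uIcc_of_le h1.le]
    exact ((hcG.pow 2).mul ((hcq.pow 2).add continuousOn_const)).mul (continuousOn_id.pow m)
  have hI2 : IntervalIntegrable (fun x : ℝ => k ^ 2 * u rm ^ 2 * x ^ m) volume r₁ rm := by
    refine Continuous.intervalIntegrable ?_ _ _
    fun_prop
  have hint : (∫ t in (0 : ℝ)..(s * (rm - r₁)), enr k (u rm) f f' t * (s * r₁ + t) ^ m) =
      s ^ (m + 1) * ((∫ x in r₁..rm, Gs u rm s x ^ 2 * ((p x / u x) ^ 2 + k ^ 2) * x ^ m) -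
        k ^ 2 * u rm ^ 2 * ((rm ^ (m + 1) - r₁ ^ (m + 1)) / (m + 1))) := by
    have e1 : (∫ t in (0 : ℝ)..(s * (rm - r₁)), enr k (u rm) f f' t * (s * r₁ + t) ^ m) =
        ∫ t in (0 : ℝ)..(s * (rm - r₁)), (fun x => s ^ m *
          (Gs u rm s x ^ 2 * ((p x / u x) ^ 2 + k ^ 2) * x ^ m - k ^ 2 * u rm ^ 2 * x ^ m))
            (r₁ + t / s) := by
      refine intervalIntegral.integral_congr fun t ht => ?_
      rw [uIcc_of_le hT] at ht
      have e2 : s * r₁ + t = s * (r₁ + t / s) := by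
        field_simp
      show enr k (u rm) f f' t * (s * r₁ + t) ^ m = s ^ m *
        (Gs u rm s (r₁ + t / s) ^ 2 * ((p (r₁ + t / s) / u (r₁ + t / s)) ^ 2 + k ^ 2) *
          (r₁ + t / s) ^ m - k ^ 2 * u rm ^ 2 * (r₁ + t / s) ^ m)
      rw [henr t ht, e2, mul_pow]
      ring
    have e3 := intervalIntegral.integral_comp_add_div (a := 0) (b := s * (rm - r₁)) (fun x => s ^ m *
          (Gs u rm s x ^ 2 * ((p x / u x) ^ 2 + k ^ 2) * x ^ m - k ^ 2 * u rm ^ 2 * x ^ m)) hs0 r₁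
    refine e1.trans (e3.trans ?_)
    rw [zero_div, add_zero, hend,
      intervalIntegral.integral_const_mul, intervalIntegral.integral_sub hI hI2,
      intervalIntegral.integral_const_mul, integral_pow, smul_eq_mul]
    ring
  have h00 : f 0 = Gs u rm s r₁ := by
    rw [(hin 0 ⟨le_rfl, hT⟩).1]
    show Gs u rm s (r₁ + 0 / s) = _
    rw [zero_div, add_zero]
  have hfin : (∫ t in (0 : ℝ)..(s * (rm - r₁)), enr k (u rm) f f' t * (s * r₁ + t) ^ m) -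
      β * ((s * r₁) ^ m * f 0 ^ 2) =
      s ^ m * (s * (∫ x in r₁..rm, Gs u rm s x ^ 2 * ((p x / u x) ^ 2 + k ^ 2) * x ^ m) -
        β * (r₁ ^ m * Gs u rm s r₁ ^ 2)) -
        k ^ 2 * u rm ^ 2 * (s ^ (m + 1) * (rm ^ (m + 1) - r₁ ^ (m + 1)) / (m + 1)) := by
    rw [hint, h00, mul_pow]
    ring
  obtain ⟨i1, i2⟩ := Gs_int hβ hk h0 h12 g h1 h2 hz hs hs1
  refine ⟨f, f', hprof, ?_, fun hlt => ?_⟩
  · rw [hfin]
    have := mul_nonpos_of_nonneg_of_nonpos (pow_nonneg hs.le m) (sub_nonpos.2 i1)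
    linarith
  · rw [hfin]
    have := mul_neg_of_pos_of_neg (pow_pos hs m) (sub_neg.2 (i2 hlt))
    linarith

end Pool.Agent.RH
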