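import Pool.Agent.H.MP_1b807b_an.HO.OuterP
import Pool.Agent.H.MP_1b807b_an.HO.HoleP

/-! MP_1b807b_an, balls with holes, module Pack: the profiles of a ground state -/

set_option autoImplicit false

namespace Pool.Agent.RH

open MeasureTheory Set Pool.Agent.H.MP_1b807b_an

private theorem Pack_cont {k μ T : ℝ} {f f' : ℝ → ℝ} (hf : Prof k μ T f f') :
    Continuous (enr k μ f f') := by
  have h1 : Continuous f := continuous_iff_continuousAt.2 fun t => (hf.der t).continuousAt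
  have h2 := hf.cont
  unfold enr
  fun_prop

private theorem Pack_nn {k μ T : ℝ} {f f' : ℝ → ℝ} (hf : Prof k μ T f f') {t : ℝ}
    (ht : t ∈ Icc 0 T) : 0 ≤ enr k μ f f' t := by
  have h1 := hf.anti ht (right_mem_Icc.2 hf.Tnn) ht.2
  have h2 := hf.tail T le_rfl
  have h3 : enr k μ f f' T = 0 := by
    unfold enr
    rw [h2.1, h2.2]
    ring
  rw [h3] at h1
  exact h1

/-- a larger hole has a smaller value.
PROOF: `ρ ≥ ρ₀ > 0`: `∫ enr (ρ + t) ^ m = ρ ^ m ∫ enr (1 + t / ρ) ^ m ≤ (ρ / ρ₀) ^ m ∫ enr (ρ₀ + t) ^ m`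
(`enr ≥ 0` on `[0,T]`: antitone with value `0` at `T`), so the left side is at most
`(ρ / ρ₀) ^ m * E₀ ≤ E₀` where `E₀ ≤ 0` is the value for `ρ₀`; strict if `E₀ < 0` and `ρ₀ < ρ`. -/
theorem larger_hole {m : ℕ} (hm : 1 ≤ m) {β k μ T ρ₀ ρ E : ℝ} {f f' : ℝ → ℝ} (hf : Prof k μ T f f')
    (hρ₀ : 0 < ρ₀) (hρ : ρ₀ ≤ ρ) (hE : E ≤ 0)
    (h : (∫ t in (0 : ℝ)..T, enr k μ f f' t * (ρ₀ + t) ^ m) - β * (ρ₀ ^ m * f 0 ^ 2) ≤ E) :
    (∫ t in (0 : ℝ)..T, enr k μ f f' t * (ρ + t) ^ m) - β * (ρ ^ m * f 0 ^ 2) ≤ E ∧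
      (E < 0 → ρ₀ < ρ →
        (∫ t in (0 : ℝ)..T, enr k μ f f' t * (ρ + t) ^ m) - β * (ρ ^ m * f 0 ^ 2) < E) := by
  have hc := Pack_cont hf
  have hρ1 : 0 < ρ := hρ₀.trans_le hρ
  have hp0 : 0 < ρ₀ ^ m := pow_pos hρ₀ m
  have hp1 : 0 < ρ ^ m := pow_pos hρ1 m
  have hmono : (∫ t in (0 : ℝ)..T, ρ₀ ^ m * (enr k μ f f' t * (ρ + t) ^ m)) ≤
      ∫ t in (0 : ℝ)..T, ρ ^ m * (enr k μ f f' t * (ρ₀ + t) ^ m) := by
    refine intervalIntegral.integral_mono_on hf.Tnn ?_ ?_ ?_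
    · exact (by fun_prop : Continuous fun t => ρ₀ ^ m * (enr k μ f f' t * (ρ + t) ^ m)).intervalIntegrable _ _
    · exact (by fun_prop : Continuous fun t => ρ ^ m * (enr k μ f f' t * (ρ₀ + t) ^ m)).intervalIntegrable _ _
    · intro t ht
      have h1 := Pack_nn hf ht
      have h2 : (ρ₀ * (ρ + t)) ^ m ≤ (ρ * (ρ₀ + t)) ^ m := by
        refine pow_le_pow_left₀ (mul_nonneg hρ₀.le (add_nonneg hρ1.le ht.1)) ?_ m
        nlinarith [mul_le_mul_of_nonneg_right hρ ht.1]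
      rw [mul_pow, mul_pow] at h2
      nlinarith [mul_le_mul_of_nonneg_left h2 h1]
  rw [intervalIntegral.integral_const_mul, intervalIntegral.integral_const_mul] at hmono
  have hq : ρ₀ ^ m ≤ ρ ^ m := pow_le_pow_left₀ hρ₀.le hρ m
  have key : ρ₀ ^ m * ((∫ t in (0 : ℝ)..T, enr k μ f f' t * (ρ + t) ^ m) - β * (ρ ^ m * f 0 ^ 2)) ≤
      ρ ^ m * E := by
    have h3 := mul_le_mul_of_nonneg_left h hp1.le
    nlinarith
  refine ⟨?_, fun hE' hlt => ?_⟩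
  · have h4 : ρ ^ m * E ≤ ρ₀ ^ m * E := mul_le_mul_of_nonpos_right hq hE
    exact le_of_mul_le_mul_left (key.trans h4) hp0
  · have hq' : ρ₀ ^ m < ρ ^ m := pow_lt_pow_left₀ hlt hρ₀.le (by omega)
    have h4 : ρ ^ m * E < ρ₀ ^ m * E := mul_lt_mul_of_neg_right hq' hE'
    exact lt_of_mul_lt_mul_left (key.trans_lt h4) hp0.le

/-- the constant profile.
PROOF: `f = μ`, `f' = 0`, `enr = 0`. -/
theorem const_prof {k μ : ℝ} : Prof k μ 0 (fun _ => μ) (fun _ => 0) := by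
  refine ⟨le_rfl, fun t => hasDerivAt_const t μ, continuous_const, ⟨0, fun t => by simp⟩,
    fun t _ => ⟨rfl, rfl⟩, fun t h1 h2 => absurd h2 (not_lt.2 h1), ?_⟩
  intro x _ y _ _
  exact le_rfl

/-- PROOF: `exists_zero`, `outer_prof`, `μ = u rm`, `c = (rm ^ (m+1) - r₁ ^ (m+1)) / r₁ ^ (m+1)` (`c = 0` if
`r₁ = 0`, when `rm = 0`). Holes: if `r₁ = 0` the constant profile (`T = 0`: the integral is `0`), the
value is `-β ρ ^ m μ ^ 2 < 0`. If `r₁ > 0`: `s = min (ρ / r₁) 1`, `hole_prof`; if `ρ ≤ r₁` then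
`s r₁ = ρ`; if `ρ > r₁` then `s = 1` and `larger_hole` with `ρ₀ = r₁` (`E < 0` as `rm > r₁`). -/
theorem exists_profiles {m : ℕ} (hm : 1 ≤ m) {r₁ r₂ β k : ℝ} {u p : ℝ → ℝ} (hβ : 0 < β)
    (hk : 0 < k) (h0 : 0 ≤ r₁) (h12 : r₁ < r₂) (g : GS m r₁ r₂ β k u p) :
    ∃ rm μ c : ℝ, r₁ ≤ rm ∧ rm < r₂ ∧ 0 < μ ∧ 0 ≤ c ∧ (0 < r₁ → r₁ < rm) ∧
      c * r₁ ^ (m + 1) = rm ^ (m + 1) - r₁ ^ (m + 1) ∧
      (∃ f f' : ℝ → ℝ, Prof k μ (r₂ - rm) f f' ∧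
        (∫ t in (0 : ℝ)..(r₂ - rm), enr k μ f f' t * (r₂ - t) ^ m) - β * (r₂ ^ m * f 0 ^ 2) ≤
          -(k ^ 2 * μ ^ 2 * ((r₂ ^ (m + 1) - rm ^ (m + 1)) / (m + 1)))) ∧
      ∀ ρ : ℝ, 0 < ρ → ∃ (T : ℝ) (f f' : ℝ → ℝ), Prof k μ T f f' ∧ (ρ = r₁ → T = rm - r₁) ∧
        (∫ t in (0 : ℝ)..T, enr k μ f f' t * (ρ + t) ^ m) - β * (ρ ^ m * f 0 ^ 2) ≤
          -(k ^ 2 * μ ^ 2 * (c * min ρ r₁ ^ (m + 1) / (m + 1))) ∧
        (ρ ≠ r₁ → (∫ t in (0 : ℝ)..T, enr k μ f f' t * (ρ + t) ^ m) - β * (ρ ^ m * f 0 ^ 2) <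
          -(k ^ 2 * μ ^ 2 * (c * min ρ r₁ ^ (m + 1) / (m + 1)))) := by
  obtain ⟨rm, h1, h2, h3, h4, hz, hp, hn⟩ := exists_zero hm hβ hk h0 h12 g
  have hμ : 0 < u rm := g.pos rm ⟨h1, h2.le⟩
  have hpw : r₁ ^ (m + 1) ≤ rm ^ (m + 1) := pow_le_pow_left₀ h0 h1 (m + 1)
  have hc0 : 0 ≤ (rm ^ (m + 1) - r₁ ^ (m + 1)) / r₁ ^ (m + 1) :=
    div_nonneg (sub_nonneg.2 hpw) (pow_nonneg h0 _)
  refine ⟨rm, u rm, (rm ^ (m + 1) - r₁ ^ (m + 1)) / r₁ ^ (m + 1), h1, h2, hμ, hc0, h3, ?_, ?_, ?_⟩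
  · rcases h0.eq_or_lt with h | h
    · have h5 := h4 h.symm
      rw [h5, ← h]
      simp
    · exact div_mul_cancel₀ _ (pow_pos h _).ne'
  · obtain ⟨f, f', hf, he⟩ := outer_prof hm hβ hk h0 h12 g h1 h2 hz hp
    exact ⟨f, f', hf, he.le⟩
  · intro ρ hρ
    rcases h0.eq_or_lt with h | h
    · have h5 := h4 h.symm
      have h6 : 0 < β * (ρ ^ m * u rm ^ 2) := by positivity
      have h7 : (∫ t in (0 : ℝ)..0, enr k (u rm) (fun _ => u rm) (fun _ => 0) t * (ρ + t) ^ m) -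
          β * (ρ ^ m * u rm ^ 2) <
          -(k ^ 2 * u rm ^ 2 * ((rm ^ (m + 1) - r₁ ^ (m + 1)) / r₁ ^ (m + 1) *
            min ρ r₁ ^ (m + 1) / (m + 1))) := by
        rw [intervalIntegral.integral_same, ← h]
        simp only [ne_eq, Nat.add_eq_zero_iff, one_ne_zero, and_false, not_false_eq_true, zero_pow,
          div_zero, zero_mul, zero_div, mul_zero, neg_zero]
        linarith
      exact ⟨0, fun _ => u rm, fun _ => 0, const_prof, fun h8 => by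
        rw [h8, ← h] at hρ
        exact absurd hρ (lt_irrefl _), h7.le, fun _ => h7⟩
    · have h13 := h3 h
      have hr1 : 0 < r₁ ^ (m + 1) := pow_pos h _
      have hm0 : (0 : ℝ) < (m : ℝ) + 1 := by positivity
      rcases le_or_gt ρ r₁ with hle | hgt
      · have hs : 0 < ρ / r₁ := div_pos hρ h
        have hs1 : ρ / r₁ ≤ 1 := (div_le_one h).2 hle
        obtain ⟨f, f', hf, he, hl⟩ := hole_prof hm hβ hk h h12 g h13 h2 hz hn hs hs1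
        have e1 : ρ / r₁ * r₁ = ρ := div_mul_cancel₀ _ h.ne'
        have e2 : (ρ / r₁) ^ (m + 1) * (rm ^ (m + 1) - r₁ ^ (m + 1)) / (m + 1) =
            (rm ^ (m + 1) - r₁ ^ (m + 1)) / r₁ ^ (m + 1) * min ρ r₁ ^ (m + 1) / (m + 1) := by
          rw [min_eq_left hle, div_pow]
          ring
        rw [e1, e2] at he hl
        refine ⟨ρ / r₁ * (rm - r₁), f, f', hf, fun h8 => ?_, he, fun h8 => ?_⟩
        · rw [h8, div_self h.ne', one_mul]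
        · exact hl ((div_lt_one h).2 (lt_of_le_of_ne hle h8))
      · obtain ⟨f, f', hf, he, -⟩ := hole_prof hm hβ hk h h12 g h13 h2 hz hn one_pos le_rfl
        rw [one_mul, one_mul, one_pow, one_mul] at he
        have e2 : (rm ^ (m + 1) - r₁ ^ (m + 1)) / (m + 1) =
            (rm ^ (m + 1) - r₁ ^ (m + 1)) / r₁ ^ (m + 1) * min ρ r₁ ^ (m + 1) / (m + 1) := by
          rw [min_eq_right hgt.le, div_mul_cancel₀ _ hr1.ne']
        rw [e2] at he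
        have hpw' : r₁ ^ (m + 1) < rm ^ (m + 1) := pow_lt_pow_left₀ h13 h.le (by omega)
        have hE : -(k ^ 2 * u rm ^ 2 * ((rm ^ (m + 1) - r₁ ^ (m + 1)) / r₁ ^ (m + 1) *
            min ρ r₁ ^ (m + 1) / (m + 1))) < 0 := by
          rw [← e2]
          have h9 : 0 < rm ^ (m + 1) - r₁ ^ (m + 1) := sub_pos.2 hpw'
          have h10 : 0 < k ^ 2 * u rm ^ 2 * ((rm ^ (m + 1) - r₁ ^ (m + 1)) / (m + 1)) := by
            positivity
          linarith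
        rw [one_mul] at hf
        obtain ⟨h11, h14⟩ := larger_hole hm hf h hgt.le hE.le he
        exact ⟨rm - r₁, f, f', hf, fun _ => rfl, h11, fun _ => h14 hE hgt⟩

end Pool.Agent.RH
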