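import Pool.Agent.H.MP_1b807b_an.HO.MaxTest
import Pool.Agent.H.MP_1b807b_an.HO.CoreA
import Pool.Agent.H.MP_1b807b_an.HO.Pack
import Pool.Agent.H.MP_1b807b_an.HO.SphVol

/-! MP_1b807b_an, balls with holes, module Core: comparison with the radial domain -/

set_option autoImplicit false

namespace Pool.Agent.RH

open MeasureTheory Metric Set Filter Pool.Agent.RG Pool.Agent.H.MP_1b807b_an
open scoped Topology

variable {n : ℕ}

private theorem core_min {ι : Type} [Fintype ι] {ρ : ι → ℝ} {r₁ : ℝ} {N : ℕ} (h0 : 0 ≤ r₁)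
    (hρ : ∀ i, 0 < ρ i) (hsum : r₁ ^ N ≤ ∑ i, ρ i ^ N) : r₁ ^ N ≤ ∑ i, min (ρ i) r₁ ^ N := by
  by_cases h : ∃ i, r₁ ≤ ρ i
  · obtain ⟨i, hi⟩ := h
    have h1 : min (ρ i) r₁ ^ N = r₁ ^ N := by rw [min_eq_right hi]
    rw [← h1]
    exact Finset.single_le_sum (f := fun i => min (ρ i) r₁ ^ N)
      (fun j _ => pow_nonneg (le_min (hρ j).le h0) N) (Finset.mem_univ i)
  · push Not at h
    refine hsum.trans (le_of_eq (Finset.sum_congr rfl fun i _ => ?_))
    rw [min_eq_left (h i).le]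

private theorem core_term {A P I c β f ρm v : ℝ} (hβ : 0 < β) (hc : 0 < c) (hA : A ≤ c * I)
    (hP : c * ρm ≤ P) (hE : I - β * (ρm * f ^ 2) ≤ v) : A - β * (f ^ 2 * P) ≤ c * v := by
  have h1 : c * (I - β * (ρm * f ^ 2)) ≤ c * v := mul_le_mul_of_nonneg_left hE hc.le
  have h2 : β * f ^ 2 * (c * ρm) ≤ β * f ^ 2 * P := mul_le_mul_of_nonneg_left hP (by positivity)
  nlinarith

private theorem core_term_lt {A P I c β f ρm v : ℝ} (hβ : 0 < β) (hc : 0 < c) (hA : A ≤ c * I)
    (hP : c * ρm ≤ P) (hE : I - β * (ρm * f ^ 2) < v) : A - β * (f ^ 2 * P) < c * v := by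
  have h1 : c * (I - β * (ρm * f ^ 2)) < c * v := mul_lt_mul_of_pos_left hE hc
  have h2 : β * f ^ 2 * (c * ρm) ≤ β * f ^ 2 * P := mul_le_mul_of_nonneg_left hP (by positivity)
  nlinarith

private theorem core_strict {D : Domain n} {β k τ : ℝ}
    (h : ∃ c : ℝ, 0 < c ∧ D.robin (-β) ≤ ((-k ^ 2 + τ / c : ℝ) : EReal)) (hτ : τ < 0) :
    D.robin (-β) < ((-k ^ 2 : ℝ) : EReal) := by
  obtain ⟨c, hc, h⟩ := h
  refine h.trans_lt (EReal.coe_lt_coe_iff.2 ?_)
  have := div_neg_of_neg_of_pos hτ hc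
  linarith

private theorem core_weak {D : Domain n} {β k τ : ℝ}
    (h : ∃ c : ℝ, 0 < c ∧ D.robin (-β) ≤ ((-k ^ 2 + τ / c : ℝ) : EReal)) (hτ : τ ≤ 0) :
    D.robin (-β) ≤ ((-k ^ 2 : ℝ) : EReal) := by
  obtain ⟨c, hc, h⟩ := h
  refine h.trans (EReal.coe_le_coe_iff.2 ?_)
  have := div_nonpos_of_nonpos_of_nonneg hτ hc.le
  linarith

/-- The main comparison, with three cases of strict inequality. `S₀` is the unbounded component of the complement, `K i` are the holes.
PROOF: `exists_profiles` (with `m = n - 1`) gives `rm, μ, c`, the outer profile `f₀` and the profiles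
`f i` for `ρ i`. Apply `max_test` with the index type `Option ι` (`none ↦ S₀`, `some i ↦ K i`) and
`e x = ∑` of the energy densities (all `≥ 0` on `[0,∞)`). Each term: `cakeG` with `μ =
volume.restrict D.carrier`, `δ = infDist · (K i)`, `g = enr`, `w t = n om (ρ i + t) ^ (n-1)`
(`∫_0^t w = om ((ρ i + t) ^ n - ρ i ^ n)`), resp. `w t = n om (r₂ - t) ^ (n-1)` for the outer one
(`∫_0^t w = om (r₂ ^ n - (r₂ - t) ^ n)`). The total is at most
`k ^ 2 μ ^ 2 (|D| - om (r₂ ^ n - rm ^ n) - om c ∑ min (ρ i) r₁ ^ n) ≤ 0`, since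
`∑ min (ρ i) r₁ ^ n ≥ r₁ ^ n` and `c r₁ ^ n = rm ^ n - r₁ ^ n`. If some `ρ i ≠ r₁` it is `< 0`; then
`max_test` gives a strict inequality. In the second strict case (`ρ i = r₁` for that `i`, else we are
in the first case; then `0 < r₁ < rm`, `T i = rm - r₁`) take for `e` the maximum of the energy densities
instead of the sum: on the set of positive measure `infDist x S₀ < r₂ - rm`,
`infDist x (K i) < rm - r₁` two densities are `> 0` (`Prof.gt`, `k > 0`), so the maximum is smaller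
than the sum there and `∫ e` is strictly smaller. -/
theorem core_full (hn : 2 ≤ n) (D : Domain n) {β k r₁ r₂ : ℝ} {u p : ℝ → ℝ} (hβ : 0 < β) (hk : 0 < k)
    (h0 : 0 ≤ r₁) (h12 : r₁ < r₂) (g : GS (n - 1) r₁ r₂ β k u p) {S₀ : Set (E n)}
    (hS₀ : IsClosed S₀) (hP₀ : n * om n * r₂ ^ (n - 1) ≤ D.surface.real S₀)
    (hc₀ : ∀ t ∈ Icc 0 r₂, volume.real (D.carrier ∩ {x | infDist x S₀ ≤ t}) ≤
      om n * (r₂ ^ n - (r₂ - t) ^ n))
    {ι : Type} [Fintype ι] (K : ι → Set (E n)) (ρ : ι → ℝ) (hK : ∀ i, IsClosed (K i))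
    (hK0 : ∀ i, Disjoint (K i) S₀) (hKK : ∀ i j, i ≠ j → Disjoint (K i) (K j))
    (hρ : ∀ i, 0 < ρ i) (hP : ∀ i, n * om n * ρ i ^ (n - 1) ≤ D.surface.real (K i))
    (hc : ∀ i, ∀ t, 0 ≤ t → volume.real (D.carrier ∩ {x | infDist x (K i) ≤ t}) ≤
      om n * ((ρ i + t) ^ n - ρ i ^ n))
    (hsum : r₁ ^ n ≤ ∑ i, ρ i ^ n) (hvol : volume.real D.carrier ≤ om n * (r₂ ^ n - r₁ ^ n)) :
    D.robin (-β) ≤ ((-k ^ 2 : ℝ) : EReal) ∧
      ((∃ i, ρ i ≠ r₁) ∨ (∃ i, ∀ r, r₁ < r → r < r₂ →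
        0 < volume (D.carrier ∩ {x | infDist x S₀ < r₂ - r ∧ infDist x (K i) < r - r₁})) ∨
        (0 < r₁ ∧ r₁ ^ n < ∑ i, ρ i ^ n) →
        D.robin (-β) < ((-k ^ 2 : ℝ) : EReal)) := by
  classical
  have hm1 : 1 ≤ n - 1 := by omega
  have hmn : n - 1 + 1 = n := by omega
  have hcast : ((n - 1 : ℕ) : ℝ) + 1 = n := by exact_mod_cast hmn
  have hn0 : (0 : ℝ) < n := by exact_mod_cast (by omega : 0 < n)
  have hom := om_pos n
  have hcn : 0 < (n : ℝ) * om n := by positivity
  have hms : MeasurableSet D.carrier := D.isOpen.measurableSet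
  obtain ⟨rm, μ, c, hrm1, hrm2, hμ, hc0, hrm3, hceq, ⟨f₀, f₀', P₀, E₀⟩, hH⟩ :=
    exists_profiles (m := n - 1) hm1 hβ hk h0 h12 g
  choose Tf ff ff' hPf hTf hEf hSf using fun i => hH (ρ i) (hρ i)
  rw [hmn, hcast] at E₀
  rw [hmn] at hceq
  simp only [hmn, hcast] at hEf hSf
  -- the index type
  let S : Option ι → Set (E n) := fun o => o.elim S₀ K
  let T : Option ι → ℝ := fun o => o.elim (r₂ - rm) Tf
  let f : Option ι → ℝ → ℝ := fun o => o.elim f₀ ff
  let f' : Option ι → ℝ → ℝ := fun o => o.elim f₀' ff'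
  have hS : ∀ o, IsClosed (S o) := fun o => by
    cases o with
    | none => exact hS₀
    | some i => exact hK i
  have hdisj : ∀ o o', o ≠ o' → Disjoint (S o) (S o') := fun o o' hne => by
    cases o with
    | none =>
      cases o' with
      | none => exact absurd rfl hne
      | some j => exact (hK0 j).symm
    | some i =>
      cases o' with
      | none => exact hK0 i
      | some j => exact hKK i j fun h => hne (by rw [h])
  have hprof : ∀ o, Prof k μ (T o) (f o) (f' o) := fun o => by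
    cases o with
    | none => exact P₀
    | some i => exact hPf i
  let en : Option ι → E n → ℝ := fun o x => enr k μ (f o) (f' o) (infDist x (S o))
  have hen0 : ∀ o x, 0 ≤ en o x := fun o x => enr_nonneg hμ (hprof o) infDist_nonneg
  have heni : ∀ o, IntegrableOn (en o) D.carrier := fun o =>
    enr_integrable (hprof o) D.isBounded (S o)
  -- the terms
  have t0 : (∫ x in D.carrier, en none x) - β * (f none 0 ^ 2 * D.surface.real (S none)) ≤
      n * om n * -(k ^ 2 * μ ^ 2 * ((r₂ ^ n - rm ^ n) / n)) :=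
    core_term hβ hcn (collar_outer hn hms D.isBounded hμ (by linarith) P₀ hc₀) hP₀ E₀
  have t1 : ∀ i, (∫ x in D.carrier, en (some i) x) -
      β * (f (some i) 0 ^ 2 * D.surface.real (S (some i))) ≤
      n * om n * -(k ^ 2 * μ ^ 2 * (c * min (ρ i) r₁ ^ n / n)) := fun i =>
    core_term hβ hcn (collar_hole hn hms D.isBounded hμ (hρ i) (hPf i) (hc i)) (hP i) (hEf i)
  have t2 : ∀ i, ρ i ≠ r₁ → (∫ x in D.carrier, en (some i) x) -
      β * (f (some i) 0 ^ 2 * D.surface.real (S (some i))) <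
      n * om n * -(k ^ 2 * μ ^ 2 * (c * min (ρ i) r₁ ^ n / n)) := fun i hi =>
    core_term_lt hβ hcn (collar_hole hn hms D.isBounded hμ (hρ i) (hPf i) (hc i)) (hP i) (hSf i hi)
  -- the sum of the right-hand sides
  have hmin := core_min (N := n) h0 hρ hsum
  have hrhs : k ^ 2 * μ ^ 2 * volume.real D.carrier +
      (n * om n * -(k ^ 2 * μ ^ 2 * ((r₂ ^ n - rm ^ n) / n)) +
        ∑ i, n * om n * -(k ^ 2 * μ ^ 2 * (c * min (ρ i) r₁ ^ n / n))) ≤ 0 := by
    have e1 : ∑ i, n * om n * -(k ^ 2 * μ ^ 2 * (c * min (ρ i) r₁ ^ n / n)) =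
        -(k ^ 2 * μ ^ 2 * om n * (c * ∑ i, min (ρ i) r₁ ^ n)) := by
      rw [Finset.mul_sum, Finset.mul_sum, ← Finset.sum_neg_distrib]
      refine Finset.sum_congr rfl fun i _ => ?_
      field_simp
    have e2 : n * om n * -(k ^ 2 * μ ^ 2 * ((r₂ ^ n - rm ^ n) / n)) =
        -(k ^ 2 * μ ^ 2 * om n * (r₂ ^ n - rm ^ n)) := by
      field_simp
    have e3 : rm ^ n - r₁ ^ n ≤ c * ∑ i, min (ρ i) r₁ ^ n := by
      rw [← hceq]
      exact mul_le_mul_of_nonneg_left hmin hc0
    have e4 : k ^ 2 * μ ^ 2 * volume.real D.carrier ≤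
        k ^ 2 * μ ^ 2 * (om n * (r₂ ^ n - r₁ ^ n)) :=
      mul_le_mul_of_nonneg_left hvol (by positivity)
    have e5 : k ^ 2 * μ ^ 2 * om n * (rm ^ n - r₁ ^ n) ≤
        k ^ 2 * μ ^ 2 * om n * (c * ∑ i, min (ρ i) r₁ ^ n) :=
      mul_le_mul_of_nonneg_left e3 (by positivity)
    rw [e1, e2]
    nlinarith
  -- splitting the sums over the index type
  have hsA : ∑ o, (∫ x in D.carrier, en o x) = (∫ x in D.carrier, en none x) +
      ∑ i, ∫ x in D.carrier, en (some i) x := Fintype.sum_option _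
  have hsP : ∑ o, f o 0 ^ 2 * D.surface.real (S o) = f none 0 ^ 2 * D.surface.real (S none) +
      ∑ i, f (some i) 0 ^ 2 * D.surface.real (S (some i)) := Fintype.sum_option _
  have hsplit : (∑ o, ∫ x in D.carrier, en o x) - β * ∑ o, f o 0 ^ 2 * D.surface.real (S o) =
      ((∫ x in D.carrier, en none x) - β * (f none 0 ^ 2 * D.surface.real (S none))) +
      ∑ i, ((∫ x in D.carrier, en (some i) x) -
        β * (f (some i) 0 ^ 2 * D.surface.real (S (some i)))) := by
    rw [hsA, hsP, Finset.sum_sub_distrib, ← Finset.mul_sum]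
    ring
  have htot : k ^ 2 * μ ^ 2 * volume.real D.carrier + (∑ o, ∫ x in D.carrier, en o x) -
      β * ∑ o, f o 0 ^ 2 * D.surface.real (S o) ≤ 0 := by
    have h1 : ∑ i, ((∫ x in D.carrier, en (some i) x) -
        β * (f (some i) 0 ^ 2 * D.surface.real (S (some i)))) ≤
        ∑ i, n * om n * -(k ^ 2 * μ ^ 2 * (c * min (ρ i) r₁ ^ n / n)) :=
      Finset.sum_le_sum fun i _ => t1 i
    linarith
  have hint : ∫ x in D.carrier, ∑ o, en o x = ∑ o, ∫ x in D.carrier, en o x :=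
    integral_finsetSum _ fun o _ => heni o
  have hle : ∀ x ∈ D.carrier, ∀ o, en o x ≤ ∑ o, en o x := fun x _ o =>
    Finset.single_le_sum (f := fun o => en o x) (fun o _ => hen0 o x) (Finset.mem_univ o)
  have hei : IntegrableOn (fun x => ∑ o, en o x) D.carrier :=
    integrable_finsetSum _ fun o _ => heni o
  have hn' : 0 < n := by omega
  refine ⟨?_, ?_⟩
  · refine core_weak (max_test hn' D hβ hμ S hS hdisj hprof hei hle (τ := 0) ?_) le_rfl
    rw [hint]
    exact htot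
  · -- first strict case
    have hfirst : (∃ i, ρ i ≠ r₁) → D.robin (-β) < ((-k ^ 2 : ℝ) : EReal) := by
      rintro ⟨i, hi⟩
      refine core_strict (max_test hn' D hβ hμ S hS hdisj hprof hei hle le_rfl) ?_
      rw [hint]
      have h1 : ∑ i, ((∫ x in D.carrier, en (some i) x) -
          β * (f (some i) 0 ^ 2 * D.surface.real (S (some i)))) <
          ∑ i, n * om n * -(k ^ 2 * μ ^ 2 * (c * min (ρ i) r₁ ^ n / n)) :=
        Finset.sum_lt_sum (fun i _ => t1 i) ⟨i, Finset.mem_univ i, t2 i hi⟩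
      linarith
    rintro (h | ⟨i, hi⟩ | ⟨hr1, hlt⟩)
    · exact hfirst h
    swap
    · by_cases hall : ∃ i, ρ i ≠ r₁
      · exact hfirst hall
      push Not at hall
      refine core_strict (max_test hn' D hβ hμ S hS hdisj hprof hei hle le_rfl) ?_
      rw [hint]
      have h1 : ∑ i, ((∫ x in D.carrier, en (some i) x) -
          β * (f (some i) 0 ^ 2 * D.surface.real (S (some i)))) ≤
          ∑ i, n * om n * -(k ^ 2 * μ ^ 2 * (c * min (ρ i) r₁ ^ n / n)) :=
        Finset.sum_le_sum fun i _ => t1 i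
      have hcpos : 0 < c := by
        have h2 : r₁ ^ n < rm ^ n := pow_lt_pow_left₀ (hrm3 hr1) h0 (by omega)
        rcases hc0.eq_or_lt with h3 | h3
        · rw [← h3, zero_mul] at hceq
          linarith
        · exact h3
      have e1 : ∑ i, n * om n * -(k ^ 2 * μ ^ 2 * (c * min (ρ i) r₁ ^ n / n)) =
          -(k ^ 2 * μ ^ 2 * om n * (c * ∑ i, ρ i ^ n)) := by
        rw [Finset.mul_sum, Finset.mul_sum, ← Finset.sum_neg_distrib]
        refine Finset.sum_congr rfl fun i _ => ?_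
        rw [hall i, min_self]
        field_simp
      have e2 : n * om n * -(k ^ 2 * μ ^ 2 * ((r₂ ^ n - rm ^ n) / n)) =
          -(k ^ 2 * μ ^ 2 * om n * (r₂ ^ n - rm ^ n)) := by
        field_simp
      have e3 : rm ^ n - r₁ ^ n < c * ∑ i, ρ i ^ n := by
        rw [← hceq]
        exact mul_lt_mul_of_pos_left hlt hcpos
      have e4 : k ^ 2 * μ ^ 2 * volume.real D.carrier ≤
          k ^ 2 * μ ^ 2 * (om n * (r₂ ^ n - r₁ ^ n)) :=
        mul_le_mul_of_nonneg_left hvol (by positivity)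
      have e5 : k ^ 2 * μ ^ 2 * om n * (rm ^ n - r₁ ^ n) <
          k ^ 2 * μ ^ 2 * om n * (c * ∑ i, ρ i ^ n) :=
        mul_lt_mul_of_pos_left e3 (by positivity)
      rw [e1] at h1
      rw [e2] at t0
      nlinarith
    · by_cases hρi : ρ i = r₁
      swap
      · exact hfirst ⟨i, hρi⟩
      have hr1 : 0 < r₁ := hρi ▸ hρ i
      have hT : Tf i = rm - r₁ := hTf i hρi
      have hpos := hi rm (hrm3 hr1) hrm2
      -- the minimum of two densities
      let q : E n → ℝ := fun x => min (en none x) (en (some i) x)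
      have hqi : IntegrableOn q D.carrier := (heni none).inf (heni (some i))
      have hq0 : ∀ x, 0 ≤ q x := fun x => le_min (hen0 none x) (hen0 (some i) x)
      have hqpos : 0 < ∫ x in D.carrier, q x := by
        rw [integral_pos_iff_support_of_nonneg hq0 hqi]
        refine lt_of_lt_of_le hpos ?_
        rw [Measure.restrict_apply' hms]
        refine measure_mono fun x hx => ⟨?_, hx.1⟩
        have h1 : 0 < en none x := enr_pos hμ hk P₀ infDist_nonneg hx.2.1
        have h2 : 0 < en (some i) x := enr_pos hμ hk (hPf i) infDist_nonneg (by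
          rw [hT]
          exact hx.2.2)
        exact (lt_min h1 h2).ne'
      have hle' : ∀ x ∈ D.carrier, ∀ o, en o x ≤ (∑ o, en o x) - q x := fun x _ o => by
        have hs : ∑ o, en o x = en none x + ∑ j, en (some j) x := Fintype.sum_option _
        cases o with
        | none =>
          have h1 : en (some i) x ≤ ∑ j, en (some j) x :=
            Finset.single_le_sum (f := fun j => en (some j) x) (fun j _ => hen0 (some j) x)
              (Finset.mem_univ i)
          have h2 : q x ≤ en (some i) x := min_le_right _ _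
          rw [hs]
          linarith
        | some j =>
          have h1 : en (some j) x ≤ ∑ j, en (some j) x :=
            Finset.single_le_sum (f := fun j => en (some j) x) (fun j _ => hen0 (some j) x)
              (Finset.mem_univ j)
          have h2 : q x ≤ en none x := min_le_left _ _
          rw [hs]
          linarith
      refine core_strict (max_test hn' D hβ hμ S hS hdisj hprof (hei.sub hqi) hle' le_rfl) ?_
      have h3 : ∫ x in D.carrier, ((∑ o, en o x) - q x) =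
          (∫ x in D.carrier, ∑ o, en o x) - ∫ x in D.carrier, q x := integral_sub hei hqi
      have h4 : ∫ x in D.carrier, ((fun x => ∑ o, en o x) - q) x =
          (∫ x in D.carrier, ∑ o, en o x) - ∫ x in D.carrier, q x := h3
      rw [h4, hint]
      linarith

/-- The main comparison. -/
theorem core (hn : 2 ≤ n) (D : Domain n) {β k r₁ r₂ : ℝ} {u p : ℝ → ℝ} (hβ : 0 < β) (hk : 0 < k)
    (h0 : 0 ≤ r₁) (h12 : r₁ < r₂) (g : GS (n - 1) r₁ r₂ β k u p) {S₀ : Set (E n)}
    (hS₀ : IsClosed S₀) (hP₀ : n * om n * r₂ ^ (n - 1) ≤ D.surface.real S₀)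
    (hc₀ : ∀ t ∈ Icc 0 r₂, volume.real (D.carrier ∩ {x | infDist x S₀ ≤ t}) ≤
      om n * (r₂ ^ n - (r₂ - t) ^ n))
    {ι : Type} [Fintype ι] (K : ι → Set (E n)) (ρ : ι → ℝ) (hK : ∀ i, IsClosed (K i))
    (hK0 : ∀ i, Disjoint (K i) S₀) (hKK : ∀ i j, i ≠ j → Disjoint (K i) (K j))
    (hρ : ∀ i, 0 < ρ i) (hP : ∀ i, n * om n * ρ i ^ (n - 1) ≤ D.surface.real (K i))
    (hc : ∀ i, ∀ t, 0 ≤ t → volume.real (D.carrier ∩ {x | infDist x (K i) ≤ t}) ≤
      om n * ((ρ i + t) ^ n - ρ i ^ n))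
    (hsum : r₁ ^ n ≤ ∑ i, ρ i ^ n) (hvol : volume.real D.carrier ≤ om n * (r₂ ^ n - r₁ ^ n)) :
    D.robin (-β) ≤ ((-k ^ 2 : ℝ) : EReal) ∧
      ((∃ i, ρ i ≠ r₁) ∨ (∃ i, ∀ r, r₁ < r → r < r₂ →
        0 < volume (D.carrier ∩ {x | infDist x S₀ < r₂ - r ∧ infDist x (K i) < r - r₁})) →
        D.robin (-β) < ((-k ^ 2 : ℝ) : EReal)) := by
  obtain ⟨h1, h2⟩ := core_full hn D hβ hk h0 h12 g hS₀ hP₀ hc₀ K ρ hK hK0 hKK hρ hP hc hsum hvol
  exact ⟨h1, fun h => h2 (h.elim Or.inl fun h => Or.inr (Or.inl h))⟩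

end Pool.Agent.RH
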