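import Pool.Agent.H.MP_1b807b_an.HO.MaxTest
import Pool.Agent.H.MP_1b807b_an.HO.CoreA
import Pool.Agent.H.MP_1b807b_an.HO.Pack
import Pool.Agent.H.MP_1b807b_an.HO.SphVol

/-! MP_1b807b_an, balls with holes, module CoreW: comparison with the radial domain, weighted holes -/

set_option autoImplicit false

namespace Pool.Agent.RH

open MeasureTheory Metric Set Filter Pool.Agent.RG Pool.Agent.H.MP_1b807b_an
open scoped Topology

variable {n : ℕ}

private theorem corew_min {ι : Type} [Fintype ι] {ρ N : ι → ℝ} {r₁ : ℝ} {M : ℕ} (h0 : 0 ≤ r₁)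
    (hρ : ∀ i, 0 < ρ i) (hN : ∀ i, 1 ≤ N i) (hsum : r₁ ^ M ≤ ∑ i, N i * ρ i ^ M) :
    r₁ ^ M ≤ ∑ i, N i * min (ρ i) r₁ ^ M := by
  have hnn : ∀ j, 0 ≤ N j * min (ρ j) r₁ ^ M := fun j =>
    mul_nonneg (zero_le_one.trans (hN j)) (pow_nonneg (le_min (hρ j).le h0) M)
  by_cases h : ∃ i, r₁ ≤ ρ i
  · obtain ⟨i, hi⟩ := h
    have h1 : r₁ ^ M ≤ N i * min (ρ i) r₁ ^ M := by
      rw [min_eq_right hi]
      exact le_mul_of_one_le_left (pow_nonneg h0 M) (hN i)
    exact h1.trans (Finset.single_le_sum (f := fun i => N i * min (ρ i) r₁ ^ M)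
      (fun j _ => hnn j) (Finset.mem_univ i))
  · push Not at h
    refine hsum.trans (le_of_eq (Finset.sum_congr rfl fun i _ => ?_))
    rw [min_eq_left (h i).le]

private theorem corew_term {A P I c β f ρm v : ℝ} (hβ : 0 < β) (hc : 0 < c) (hA : A ≤ c * I)
    (hP : c * ρm ≤ P) (hE : I - β * (ρm * f ^ 2) ≤ v) : A - β * (f ^ 2 * P) ≤ c * v := by
  have h1 : c * (I - β * (ρm * f ^ 2)) ≤ c * v := mul_le_mul_of_nonneg_left hE hc.le
  have h2 : β * f ^ 2 * (c * ρm) ≤ β * f ^ 2 * P := mul_le_mul_of_nonneg_left hP (by positivity)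
  nlinarith

private theorem corew_term_lt {A P I c β f ρm v : ℝ} (hβ : 0 < β) (hc : 0 < c) (hA : A ≤ c * I)
    (hP : c * ρm ≤ P) (hE : I - β * (ρm * f ^ 2) < v) : A - β * (f ^ 2 * P) < c * v := by
  have h1 : c * (I - β * (ρm * f ^ 2)) < c * v := mul_lt_mul_of_pos_left hE hc
  have h2 : β * f ^ 2 * (c * ρm) ≤ β * f ^ 2 * P := mul_le_mul_of_nonneg_left hP (by positivity)
  nlinarith

/-- the weighted collar inequality -/
private theorem corew_collar {D : Set (E n)} (hb : Bornology.IsBounded D) {K : Set (E n)}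
    {k μ T ρ N : ℝ} {f f' : ℝ → ℝ} (hρ : 0 < ρ) (hN : 0 ≤ N) (hf : Prof k μ T f f')
    (hc : ∀ t, 0 ≤ t → volume.real (D ∩ {x | infDist x K ≤ t}) ≤
      N * (om n * ((ρ + t) ^ n - ρ ^ n))) :
    ∫ x in D, enr k μ f f' (infDist x K) ≤
      N * (n * om n) * ∫ t in (0 : ℝ)..T, enr k μ f f' t * (ρ + t) ^ (n - 1) := by
  have hom : 0 ≤ om n := measureReal_nonneg
  have : IsFiniteMeasure (volume.restrict D) := by
    constructor
    rw [Measure.restrict_apply_univ]
    exact hb.measure_lt_top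
  have hint : ∀ t : ℝ, ∫ s in (0 : ℝ)..t, N * ((n : ℝ) * om n * (ρ + s) ^ (n - 1)) =
      N * (om n * ((ρ + t) ^ n - ρ ^ n)) := by
    intro t
    have h1 : ∀ s ∈ uIcc (0 : ℝ) t, HasDerivAt (fun s : ℝ => N * (om n * (ρ + s) ^ n))
        (N * ((n : ℝ) * om n * (ρ + s) ^ (n - 1))) s := by
      intro s _
      have h2 : HasDerivAt (fun s : ℝ => ρ + s) 1 s := by
        simpa using (hasDerivAt_id s).const_add ρ
      refine (((h2.pow n).const_mul (om n)).const_mul N).congr_deriv ?_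
      ring
    have h4 : IntervalIntegrable (fun s : ℝ => N * ((n : ℝ) * om n * (ρ + s) ^ (n - 1))) volume 0 t :=
      (by fun_prop : Continuous fun s : ℝ =>
        N * ((n : ℝ) * om n * (ρ + s) ^ (n - 1))).intervalIntegrable _ _
    rw [intervalIntegral.integral_eq_sub_of_hasDerivAt h1 h4]
    simp only [add_zero]
    ring
  have h := cakeG (μ := volume.restrict D) (δ := fun x => infDist x K)
    (continuous_infDist_pt K).measurable (fun x => infDist_nonneg) hf.Tnn (enr_cont hf)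
    hf.anti (fun t ht => by
      have h1 := hf.tail t ht
      unfold enr
      rw [h1.1, h1.2]
      simp) (w := fun t => N * ((n : ℝ) * om n * (ρ + t) ^ (n - 1))) (by fun_prop)
    (fun t ht => by
      have h1 : 0 ≤ ρ + t := by linarith [ht.1]
      positivity)
    (fun t ht => by
      have hm : MeasurableSet {x : E n | infDist x K ≤ t} :=
        (isClosed_le (continuous_infDist_pt K) continuous_const).measurableSet
      have h2 : (volume.restrict D).real {x : E n | infDist x K ≤ t} =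
          volume.real (D ∩ {x | infDist x K ≤ t}) := by
        rw [measureReal_def, measureReal_def, Measure.restrict_apply hm, inter_comm]
      rw [h2, hint]
      exact hc t ht.1)
  refine h.trans (le_of_eq ?_)
  rw [← intervalIntegral.integral_const_mul]
  congr 1
  funext t
  ring

private theorem corew_strict {D : Domain n} {β k τ : ℝ}
    (h : ∃ c : ℝ, 0 < c ∧ D.robin (-β) ≤ ((-k ^ 2 + τ / c : ℝ) : EReal)) (hτ : τ < 0) :
    D.robin (-β) < ((-k ^ 2 : ℝ) : EReal) := by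
  obtain ⟨c, hc, h⟩ := h
  refine h.trans_lt (EReal.coe_lt_coe_iff.2 ?_)
  have := div_neg_of_neg_of_pos hτ hc
  linarith

private theorem corew_weak {D : Domain n} {β k τ : ℝ}
    (h : ∃ c : ℝ, 0 < c ∧ D.robin (-β) ≤ ((-k ^ 2 + τ / c : ℝ) : EReal)) (hτ : τ ≤ 0) :
    D.robin (-β) ≤ ((-k ^ 2 : ℝ) : EReal) := by
  obtain ⟨c, hc, h⟩ := h
  refine h.trans (EReal.coe_le_coe_iff.2 ?_)
  have := div_nonpos_of_nonpos_of_nonneg hτ hc.le
  linarith

/-- The main comparison, with weights. `S₀` is the unbounded component of the complement, `K i` are the holes.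
PROOF: `exists_profiles` (with `m = n - 1`) gives `rm, μ, c`, the outer profile `f₀` and the profiles
`f i` for `ρ i`. Apply `max_test` with the index type `Option ι` (`none ↦ S₀`, `some i ↦ K i`) and
`e x = ∑` of the energy densities (all `≥ 0` on `[0,∞)`). Each term: `cakeG` with `μ =
volume.restrict D.carrier`, `δ = infDist · (K i)`, `g = enr`, `w t = n om (ρ i + t) ^ (n-1)`
(`∫_0^t w = om ((ρ i + t) ^ n - ρ i ^ n)`), resp. `w t = n om (r₂ - t) ^ (n-1)` for the outer one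
(`∫_0^t w = om (r₂ ^ n - (r₂ - t) ^ n)`). The total is at most
`k ^ 2 μ ^ 2 (|D| - om (r₂ ^ n - rm ^ n) - om c ∑ min (ρ i) r₁ ^ n) ≤ 0`, since
`∑ min (ρ i) r₁ ^ n ≥ r₁ ^ n` and `c r₁ ^ n = rm ^ n - r₁ ^ n`. If some `ρ i ≠ r₁` it is `< 0`; then
`max_test` gives a strict inequality. In the second strict case (`ρ i = r₁` for that `i`, else we are
in the first case; then `0 < r₁ < rm`, `T i = rm - r₁`) take for `e` the maximum of the energy densities
instead of the sum: on the set of positive measure `infDist x S₀ < r₂ - rm`,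
`infDist x (K i) < rm - r₁` two densities are `> 0` (`Prof.gt`, `k > 0`), so the maximum is smaller
than the sum there and `∫ e` is strictly smaller. -/
theorem core_w (hn : 2 ≤ n) (D : Domain n) {β k r₁ r₂ : ℝ} {u p : ℝ → ℝ} (hβ : 0 < β) (hk : 0 < k)
    (h0 : 0 ≤ r₁) (h12 : r₁ < r₂) (g : GS (n - 1) r₁ r₂ β k u p) {S₀ : Set (E n)}
    (hS₀ : IsClosed S₀) (hP₀ : n * om n * r₂ ^ (n - 1) ≤ D.surface.real S₀)
    (hc₀ : ∀ t ∈ Icc 0 r₂, volume.real (D.carrier ∩ {x | infDist x S₀ ≤ t}) ≤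
      om n * (r₂ ^ n - (r₂ - t) ^ n))
    {ι : Type} [Fintype ι] (K : ι → Set (E n)) (ρ N : ι → ℝ) (hK : ∀ i, IsClosed (K i))
    (hK0 : ∀ i, Disjoint (K i) S₀) (hKK : ∀ i j, i ≠ j → Disjoint (K i) (K j))
    (hρ : ∀ i, 0 < ρ i) (hN : ∀ i, 1 ≤ N i)
    (hP : ∀ i, N i * (n * om n) * ρ i ^ (n - 1) ≤ D.surface.real (K i))
    (hc : ∀ i, ∀ t, 0 ≤ t → volume.real (D.carrier ∩ {x | infDist x (K i) ≤ t}) ≤
      N i * (om n * ((ρ i + t) ^ n - ρ i ^ n)))
    (hsum : r₁ ^ n ≤ ∑ i, N i * ρ i ^ n) (hvol : volume.real D.carrier ≤ om n * (r₂ ^ n - r₁ ^ n)) :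
    D.robin (-β) ≤ ((-k ^ 2 : ℝ) : EReal) ∧
      ((∃ i, ρ i ≠ r₁) → D.robin (-β) < ((-k ^ 2 : ℝ) : EReal)) := by
  classical
  have hm1 : 1 ≤ n - 1 := by omega
  have hmn : n - 1 + 1 = n := by omega
  have hcast : ((n - 1 : ℕ) : ℝ) + 1 = n := by exact_mod_cast hmn
  have hn0 : (0 : ℝ) < n := by exact_mod_cast (by omega : 0 < n)
  have hom := om_pos n
  have hcn : 0 < (n : ℝ) * om n := by positivity
  have hms : MeasurableSet D.carrier := D.isOpen.measurableSet
  obtain ⟨rm, μ, c, hrm1, hrm2, hμ, hc0, hrm3, hceq, ⟨f₀, f₀', P₀, E₀⟩, hH⟩ :=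
    exists_profiles (m := n - 1) hm1 hβ hk h0 h12 g
  choose Tf ff ff' hPf hTf hEf hSf using fun i => hH (ρ i) (hρ i)
  rw [hmn, hcast] at E₀
  rw [hmn] at hceq
  simp only [hmn, hcast] at hEf hSf
  -- the index type
  let S : Option ι → Set (E n) := fun o => o.elim S₀ K
  let T : Option ι → ℝ := fun o => o.elim (r₂ - rm) Tf
  let f : Option ι → ℝ → ℝ := fun o => o.elim f₀ ff
  let f' : Option ι → ℝ → ℝ := fun o => o.elim f₀' ff'
  have hS : ∀ o, IsClosed (S o) := fun o => by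
    cases o with
    | none => exact hS₀
    | some i => exact hK i
  have hdisj : ∀ o o', o ≠ o' → Disjoint (S o) (S o') := fun o o' hne => by
    cases o with
    | none =>
      cases o' with
      | none => exact absurd rfl hne
      | some j => exact (hK0 j).symm
    | some i =>
      cases o' with
      | none => exact hK0 i
      | some j => exact hKK i j fun h => hne (by rw [h])
  have hprof : ∀ o, Prof k μ (T o) (f o) (f' o) := fun o => by
    cases o with
    | none => exact P₀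
    | some i => exact hPf i
  let en : Option ι → E n → ℝ := fun o x => enr k μ (f o) (f' o) (infDist x (S o))
  have hen0 : ∀ o x, 0 ≤ en o x := fun o x => enr_nonneg hμ (hprof o) infDist_nonneg
  have heni : ∀ o, IntegrableOn (en o) D.carrier := fun o =>
    enr_integrable (hprof o) D.isBounded (S o)
  have hN0 : ∀ i, 0 < N i := fun i => zero_lt_one.trans_le (hN i)
  have hNc : ∀ i, 0 < N i * (n * om n) := fun i => mul_pos (hN0 i) hcn
  -- the terms
  have t0 : (∫ x in D.carrier, en none x) - β * (f none 0 ^ 2 * D.surface.real (S none)) ≤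
      n * om n * -(k ^ 2 * μ ^ 2 * ((r₂ ^ n - rm ^ n) / n)) :=
    corew_term hβ hcn (collar_outer hn hms D.isBounded hμ (by linarith) P₀ hc₀) hP₀ E₀
  have t1 : ∀ i, (∫ x in D.carrier, en (some i) x) -
      β * (f (some i) 0 ^ 2 * D.surface.real (S (some i))) ≤
      N i * (n * om n) * -(k ^ 2 * μ ^ 2 * (c * min (ρ i) r₁ ^ n / n)) := fun i =>
    corew_term hβ (hNc i) (corew_collar D.isBounded (hρ i) (hN0 i).le (hPf i) (hc i)) (hP i) (hEf i)
  have t2 : ∀ i, ρ i ≠ r₁ → (∫ x in D.carrier, en (some i) x) -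
      β * (f (some i) 0 ^ 2 * D.surface.real (S (some i))) <
      N i * (n * om n) * -(k ^ 2 * μ ^ 2 * (c * min (ρ i) r₁ ^ n / n)) := fun i hi =>
    corew_term_lt hβ (hNc i) (corew_collar D.isBounded (hρ i) (hN0 i).le (hPf i) (hc i)) (hP i)
      (hSf i hi)
  -- the sum of the right-hand sides
  have hmin := corew_min (M := n) h0 hρ hN hsum
  have hrhs : k ^ 2 * μ ^ 2 * volume.real D.carrier +
      (n * om n * -(k ^ 2 * μ ^ 2 * ((r₂ ^ n - rm ^ n) / n)) +
        ∑ i, N i * (n * om n) * -(k ^ 2 * μ ^ 2 * (c * min (ρ i) r₁ ^ n / n))) ≤ 0 := by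
    have e1 : ∑ i, N i * (n * om n) * -(k ^ 2 * μ ^ 2 * (c * min (ρ i) r₁ ^ n / n)) =
        -(k ^ 2 * μ ^ 2 * om n * (c * ∑ i, N i * min (ρ i) r₁ ^ n)) := by
      rw [Finset.mul_sum, Finset.mul_sum, ← Finset.sum_neg_distrib]
      refine Finset.sum_congr rfl fun i _ => ?_
      field_simp
    have e2 : n * om n * -(k ^ 2 * μ ^ 2 * ((r₂ ^ n - rm ^ n) / n)) =
        -(k ^ 2 * μ ^ 2 * om n * (r₂ ^ n - rm ^ n)) := by
      field_simp
    have e3 : rm ^ n - r₁ ^ n ≤ c * ∑ i, N i * min (ρ i) r₁ ^ n := by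
      rw [← hceq]
      exact mul_le_mul_of_nonneg_left hmin hc0
    have e4 : k ^ 2 * μ ^ 2 * volume.real D.carrier ≤
        k ^ 2 * μ ^ 2 * (om n * (r₂ ^ n - r₁ ^ n)) :=
      mul_le_mul_of_nonneg_left hvol (by positivity)
    have e5 : k ^ 2 * μ ^ 2 * om n * (rm ^ n - r₁ ^ n) ≤
        k ^ 2 * μ ^ 2 * om n * (c * ∑ i, N i * min (ρ i) r₁ ^ n) :=
      mul_le_mul_of_nonneg_left e3 (by positivity)
    rw [e1, e2]
    nlinarith
  -- splitting the sums over the index type
  have hsA : ∑ o, (∫ x in D.carrier, en o x) = (∫ x in D.carrier, en none x) +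
      ∑ i, ∫ x in D.carrier, en (some i) x := Fintype.sum_option _
  have hsP : ∑ o, f o 0 ^ 2 * D.surface.real (S o) = f none 0 ^ 2 * D.surface.real (S none) +
      ∑ i, f (some i) 0 ^ 2 * D.surface.real (S (some i)) := Fintype.sum_option _
  have hsplit : (∑ o, ∫ x in D.carrier, en o x) - β * ∑ o, f o 0 ^ 2 * D.surface.real (S o) =
      ((∫ x in D.carrier, en none x) - β * (f none 0 ^ 2 * D.surface.real (S none))) +
      ∑ i, ((∫ x in D.carrier, en (some i) x) -
        β * (f (some i) 0 ^ 2 * D.surface.real (S (some i)))) := by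
    rw [hsA, hsP, Finset.sum_sub_distrib, ← Finset.mul_sum]
    ring
  have htot : k ^ 2 * μ ^ 2 * volume.real D.carrier + (∑ o, ∫ x in D.carrier, en o x) -
      β * ∑ o, f o 0 ^ 2 * D.surface.real (S o) ≤ 0 := by
    have h1 : ∑ i, ((∫ x in D.carrier, en (some i) x) -
        β * (f (some i) 0 ^ 2 * D.surface.real (S (some i)))) ≤
        ∑ i, N i * (n * om n) * -(k ^ 2 * μ ^ 2 * (c * min (ρ i) r₁ ^ n / n)) :=
      Finset.sum_le_sum fun i _ => t1 i
    linarith
  have hint : ∫ x in D.carrier, ∑ o, en o x = ∑ o, ∫ x in D.carrier, en o x :=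
    integral_finsetSum _ fun o _ => heni o
  have hle : ∀ x ∈ D.carrier, ∀ o, en o x ≤ ∑ o, en o x := fun x _ o =>
    Finset.single_le_sum (f := fun o => en o x) (fun o _ => hen0 o x) (Finset.mem_univ o)
  have hei : IntegrableOn (fun x => ∑ o, en o x) D.carrier :=
    integrable_finsetSum _ fun o _ => heni o
  have hn' : 0 < n := by omega
  refine ⟨?_, ?_⟩
  · refine corew_weak (max_test hn' D hβ hμ S hS hdisj hprof hei hle (τ := 0) ?_) le_rfl
    rw [hint]
    exact htot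
  · -- first strict case
    have hfirst : (∃ i, ρ i ≠ r₁) → D.robin (-β) < ((-k ^ 2 : ℝ) : EReal) := by
      rintro ⟨i, hi⟩
      refine corew_strict (max_test hn' D hβ hμ S hS hdisj hprof hei hle le_rfl) ?_
      rw [hint]
      have h1 : ∑ i, ((∫ x in D.carrier, en (some i) x) -
          β * (f (some i) 0 ^ 2 * D.surface.real (S (some i)))) <
          ∑ i, N i * (n * om n) * -(k ^ 2 * μ ^ 2 * (c * min (ρ i) r₁ ^ n / n)) :=
        Finset.sum_lt_sum (fun i _ => t1 i) ⟨i, Finset.mem_univ i, t2 i hi⟩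
      linarith
    exact hfirst

end Pool.Agent.RH
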