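import Pool.Agent.H.MP_1b807b_an.HO.HoleDiv
import Pool.Agent.H.MP_1b807b_an.G.Mor

/-! MP_1b807b_an, balls with holes, module InnerC: the inner collar of a convex hole -/

set_option autoImplicit false

namespace Pool.Agent.RH

open MeasureTheory Metric Set Filter Pool.Agent.RG
open scoped RealInnerProductSpace Topology NNReal

variable {n : ℕ}

/-- the level sets of `F` are null sets -/
private theorem InnerC_level {F : E n → ℝ} (hL : LipschitzWith 1 F)
    (hg : ∀ x, DifferentiableAt ℝ F x → 1 ≤ ‖fderiv ℝ F x‖) (c : ℝ) :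
    volume {x : E n | F x = c} = 0 := by
  have hm : LipschitzWith 1 (fun x : E n => max 0 (F x - c)) := by
    refine LipschitzWith.of_dist_le_mul fun x y => ?_
    have h1 := hL.dist_le_mul x y
    rw [Real.dist_eq] at h1 ⊢
    refine le_trans ?_ h1
    have h2 : |max 0 (F x - c) - max 0 (F y - c)| ≤ |(F x - c) - (F y - c)| := by
      rw [max_comm 0, max_comm 0]
      exact abs_max_sub_max_le_abs _ _ _
    refine h2.trans (le_of_eq ?_)
    congr 1
    ring
  have h1 : ∀ᵐ x : E n, DifferentiableAt ℝ F x := hL.ae_differentiableAt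
  have h2 : ∀ᵐ x : E n, DifferentiableAt ℝ (fun x : E n => max 0 (F x - c)) x :=
    hm.ae_differentiableAt
  have h3 : ∀ᵐ x : E n, ¬ F x = c := by
    filter_upwards [h1, h2] with x hx1 hx2 hc
    have hmin : IsLocalMin (fun x : E n => max 0 (F x - c)) x := by
      refine Eventually.of_forall fun y => ?_
      show max 0 (F x - c) ≤ max 0 (F y - c)
      rw [hc, sub_self, max_self]
      exact le_max_left _ _
    have hd1 : HasFDerivAt (fun x : E n => max 0 (F x - c)) (0 : E n →L[ℝ] ℝ) x := by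
      have h4 := hx2.hasFDerivAt
      rwa [hmin.fderiv_eq_zero] at h4
    have hd2 : HasFDerivAt (fun y : E n => max 0 (F y - c) - (F y - c))
        ((0 : E n →L[ℝ] ℝ) - fderiv ℝ F x) x := hd1.sub (hx1.hasFDerivAt.sub_const c)
    have hmin2 : IsLocalMin (fun y : E n => max 0 (F y - c) - (F y - c)) x := by
      refine Eventually.of_forall fun y => ?_
      show max 0 (F x - c) - (F x - c) ≤ max 0 (F y - c) - (F y - c)
      rw [hc, sub_self, max_self, sub_self]
      exact sub_nonneg.2 (le_max_right _ _)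
    have h5 := hmin2.hasFDerivAt_eq_zero hd2
    rw [zero_sub, neg_eq_zero] at h5
    have h6 := hg x hx1
    rw [h5, norm_zero] at h6
    linarith
  exact ae_iff.1 (h3.mono fun x hx h => hx h) |> fun h => by simpa using h

/-- the derivative of a monotone map has a nonnegative trace -/
private theorem InnerC_mono {N : E n → E n} (hN : ∀ x y, 0 ≤ ⟪N x - N y, x - y⟫) {x : E n}
    (hx : DifferentiableAt ℝ N x) : 0 ≤ tr (fderiv ℝ N x) := by
  unfold tr
  refine Finset.sum_nonneg fun i _ => ?_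
  obtain ⟨v, hv⟩ : ∃ v : E n, v = EuclideanSpace.single i 1 := ⟨_, rfl⟩
  have h1 : (fderiv ℝ N x (EuclideanSpace.single i 1)) i = ⟪v, fderiv ℝ N x v⟫ := by
    rw [hv, EuclideanSpace.inner_single_left]
    simp
  rw [h1]
  have h3 : HasDerivAt (fun t : ℝ => x + t • v) v 0 := by
    simpa using ((hasDerivAt_id (0 : ℝ)).smul_const v).const_add x
  have h4 : HasFDerivAt N (fderiv ℝ N x) (x + (0 : ℝ) • v) := by
    simpa using hx.hasFDerivAt
  have h5 : HasDerivAt (fun t : ℝ => N (x + t • v)) (fderiv ℝ N x v) 0 :=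
    h4.comp_hasDerivAt (0 : ℝ) h3
  have h2 : HasDerivAt (fun t : ℝ => ⟪v, N (x + t • v)⟫) ⟪v, fderiv ℝ N x v⟫ 0 :=
    (innerSL ℝ v).hasFDerivAt.comp_hasDerivAt (0 : ℝ) h5
  refine h2.nonneg_of_monotone ?_
  intro a b hab
  rcases eq_or_lt_of_le hab with h | h
  · rw [h]
  · have h6 := hN (x + b • v) (x + a • v)
    have h7 : x + b • v - (x + a • v) = (b - a) • v := by rw [sub_smul]; abel
    rw [h7, real_inner_smul_right] at h6
    have h8 : 0 ≤ ⟪N (x + b • v) - N (x + a • v), v⟫ :=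
      nonneg_of_mul_nonneg_right h6 (by linarith)
    rw [real_inner_comm, inner_sub_right] at h8
    show ⟪v, N (x + a • v)⟫ ≤ ⟪v, N (x + b • v)⟫
    linarith

/-- the scaled displacement of the proximal map -/
private theorem InnerC_prox {u : E n → ℝ} (hc : ConvexOn ℝ univ u)
    (hu : ∀ x y, |u x - u y| ≤ ‖x - y‖) {k : ℝ} (hk : 0 < k) :
    ∃ N : E n → E n, (∀ x, ‖N x‖ ≤ 1) ∧
      (∀ x y, ‖N x - N y‖ ^ 2 ≤ k * ⟪N x - N y, x - y⟫) ∧
      ∀ x z, u x - 1 / k + ⟪N x, z - x⟫ ≤ u z := by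
  have hu1 : ∀ x y, |u x - u y| ≤ 1 * ‖x - y‖ := fun x y => by rw [one_mul]; exact hu x y
  choose Y hY using fun x : E n => exists_prox zero_le_one hk hu1 x
  refine ⟨fun x => k • (x - Y x), fun x => (hY x).norm_le zero_le_one hk hc hu1,
    fun x y => (hY x).firm hk hc (hY y), fun x z => ?_⟩
  have h1 := (hY x).subgrad hk hc z
  have h2 := (hY x).norm_le zero_le_one hk hc hu1
  have h3 : ⟪k • (x - Y x), z - Y x⟫ = ⟪k • (x - Y x), z - x⟫ + ⟪k • (x - Y x), x - Y x⟫ := by
    rw [← inner_add_right]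
    congr 1
    abel
  have h4 : 0 ≤ ⟪k • (x - Y x), x - Y x⟫ := by
    rw [real_inner_smul_left, real_inner_self_eq_norm_sq]
    positivity
  have h5 : ‖x - Y x‖ ≤ 1 / k := by
    rw [norm_smul, Real.norm_of_nonneg hk.le] at h2
    rw [le_div_iff₀ hk]
    linarith
  have h6 := (abs_le.1 (hu x (Y x))).2
  show u x - 1 / k + ⟪k • (x - Y x), z - x⟫ ≤ u z
  linarith

/-- the cutoff function of the value of `F` -/
private noncomputable def InnerC_chi (s t : ℝ) : ℝ := min 1 (max 0 (1 - t / s))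

private theorem InnerC_chi_nonneg (s t : ℝ) : 0 ≤ InnerC_chi s t :=
  le_min zero_le_one (le_max_left _ _)

private theorem InnerC_chi_le (s t : ℝ) : InnerC_chi s t ≤ 1 := min_le_left _ _

private theorem InnerC_chi_mid {s t : ℝ} (hs : 0 < s) (h0 : 0 < t) (h1 : t < s) :
    InnerC_chi s t = 1 - t / s := by
  unfold InnerC_chi
  have h2 : t / s < 1 := (div_lt_one hs).2 h1
  have h3 : 0 < t / s := div_pos h0 hs
  rw [max_eq_right (by linarith), min_eq_right (by linarith)]

private theorem InnerC_chi_zero {s t : ℝ} (hs : 0 < s) (h1 : s ≤ t) : InnerC_chi s t = 0 := by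
  unfold InnerC_chi
  have h2 : 1 ≤ t / s := (one_le_div hs).2 h1
  rw [max_eq_left (by linarith), min_eq_right zero_le_one]

private theorem InnerC_chi_sub {s : ℝ} (hs : 0 < s) (t t' : ℝ) :
    |InnerC_chi s t - InnerC_chi s t'| ≤ 1 / s * |t - t'| := by
  unfold InnerC_chi
  have h1 := abs_min_sub_min_le_max 1 (max 0 (1 - t / s)) 1 (max 0 (1 - t' / s))
  rw [sub_self, abs_zero,
    max_eq_right (abs_nonneg (max 0 (1 - t / s) - max 0 (1 - t' / s)))] at h1
  have h2 : |max 0 (1 - t / s) - max 0 (1 - t' / s)| ≤ |(1 - t / s) - (1 - t' / s)| := by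
    rw [max_comm 0, max_comm 0]
    exact abs_max_sub_max_le_abs _ _ _
  refine h1.trans (h2.trans (le_of_eq ?_))
  have h3 : 1 - t / s - (1 - t' / s) = -(1 / s * (t - t')) := by ring
  rw [h3, abs_neg, abs_mul, abs_of_pos (by positivity : 0 < 1 / s)]

/-- the field -/
private noncomputable def InnerC_T (s : ℝ) (F : E n → ℝ) (N : E n → E n) (x : E n) : E n :=
  InnerC_chi s (F x) • N x

private theorem InnerC_T_norm {s : ℝ} {F : E n → ℝ} {N : E n → E n} (hN : ∀ x, ‖N x‖ ≤ 1)
    (x : E n) : ‖InnerC_T s F N x‖ ≤ 1 := by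
  unfold InnerC_T
  rw [norm_smul, Real.norm_of_nonneg (InnerC_chi_nonneg _ _)]
  exact (mul_le_of_le_one_left (norm_nonneg _) (InnerC_chi_le _ _)).trans (hN x)

private theorem InnerC_T_lip {s : ℝ} (hs : 0 < s) {F : E n → ℝ} {N : E n → E n}
    (hL : ∀ x y, |F x - F y| ≤ ‖x - y‖) (hN : ∀ x, ‖N x‖ ≤ 1) {k : ℝ} (hk : 0 < k)
    (hNk : ∀ x y, ‖N x - N y‖ ≤ k * ‖x - y‖) :
    LipschitzWith (Real.toNNReal (1 / s + k)) (InnerC_T s F N) := by
  refine LipschitzWith.of_dist_le_mul fun x y => ?_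
  rw [Real.coe_toNNReal _ (by positivity), dist_eq_norm, dist_eq_norm]
  unfold InnerC_T
  have h1 : InnerC_chi s (F x) • N x - InnerC_chi s (F y) • N y =
      (InnerC_chi s (F x) - InnerC_chi s (F y)) • N x + InnerC_chi s (F y) • (N x - N y) := by
    rw [sub_smul, smul_sub]; abel
  rw [h1]
  refine (norm_add_le _ _).trans ?_
  rw [norm_smul, norm_smul, Real.norm_eq_abs, Real.norm_of_nonneg (InnerC_chi_nonneg _ _),
    add_mul]
  have h2 : |InnerC_chi s (F x) - InnerC_chi s (F y)| * ‖N x‖ ≤ 1 / s * ‖x - y‖ * 1 := by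
    refine mul_le_mul ((InnerC_chi_sub hs _ _).trans ?_) (hN x) (norm_nonneg _) (by positivity)
    exact mul_le_mul_of_nonneg_left (hL x y) (by positivity)
  have h3 : InnerC_chi s (F y) * ‖N x - N y‖ ≤ k * ‖x - y‖ :=
    (mul_le_of_le_one_left (norm_nonneg _) (InnerC_chi_le _ _)).trans (hNk x y)
  linarith

private theorem InnerC_tr_add (A B : E n →L[ℝ] E n) : tr (A + B) = tr A + tr B := by
  unfold tr
  rw [← Finset.sum_add_distrib]
  rfl

private theorem InnerC_tr_smul (c : ℝ) (A : E n →L[ℝ] E n) : tr (c • A) = c * tr A := by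
  unfold tr
  rw [Finset.mul_sum]
  rfl

private theorem InnerC_tr_zero : tr (0 : E n →L[ℝ] E n) = 0 := by
  unfold tr
  simp

private theorem InnerC_tr_smulRight (L : E n →L[ℝ] ℝ) (v : E n) : tr (L.smulRight v) = L v := by
  unfold tr
  have h1 : v = ∑ i : Fin n, v i • EuclideanSpace.single i (1 : ℝ) := by
    ext j
    simp [Finset.sum_apply, Pi.single_apply]
  calc ∑ i : Fin n, (L.smulRight v (EuclideanSpace.single i 1)) i
      = ∑ i : Fin n, v i * L (EuclideanSpace.single i 1) := by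
        refine Finset.sum_congr rfl (fun i _ => ?_)
        simp [ContinuousLinearMap.smulRight_apply, mul_comm]
    _ = L (∑ i : Fin n, v i • EuclideanSpace.single i (1 : ℝ)) := by
        rw [map_sum]
        refine Finset.sum_congr rfl (fun i _ => ?_)
        rw [map_smul, smul_eq_mul]
    _ = L v := by rw [← h1]

private theorem InnerC_tr_cont : Continuous (tr : (E n →L[ℝ] E n) → ℝ) := by
  unfold tr
  refine continuous_finsetSum _ fun i _ => ?_
  have h1 : Continuous fun A : E n →L[ℝ] E n => A (EuclideanSpace.single i 1) :=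
    continuous_id.clm_apply continuous_const
  exact (EuclideanSpace.proj (𝕜 := ℝ) i).continuous.comp h1

private theorem InnerC_int {C : ℝ≥0} {Y : E n → E n} (hY : LipschitzWith C Y) {S : Set (E n)}
    (hS : Bornology.IsBounded S) : IntegrableOn (fun x => tr (fderiv ℝ Y x)) S := by
  have : IsFiniteMeasure (volume.restrict S) :=
    ⟨by rw [Measure.restrict_apply_univ]; exact hS.measure_lt_top⟩
  have hcomp : IsCompact (closedBall (0 : E n →L[ℝ] E n) C) := isCompact_closedBall _ _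
  obtain ⟨B, hB⟩ := hcomp.exists_bound_of_continuousOn
    (InnerC_tr_cont (n := n)).continuousOn
  refine Integrable.of_bound ?_ B (Eventually.of_forall fun x => ?_)
  · exact ((InnerC_tr_cont (n := n)).measurable.comp (measurable_fderiv ℝ Y)).aestronglyMeasurable
  · apply hB
    rw [mem_closedBall, dist_zero_right]
    exact norm_fderiv_le_of_lipschitz ℝ hY

/-- the divergence of the field in the layer -/
private theorem InnerC_div {s : ℝ} (hs : 0 < s) {F : E n → ℝ} {N : E n → E n}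
    (hmono : ∀ x y, 0 ≤ ⟪N x - N y, x - y⟫) (hFc : Continuous F) {x : E n}
    (hxF : DifferentiableAt ℝ F x) (hxN : DifferentiableAt ℝ N x) (h0 : 0 < F x) (h1 : F x < s) :
    1 / s * (fderiv ℝ (fun y => - F y) x) (N x) ≤ tr (fderiv ℝ (InnerC_T s F N) x) := by
  have hop : IsOpen {y : E n | 0 < F y ∧ F y < s} :=
    (isOpen_lt continuous_const hFc).inter (isOpen_lt hFc continuous_const)
  have hev : InnerC_T s F N =ᶠ[𝓝 x] fun y => (1 - F y / s) • N y := by
    filter_upwards [hop.mem_nhds ⟨h0, h1⟩] with y hy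
    unfold InnerC_T
    rw [InnerC_chi_mid hs hy.1 hy.2]
  have hd1 : HasFDerivAt (fun y => 1 - F y / s) (-(1 / s) • fderiv ℝ F x) x := by
    have h2 := (hxF.hasFDerivAt.const_mul (1 / s)).const_sub 1
    rw [neg_smul]
    refine h2.congr_of_eventuallyEq (Eventually.of_forall fun y => ?_)
    show 1 - F y / s = 1 - 1 / s * F y
    ring
  have hd2 := (hd1.smul hxN.hasFDerivAt).fderiv
  have hd3 : fderiv ℝ (fun y => (1 - F y / s) • N y) x =
      (1 - F x / s) • fderiv ℝ N x + (-(1 / s) • fderiv ℝ F x).smulRight (N x) := hd2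
  rw [hev.fderiv_eq, hd3, InnerC_tr_add, InnerC_tr_smul, InnerC_tr_smulRight]
  have h3 : (fderiv ℝ (fun y => - F y) x) (N x) = - (fderiv ℝ F x (N x)) := by
    rw [fderiv_fun_neg]
    rfl
  have h4 : (-(1 / s) • fderiv ℝ F x) (N x) = -(1 / s) * fderiv ℝ F x (N x) := rfl
  rw [h3, h4]
  have h5 : 0 ≤ (1 - F x / s) * tr (fderiv ℝ N x) := by
    refine mul_nonneg ?_ (InnerC_mono hmono hxN)
    have := (div_lt_one hs).2 h1
    linarith
  linarith

private theorem InnerC_div_zero {s : ℝ} (hs : 0 < s) {F : E n → ℝ} {N : E n → E n}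
    (hFc : Continuous F) {x : E n} (h1 : s < F x) : tr (fderiv ℝ (InnerC_T s F N) x) = 0 := by
  have hop : IsOpen {y : E n | s < F y} := isOpen_lt continuous_const hFc
  have hev : InnerC_T s F N =ᶠ[𝓝 x] fun _ => 0 := by
    filter_upwards [hop.mem_nhds h1] with y hy
    unfold InnerC_T
    rw [InnerC_chi_zero hs (le_of_lt hy), zero_smul]
  rw [hev.fderiv_eq, fderiv_const_apply, InnerC_tr_zero]

private theorem InnerC_pair_meas {u : E n → ℝ} {N : E n → E n} (hN : Continuous N) :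
    Measurable fun x => (fderiv ℝ u x) (N x) :=
  (isBoundedBilinearMap_apply (𝕜 := ℝ) (E := E n) (F := ℝ)).continuous.measurable.comp
    ((measurable_fderiv ℝ u).prodMk hN.measurable)

private theorem InnerC_pair_le {u : E n → ℝ} (hu : LipschitzWith 1 u) {N : E n → E n}
    (hN : ∀ x, ‖N x‖ ≤ 1) (x : E n) : ‖(fderiv ℝ u x) (N x)‖ ≤ 1 := by
  have h1 : ‖fderiv ℝ u x‖ ≤ 1 := by
    have h := norm_fderiv_le_of_lipschitz ℝ hu (x₀ := x)
    rwa [NNReal.coe_one] at h
  calc ‖(fderiv ℝ u x) (N x)‖ ≤ ‖fderiv ℝ u x‖ * ‖N x‖ := (fderiv ℝ u x).le_opNorm _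
    _ ≤ 1 * 1 := mul_le_mul h1 (hN x) (norm_nonneg _) zero_le_one
    _ = 1 := one_mul 1

private theorem InnerC_lip {F : E n → ℝ} (hL : ∀ x y, |F x - F y| ≤ ‖x - y‖) :
    LipschitzWith 1 F := by
  refine LipschitzWith.of_dist_le_mul fun x y => ?_
  rw [NNReal.coe_one, one_mul, Real.dist_eq, dist_eq_norm]
  exact hL x y

private theorem InnerC_neg {F : E n → ℝ} (hL : ∀ x y, |F x - F y| ≤ ‖x - y‖) (x y : E n) :
    |(- F x) - (- F y)| ≤ ‖x - y‖ := by
  have h : (- F x) - (- F y) = -(F x - F y) := by ring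
  rw [h, abs_neg]
  exact hL x y

/-- the inequality for one proximal map -/
private theorem InnerC_step (hn : 2 ≤ n) (D : Domain n) {K : Set (E n)} (hK : IsCompact K)
    (hKD : Disjoint K D.carrier) {ε : ℝ} (hε : 0 < ε)
    (hiso : ∀ x, infDist x K < ε → x ∉ K → x ∈ D.carrier) {F : E n → ℝ}
    (hL : ∀ x y, |F x - F y| ≤ ‖x - y‖) (hFK : {x | 0 ≤ F x} = K)
    (hg : ∀ x, DifferentiableAt ℝ F x → 1 ≤ ‖fderiv ℝ F x‖) {s : ℝ} (hs : 0 < s)
    {N : E n → E n} (hN : ∀ x, ‖N x‖ ≤ 1) {k : ℝ} (hk : 0 < k)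
    (hf : ∀ x y, ‖N x - N y‖ ^ 2 ≤ k * ⟪N x - N y, x - y⟫) :
    1 / s * ∫ x in {x | 0 < F x ∧ F x < s}, (fderiv ℝ (fun y => - F y) x) (N x) ≤
      D.surface.real K := by
  have hLip := InnerC_lip hL
  have hFc := hLip.continuous
  have huLip : LipschitzWith 1 (fun y => - F y) := InnerC_lip (InnerC_neg hL)
  have hNk : ∀ x y, ‖N x - N y‖ ≤ k * ‖x - y‖ := by
    intro x y
    have h1 := hf x y
    have h2 := real_inner_le_norm (N x - N y) (x - y)
    rcases eq_or_lt_of_le (norm_nonneg (N x - N y)) with h | h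
    · rw [← h]; positivity
    · have h3 : ‖N x - N y‖ * ‖N x - N y‖ ≤ ‖N x - N y‖ * (k * ‖x - y‖) := by
        calc ‖N x - N y‖ * ‖N x - N y‖ = ‖N x - N y‖ ^ 2 := (sq _).symm
          _ ≤ k * ⟪N x - N y, x - y⟫ := h1
          _ ≤ k * (‖N x - N y‖ * ‖x - y‖) := mul_le_mul_of_nonneg_left h2 hk.le
          _ = ‖N x - N y‖ * (k * ‖x - y‖) := by ring
      exact le_of_mul_le_mul_left h3 h
  have hmono : ∀ x y, 0 ≤ ⟪N x - N y, x - y⟫ := fun x y =>
    nonneg_of_mul_nonneg_right ((sq_nonneg _).trans (hf x y)) hk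
  have hNl : LipschitzWith (Real.toNNReal k) N := by
    refine LipschitzWith.of_dist_le_mul fun x y => ?_
    rw [Real.coe_toNNReal _ hk.le, dist_eq_norm, dist_eq_norm]
    exact hNk x y
  have hT := InnerC_T_lip hs hL hN hk hNk
  have hdiv := hole_div hn D hK hKD hε hiso hT (InnerC_T_norm hN)
  obtain ⟨A, hA⟩ : ∃ A : Set (E n), A = {x | 0 < F x ∧ F x < s} := ⟨_, rfl⟩
  have hAo : IsOpen A := by
    rw [hA]
    exact (isOpen_lt continuous_const hFc).inter (isOpen_lt hFc continuous_const)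
  have hAK : A ⊆ K := by
    intro x hx
    rw [hA] at hx
    rw [← hFK]
    exact le_of_lt hx.1
  rw [← hA, ← integral_const_mul]
  have h1 : ∫ x in A, 1 / s * (fderiv ℝ (fun y => - F y) x) (N x) =
      ∫ x in K, A.indicator (fun x => 1 / s * (fderiv ℝ (fun y => - F y) x) (N x)) x := by
    rw [setIntegral_indicator hAo.measurableSet, inter_eq_right.2 hAK]
  rw [h1]
  have hmeas : Measurable fun x => 1 / s * (fderiv ℝ (fun y => - F y) x) (N x) :=
    (InnerC_pair_meas hNl.continuous).const_mul _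
  have hfin : IsFiniteMeasure (volume.restrict K) :=
    ⟨by rw [Measure.restrict_apply_univ]; exact hK.measure_lt_top⟩
  have hint1 : IntegrableOn
      (A.indicator (fun x => 1 / s * (fderiv ℝ (fun y => - F y) x) (N x))) K := by
    refine Integrable.of_bound ((hmeas.indicator hAo.measurableSet).aestronglyMeasurable) (1 / s)
      (Eventually.of_forall fun x => ?_)
    refine (norm_indicator_le_norm_self _ _).trans ?_
    rw [norm_mul, Real.norm_of_nonneg (by positivity : 0 ≤ 1 / s)]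
    exact mul_le_of_le_one_right (by positivity) (InnerC_pair_le huLip hN x)
  have hint2 := InnerC_int hT hK.isBounded
  have hae : ∀ᵐ x : E n, x ∈ K →
      A.indicator (fun x => 1 / s * (fderiv ℝ (fun y => - F y) x) (N x)) x ≤
        tr (fderiv ℝ (InnerC_T s F N) x) := by
    have e0 : ∀ᵐ x : E n, ¬ F x = 0 := by
      rw [ae_iff]
      simpa using InnerC_level hLip hg 0
    have e1 : ∀ᵐ x : E n, ¬ F x = s := by
      rw [ae_iff]
      simpa using InnerC_level hLip hg s
    filter_upwards [hLip.ae_differentiableAt, hNl.ae_differentiableAt, e0, e1]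
      with x hxF hxN h0 h2 hxK
    have h3 : 0 ≤ F x := by
      rw [← hFK] at hxK
      exact hxK
    by_cases hxA : x ∈ A
    · rw [indicator_of_mem hxA]
      rw [hA] at hxA
      exact InnerC_div hs hmono hFc hxF hxN hxA.1 hxA.2
    · rw [indicator_of_notMem hxA]
      have h4 : s < F x := by
        by_contra h5
        apply hxA
        rw [hA]
        exact ⟨lt_of_le_of_ne h3 (Ne.symm h0), lt_of_le_of_ne (not_lt.1 h5) h2⟩
      rw [InnerC_div_zero hs hFc h4]
  refine (setIntegral_mono_on_ae hint1 hint2 hK.isClosed.measurableSet hae).trans ?_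
  rw [hdiv]
  have := D.isFinite
  have h6 : ‖∫ x in K, ⟪InnerC_T s F N x, D.normal x⟫ ∂D.surface‖ ≤ 1 * D.surface.real K := by
    refine norm_setIntegral_le_of_norm_le_const_ae (measure_lt_top _ _) (ae_restrict_of_ae ?_)
    filter_upwards [D.norm_normal] with x hx
    refine (norm_inner_le_norm _ _).trans ?_
    rw [hx, mul_one]
    exact InnerC_T_norm hN x
  rw [Real.norm_eq_abs, one_mul] at h6
  exact (neg_le_abs _).trans h6

/-- the scaled displacements tend to the gradient in the direction of the gradient -/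
private theorem InnerC_limit {u : E n → ℝ} {x : E n} (hx : DifferentiableAt ℝ u x)
    (h1 : ‖fderiv ℝ u x‖ = 1) {N : ℕ → E n} (hN : ∀ j, ‖N j‖ ≤ 1)
    (h : ∀ (j : ℕ) (z : E n), u x - 1 / ((j : ℝ) + 1) + ⟪N j, z - x⟫ ≤ u z) :
    Tendsto (fun j => (fderiv ℝ u x) (N j)) atTop (𝓝 1) := by
  obtain ⟨p, hp⟩ : ∃ p : E n, p = (InnerProductSpace.toDual ℝ (E n)).symm (fderiv ℝ u x) :=
    ⟨_, rfl⟩
  have hp1 : ‖p‖ = 1 := by rw [hp, LinearIsometryEquiv.norm_map, h1]
  have hpv : ∀ v, fderiv ℝ u x v = ⟪p, v⟫ := fun v => by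
    rw [hp, InnerProductSpace.toDual_symm_apply]
  have hup : ∀ j, fderiv ℝ u x (N j) ≤ 1 := fun j => by
    rw [hpv]
    refine (real_inner_le_norm _ _).trans ?_
    rw [hp1, one_mul]
    exact hN j
  rw [Metric.tendsto_atTop]
  intro ε hε
  have hd := hx.hasFDerivAt
  rw [hasFDerivAt_iff_isLittleO_nhds_zero] at hd
  have hd1 := (Asymptotics.isLittleO_iff.1 hd) (half_pos hε)
  obtain ⟨δ, hδ, hb⟩ := Metric.eventually_nhds_iff.1 hd1
  obtain ⟨t, ht⟩ : ∃ t, t = δ / 2 := ⟨_, rfl⟩
  have ht0 : 0 < t := by rw [ht]; positivity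
  have hnt : ‖-(t • p)‖ = t := by
    rw [norm_neg, norm_smul, hp1, mul_one, Real.norm_of_nonneg ht0.le]
  have h2 := hb (y := -(t • p)) (by rw [dist_zero_right, hnt, ht]; linarith)
  rw [hnt, hpv, inner_neg_right, real_inner_smul_right, real_inner_self_eq_norm_sq, hp1,
    Real.norm_eq_abs] at h2
  have h3 := (abs_le.1 h2).2
  obtain ⟨J, hJ⟩ := exists_nat_gt (2 / (ε * t))
  refine ⟨J, fun j hj => ?_⟩
  have h4 := h j (x + -(t • p))
  rw [add_sub_cancel_left, inner_neg_right, real_inner_smul_right, real_inner_comm, ← hpv] at h4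
  have h5 : 2 < (j + 1 : ℝ) * (ε * t) := by
    rw [div_lt_iff₀ (by positivity)] at hJ
    have h6 : (J : ℝ) * (ε * t) ≤ (j + 1 : ℝ) * (ε * t) := by
      refine mul_le_mul_of_nonneg_right ?_ (by positivity)
      have : (J : ℝ) ≤ j := by exact_mod_cast hj
      linarith
    linarith
  have h7 : 1 / ((j : ℝ) + 1) < ε * t / 2 := by
    rw [div_lt_iff₀ (by positivity)]
    linarith
  rw [Real.dist_eq, abs_lt]
  have h8 := hup j
  constructor
  · have h9 : t * (1 - ε) < t * fderiv ℝ u x (N j) := by nlinarith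
    have h10 := lt_of_mul_lt_mul_left h9 ht0.le
    linarith
  · linarith

/-- PROOF: `u = -F` is convex and 1-Lipschitz. For `j ≥ 1` let `N_j x = j • (x - Y_j x)`, `Y_j x` the proximal
point (`exists_prox` with `R = 1`, `K = j`): `‖N_j‖ ≤ 1` (`IsProx.norm_le`), `N_j` is `j`-Lipschitz and monotone,
`⟪N_j x - N_j y, x - y⟫ ≥ 0` (`IsProx.mono`, `IsProx.firm`), so `tr (fderiv ℝ N_j x) ≥ 0` for every `x`
(it is `0` where `N_j` is not differentiable). `N_j x` is a subgradient of `u` at `Y_j x` (`IsProx.subgrad`) and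
`‖x - Y_j x‖ ≤ 1 / j`, so `N_j x → ∇ u x` wherever `u` is differentiable, i.e. a.e. (Rademacher).
Let `χ t = min 1 (max 0 (1 - t / s))` and `T_j x = χ (F x) • N_j x`: Lipschitz, `‖T_j‖ ≤ 1`. For a.e. `x`:
`tr (fderiv T_j) = χ (F x) tr (fderiv N_j) + (χ ∘ F)' (N_j) ≥ (1 / s) ⟪∇ u x, N_j x⟫` where `0 < F x < s`, `≥ 0` where
`F x > s` (there `T_j = 0` near); where `F x = s` and `x` is a point of differentiability of `F`, `χ ∘ F` is not
differentiable at `x` (`‖fderiv F x‖ ≥ 1`), so `{F = s}` is a null set, and so is `{F = 0}` (the same argument with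
`max 0 F`). `hole_div`: `∫_K tr (fderiv T_j) = - ∫_K ⟪T_j, normal⟫ ∂D.surface ≤ D.surface.real K`. Let `j → ∞`
(dominated convergence): `(1 / s) ∫_{0 < F < s} ‖∇ u‖ ^ 2 ≤ D.surface.real K`, and `‖∇ u‖ ≥ 1` a.e. -/
theorem inner_collar (hn : 2 ≤ n) (D : Domain n) {K : Set (E n)} (hK : IsCompact K)
    (hKD : Disjoint K D.carrier) {ε : ℝ} (hε : 0 < ε)
    (hiso : ∀ x, infDist x K < ε → x ∉ K → x ∈ D.carrier) {F : E n → ℝ}
    (hF : ConcaveOn ℝ univ F) (hL : ∀ x y, |F x - F y| ≤ ‖x - y‖) (hFK : {x | 0 ≤ F x} = K)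
    (hg : ∀ x, DifferentiableAt ℝ F x → 1 ≤ ‖fderiv ℝ F x‖) {s : ℝ} (hs : 0 < s) :
    volume.real K - volume.real {x | s ≤ F x} ≤ s * D.surface.real K := by
  have hLip := InnerC_lip hL
  have hFc := hLip.continuous
  have hc : ConvexOn ℝ univ (fun y => - F y) := hF.neg
  have hu := InnerC_neg hL
  have huLip : LipschitzWith 1 (fun y => - F y) := InnerC_lip hu
  have hprox : ∀ j : ℕ, ∃ N : E n → E n, (∀ x, ‖N x‖ ≤ 1) ∧
      (∀ x y, ‖N x - N y‖ ^ 2 ≤ ((j : ℝ) + 1) * ⟪N x - N y, x - y⟫) ∧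
      ∀ x z, - F x - 1 / ((j : ℝ) + 1) + ⟪N x, z - x⟫ ≤ - F z := fun j =>
    InnerC_prox hc hu (by positivity)
  choose N hN1 hN2 hN3 using hprox
  obtain ⟨A, hA⟩ : ∃ A : Set (E n), A = {x | 0 < F x ∧ F x < s} := ⟨_, rfl⟩
  have hstep : ∀ j, 1 / s * ∫ x in A, (fderiv ℝ (fun y => - F y) x) (N j x) ≤
      D.surface.real K := fun j => by
    rw [hA]
    exact InnerC_step hn D hK hKD hε hiso hL hFK hg hs (hN1 j) (by positivity) (hN2 j)
  have hNc : ∀ j, Continuous (N j) := by
    intro j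
    have h1 : LipschitzWith (Real.toNNReal ((j : ℝ) + 1)) (N j) := by
      refine LipschitzWith.of_dist_le_mul fun x y => ?_
      rw [Real.coe_toNNReal _ (by positivity), dist_eq_norm, dist_eq_norm]
      have h1 := hN2 j x y
      have h2 := real_inner_le_norm (N j x - N j y) (x - y)
      rcases eq_or_lt_of_le (norm_nonneg (N j x - N j y)) with h | h
      · rw [← h]; positivity
      · have h3 : ‖N j x - N j y‖ * ‖N j x - N j y‖ ≤
            ‖N j x - N j y‖ * (((j : ℝ) + 1) * ‖x - y‖) := by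
          calc ‖N j x - N j y‖ * ‖N j x - N j y‖ = ‖N j x - N j y‖ ^ 2 := (sq _).symm
            _ ≤ ((j : ℝ) + 1) * ⟪N j x - N j y, x - y⟫ := h1
            _ ≤ ((j : ℝ) + 1) * (‖N j x - N j y‖ * ‖x - y‖) :=
              mul_le_mul_of_nonneg_left h2 (by positivity)
            _ = ‖N j x - N j y‖ * (((j : ℝ) + 1) * ‖x - y‖) := by ring
        exact le_of_mul_le_mul_left h3 h
    exact h1.continuous
  have hAK : A ⊆ K := by
    intro x hx
    rw [hA] at hx
    rw [← hFK]
    exact le_of_lt hx.1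
  have hKf : volume K ≠ ⊤ := hK.measure_lt_top.ne
  have hfin : IsFiniteMeasure (volume.restrict A) :=
    ⟨by
      rw [Measure.restrict_apply_univ]
      exact (measure_mono hAK).trans_lt hK.measure_lt_top⟩
  have hlim : Tendsto (fun j => ∫ x in A, (fderiv ℝ (fun y => - F y) x) (N j x)) atTop
      (𝓝 (∫ _ in A, (1 : ℝ))) := by
    refine tendsto_integral_of_dominated_convergence (fun _ => (1 : ℝ)) (fun j => ?_) ?_
      (fun j => ?_) ?_
    · exact (InnerC_pair_meas (hNc j)).aestronglyMeasurable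
    · exact integrable_const _
    · exact Eventually.of_forall fun x => InnerC_pair_le huLip (hN1 j) x
    · refine ae_restrict_of_ae ?_
      filter_upwards [hLip.ae_differentiableAt] with x hx
      have hx' : DifferentiableAt ℝ (fun y => - F y) x := hx.neg
      refine InnerC_limit hx' ?_ (fun j => hN1 j x) (fun j z => hN3 j x z)
      have h1 : ‖fderiv ℝ (fun y => - F y) x‖ ≤ 1 := by
        have h := norm_fderiv_le_of_lipschitz ℝ huLip (x₀ := x)
        rwa [NNReal.coe_one] at h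
      have h2 : ‖fderiv ℝ (fun y => - F y) x‖ = ‖fderiv ℝ F x‖ := by
        rw [fderiv_fun_neg, norm_neg]
      exact le_antisymm h1 (by rw [h2]; exact hg x hx)
  have h1 : 1 / s * volume.real A ≤ D.surface.real K := by
    have h2 := le_of_tendsto (hlim.const_mul (1 / s)) (Eventually.of_forall hstep)
    simpa using h2
  have h3 : volume.real A ≤ s * D.surface.real K := by
    have h4 := mul_le_mul_of_nonneg_left h1 hs.le
    rwa [← mul_assoc, mul_one_div_cancel hs.ne', one_mul] at h4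
  have h5 : K ⊆ ({x | F x = 0} ∪ A) ∪ {x | s ≤ F x} := by
    intro x hx
    rw [← hFK] at hx
    have h6 : 0 ≤ F x := hx
    rcases eq_or_lt_of_le h6 with h | h
    · exact Or.inl (Or.inl h.symm)
    · rcases lt_or_ge (F x) s with h7 | h7
      · refine Or.inl (Or.inr ?_)
        rw [hA]
        exact ⟨h, h7⟩
      · exact Or.inr h7
  have hz : volume {x : E n | F x = 0} = 0 := InnerC_level hLip hg 0
  have hAf : volume A ≠ ⊤ := ((measure_mono hAK).trans_lt hK.measure_lt_top).ne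
  have hSf : volume {x | s ≤ F x} ≠ ⊤ := by
    refine ((measure_mono ?_).trans_lt hK.measure_lt_top).ne
    intro x hx
    rw [← hFK]
    exact hs.le.trans hx
  have h8 : volume.real K ≤ volume.real A + volume.real {x | s ≤ F x} := by
    have h9 : volume K ≤ volume A + volume {x | s ≤ F x} := by
      refine (measure_mono h5).trans ((measure_union_le _ _).trans ?_)
      refine add_le_add ((measure_union_le _ _).trans ?_) le_rfl
      rw [hz, zero_add]
    have h10 := ENNReal.toReal_mono (ENNReal.add_ne_top.2 ⟨hAf, hSf⟩) h9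
    rwa [ENNReal.toReal_add hAf hSf] at h10
  linarith

end Pool.Agent.RH
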