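import Pool.Agent.H.MP_1b807b_an.HO.Defs

/-! MP_1b807b_an, balls with holes, module Sgd: the signed distance of a convex body -/

set_option autoImplicit false

namespace Pool.Agent.RH

open MeasureTheory Metric Set Filter Pool.Agent.RG
open scoped RealInnerProductSpace Topology

variable {n : ℕ}

/-- PROOF: `h ν = sSup ((fun x => ⟪ν, x⟫) '' K)`, `F x = sInf ((fun ν => h ν - ⟪ν, x⟫) '' sphere 0 1)`. Every
`ν ↦ h ν - ⟪ν, x⟫` is continuous (`h` is Lipschitz, `K` bounded), so the infimum over the compact unit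
sphere is attained. `F` is an infimum of affine 1-Lipschitz functions of `x`: concave, 1-Lipschitz.
`x ∈ K → F x ≥ 0`; if `x ∉ K`, with the projection `y` of `x` on `K` (or Hahn-Banach separation,
normalised) some `ν` has `⟪ν, x⟫ > h ν`, so `F x < 0`. If `ball y ε ⊆ K` then `F y ≥ ε`. Gradient: let `F` be
differentiable at `x` and let `ν` attain the infimum; `F (x + t ν) ≤ h ν - ⟪ν, x + t ν⟫ = F x - t` for `t > 0`, so
`fderiv ℝ F x ν ≤ -1` and `‖fderiv ℝ F x‖ ≥ 1`. (`n ≥ 1` so that the sphere is nonempty.) -/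
theorem exists_sgd (hn : 2 ≤ n) {K : Set (E n)} (hK : IsCompact K) (hc : Convex ℝ K)
    (hi : (interior K).Nonempty) :
    ∃ F : E n → ℝ, ConcaveOn ℝ univ F ∧ (∀ x y, |F x - F y| ≤ ‖x - y‖) ∧ {x | 0 ≤ F x} = K ∧
      (∀ x, DifferentiableAt ℝ F x → 1 ≤ ‖fderiv ℝ F x‖) ∧ ∃ x, 0 < F x := by
  obtain ⟨y0, hy0⟩ := hi
  have hy0K : y0 ∈ K := interior_subset hy0
  obtain ⟨h, hh⟩ : ∃ h : E n → ℝ, h = fun ν => sSup ((fun x => (⟪ν, x⟫ : ℝ)) '' K) := ⟨_, rfl⟩
  have hcont : Continuous h := by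
    rw [hh]
    exact hK.continuous_sSup (f := fun ν x : E n => (⟪ν, x⟫ : ℝ)) (by
      show Continuous fun p : E n × E n => (⟪p.1, p.2⟫ : ℝ)
      exact continuous_fst.inner continuous_snd)
  have hcx : ∀ ν : E n, ContinuousOn (fun x : E n => (⟪ν, x⟫ : ℝ)) K := fun ν =>
    (continuous_const.inner continuous_id).continuousOn
  have hle : ∀ ν : E n, ∀ y ∈ K, (⟪ν, y⟫ : ℝ) ≤ h ν := by
    intro ν y hy
    rw [hh]
    exact le_csSup (hK.bddAbove_image (hcx ν)) ⟨y, hy, rfl⟩
  have hatt : ∀ ν : E n, ∃ y ∈ K, h ν = (⟪ν, y⟫ : ℝ) := by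
    intro ν
    obtain ⟨y, hy, hy'⟩ := hK.exists_sSup_image_eq ⟨y0, hy0K⟩ (hcx ν)
    exact ⟨y, hy, by rw [hh]; exact hy'⟩
  have hS : IsCompact (sphere (0 : E n) 1) := isCompact_sphere _ _
  have hSne : (sphere (0 : E n) 1).Nonempty := by
    refine ⟨EuclideanSpace.single ⟨0, by omega⟩ 1, ?_⟩
    rw [mem_sphere_zero_iff_norm, EuclideanSpace.norm_single, norm_one]
  have hgc : ∀ x : E n, ContinuousOn (fun ν : E n => h ν - (⟪ν, x⟫ : ℝ)) (sphere (0 : E n) 1) :=
    fun x => (hcont.sub (continuous_id.inner continuous_const)).continuousOn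
  choose nu hnu hmin using fun x : E n => hS.exists_isMinOn hSne (hgc x)
  obtain ⟨F, hF⟩ : ∃ F : E n → ℝ, ∀ x, F x = h (nu x) - (⟪nu x, x⟫ : ℝ) := ⟨_, fun _ => rfl⟩
  have hFle : ∀ x, ∀ ν ∈ sphere (0 : E n) 1, F x ≤ h ν - (⟪ν, x⟫ : ℝ) := by
    intro x ν hν
    rw [hF]
    exact hmin x hν
  have hnorm : ∀ x, ‖nu x‖ = 1 := fun x => mem_sphere_zero_iff_norm.1 (hnu x)
  have hlip : ∀ x y, F x - F y ≤ ‖x - y‖ := by
    intro x y
    have h1 := hFle x (nu y) (hnu y)
    have h2 : (⟪nu y, y - x⟫ : ℝ) ≤ ‖nu y‖ * ‖y - x‖ := real_inner_le_norm _ _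
    rw [hnorm, one_mul, inner_sub_right, norm_sub_rev] at h2
    have h3 := hF y
    linarith
  refine ⟨F, ⟨convex_univ, ?_⟩, ?_, ?_, ?_, ?_⟩
  · intro x _ y _ a b ha hb hab
    have h1 := hFle x (nu (a • x + b • y)) (hnu _)
    have h2 := hFle y (nu (a • x + b • y)) (hnu _)
    have h3 := mul_le_mul_of_nonneg_left h1 ha
    have h4 := mul_le_mul_of_nonneg_left h2 hb
    rw [hF (a • x + b • y), inner_add_right, real_inner_smul_right, real_inner_smul_right,
      smul_eq_mul, smul_eq_mul]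
    have h5 : h (nu (a • x + b • y)) = a * h (nu (a • x + b • y)) +
        b * h (nu (a • x + b • y)) := by rw [← add_mul, hab, one_mul]
    linarith
  · intro x y
    rw [abs_le]
    constructor
    · have h1 := hlip y x
      rw [norm_sub_rev] at h1
      linarith
    · exact hlip x y
  · ext x
    constructor
    · intro hx
      have hx' : 0 ≤ F x := hx
      by_contra hxK
      obtain ⟨f, u, hf1, hf2⟩ := geometric_hahn_banach_closed_point hc hK.isClosed hxK
      obtain ⟨w, hw⟩ : ∃ w : E n, ∀ z, f z = (⟪w, z⟫ : ℝ) :=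
        ⟨(InnerProductSpace.toDual ℝ (E n)).symm f, fun z =>
          (InnerProductSpace.toDual_symm_apply).symm⟩
      have hw0 : w ≠ 0 := by
        rintro rfl
        have h1 := hf1 y0 hy0K
        rw [hw, inner_zero_left] at h1
        rw [hw, inner_zero_left] at hf2
        exact lt_asymm h1 hf2
      have hwn : 0 < ‖w‖⁻¹ := inv_pos.2 (norm_pos_iff.2 hw0)
      have hν : ‖w‖⁻¹ • w ∈ sphere (0 : E n) 1 := by
        rw [mem_sphere_zero_iff_norm, norm_smul, norm_inv, norm_norm,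
          inv_mul_cancel₀ (norm_ne_zero_iff.2 hw0)]
      have h1 := hFle x _ hν
      obtain ⟨y, hy, hy'⟩ := hatt (‖w‖⁻¹ • w)
      rw [hy', real_inner_smul_left, real_inner_smul_left, ← hw, ← hw] at h1
      have h2 : f y < f x := (hf1 y hy).trans hf2
      have h3 := mul_lt_mul_of_pos_left h2 hwn
      linarith
    · intro hx
      show 0 ≤ F x
      rw [hF]
      have h1 := hle (nu x) x hx
      linarith
  · intro x hx
    have hmax : IsLocalMax (fun y => F y + (⟪nu x, y⟫ : ℝ)) x := by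
      refine Filter.Eventually.of_forall fun y => ?_
      have h1 := hFle y (nu x) (hnu x)
      have h2 := hF x
      show F y + (⟪nu x, y⟫ : ℝ) ≤ F x + (⟪nu x, x⟫ : ℝ)
      linarith
    have hder : HasFDerivAt (fun y => F y + (⟪nu x, y⟫ : ℝ)) (fderiv ℝ F x + innerSL ℝ (nu x)) x :=
      hx.hasFDerivAt.add (innerSL ℝ (nu x)).hasFDerivAt
    have h0 := hmax.hasFDerivAt_eq_zero hder
    have h1 : fderiv ℝ F x = -innerSL ℝ (nu x) := eq_neg_of_add_eq_zero_left h0
    rw [h1, norm_neg, innerSL_apply_norm, hnorm]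
  · obtain ⟨ε, hε, hball⟩ := Metric.isOpen_iff.1 isOpen_interior y0 hy0
    refine ⟨y0, ?_⟩
    have h1 : y0 + (ε / 2) • nu y0 ∈ K := by
      refine interior_subset (hball ?_)
      rw [mem_ball, dist_eq_norm, add_sub_cancel_left, norm_smul, hnorm, mul_one,
        Real.norm_of_nonneg (by linarith)]
      linarith
    have h2 := hle (nu y0) _ h1
    rw [inner_add_right, real_inner_smul_right, real_inner_self_eq_norm_sq, hnorm] at h2
    rw [hF]
    linarith

end Pool.Agent.RH
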