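import Pool.Agent.H.MP_1b807b_an.HO.Bm
import Pool.Agent.H.MP_1b807b_an.HO.Sgd
import Pool.Agent.H.MP_1b807b_an.HO.InnerC

/-! MP_1b807b_an, balls with holes, module CvxCollar: the collar inequality of a convex hole -/

set_option autoImplicit false

namespace Pool.Agent.RH

open MeasureTheory Metric Set Filter Pool.Agent.RG
open scoped RealInnerProductSpace Topology NNReal

variable {n : ℕ}

private theorem cvxCollar_radius (hn : 2 ≤ n) {v : ℝ} (hv : 0 ≤ v) :
    ∃ R : ℝ, 0 ≤ R ∧ v = om n * R ^ n := by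
  refine ⟨(v / om n) ^ ((n : ℝ)⁻¹), by positivity [om_pos n], ?_⟩
  rw [Real.rpow_inv_natCast_pow (div_nonneg hv (om_pos n).le) (by omega),
    mul_div_cancel₀ _ (om_pos n).ne']

/-- If `t R + s ρ ≤ (s + t) r` and `r ^ n - R ^ n ≤ s n r ^ (n - 1) q` for small `s`, then `ρ ≤ r + q t`. -/
private theorem cvxCollar_lim (hn : 2 ≤ n) {r q t ρ a : ℝ} (hr : 0 < r) (ht : 0 < t)
    (ha : 0 < a) (h : ∀ s : ℝ, 0 < s → s < a → ∃ R : ℝ, 0 ≤ R ∧ t * R + s * ρ ≤ (s + t) * r ∧
      r ^ n - R ^ n ≤ s * (n * r ^ (n - 1) * q)) : ρ ≤ r + q * t := by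
  obtain ⟨p, hp⟩ : ∃ p : ℝ, p = (ρ - r) / t := ⟨_, rfl⟩
  have hρ : ρ = r + p * t := by
    rw [hp, div_mul_cancel₀ _ ht.ne']
    ring
  have hnr : (0 : ℝ) < n * r ^ (n - 1) := by
    have : (0 : ℝ) < n := by exact_mod_cast (by omega : 0 < n)
    positivity
  have hd : HasDerivAt (fun s : ℝ => (r - p * s) ^ n) (n * (r - p * 0) ^ (n - 1) * (-p)) 0 := by
    have h1 : HasDerivAt (fun s : ℝ => r - p * s) (-p) 0 := by
      have := ((hasDerivAt_id (0 : ℝ)).const_mul p).const_sub r
      simpa using this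
    exact h1.pow n
  have hs := hd.tendsto_slope_zero_right
  have hpos : ∀ᶠ s : ℝ in 𝓝[>] (0 : ℝ), 0 < r - p * s := by
    have h1 : Tendsto (fun s : ℝ => r - p * s) (𝓝[>] (0 : ℝ)) (𝓝 (r - p * 0)) :=
      ((continuous_const.sub (continuous_const.mul continuous_id)).tendsto 0).mono_left
        nhdsWithin_le_nhds
    exact h1.eventually_const_lt (by linarith)
  have hmem : ∀ᶠ s : ℝ in 𝓝[>] (0 : ℝ), s ∈ Ioo (0 : ℝ) a := Ioo_mem_nhdsGT ha
  have hev : ∀ᶠ s : ℝ in 𝓝[>] (0 : ℝ),
      -(n * r ^ (n - 1) * q) ≤ s⁻¹ • ((r - p * (0 + s)) ^ n - (r - p * 0) ^ n) := by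
    filter_upwards [hpos, hmem] with s h1 h2
    obtain ⟨R, hR, h3, h4⟩ := h s h2.1 h2.2
    have h5 : R ≤ r - p * s := by
      rw [hρ] at h3
      have h6 : t * R ≤ t * (r - p * s) := by nlinarith
      exact le_of_mul_le_mul_left h6 ht
    have h6 : R ^ n ≤ (r - p * s) ^ n := pow_le_pow_left₀ hR h5 n
    rw [zero_add, mul_zero, sub_zero, smul_eq_mul, le_inv_mul_iff₀ h2.1]
    linarith
  have h7 := ge_of_tendsto hs hev
  rw [mul_zero, sub_zero] at h7
  have h8 : p ≤ q := by
    have h9 : n * r ^ (n - 1) * p ≤ n * r ^ (n - 1) * q := by linarith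
    exact le_of_mul_le_mul_left h9 hnr
  rw [hρ]
  nlinarith

/-- PROOF: `F` of `exists_sgd`, `A_τ = {x | -τ ≤ F x}`, `R_τ` its volume radius (`|A_τ| = om R_τ ^ n`), `R_0 = r`.
`A_0 = K`, `{x | infDist x K ≤ t} ⊆ A_t` (`F ≥ 0` on the compact `K`, 1-Lipschitz), all bounded (`F` is concave with
compact `{F ≥ 0}`; or enlarge: `F x ≤ - infDist`-type bound; boundedness of `A_t`: take `x₁` with `F x₁ > 0`; on each ray from
`x₁` concavity forces `F` to decrease at a definite rate after leaving `K`). For `0 < s < F x₁` and `t > 0`: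
concavity gives `(t / (s + t)) A_{-s} + (s / (s + t)) A_t ⊆ A_0`, so `bm_radii`:
`t R_{-s} + s R_t ≤ (s + t) r`, i.e. `R_t ≤ r + (t / s) (r - R_{-s})`. `inner_collar`: `om R_{-s} ^ n ≥ om r ^ n - s P`,
`P = D.surface.real K`; as `s → 0`, `(r - R_{-s}) / s ≤ (r - (r ^ n - s P / om) ^ (1/n)) / s → P / (n om r ^ (n-1)) = q`
(or elementary: `r ^ n - R ^ n ≥ n R ^ (n-1) (r - R)`, so `(r - R_{-s}) / s ≤ P / (n om R_{-s} ^ (n-1))` and
`R_{-s} → r`). So `R_t ≤ r + q t`. -/
theorem convex_collar (hn : 2 ≤ n) (D : Domain n) {K : Set (E n)} (hK : IsCompact K)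
    (hKD : Disjoint K D.carrier) {ε : ℝ} (hε : 0 < ε)
    (hiso : ∀ x, infDist x K < ε → x ∉ K → x ∈ D.carrier) (hc : Convex ℝ K)
    (hi : (interior K).Nonempty) {r : ℝ} (hr : 0 < r) (hv : volume.real K = om n * r ^ n) {q : ℝ}
    (hq : n * om n * r ^ (n - 1) * q = D.surface.real K) {t : ℝ} (ht : 0 ≤ t) :
    volume.real {x : E n | infDist x K ≤ t} ≤ om n * (r + q * t) ^ n := by
  obtain ⟨F, hF, hL, hFK, hg, x₁, hx₁⟩ := exists_sgd hn hK hc hi
  have hne : K.Nonempty := hi.mono interior_subset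
  have hcont : Continuous F := by
    have h1 : LipschitzWith 1 F := LipschitzWith.of_dist_le_mul fun x y => by
      rw [NNReal.coe_one, one_mul, dist_eq_norm, Real.norm_eq_abs, dist_eq_norm]
      exact hL x y
    exact h1.continuous
  have hclosed : ∀ c : ℝ, IsClosed {x : E n | c ≤ F x} := fun c =>
    isClosed_le continuous_const hcont
  have hmemK : ∀ x, 0 ≤ F x → x ∈ K := fun x hx => by
    rw [← hFK]
    exact hx
  rcases ht.eq_or_lt with rfl | ht0
  · have h1 : {x : E n | infDist x K ≤ 0} = K := by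
      ext x
      rw [mem_ofPred_eq, hK.isClosed.mem_iff_infDist_zero hne]
      exact ⟨fun h => le_antisymm h infDist_nonneg, fun h => h.le⟩
    rw [h1, hv, mul_zero, add_zero]
  -- the outer set
  have hsub : {x : E n | infDist x K ≤ t} ⊆ {x | -t ≤ F x} := by
    intro x hx
    obtain ⟨y, hy, hxy⟩ := hK.exists_infDist_eq_dist hne x
    have h1 : dist x y ≤ t := by
      rw [← hxy]
      exact hx
    have h2 : 0 ≤ F y := by
      rw [← hFK] at hy
      exact hy
    have h3 := (abs_le.1 (hL x y)).1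
    rw [← dist_eq_norm] at h3
    rw [mem_ofPred_eq]
    linarith
  have hbdd : Bornology.IsBounded {x : E n | -t ≤ F x} := by
    have h1 : {x : E n | -t ≤ F x} ⊆
        (fun z : E n => ((F x₁ + t) / F x₁) • z - (t / F x₁) • x₁) '' K := by
      intro x hx
      have hx' : -t ≤ F x := hx
      refine ⟨(F x₁ / (F x₁ + t)) • x + (t / (F x₁ + t)) • x₁, hmemK _ ?_, ?_⟩
      · have h2 : (F x₁ / (F x₁ + t)) • F x + (t / (F x₁ + t)) • F x₁ ≤
            F ((F x₁ / (F x₁ + t)) • x + (t / (F x₁ + t)) • x₁) :=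
          hF.2 (mem_univ x) (mem_univ x₁) (by positivity) (by positivity) (by field_simp)
        refine le_trans ?_ h2
        rw [smul_eq_mul, smul_eq_mul]
        have h3 : F x₁ / (F x₁ + t) * (-t) + t / (F x₁ + t) * F x₁ = 0 := by ring
        have h4 : F x₁ / (F x₁ + t) * (-t) ≤ F x₁ / (F x₁ + t) * F x :=
          mul_le_mul_of_nonneg_left hx' (by positivity)
        linarith
      · have h5 : F x₁ + t ≠ 0 := by positivity
        have h6 : F x₁ ≠ 0 := hx₁.ne'
        simp only [smul_add, smul_smul]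
        have h7 : (F x₁ + t) / F x₁ * (F x₁ / (F x₁ + t)) = 1 := by field_simp
        have h8 : (F x₁ + t) / F x₁ * (t / (F x₁ + t)) = t / F x₁ := by field_simp
        rw [h7, h8, one_smul, add_sub_cancel_right]
    have h2 : Continuous (fun z : E n => ((F x₁ + t) / F x₁) • z - (t / F x₁) • x₁) := by
      fun_prop
    exact (hK.image h2).isBounded.subset h1
  have hfin : volume {x : E n | -t ≤ F x} ≠ ⊤ := hbdd.measure_lt_top.ne
  obtain ⟨ρ, hρ0, hρ⟩ := cvxCollar_radius (n := n) hn
    (measureReal_nonneg (μ := volume) (s := {x : E n | -t ≤ F x}))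
  have hpos : ∀ c : ℝ, c < F x₁ → volume {x : E n | c ≤ F x} ≠ ⊤ →
      0 < volume.real {x : E n | c ≤ F x} := by
    intro c hc1 hc2
    have h1 : ball x₁ (F x₁ - c) ⊆ {x : E n | c ≤ F x} := by
      intro x hx
      rw [mem_ball, dist_eq_norm] at hx
      have h2 := (abs_le.1 (hL x x₁)).1
      rw [mem_ofPred_eq]
      linarith
    rw [measureReal_def]
    exact ENNReal.toReal_pos
      ((measure_ball_pos volume x₁ (by linarith)).trans_le (measure_mono h1)).ne' hc2
  have hρpos : 0 < ρ := by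
    rcases hρ0.eq_or_lt with h0 | h0
    · have h1 := hpos (-t) (by linarith) hfin
      rw [hρ, ← h0, zero_pow (by omega), mul_zero] at h1
      exact absurd h1 (lt_irrefl _)
    · exact h0
  have key : ρ ≤ r + q * t := by
    refine cvxCollar_lim hn hr ht0 hx₁ fun s hs hsa => ?_
    have hsubK : {x : E n | s ≤ F x} ⊆ K := fun x hx => hmemK x (hs.le.trans hx)
    have hfs : volume {x : E n | s ≤ F x} ≠ ⊤ :=
      measure_ne_top_of_subset hsubK hK.measure_lt_top.ne
    obtain ⟨R, hR0, hR⟩ := cvxCollar_radius (n := n) hn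
      (measureReal_nonneg (μ := volume) (s := {x : E n | s ≤ F x}))
    have hRpos : 0 < R := by
      rcases hR0.eq_or_lt with h0 | h0
      · have h1 := hpos s hsa hfs
        rw [hR, ← h0, zero_pow (by omega), mul_zero] at h1
        exact absurd h1 (lt_irrefl _)
      · exact h0
    have hst : 0 < s + t := by linarith
    refine ⟨R, hR0, ?_, ?_⟩
    · have h1 := bm_radii hn (hclosed s).measurableSet (hclosed (-t)).measurableSet
        hK.isClosed.measurableSet hRpos hρpos hr.le (a := t / (s + t)) (b := s / (s + t))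
        (by positivity) (by positivity) (by field_simp; ring) hR hρ hv hK.measure_lt_top.ne
        (fun x hx y hy => hmemK _ (by
          have h2 : (t / (s + t)) • F x + (s / (s + t)) • F y ≤
              F ((t / (s + t)) • x + (s / (s + t)) • y) :=
            hF.2 (mem_univ x) (mem_univ y) (by positivity) (by positivity) (by field_simp; ring)
          refine le_trans ?_ h2
          rw [smul_eq_mul, smul_eq_mul]
          have hx' : s ≤ F x := hx
          have hy' : -t ≤ F y := hy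
          have h3 : t / (s + t) * s ≤ t / (s + t) * F x :=
            mul_le_mul_of_nonneg_left hx' (by positivity)
          have h4 : s / (s + t) * (-t) ≤ s / (s + t) * F y :=
            mul_le_mul_of_nonneg_left hy' (by positivity)
          have h5 : t / (s + t) * s + s / (s + t) * (-t) = 0 := by ring
          linarith))
      have h6 : t / (s + t) * R + s / (s + t) * ρ = (t * R + s * ρ) / (s + t) := by ring
      rw [h6, div_le_iff₀ hst] at h1
      linarith
    · have h1 := inner_collar hn D hK hKD hε hiso hF hL hFK hg hs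
      rw [hv, hR, ← hq] at h1
      have h2 : om n * (r ^ n - R ^ n) ≤ om n * (s * (n * r ^ (n - 1) * q)) := by
        calc om n * (r ^ n - R ^ n) = om n * r ^ n - om n * R ^ n := by ring
          _ ≤ s * (n * om n * r ^ (n - 1) * q) := h1
          _ = om n * (s * (n * r ^ (n - 1) * q)) := by ring
      exact le_of_mul_le_mul_left h2 (om_pos n)
  calc volume.real {x : E n | infDist x K ≤ t} ≤ volume.real {x : E n | -t ≤ F x} :=
        measureReal_mono hsub hfin
    _ = om n * ρ ^ n := hρ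
    _ ≤ om n * (r + q * t) ^ n :=
        mul_le_mul_of_nonneg_left (pow_le_pow_left₀ hρ0 key n) (om_pos n).le

end Pool.Agent.RH
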