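import Pool.Agent.H.MP_1b807b_an.HO.Defs
import Pool.Agent.H.MP_1b807b_an.G.Moll

/-! MP_1b807b_an, balls with holes, module SuppD: the support of the surface measure -/

set_option autoImplicit false

namespace Pool.Agent.RH

open MeasureTheory Metric Set Filter Pool.Agent.RG
open scoped RealInnerProductSpace Topology

variable {n : ℕ}

/-- the sequence of bump functions -/
private noncomputable def SuppD_bump (n : ℕ) (j : ℕ) : ContDiffBump (0 : E n) where
  rIn := 1 / ((j : ℝ) + 1) / 2
  rOut := 1 / ((j : ℝ) + 1)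
  rIn_pos := by positivity
  rIn_lt_rOut := half_lt_self (by positivity)

private theorem SuppD_rOut (n : ℕ) : Tendsto (fun j => (SuppD_bump n j).rOut) atTop (𝓝 0) :=
  tendsto_one_div_add_atTop_nhds_zero_nat

private noncomputable def SuppD_rho (n : ℕ) (j : ℕ) : E n → ℝ :=
  (SuppD_bump n j).normed volume

private theorem SuppD_contDiff (n j : ℕ) : ContDiff ℝ 1 (SuppD_rho n j) :=
  (SuppD_bump n j).contDiff_normed

private theorem SuppD_compact (n j : ℕ) : HasCompactSupport (SuppD_rho n j) :=
  (SuppD_bump n j).hasCompactSupport_normed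

private theorem SuppD_zero {n j : ℕ} {x : E n} (hx : (SuppD_bump n j).rOut ≤ ‖x‖) :
    SuppD_rho n j x = 0 := by
  by_contra hne
  have h1 : x ∈ Function.support ((SuppD_bump n j).normed (volume : Measure (E n))) := hne
  rw [(SuppD_bump n j).support_normed_eq, mem_ball, dist_zero_right] at h1
  linarith

private theorem SuppD_ex {s : Set (E n)} (hs : 0 < volume s) {P : E n → Prop}
    (h : ∀ᵐ x : E n, P x) : ∃ x ∈ s, P x := by
  by_contra hc
  push Not at hc
  exact hs.ne' (measure_mono_null hc (ae_iff.1 h))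

private theorem SuppD_conv (D : Domain n) (j : ℕ) (x : E n) :
    convolution (SuppD_rho n j) (D.carrier.indicator fun _ => (1 : ℝ))
      (ContinuousLinearMap.lsmul ℝ ℝ) volume x = ∫ s in D.carrier, SuppD_rho n j (x - s) := by
  have h := integral_sub_left_eq_self
    (fun s => SuppD_rho n j (x - s) * D.carrier.indicator (fun _ => (1 : ℝ)) s)
    (volume : Measure (E n)) x
  have h2 : (∫ s in D.carrier, SuppD_rho n j (x - s)) =
      ∫ s, SuppD_rho n j (x - s) * D.carrier.indicator (fun _ => (1 : ℝ)) s := by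
    rw [← integral_indicator D.isOpen.measurableSet]
    refine integral_congr_ae (Eventually.of_forall fun s => ?_)
    by_cases hs : s ∈ D.carrier
    · simp only [indicator_of_mem hs, mul_one]
    · simp only [indicator_of_notMem hs, mul_zero]
  rw [h2, ← h]
  show (∫ t, SuppD_rho n j t • D.carrier.indicator (fun _ => (1 : ℝ)) (x - t)) = _
  refine integral_congr_ae (Eventually.of_forall fun t => ?_)
  show SuppD_rho n j t * D.carrier.indicator (fun _ => (1 : ℝ)) (x - t) =
    SuppD_rho n j (x - (x - t)) * D.carrier.indicator (fun _ => (1 : ℝ)) (x - t)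
  rw [sub_sub_cancel]

private theorem SuppD_fin (D : Domain n) : IsFiniteMeasure (volume.restrict D.carrier) :=
  ⟨by rw [Measure.restrict_apply_univ]; exact D.isBounded.measure_lt_top⟩

private theorem SuppD_int (D : Domain n) (j : ℕ) (y : E n) :
    Integrable (fun s => fderiv ℝ (SuppD_rho n j) (y - s)) (volume.restrict D.carrier) := by
  have := SuppD_fin D
  have hc : Continuous (fderiv ℝ (SuppD_rho n j)) := (SuppD_contDiff n j).continuous_fderiv one_ne_zero
  have h1 : Integrable (fderiv ℝ (SuppD_rho n j)) (volume : Measure (E n)) :=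
    hc.integrable_of_hasCompactSupport ((SuppD_compact n j).fderiv (𝕜 := ℝ))
  exact (h1.comp_sub_left y).integrableOn

private theorem SuppD_deriv (D : Domain n) (j : ℕ) (y : E n) :
    HasFDerivAt (fun y => ∫ s in D.carrier, SuppD_rho n j (y - s))
      (∫ s in D.carrier, fderiv ℝ (SuppD_rho n j) (y - s)) y := by
  have := SuppD_fin D
  have hc : Continuous (fderiv ℝ (SuppD_rho n j)) := (SuppD_contDiff n j).continuous_fderiv one_ne_zero
  obtain ⟨C, hC⟩ := hc.bounded_above_of_compact_support ((SuppD_compact n j).fderiv (𝕜 := ℝ))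
  have hρ : Continuous (SuppD_rho n j) := (SuppD_contDiff n j).continuous
  refine hasFDerivAt_integral_of_dominated_of_fderiv_le (s := univ)
    (F := fun y s => SuppD_rho n j (y - s))
    (F' := fun y s => fderiv ℝ (SuppD_rho n j) (y - s)) (bound := fun _ => C) univ_mem
    (Eventually.of_forall fun y => (hρ.comp (continuous_const.sub continuous_id)).aestronglyMeasurable)
    ?_ (hc.comp (continuous_const.sub continuous_id)).aestronglyMeasurable
    (Eventually.of_forall fun s y _ => hC _) (integrable_const C)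
    (Eventually.of_forall fun s y _ => ?_)
  · exact (((SuppD_bump n j).integrable_normed (μ := volume)).comp_sub_left y).integrableOn
  · have h1 : HasFDerivAt (SuppD_rho n j) (fderiv ℝ (SuppD_rho n j) (y - s)) (y - s) :=
      ((SuppD_contDiff n j).differentiable one_ne_zero _).hasFDerivAt
    exact h1.comp y ((hasFDerivAt_id y).sub_const s)

private theorem SuppD_divg (j : ℕ) (y e x : E n) :
    divg (fun x => SuppD_rho n j (y - x) • e) x = -(fderiv ℝ (SuppD_rho n j) (y - x) e) := by
  have h2 : HasFDerivAt (SuppD_rho n j) (fderiv ℝ (SuppD_rho n j) (y - x)) (y - x) :=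
    ((SuppD_contDiff n j).differentiable one_ne_zero _).hasFDerivAt
  have h3 : HasFDerivAt (fun x => y - x) (-(ContinuousLinearMap.id ℝ (E n))) x :=
    (hasFDerivAt_id x).const_sub y
  have h4 := (h2.comp x h3).smul_const e
  have h5 : fderiv ℝ (fun x => SuppD_rho n j (y - x) • e) x = _ := h4.fderiv
  have he : e = ∑ i : Fin n, e i • (EuclideanSpace.single i (1 : ℝ) : E n) := by
    ext k
    simp [Finset.sum_apply, Pi.single_apply]
  unfold divg tr
  rw [h5]
  conv_rhs => rw [he, map_sum, ← Finset.sum_neg_distrib]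
  refine Finset.sum_congr rfl fun i _ => ?_
  rw [map_smul]
  show (fderiv ℝ (SuppD_rho n j) (y - x)) (-(EuclideanSpace.single i (1 : ℝ) : E n)) * e i =
    -(e i * (fderiv ℝ (SuppD_rho n j) (y - x)) (EuclideanSpace.single i (1 : ℝ)))
  rw [map_neg]
  ring

private theorem SuppD_grad (D : Domain n) {z : E n} {δ : ℝ} (hS : D.surface (ball z δ) = 0)
    {j : ℕ} (hj : (SuppD_bump n j).rOut < δ / 2) {y : E n} (hy : y ∈ ball z (δ / 2)) :
    (∫ s in D.carrier, fderiv ℝ (SuppD_rho n j) (y - s)) = 0 := by
  ext e
  rw [ContinuousLinearMap.integral_apply (SuppD_int D j y)]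
  show (∫ s in D.carrier, fderiv ℝ (SuppD_rho n j) (y - s) e) = 0
  have h1 := D.divergence (fun x => SuppD_rho n j (y - x) • e)
    (((SuppD_contDiff n j).comp (contDiff_const.sub contDiff_id)).smul contDiff_const)
  have h2 : (∫ x, ⟪SuppD_rho n j (y - x) • e, D.normal x⟫ ∂D.surface) = 0 := by
    refine integral_eq_zero_of_ae ?_
    filter_upwards [measure_eq_zero_iff_ae_notMem.1 hS] with x hx
    have h3 : SuppD_rho n j (y - x) = 0 := by
      apply SuppD_zero
      rw [mem_ball, dist_eq_norm, not_lt] at hx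
      rw [mem_ball, dist_eq_norm] at hy
      have h4 : ‖x - z‖ ≤ ‖y - z‖ + ‖y - x‖ := by
        have e1 : x - z = (y - z) - (y - x) := by abel
        rw [e1]
        exact norm_sub_le _ _
      linarith
    rw [h3, zero_smul, inner_zero_left]
    rfl
  rw [h2] at h1
  have h5 : (∫ x in D.carrier, divg (fun x => SuppD_rho n j (y - x) • e) x) =
      -∫ x in D.carrier, fderiv ℝ (SuppD_rho n j) (y - x) e := by
    rw [← integral_neg]
    exact integral_congr_ae (Eventually.of_forall fun x => SuppD_divg j y e x)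
  rw [h5] at h1
  exact neg_eq_zero.1 h1

/-- PROOF: suppose `D.surface (ball z δ) = 0`. For every smooth `φ` supported in `ball z δ` and every `i`,
`D.divergence` for `X = φ • e_i` gives `∫_D ∂_i φ = 0`. With `φ x = ρ_ε (y - x)` (`ρ_ε` a `ContDiffBump`, `ε < δ / 2`) and
`y ∈ ball z (δ / 2)` this says that the smooth function `g_ε = 1_D * ρ_ε` has derivative `0` on `ball z (δ / 2)`, so it is
constant there. As `ε → 0`, `g_ε → 1_D` a.e. (`ContDiffBump.ae_convolution_tendsto_right_of_locallyIntegrable`),
so `1_D` is a.e. constant on `ball z (δ / 2)`, which contradicts the hypothesis for `δ / 2`. -/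
theorem supp_density (hn : 2 ≤ n) (D : Domain n) {z : E n}
    (hz : ∀ δ : ℝ, 0 < δ → 0 < volume (D.carrier ∩ ball z δ) ∧ 0 < volume (ball z δ \ D.carrier))
    {δ : ℝ} (hδ : 0 < δ) : 0 < D.surface (ball z δ) := by
  by_contra h0
  have hS : D.surface (ball z δ) = 0 := nonpos_iff_eq_zero.1 (not_lt.1 h0)
  have hδ2 : 0 < δ / 2 := half_pos hδ
  have hfin : volume D.carrier < ⊤ := D.isBounded.measure_lt_top
  have hloc : LocallyIntegrable (D.carrier.indicator fun _ => (1 : ℝ)) (volume : Measure (E n)) :=
    ((integrable_indicator_iff D.isOpen.measurableSet).2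
      (integrableOn_const hfin.ne)).locallyIntegrable
  have hae : ∀ᵐ x : E n, Tendsto (fun j => ∫ s in D.carrier, SuppD_rho n j (x - s)) atTop
      (𝓝 (D.carrier.indicator (fun _ => (1 : ℝ)) x)) := by
    have h1 := ContDiffBump.ae_convolution_tendsto_right_of_locallyIntegrable
      (φ := SuppD_bump n) (l := atTop) (K := 2) (μ := (volume : Measure (E n)))
      (SuppD_rOut n) (Eventually.of_forall fun j => by
        show 1 / ((j : ℝ) + 1) ≤ 2 * (1 / ((j : ℝ) + 1) / 2)
        linarith) hloc
    filter_upwards [h1] with x hx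
    exact hx.congr fun j => SuppD_conv D j x
  obtain ⟨x, hx, hx'⟩ := SuppD_ex (hz (δ / 2) hδ2).1 hae
  obtain ⟨y, hy, hy'⟩ := SuppD_ex (hz (δ / 2) hδ2).2 hae
  rw [indicator_of_mem hx.1] at hx'
  rw [indicator_of_notMem hy.2] at hy'
  have hev : ∀ᶠ j in atTop, (∫ s in D.carrier, SuppD_rho n j (x - s)) =
      ∫ s in D.carrier, SuppD_rho n j (y - s) := by
    filter_upwards [(SuppD_rOut n).eventually (gt_mem_nhds hδ2)] with j hj
    exact isOpen_ball.is_const_of_fderiv_eq_zero (convex_ball z (δ / 2)).isPreconnected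
      (f := fun y => ∫ s in D.carrier, SuppD_rho n j (y - s))
      (fun w _ => (SuppD_deriv D j w).differentiableAt.differentiableWithinAt)
      (fun w hw => by rw [(SuppD_deriv D j w).fderiv]; exact SuppD_grad D hS hj hw) hx.2 hy.1
  exact one_ne_zero (tendsto_nhds_unique (hx'.congr' hev) hy')

end Pool.Agent.RH
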