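import Pool.Agent.H.MP_1b807b_an.HO.SurfIn
import Pool.Agent.H.MP_1b807b_an.HO.SuppD
import Pool.Agent.H.MP_1b807b_an.HO.SphVol
import Pool.Agent.H.MP_1b807b_an.HO.Class

/-! MP_1b807b_an, balls with holes, module CvxGeo: balls with convex holes -/

set_option autoImplicit false

namespace Pool.Agent.RH

open MeasureTheory Metric Set Filter Pool.Agent.RG
open scoped RealInnerProductSpace Topology

variable {n : ℕ}

/-- PROOF: the compact sets `K i` and the closed set `(ball x₀ R)ᶜ` are pairwise disjoint, finitely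
many, so there is `ε > 0` smaller than all distances (also `ε < R`). -/
theorem cvx_iso {S : Set (E n)} {x₀ : E n} {R : ℝ} {m : ℕ} {K : Fin m → Set (E n)}
    (h : CvxHoles S x₀ R m K) : ∃ ε : ℝ, 0 < ε ∧ ε < R ∧
      (∀ i x, infDist x (K i) < ε → x ∉ K i → x ∈ S) ∧
      (∀ x, R - ε < dist x x₀ → dist x x₀ < R + ε → (x ∈ S ↔ dist x x₀ < R)) := by
  have hcl : IsClosed (⋃ i, K i) := isClosed_iUnion_of_finite fun i => (h.compact i).isClosed
  obtain ⟨R', hR', hsub⟩ := exists_lt_subset_ball hcl (iUnion_subset h.sub)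
  have hδ : ∀ i, ∃ δ : ℝ, 0 < δ ∧
      Metric.cthickening δ (K i) ⊆ ball x₀ R \ ⋃ (j : Fin m) (_ : j ≠ i), K j := by
    intro i
    have hU : IsOpen (ball x₀ R \ ⋃ (j : Fin m) (_ : j ≠ i), K j) :=
      isOpen_ball.sdiff (isClosed_iUnion_of_finite fun j =>
        isClosed_iUnion_of_finite fun _ => (h.compact j).isClosed)
    have hKU : K i ⊆ ball x₀ R \ ⋃ (j : Fin m) (_ : j ≠ i), K j := by
      intro x hx
      refine ⟨h.sub i hx, fun hx2 => ?_⟩
      obtain ⟨j, hx3⟩ := mem_iUnion.1 hx2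
      obtain ⟨hj, hx4⟩ := mem_iUnion.1 hx3
      exact Set.disjoint_left.1 (h.disj j i hj) hx4 hx
    obtain ⟨δ, hδ, hs⟩ := (h.compact i).exists_cthickening_subset_open hU hKU
    exact ⟨δ, hδ, hs⟩
  choose δ hδ0 hδs using hδ
  have hev : ∀ᶠ ε : ℝ in 𝓝[>] 0, 0 < ε ∧ ε < R ∧ ε < R - R' ∧ ∀ i, ε < δ i := by
    have h1 : ∀ c : ℝ, 0 < c → ∀ᶠ ε : ℝ in 𝓝[>] 0, ε < c := fun c hc =>
      (Ioo_mem_nhdsGT hc : Ioo (0 : ℝ) c ∈ 𝓝[>] 0) |> fun hm =>
        Filter.mem_of_superset hm fun x hx => hx.2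
    have h2 : ∀ᶠ ε : ℝ in 𝓝[>] 0, ∀ i, ε < δ i :=
      Filter.eventually_all.2 fun i => h1 _ (hδ0 i)
    filter_upwards [self_mem_nhdsWithin, h1 R h.Rpos, h1 (R - R') (by linarith), h2]
      with ε a b c d
    exact ⟨a, b, c, d⟩
  obtain ⟨ε, hε0, hεR, hεR', hεδ⟩ := hev.exists
  refine ⟨ε, hε0, hεR, fun i x hx hxK => ?_, fun x hx1 _ => ?_⟩
  · have hne : (K i).Nonempty := (h.int i).mono interior_subset
    have hx1 : x ∈ Metric.cthickening (δ i) (K i) := by
      refine Metric.mem_cthickening_of_dist_le x (Classical.choose ((Metric.infDist_lt_iff hne).1 hx))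
        (δ i) (K i) ?_ ?_
      · exact (Classical.choose_spec ((Metric.infDist_lt_iff hne).1 hx)).1
      · exact ((Classical.choose_spec ((Metric.infDist_lt_iff hne).1 hx)).2.trans (hεδ i)).le
    have hx2 := hδs i hx1
    rw [h.eq, Set.mem_sdiff]
    refine ⟨hx2.1, fun hx3 => ?_⟩
    obtain ⟨j, hx4⟩ := mem_iUnion.1 hx3
    by_cases hj : j = i
    · subst hj
      exact hxK hx4
    · exact hx2.2 (mem_iUnion.2 ⟨j, mem_iUnion.2 ⟨hj, hx4⟩⟩)
  · have hx3 : x ∉ ⋃ i, K i := fun hx4 => by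
      have hx5 := mem_ball.1 (hsub hx4)
      linarith
    rw [h.eq, Set.mem_sdiff, mem_ball]
    exact ⟨fun hx => hx.1, fun hx => ⟨hx, hx3⟩⟩

/-- PROOF: `surf_inside` with `cvx_iso`; `sphere x₀ R ⊆ (ball x₀ R)ᶜ`. -/
theorem cvx_surf0 (hn : 2 ≤ n) (D : Domain n) {x₀ : E n} {R : ℝ} {m : ℕ} {K : Fin m → Set (E n)}
    (h : CvxHoles D.carrier x₀ R m K) :
    n * om n * R ^ (n - 1) ≤ D.surface.real (ball x₀ R)ᶜ := by
  have := D.isFinite
  obtain ⟨ε, hε0, hεR, -, h2⟩ := cvx_iso h
  refine (surf_inside (y := x₀) hn D hε0 hεR h2).trans (measureReal_mono fun x hx => ?_)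
  rw [mem_sphere] at hx
  rw [mem_compl_iff, mem_ball, hx]
  exact lt_irrefl _

/-- PROOF: `Convex.addHaar_frontier`; volumes of disjoint sets. -/
theorem cvx_vol (hn : 2 ≤ n) {S : Set (E n)} {x₀ : E n} {R : ℝ} {m : ℕ} {K : Fin m → Set (E n)}
    (h : CvxHoles S x₀ R m K) : volume.real S = om n * R ^ n - ∑ i, volume.real (K i) := by
  have h1 : (⋃ i, K i) ⊆ ball x₀ R := iUnion_subset h.sub
  have h2 : MeasurableSet (⋃ i, K i) :=
    MeasurableSet.iUnion fun i => (h.compact i).isClosed.measurableSet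
  have h3 : volume.real (⋃ i, K i) = ∑ i, volume.real (K i) :=
    measureReal_iUnion_fintype (fun i j hij => h.disj i j hij)
      (fun i => (h.compact i).isClosed.measurableSet) (fun i => (h.compact i).measure_lt_top.ne)
  have h4 := measureReal_sdiff_add_inter (μ := volume) (s := ball x₀ R) h2
    measure_ball_lt_top.ne
  rw [inter_eq_self_of_subset_right h1, h3, (vol_ball hn x₀ h.Rpos.le).1] at h4
  rw [h.eq]
  linarith

/-- PROOF: `supp_density`. The frontier of `D` consists of the sphere of radius `R` and the frontiers of the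
`K i` (`cvx_iso`). Near a point `z` of the sphere: `D` contains `ball z δ ∩ ball x₀ R` for small `δ` (a nonempty open set), and the
complement contains the nonempty open set `ball z δ \ closedBall x₀ R`. Near `z ∈ frontier (K i)`: the complement of
`D` contains `ball z δ ∩ interior (K i)`, nonempty open as `K i` is convex with interior points
(`Convex.closure_interior_eq_closure_of_nonempty_interior`), and `D` contains `ball z δ \ K i` (nonempty, open). -/
theorem cvx_supp (hn : 2 ≤ n) (D : Domain n) {x₀ : E n} {R : ℝ} {m : ℕ} {K : Fin m → Set (E n)}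
    (h : CvxHoles D.carrier x₀ R m K) :
    ∀ z ∈ frontier D.carrier, ∀ δ : ℝ, 0 < δ → 0 < D.surface (ball z δ) := by
  intro z hz δ hδ
  refine supp_density hn D (fun ρ hρ => ⟨?_, ?_⟩) hδ
  · refine (D.isOpen.inter isOpen_ball).measure_pos volume ?_
    obtain ⟨y, hy1, hy2⟩ := mem_closure_iff.1 (frontier_subset_closure hz) (ball z ρ) isOpen_ball
      (mem_ball_self hρ)
    exact ⟨y, hy2, hy1⟩
  · have hzD : z ∉ D.carrier := by
      rw [D.isOpen.frontier_eq] at hz
      exact hz.2
    by_cases hzb : z ∈ ball x₀ R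
    · have hzK : z ∈ ⋃ i, K i := by
        by_contra hc
        exact hzD (by rw [h.eq]; exact ⟨hzb, hc⟩)
      obtain ⟨i, hi⟩ := mem_iUnion.1 hzK
      have hcl : z ∈ closure (interior (K i)) := by
        rw [(h.convex i).closure_interior_eq_closure_of_nonempty_interior (h.int i)]
        exact subset_closure hi
      obtain ⟨y, hy1, hy2⟩ := mem_closure_iff.1 hcl (ball z ρ) isOpen_ball (mem_ball_self hρ)
      have hpos : 0 < volume (ball z ρ ∩ interior (K i)) :=
        (isOpen_ball.inter isOpen_interior).measure_pos volume ⟨y, hy1, hy2⟩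
      refine hpos.trans_le (measure_mono fun w hw => ⟨hw.1, fun hwD => ?_⟩)
      rw [h.eq] at hwD
      exact hwD.2 (mem_iUnion.2 ⟨i, interior_subset hw.2⟩)
    · rw [mem_ball, not_lt] at hzb
      have hd0 : 0 < dist z x₀ := h.Rpos.trans_le hzb
      have hn0 : ‖z - x₀‖ = dist z x₀ := (dist_eq_norm z x₀).symm
      obtain ⟨t, ht0, ht⟩ : ∃ t : ℝ, 0 < t ∧ t * dist z x₀ < ρ := by
        refine ⟨ρ / (2 * dist z x₀), by positivity, ?_⟩
        rw [div_mul_eq_mul_div, div_lt_iff₀ (by positivity)]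
        nlinarith
      have hpos : 0 < volume (ball z ρ \ closedBall x₀ R) := by
        refine (isOpen_ball.sdiff isClosed_closedBall).measure_pos volume
          ⟨z + t • (z - x₀), ?_, ?_⟩
        · rw [mem_ball, dist_eq_norm, add_sub_cancel_left, norm_smul, hn0, Real.norm_eq_abs,
            abs_of_pos ht0]
          exact ht
        · rw [mem_closedBall, dist_eq_norm, not_le]
          have e : z + t • (z - x₀) - x₀ = (1 + t) • (z - x₀) := by
            rw [add_smul, one_smul]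
            abel
          rw [e, norm_smul, hn0, Real.norm_eq_abs, abs_of_pos (by linarith)]
          nlinarith
      refine hpos.trans_le (measure_mono fun w hw => ⟨hw.1, fun hwD => ?_⟩)
      rw [h.eq] at hwD
      exact hw.2 (ball_subset_closedBall hwD.1)

end Pool.Agent.RH
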