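import Pool.Agent.H.MP_1b807b_an.HO.HoleDiv
import Pool.Agent.H.MP_1b807b_an.HO.SphVol
import Pool.Agent.H.MP_1b807b_an.G.Transport
import Pool.Agent.H.MP_1b807b_an.G.Limit

/-! MP_1b807b_an, balls with holes, module HoleIso: the isoperimetric inequality of a hole -/

set_option autoImplicit false

namespace Pool.Agent.RH

open MeasureTheory Metric Set Filter Pool.Agent.RG
open scoped RealInnerProductSpace Topology NNReal

variable {n : ℕ}

private theorem HoleIso_tr : Continuous (tr : (E n →L[ℝ] E n) → ℝ) := by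
  unfold tr
  refine continuous_finsetSum _ fun i _ => ?_
  have h1 : Continuous fun A : E n →L[ℝ] E n => A (EuclideanSpace.single i 1) :=
    continuous_id.clm_apply continuous_const
  exact (EuclideanSpace.proj (𝕜 := ℝ) i).continuous.comp h1

private theorem HoleIso_bd {A : E n →L[ℝ] E n} {C : ℝ≥0} (h : ‖A‖ ≤ C) :
    ‖tr A‖ ≤ ∑ _i : Fin n, (C : ℝ) := by
  unfold tr
  refine (norm_sum_le _ _).trans (Finset.sum_le_sum fun i _ => ?_)
  refine (PiLp.norm_apply_le _ i).trans ((A.le_opNorm _).trans ?_)
  rw [EuclideanSpace.norm_single, norm_one, mul_one]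
  exact h

/-- PROOF: if `ρ = 0` trivial. Otherwise `interior K` is open, bounded, `volume (interior K) =
volume K = volume (ball 0 ρ)`; `exists_transport` gives `T` with `‖T‖ ≤ ρ`, `tr (fderiv T) ≥ n` a.e. on
`interior K`. `hole_div`: `n |K| ≤ ∫_K tr (fderiv T) = - ∫_K ⟪T, normal⟫ ≤ ρ D.surface.real K`. Divide
by `ρ`. -/
theorem hole_iso (hn : 2 ≤ n) (D : Domain n) {K : Set (E n)} (hK : IsCompact K)
    (hKD : Disjoint K D.carrier) {ε : ℝ} (hε : 0 < ε)
    (hiso : ∀ x, infDist x K < ε → x ∉ K → x ∈ D.carrier) (hnull : volume (frontier K) = 0)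
    {ρ : ℝ} (hρ : 0 ≤ ρ) (hv : volume.real K = om n * ρ ^ n) :
    n * om n * ρ ^ (n - 1) ≤ D.surface.real K := by
  have hDf := D.isFinite
  rcases hρ.eq_or_lt with h0 | hρ0
  · rw [← h0, zero_pow (by omega), mul_zero]
    exact measureReal_nonneg
  have hKfin : volume K ≠ ⊤ := hK.measure_lt_top.ne
  -- the interior
  have hae : interior K =ᵐ[volume] K := by
    have hfr : frontier K = K \ interior K := by
      rw [frontier, hK.isClosed.closure_eq]
    rw [hfr] at hnull
    refine (ae_eq_set.2 ⟨?_, hnull⟩)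
    rw [diff_eq_empty.2 interior_subset]
    exact measure_empty
  have hvi : volume (interior K) = volume (ball (0 : E n) ρ) := by
    rw [measure_congr hae]
    have h1 : volume.real K = volume.real (ball (0 : E n) ρ) := by
      rw [hv, (vol_ball hn 0 hρ0.le).1]
    rw [measureReal_def, measureReal_def] at h1
    exact (ENNReal.toReal_eq_toReal_iff' hKfin measure_ball_lt_top.ne).1 h1
  obtain ⟨A, T, hT⟩ := exists_transport (by omega : 1 ≤ n) hρ0 isOpen_interior
    (hK.isBounded.subset interior_subset) hvi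
  have hdiv := hole_div hn D hK hKD hε hiso hT.lip hT.norm_le
  -- the lower bound
  have htr := hT.tr_ge
  rw [Measure.restrict_congr_set hae] at htr
  have hfin : IsFiniteMeasure (volume.restrict K) :=
    ⟨by rw [Measure.restrict_apply_univ]; exact hK.measure_lt_top⟩
  have hint : Integrable (fun x => tr (fderiv ℝ T x)) (volume.restrict K) := by
    refine Integrable.of_bound (C := ∑ _i : Fin n, ((2 * n : ℝ≥0) : ℝ))
      (HoleIso_tr.measurable.comp (measurable_fderiv ℝ T)).aestronglyMeasurable
      (Eventually.of_forall fun x => ?_)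
    exact HoleIso_bd (norm_fderiv_le_of_lipschitz ℝ hT.lip)
  have h1 : (n : ℝ) * volume.real K ≤ ∫ x in K, tr (fderiv ℝ T x) := by
    have h2 := integral_mono_ae (integrable_const (n : ℝ)) hint htr
    rw [integral_const, measureReal_restrict_apply_univ, smul_eq_mul, mul_comm] at h2
    exact h2
  -- the upper bound
  have hfs : IsFiniteMeasure (D.surface.restrict K) := inferInstance
  have hnb : ∀ᵐ x ∂(D.surface.restrict K), ‖-⟪T x, D.normal x⟫‖ ≤ ρ := by
    refine (ae_restrict_of_ae D.norm_normal).mono fun x hx => ?_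
    rw [norm_neg]
    refine (norm_inner_le_norm _ _).trans ?_
    rw [hx, mul_one]
    exact hT.norm_le x
  have hint2 : Integrable (fun x => -⟪T x, D.normal x⟫) (D.surface.restrict K) :=
    Integrable.of_bound (C := ρ)
      ((hT.lip.continuous.measurable.inner D.measurable_normal).neg.aestronglyMeasurable) hnb
  have h3 : - ∫ x in K, ⟪T x, D.normal x⟫ ∂D.surface ≤ ρ * D.surface.real K := by
    rw [← integral_neg]
    have h4 := integral_mono_ae hint2 (integrable_const ρ)
      (hnb.mono fun x hx => (le_abs_self _).trans hx)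
    rw [integral_const, measureReal_restrict_apply_univ, smul_eq_mul, mul_comm] at h4
    exact h4
  -- conclusion
  have h5 : (n : ℝ) * (om n * ρ ^ n) ≤ ρ * D.surface.real K := by
    rw [← hv]
    exact h1.trans (hdiv.le.trans h3)
  have h6 : ρ ^ n = ρ * ρ ^ (n - 1) := by
    rw [← pow_succ']
    congr 1
    omega
  rw [h6] at h5
  have h7 : ρ * (n * om n * ρ ^ (n - 1)) ≤ ρ * D.surface.real K := by
    calc ρ * (n * om n * ρ ^ (n - 1)) = (n : ℝ) * (om n * (ρ * ρ ^ (n - 1))) := by ring
      _ ≤ _ := h5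
  exact le_of_mul_le_mul_left h7 hρ0

end Pool.Agent.RH
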