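import Pool.Agent.H.MP_1b807b_an.HO.SphVol
import Pool.Agent.H.MP_1b807b_an.G.Moll

/-! MP_1b807b_an, balls with holes, module RigB: equality in the isoperimetric inequality of a hole,
the interior -/

set_option autoImplicit false

namespace Pool.Agent.RH

open MeasureTheory Metric Set Filter Pool.Agent.RG
open scoped RealInnerProductSpace Topology NNReal

variable {n : ℕ}

/-- a connected component of an open set is closed in it -/
private theorem RigB_comp {U : Set (E n)} {x z : E n} (hx : x ∈ U) (hz : z ∈ U)
    (hzc : z ∈ closure (connectedComponentIn U x)) : z ∈ connectedComponentIn U x := by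
  have h1 : IsPreconnected (insert z (connectedComponentIn U x)) :=
    isPreconnected_connectedComponentIn.subset_closure (subset_insert _ _)
      (insert_subset hzc subset_closure)
  exact h1.subset_connectedComponentIn (mem_insert_of_mem _ (mem_connectedComponentIn hx))
    (insert_subset hz (connectedComponentIn_subset _ _)) (mem_insert _ _)

/-- PROOF: `volume (interior K) = volume K > 0`, take `x₁ ∈ interior K` and
`C = connectedComponentIn (interior K) x₁`, open, connected. `translation_of_fderiv` (`G/Moll.lean`):
`T x = x - a` on `C`, and on `closure C` by continuity. `C ⊆ closedBall a ρ`, so `C ⊆ ball a ρ` (open).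
`frontier C ⊆ frontier K` (`C` is a component of the open set `interior K`, so it is closed in it), where
`‖T‖ = ρ`: so `frontier C ⊆ sphere a ρ`. Hence `C` is closed in the connected set `ball a ρ`, and
`C = ball a ρ`. Its volume is that of `interior K`; `interior K \ C` is open (union of the other
components) of volume `0`, so it is empty. -/
theorem rig_ball (hn : 2 ≤ n) {K : Set (E n)} (hK : IsCompact K) (hnull : volume (frontier K) = 0)
    {ρ : ℝ} (hρ : 0 < ρ) (hv : volume.real K = om n * ρ ^ n) {L : ℝ≥0} {T : E n → E n}
    (hT : LipschitzWith L T) (hTR : ∀ x, ‖T x‖ ≤ ρ)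
    (hid : ∀ᵐ x ∂(volume.restrict (interior K)), fderiv ℝ T x = ContinuousLinearMap.id ℝ (E n))
    (hfr : ∀ z ∈ frontier K, ‖T z‖ = ρ) : ∃ a : E n, interior K = ball a ρ := by
  have hKf : volume K ≠ ⊤ := hK.measure_lt_top.ne
  have hvi : volume (interior K) = volume K := by
    refine le_antisymm (measure_mono interior_subset) ?_
    calc volume K ≤ volume (interior K ∪ frontier K) := by
          refine measure_mono fun x hx => ?_
          by_cases h : x ∈ interior K
          · exact Or.inl h
          · exact Or.inr (hK.isClosed.frontier_eq ▸ ⟨hx, h⟩)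
      _ ≤ volume (interior K) + volume (frontier K) := measure_union_le _ _
      _ = volume (interior K) := by rw [hnull, add_zero]
  have hpos : 0 < volume.real K := by
    rw [hv]; exact mul_pos (om_pos n) (pow_pos hρ n)
  obtain ⟨x₁, hx₁⟩ : (interior K).Nonempty := by
    by_contra hne
    rw [not_nonempty_iff_eq_empty] at hne
    rw [measureReal_def, ← hvi, hne, measure_empty] at hpos
    simp at hpos
  set C : Set (E n) := connectedComponentIn (interior K) x₁ with hC
  have hCo : IsOpen C := isOpen_interior.connectedComponentIn
  have hCc : IsPreconnected C := isPreconnected_connectedComponentIn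
  have hCs : C ⊆ interior K := connectedComponentIn_subset _ _
  have hx₁C : x₁ ∈ C := mem_connectedComponentIn hx₁
  obtain ⟨a, ha⟩ := translation_of_fderiv hT hCo hCc
    (ae_mono (Measure.restrict_mono hCs le_rfl) hid)
  have hacl : ∀ x ∈ closure C, T x = x - a := by
    intro x hx
    have hcl : IsClosed {x : E n | T x = x - a} :=
      isClosed_eq hT.continuous (continuous_id.sub continuous_const)
    exact closure_minimal (fun x hx => ha x hx) hcl hx
  have hCball : C ⊆ ball a ρ := by
    have h1 : C ⊆ closedBall a ρ := by
      intro x hx
      rw [mem_closedBall, dist_eq_norm, ← ha x hx]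
      exact hTR x
    have h2 := interior_mono h1
    rwa [hCo.interior_eq, interior_closedBall a hρ.ne'] at h2
  have hclosed : ∀ z ∈ interior K, z ∈ closure C → z ∈ C := fun z hz hzc =>
    RigB_comp hx₁ hz hzc
  have hfrC : ∀ z ∈ frontier C, z ∉ ball a ρ := by
    intro z hz
    rw [hCo.frontier_eq] at hz
    have hzK : z ∈ frontier K := by
      rw [hK.isClosed.frontier_eq]
      refine ⟨?_, fun hzi => hz.2 (hclosed z hzi hz.1)⟩
      exact closure_minimal (hCs.trans interior_subset) hK.isClosed hz.1
    have h1 := hfr z hzK
    rw [hacl z hz.1] at h1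
    rw [mem_ball, dist_eq_norm, h1]
    exact lt_irrefl _
  have hCeq : C = ball a ρ := by
    refine Subset.antisymm hCball ?_
    refine (convex_ball a ρ).isPreconnected.subset_of_closure_inter_subset hCo
      ⟨x₁, hCball hx₁C, hx₁C⟩ ?_
    rintro z ⟨hz, hzb⟩
    by_contra hzC
    exact hfrC z (hCo.frontier_eq ▸ ⟨hz, hzC⟩) hzb
  refine ⟨a, ?_⟩
  rw [← hCeq]
  refine Subset.antisymm ?_ hCs
  have hopen : IsOpen (interior K \ closure C) := isOpen_interior.sdiff isClosed_closure
  have hsub : interior K \ closure C ⊆ interior K \ C := sdiff_subset_sdiff_right subset_closure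
  have hvC : volume (interior K \ C) = 0 := by
    have hb : volume C = volume (interior K) := by
      have h1 : volume.real C = volume.real (interior K) := by
        rw [measureReal_def (s := interior K), hvi, ← measureReal_def, hv, hCeq,
          (vol_ball hn a hρ.le).1]
      have hCf : volume C ≠ ⊤ := measure_ne_top_of_subset (hCs.trans interior_subset) hKf
      have hIf : volume (interior K) ≠ ⊤ := by rw [hvi]; exact hKf
      rw [measureReal_def, measureReal_def] at h1
      exact (ENNReal.toReal_eq_toReal_iff' hCf hIf).1 h1
    rw [measure_sdiff hCs hCo.measurableSet.nullMeasurableSet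
      (measure_ne_top_of_subset (hCs.trans interior_subset) hKf), hb, tsub_self]
  have hempty : interior K \ closure C = ∅ := by
    rw [← hopen.measure_eq_zero_iff volume]
    exact measure_mono_null hsub hvC
  intro z hz
  by_contra hzC
  have : z ∈ interior K \ closure C := ⟨hz, fun h => hzC (hclosed z hz h)⟩
  rw [hempty] at this
  exact this

end Pool.Agent.RH
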