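import Pool.Agent.H.MP_1b807b_an.HO.RigA
import Pool.Agent.H.MP_1b807b_an.HO.SphVol

/-! MP_1b807b_an, balls with holes, module RigC: equality in the isoperimetric inequality of a hole,
the hole is a closed ball -/

set_option autoImplicit false

namespace Pool.Agent.RH

open MeasureTheory Metric Set Filter Pool.Agent.RG
open scoped RealInnerProductSpace Topology NNReal

variable {n : ℕ}

/-- the radial projection to the closed ball of radius `ρ` -/
private noncomputable def RigC_P (ρ : ℝ) (y : E n) : E n := (ρ / max ρ ‖y‖) • y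

private theorem RigC_P_of_le {ρ : ℝ} (hρ : 0 < ρ) {y : E n} (hy : ‖y‖ ≤ ρ) : RigC_P ρ y = y := by
  unfold RigC_P
  rw [max_eq_left hy, div_self hρ.ne', one_smul]

private theorem RigC_P_norm {ρ : ℝ} (hρ : 0 < ρ) (y : E n) : ‖RigC_P ρ y‖ ≤ ρ := by
  have h1 : 0 < max ρ ‖y‖ := lt_max_of_lt_left hρ
  unfold RigC_P
  rw [norm_smul, Real.norm_of_nonneg (by positivity), div_mul_eq_mul_div, div_le_iff₀ h1]
  exact mul_le_mul_of_nonneg_left (le_max_right _ _) hρ.le

private theorem RigC_P_lip {ρ : ℝ} (hρ : 0 < ρ) (y y' : E n) :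
    ‖RigC_P ρ y - RigC_P ρ y'‖ ≤ 2 * ‖y - y'‖ := by
  have h1 : 0 < max ρ ‖y‖ := lt_max_of_lt_left hρ
  have h2 : 0 < max ρ ‖y'‖ := lt_max_of_lt_left hρ
  unfold RigC_P
  have h3 : (ρ / max ρ ‖y‖) • y - (ρ / max ρ ‖y'‖) • y' =
      (ρ / max ρ ‖y‖) • (y - y') + (ρ / max ρ ‖y‖ - ρ / max ρ ‖y'‖) • y' := by
    rw [smul_sub, sub_smul]; abel
  rw [h3]
  refine (norm_add_le _ _).trans ?_
  rw [norm_smul, norm_smul, Real.norm_of_nonneg (by positivity : 0 ≤ ρ / max ρ ‖y‖),
    Real.norm_eq_abs]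
  have h4 : ρ / max ρ ‖y‖ ≤ 1 := (div_le_one h1).2 (le_max_left _ _)
  have h5 : ρ / max ρ ‖y‖ * ‖y - y'‖ ≤ 1 * ‖y - y'‖ :=
    mul_le_mul_of_nonneg_right h4 (norm_nonneg _)
  have h6 : |max ρ ‖y'‖ - max ρ ‖y‖| ≤ ‖y - y'‖ := by
    have h7 : |max ρ ‖y'‖ - max ρ ‖y‖| ≤ |‖y'‖ - ‖y‖| := by
      rw [max_comm ρ, max_comm ρ]
      exact abs_max_sub_max_le_abs _ _ _
    refine h7.trans ?_
    rw [← norm_neg (y - y'), neg_sub]
    exact abs_norm_sub_norm_le _ _
  have h8 : |ρ / max ρ ‖y‖ - ρ / max ρ ‖y'‖| * ‖y'‖ ≤ ‖y - y'‖ := by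
    have h9 : ρ / max ρ ‖y‖ - ρ / max ρ ‖y'‖ =
        (max ρ ‖y'‖ - max ρ ‖y‖) * (ρ / (max ρ ‖y‖ * max ρ ‖y'‖)) := by
      field_simp
    rw [h9, abs_mul, abs_of_nonneg (by positivity : 0 ≤ ρ / (max ρ ‖y‖ * max ρ ‖y'‖)), mul_assoc]
    have h10 : ρ / (max ρ ‖y‖ * max ρ ‖y'‖) * ‖y'‖ ≤ 1 := by
      rw [div_mul_eq_mul_div, div_le_one (by positivity)]
      exact mul_le_mul (le_max_left _ _) (le_max_right _ _) (norm_nonneg _) h1.le
    calc |max ρ ‖y'‖ - max ρ ‖y‖| * (ρ / (max ρ ‖y‖ * max ρ ‖y'‖) * ‖y'‖) ≤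
        |max ρ ‖y'‖ - max ρ ‖y‖| * 1 := mul_le_mul_of_nonneg_left h10 (abs_nonneg _)
      _ ≤ ‖y - y'‖ := by rw [mul_one]; exact h6
  linarith

/-- the cutoff function: zero on the ball of radius `δ` about `z`, one outside the ball of radius
`2 δ` -/
private noncomputable def RigC_phi (z : E n) (δ : ℝ) (x : E n) : ℝ :=
  max 0 (min 1 (dist x z / δ - 1))

private theorem RigC_phi_nonneg (z : E n) (δ : ℝ) (x : E n) : 0 ≤ RigC_phi z δ x :=
  le_max_left _ _

private theorem RigC_phi_le (z : E n) (δ : ℝ) (x : E n) : RigC_phi z δ x ≤ 1 :=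
  max_le zero_le_one (min_le_left _ _)

private theorem RigC_phi_zero {z : E n} {δ : ℝ} (hδ : 0 < δ) {x : E n} (h : dist x z ≤ δ) :
    RigC_phi z δ x = 0 := by
  have h1 : dist x z / δ ≤ 1 := (div_le_one hδ).2 h
  unfold RigC_phi
  rw [min_eq_right (by linarith), max_eq_left (by linarith)]

private theorem RigC_phi_one {z : E n} {δ : ℝ} (hδ : 0 < δ) {x : E n} (h : 2 * δ ≤ dist x z) :
    RigC_phi z δ x = 1 := by
  have h1 : 2 ≤ dist x z / δ := (le_div_iff₀ hδ).2 h
  unfold RigC_phi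
  rw [min_eq_left (by linarith), max_eq_right zero_le_one]

private theorem RigC_phi_lip {z : E n} {δ : ℝ} (hδ : 0 < δ) (x y : E n) :
    |RigC_phi z δ x - RigC_phi z δ y| ≤ 1 / δ * ‖x - y‖ := by
  unfold RigC_phi
  have h1 : |max 0 (min 1 (dist x z / δ - 1)) - max 0 (min 1 (dist y z / δ - 1))| ≤
      |min 1 (dist x z / δ - 1) - min 1 (dist y z / δ - 1)| := by
    rw [max_comm 0, max_comm 0]
    exact abs_max_sub_max_le_abs _ _ _
  have h2 : |min 1 (dist x z / δ - 1) - min 1 (dist y z / δ - 1)| ≤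
      |(dist x z / δ - 1) - (dist y z / δ - 1)| := by
    have h5 := abs_min_sub_min_le_max 1 (dist x z / δ - 1) 1 (dist y z / δ - 1)
    rw [sub_self, abs_zero, max_eq_right (abs_nonneg _)] at h5
    exact h5
  have h3 : |dist x z - dist y z| ≤ ‖x - y‖ := by
    rw [← dist_eq_norm]
    exact abs_dist_sub_le x y z
  have h4 : (dist x z / δ - 1) - (dist y z / δ - 1) = 1 / δ * (dist x z - dist y z) := by ring
  rw [h4, abs_mul, abs_of_pos (by positivity : 0 < 1 / δ)] at h2
  exact h1.trans (h2.trans (mul_le_mul_of_nonneg_left h3 (by positivity)))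

/-- the test field -/
private noncomputable def RigC_T (a z : E n) (ρ δ : ℝ) (x : E n) : E n :=
  RigC_phi z δ x • RigC_P ρ (x - a)

private theorem RigC_T_norm {a z : E n} {ρ δ : ℝ} (hρ : 0 < ρ) (x : E n) :
    ‖RigC_T a z ρ δ x‖ ≤ ρ := by
  unfold RigC_T
  rw [norm_smul, Real.norm_of_nonneg (RigC_phi_nonneg z δ x)]
  exact (mul_le_of_le_one_left (norm_nonneg _) (RigC_phi_le z δ x)).trans (RigC_P_norm hρ _)

private theorem RigC_T_lip {a z : E n} {ρ δ : ℝ} (hρ : 0 < ρ) (hδ : 0 < δ) :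
    LipschitzWith (Real.toNNReal (1 / δ * ρ + 2)) (RigC_T a z ρ δ) := by
  refine LipschitzWith.of_dist_le_mul fun x y => ?_
  rw [Real.coe_toNNReal _ (by positivity), dist_eq_norm, dist_eq_norm]
  unfold RigC_T
  have h1 : RigC_phi z δ x • RigC_P ρ (x - a) - RigC_phi z δ y • RigC_P ρ (y - a) =
      (RigC_phi z δ x - RigC_phi z δ y) • RigC_P ρ (x - a) +
        RigC_phi z δ y • (RigC_P ρ (x - a) - RigC_P ρ (y - a)) := by
    rw [sub_smul, smul_sub]; abel
  rw [h1]
  refine (norm_add_le _ _).trans ?_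
  rw [norm_smul, norm_smul, Real.norm_eq_abs, Real.norm_of_nonneg (RigC_phi_nonneg z δ y),
    add_mul]
  have h2 : |RigC_phi z δ x - RigC_phi z δ y| * ‖RigC_P ρ (x - a)‖ ≤ 1 / δ * ‖x - y‖ * ρ :=
    mul_le_mul (RigC_phi_lip hδ x y) (RigC_P_norm hρ _) (norm_nonneg _) (by positivity)
  have h3 : RigC_phi z δ y * ‖RigC_P ρ (x - a) - RigC_P ρ (y - a)‖ ≤ 2 * ‖x - y‖ := by
    have h4 := RigC_P_lip hρ (x - a) (y - a)
    rw [sub_sub_sub_cancel_right] at h4
    exact (mul_le_of_le_one_left (norm_nonneg _) (RigC_phi_le z δ y)).trans h4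
  have h5 : 1 / δ * ‖x - y‖ * ρ = 1 / δ * ρ * ‖x - y‖ := by ring
  linarith

private theorem RigC_tr_id : tr (ContinuousLinearMap.id ℝ (E n)) = n := by
  unfold tr
  simp

/-- a closed set whose interior is a ball contains the closed ball -/
private theorem RigC_sub {K : Set (E n)} (hK : IsCompact K) {ρ : ℝ} (hρ : 0 < ρ) {a : E n}
    (hint : interior K = ball a ρ) : closedBall a ρ ⊆ K := by
  rw [← closure_ball a hρ.ne', ← hint]
  exact closure_minimal interior_subset hK.isClosed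

/-- The hole is a closed ball. If `z ∈ K` is not in `closedBall a ρ`, then `z ∈ frontier K`, and
`D.surface (K ∩ ball z δ) > 0` for small `δ` (`rig_frontier`, `hsupp`). The field
`φ x • P (x - a)`, `P` the radial projection to the ball of radius `ρ`, `φ = 0` on `ball z δ` and `φ = 1`
outside `ball z (2 δ)`, is bounded by `ρ` and is `x - a` on `ball a ρ`, so `hole_div` gives
`n om ρ ^ n ≤ ρ D.surface.real (K minus ball z δ) < ρ D.surface.real K`, a contradiction. -/
theorem rig_closed (hn : 2 ≤ n) (D : Domain n) {K : Set (E n)} (hK : IsCompact K)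
    (hKD : Disjoint K D.carrier) {ε : ℝ} (hε : 0 < ε)
    (hiso : ∀ x, infDist x K < ε → x ∉ K → x ∈ D.carrier) (hnull : volume (frontier K) = 0)
    (hsupp : ∀ z ∈ frontier D.carrier, ∀ δ : ℝ, 0 < δ → 0 < D.surface (ball z δ))
    {ρ : ℝ} (hρ : 0 < ρ) {a : E n} (hint : interior K = ball a ρ)
    (hP : D.surface.real K ≤ n * om n * ρ ^ (n - 1)) : K = closedBall a ρ := by
  refine Subset.antisymm (fun z hz => ?_) (RigC_sub hK hρ hint)
  by_contra hzb
  rw [mem_closedBall, not_le] at hzb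
  set δ : ℝ := (dist z a - ρ) / 4 with hδ
  have hδ0 : 0 < δ := by rw [hδ]; linarith
  have hfr : z ∈ frontier K := by
    rw [hK.isClosed.frontier_eq]
    refine ⟨hz, ?_⟩
    rw [hint, mem_ball, not_lt]
    exact hzb.le
  have hfin := D.isFinite
  have hKm : MeasurableSet K := hK.isClosed.measurableSet
  -- the part of the hole near `z` has positive surface measure
  have hpos : 0 < D.surface.real (K ∩ ball z δ) := by
    set δ' : ℝ := min δ ε with hδ'
    have hδ'0 : 0 < δ' := lt_min hδ0 hε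
    have h1 := hsupp z (rig_frontier D hK hKD hε hiso hfr) δ' hδ'0
    have h2 : D.surface (ball z δ') ≤ D.surface (K ∩ ball z δ) := by
      refine measure_mono_ae ?_
      have h3 : ∀ᵐ x ∂D.surface, x ∈ frontier D.carrier := by
        rw [ae_iff]
        exact D.support
      filter_upwards [h3] with x hx hxb
      have hx1 : x ∉ D.carrier := by
        rw [D.isOpen.frontier_eq] at hx
        exact hx.2
      have hxb' : dist x z < δ' := hxb
      refine ⟨?_, mem_ball.2 (hxb'.trans_le (min_le_left _ _))⟩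
      by_contra hxK
      refine hx1 (hiso x ?_ hxK)
      exact (infDist_le_dist_of_mem hz).trans_lt (hxb'.trans_le (min_le_right _ _))
    exact ENNReal.toReal_pos (h1.trans_le h2).ne' (measure_ne_top _ _)
  -- the divergence theorem
  have hdiv := hole_div hn D hK hKD hε hiso (RigC_T_lip (a := a) (z := z) hρ hδ0)
    (RigC_T_norm hρ)
  have hae : (K : Set (E n)) =ᵐ[volume] ball a ρ := by
    have h1 : volume (K \ ball a ρ) = 0 := by
      rw [← hint, ← hK.isClosed.frontier_eq]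
      exact hnull
    refine Filter.EventuallyLE.antisymm ?_ ?_
    · exact ae_le_set.2 h1
    · refine LE.le.eventuallyLE ?_
      rw [← hint]
      exact interior_subset
  have hL : ∫ x in K, tr (fderiv ℝ (RigC_T a z ρ δ) x) = n * (om n * ρ ^ n) := by
    rw [setIntegral_congr_set hae]
    have h1 : ∀ x ∈ ball a ρ, tr (fderiv ℝ (RigC_T a z ρ δ) x) = (n : ℝ) := by
      intro x hx
      have hev : RigC_T a z ρ δ =ᶠ[𝓝 x] fun y => y - a := by
        filter_upwards [isOpen_ball.mem_nhds hx] with y hy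
        rw [mem_ball] at hy
        unfold RigC_T
        have h2 : 2 * δ ≤ dist y z := by
          have h3 := dist_triangle_left z a y
          rw [hδ]
          linarith
        rw [RigC_phi_one hδ0 h2, one_smul, RigC_P_of_le hρ]
        rw [← dist_eq_norm]
        exact hy.le
      rw [hev.fderiv_eq, fderiv_sub_const, fderiv_fun_id, RigC_tr_id]
    rw [setIntegral_congr_fun measurableSet_ball h1, setIntegral_const, smul_eq_mul,
      (vol_ball hn a hρ.le).1, mul_comm]
  have hR : - ∫ x in K, ⟪RigC_T a z ρ δ x, D.normal x⟫ ∂D.surface ≤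
      ρ * D.surface.real (K \ ball z δ) := by
    rw [← integral_neg]
    have h1 : ∫ x in K, ((ball z δ)ᶜ).indicator (fun _ => ρ) x ∂D.surface =
        ρ * D.surface.real (K \ ball z δ) := by
      rw [setIntegral_indicator measurableSet_ball.compl, setIntegral_const, smul_eq_mul,
        mul_comm, sdiff_eq]
    rw [← h1]
    refine integral_mono_ae ?_ ?_ ?_
    · refine Integrable.neg ?_
      refine Integrable.of_bound (C := ρ) ?_ ?_
      · exact ((RigC_T_lip hρ hδ0).continuous.measurable.inner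
          D.measurable_normal).aestronglyMeasurable
      · filter_upwards [ae_restrict_of_ae D.norm_normal] with x hx
        calc ‖⟪RigC_T a z ρ δ x, D.normal x⟫‖ ≤ ‖RigC_T a z ρ δ x‖ * ‖D.normal x‖ :=
              norm_inner_le_norm _ _
          _ ≤ ρ := by rw [hx, mul_one]; exact RigC_T_norm hρ x
    · exact (integrable_const ρ).indicator measurableSet_ball.compl
    · filter_upwards [ae_restrict_of_ae D.norm_normal] with x hx
      by_cases hxb : x ∈ ball z δ
      · rw [indicator_of_notMem (show x ∉ (ball z δ)ᶜ from fun h => h hxb)]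
        unfold RigC_T
        rw [RigC_phi_zero hδ0 (mem_ball.1 hxb).le, zero_smul, inner_zero_left, neg_zero]
      · rw [indicator_of_mem hxb]
        have h2 : ‖⟪RigC_T a z ρ δ x, D.normal x⟫‖ ≤ ρ := by
          calc ‖⟪RigC_T a z ρ δ x, D.normal x⟫‖ ≤ ‖RigC_T a z ρ δ x‖ * ‖D.normal x‖ :=
                norm_inner_le_norm _ _
            _ ≤ ρ := by rw [hx, mul_one]; exact RigC_T_norm hρ x
        rw [Real.norm_eq_abs] at h2
        have h3 := neg_abs_le (⟪RigC_T a z ρ δ x, D.normal x⟫)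
        linarith
  have hsplit : D.surface.real (K \ ball z δ) + D.surface.real (K ∩ ball z δ) =
      D.surface.real K :=
    measureReal_sdiff_add_inter (μ := D.surface) (s := K) (t := ball z δ) measurableSet_ball
  rw [hL] at hdiv
  rw [← hdiv] at hR
  have hpow : ρ ^ n = ρ ^ (n - 1) * ρ := by
    rw [← pow_succ, Nat.sub_add_cancel (by omega)]
  have h5 : ρ * D.surface.real K ≤ n * (om n * ρ ^ n) := by
    calc ρ * D.surface.real K ≤ ρ * (n * om n * ρ ^ (n - 1)) :=
          mul_le_mul_of_nonneg_left hP hρ.le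
      _ = n * (om n * ρ ^ n) := by rw [hpow]; ring
  have h6 : 0 < ρ * D.surface.real (K ∩ ball z δ) := mul_pos hρ hpos
  have h7 : ρ * D.surface.real K =
      ρ * D.surface.real (K \ ball z δ) + ρ * D.surface.real (K ∩ ball z δ) := by
    rw [← hsplit, mul_add]
  linarith

end Pool.Agent.RH
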