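import Pool.Agent.H.MP_1b807b_an.HO.Defs
import Pool.Agent.H.MP_1b807b_an.G.GaussBall

/-! MP_1b807b_an, balls with holes, module SurfIn: the surface of a sphere, domain inside -/

set_option autoImplicit false

namespace Pool.Agent.RH

open MeasureTheory Metric Set Filter Pool.Agent.RG
open scoped RealInnerProductSpace Topology

variable {n : ℕ}

/-- `D` is inside of the sphere of centre `y` and radius `ρ`, near that sphere.
PROOF: let `X x = ψ (‖x - y‖ ^ 2) • (x - y)` with `ψ` smooth, `ψ (ρ ^ 2) = 1 / ρ`, `ψ = 0` outside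
`((ρ - ε) ^ 2, (ρ + ε) ^ 2)` (a smooth bump function); `X` is `C¹`. `∫_D div X = ∫_{ball y ρ} div X`
(`div X = 0` where `ψ = 0` near; inside the layer `D` is the ball) `= ∫ ⟪X, (x - y)/ρ⟫` over the sphere
(`gauss_ball`, translated by `y`) `= n om ρ ^ (n-1)` (`sphereMeasure` of the sphere: `perimeter_ball` in
`G/GaussBall.lean`). By `D.divergence` it is `∫ ⟪X, normal⟫ ∂D.surface ≤ D.surface.real (sphere y ρ)`, as
`X = 0` on the rest of the frontier (`D.support`) and `‖X‖ = 1` on the sphere, `‖normal‖ = 1` a.e. -/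
theorem surf_inside (hn : 2 ≤ n) (D : Domain n) {y : E n} {ρ ε : ℝ} (hε : 0 < ε) (hερ : ε < ρ)
    (h : ∀ x, ρ - ε < dist x y → dist x y < ρ + ε → (x ∈ D.carrier ↔ dist x y < ρ)) :
    n * om n * ρ ^ (n - 1) ≤ D.surface.real (sphere y ρ) := by
  have hρ : 0 < ρ := hε.trans hερ
  have hδ : 0 < ε * (2 * ρ - ε) := mul_pos hε (by linarith)
  set δ : ℝ := ε * (2 * ρ - ε) with hδdef
  let φ : ContDiffBump (ρ ^ 2 : ℝ) := ⟨δ / 4, δ / 2, by linarith, by linarith⟩
  set X : E n → E n := fun x => (ρ⁻¹ * φ (‖x - y‖ ^ 2)) • (x - y) with hXdef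
  have hX : ContDiff ℝ 1 X :=
    (contDiff_const.mul (φ.contDiff.comp ((contDiff_id.sub contDiff_const).norm_sq ℝ))).smul
      (contDiff_id.sub contDiff_const)
  -- the layer
  have hlay : ∀ x : E n, ‖x - y‖ ^ 2 ∈ closedBall (ρ ^ 2) (δ / 2) →
      ρ - ε < dist x y ∧ dist x y < ρ + ε := by
    intro x hx
    rw [mem_closedBall, Real.dist_eq, abs_le, ← dist_eq_norm] at hx
    have h0 : 0 ≤ dist x y := dist_nonneg
    constructor
    · refine lt_of_pow_lt_pow_left₀ 2 h0 ?_
      nlinarith [hx.1]
    · refine lt_of_pow_lt_pow_left₀ 2 (by linarith) ?_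
      nlinarith [hx.2, mul_pos hε hε]
  have hφ0 : ∀ x : E n, ‖x - y‖ ^ 2 ∉ closedBall (ρ ^ 2) (δ / 2) → X x = 0 := by
    intro x hx
    have h1 : φ (‖x - y‖ ^ 2) = 0 := by
      apply φ.zero_of_le_dist
      rw [mem_closedBall, not_le] at hx
      exact hx.le
    rw [hXdef]
    simp only [h1, mul_zero, zero_smul]
  have hdiv0 : ∀ x : E n, ‖x - y‖ ^ 2 ∉ closedBall (ρ ^ 2) (δ / 2) → divg X x = 0 := by
    intro x hx
    have hop : IsOpen {x : E n | ‖x - y‖ ^ 2 ∉ closedBall (ρ ^ 2) (δ / 2)} := by
      have hc : Continuous fun x : E n => ‖x - y‖ ^ 2 := by fun_prop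
      exact (isClosed_closedBall.preimage hc).isOpen_compl
    have h1 : X =ᶠ[𝓝 x] fun _ => 0 :=
      Filter.eventuallyEq_of_mem (hop.mem_nhds hx) fun z hz => hφ0 z hz
    have h2 : fderiv ℝ X x = 0 := by
      rw [h1.fderiv_eq]
      exact fderiv_const_apply 0
    unfold divg tr
    rw [h2]
    simp
  -- the sphere
  have hsph : ∀ x : E n, dist x y = ρ → ‖X x‖ = 1 ∧ X x = ρ⁻¹ • (x - y) := by
    intro x hx
    have h1 : φ (‖x - y‖ ^ 2) = 1 := by
      apply φ.one_of_mem_closedBall
      rw [← dist_eq_norm, hx]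
      exact mem_closedBall_self (by show (0 : ℝ) ≤ δ / 4; linarith)
    have h2 : X x = ρ⁻¹ • (x - y) := by
      rw [hXdef]
      simp only [h1, mul_one]
    refine ⟨?_, h2⟩
    rw [h2, norm_smul, ← dist_eq_norm, hx, Real.norm_of_nonneg (inv_nonneg.2 hρ.le),
      inv_mul_cancel₀ hρ.ne']
  -- the ball
  have hball : ∫ x in ball y ρ, divg X x = n * om n * ρ ^ (n - 1) := by
    have h1 : ∫ x in ball y ρ, divg X x = ∫ z in ball (0 : E n) ρ, divg (fun z => X (z + y)) z := by
      rw [← integral_indicator measurableSet_ball, ← integral_indicator measurableSet_ball,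
        ← integral_add_right_eq_self _ y]
      refine integral_congr_ae (Filter.Eventually.of_forall fun z => ?_)
      have h2 : divg (fun z => X (z + y)) z = divg X (z + y) := by
        unfold divg
        rw [fderiv_comp_add_right]
      show (ball y ρ).indicator (divg X) (z + y) = (ball (0 : E n) ρ).indicator _ z
      by_cases hz : z ∈ ball (0 : E n) ρ
      · have hz' : z + y ∈ ball y ρ := by
          rw [mem_ball_zero_iff] at hz
          rw [mem_ball, dist_eq_norm, add_sub_cancel_right]
          exact hz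
        rw [indicator_of_mem hz, indicator_of_mem hz', h2]
      · have hz' : z + y ∉ ball y ρ := by
          rw [mem_ball_zero_iff] at hz
          rw [mem_ball, dist_eq_norm, add_sub_cancel_right]
          exact hz
        rw [indicator_of_notMem hz, indicator_of_notMem hz']
    have hX' : ContDiff ℝ 1 fun z : E n => X (z + y) := hX.comp (contDiff_id.add contDiff_const)
    rw [h1, gauss_ball (by omega) hρ hX']
    have h3 : ∫ z, ⟪X (z + y), ρ⁻¹ • z⟫ ∂(sphereMeasure n ρ) = ∫ _z : E n, (1 : ℝ) ∂(sphereMeasure n ρ) := by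
      refine integral_congr_ae ?_
      have h4 : ∀ᵐ z ∂(sphereMeasure n ρ), z ∈ sphere (0 : E n) ρ := by
        rw [ae_iff]
        exact sphereMeasure_support n hρ
      filter_upwards [h4] with z hz
      rw [mem_sphere_zero_iff_norm] at hz
      have h5 := (hsph (z + y) (by rw [dist_eq_norm, add_sub_cancel_right, hz])).2
      rw [add_sub_cancel_right] at h5
      rw [h5, inner_smul_left, inner_smul_right, real_inner_self_eq_norm_sq, hz]
      simp only [conj_trivial]
      field_simp
    show ∫ z, ⟪X (z + y), ρ⁻¹ • z⟫ ∂(sphereMeasure n ρ) = _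
    rw [h3, integral_const, smul_eq_mul, mul_one]
    have h6 := perimeter_ball (n := n) (by omega) hρ
    have h7 : (ballDomain n (by omega) ρ hρ).perimeter = (sphereMeasure n ρ).real univ := rfl
    rw [h7] at h6
    have h8 : volume.real (ball (0 : E n) ρ) = ρ ^ n * om n := by
      unfold om
      rw [measureReal_def, Measure.addHaar_ball_of_pos volume (0 : E n) hρ, finrank_euclideanSpace,
        Fintype.card_fin, ENNReal.toReal_mul, ENNReal.toReal_ofReal (by positivity),
        measureReal_def]
    rw [h8] at h6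
    have h9 : ρ ^ n = ρ * ρ ^ (n - 1) := by
      rw [← pow_succ']
      congr 1
      omega
    rw [h9] at h6
    have h10 : ρ * (sphereMeasure n ρ).real univ = ρ * (n * om n * ρ ^ (n - 1)) := by
      rw [h6]
      ring
    exact mul_left_cancel₀ hρ.ne' h10
  -- the domain
  have hdom : ∫ x in D.carrier, divg X x = ∫ x in ball y ρ, divg X x := by
    rw [← integral_indicator D.isOpen.measurableSet, ← integral_indicator measurableSet_ball]
    refine integral_congr_ae (Filter.Eventually.of_forall fun x => ?_)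
    show D.carrier.indicator (divg X) x = (ball y ρ).indicator (divg X) x
    by_cases hx : ‖x - y‖ ^ 2 ∈ closedBall (ρ ^ 2) (δ / 2)
    · obtain ⟨h1, h2⟩ := hlay x hx
      have h3 := h x h1 h2
      by_cases h4 : x ∈ D.carrier
      · rw [indicator_of_mem h4, indicator_of_mem (mem_ball.2 (h3.1 h4))]
      · rw [indicator_of_notMem h4, indicator_of_notMem fun h5 => h4 (h3.2 (mem_ball.1 h5))]
    · have h1 := hdiv0 x hx
      by_cases h4 : x ∈ D.carrier
      · rw [indicator_of_mem h4, h1]
        by_cases h5 : x ∈ ball y ρ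
        · rw [indicator_of_mem h5, h1]
        · rw [indicator_of_notMem h5]
      · rw [indicator_of_notMem h4]
        by_cases h5 : x ∈ ball y ρ
        · rw [indicator_of_mem h5, h1]
        · rw [indicator_of_notMem h5]
  rw [← hball, ← hdom, D.divergence X hX]
  have hfin : IsFiniteMeasure D.surface := D.isFinite
  -- the integrand
  have hae : ∀ᵐ x ∂D.surface, |⟪X x, D.normal x⟫| ≤ (sphere y ρ).indicator (fun _ => (1 : ℝ)) x := by
    have h1 : ∀ᵐ x ∂D.surface, x ∈ frontier D.carrier := by
      rw [ae_iff]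
      exact D.support
    filter_upwards [h1, D.norm_normal] with x hx hx1
    by_cases hx2 : ‖x - y‖ ^ 2 ∈ closedBall (ρ ^ 2) (δ / 2)
    · obtain ⟨h3, h4⟩ := hlay x hx2
      have h5 : dist x y = ρ := by
        rcases lt_trichotomy (dist x y) ρ with h6 | h6 | h6
        · exfalso
          have h7 : x ∈ D.carrier := (h x h3 h4).2 h6
          rw [D.isOpen.frontier_eq] at hx
          exact hx.2 h7
        · exact h6
        · exfalso
          have h7 : x ∈ closure D.carrier := hx.1
          have hop : IsOpen {z : E n | ρ < dist z y ∧ dist z y < ρ + ε} :=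
            (isOpen_lt continuous_const (continuous_id.dist continuous_const)).inter
              (isOpen_lt (continuous_id.dist continuous_const) continuous_const)
          obtain ⟨z, hz, hz'⟩ := mem_closure_iff.1 h7 _ hop ⟨h6, h4⟩
          have h8 := (h z (by linarith [hz.1]) hz.2).1 hz'
          exact absurd h8 (not_lt.2 hz.1.le)
      rw [indicator_of_mem (mem_sphere.2 h5)]
      refine (abs_real_inner_le_norm _ _).trans ?_
      rw [(hsph x h5).1, hx1, mul_one]
    · rw [hφ0 x hx2, inner_zero_left, abs_zero]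
      exact indicator_nonneg (fun _ _ => zero_le_one) x
  have hms : MeasurableSet (sphere y ρ) := isClosed_sphere.measurableSet
  have hi2 : Integrable ((sphere y ρ).indicator fun _ => (1 : ℝ)) D.surface :=
    (integrable_const (1 : ℝ)).indicator hms
  have hi1 : Integrable (fun x => ⟪X x, D.normal x⟫) D.surface := by
    refine hi2.mono' ?_ hae
    exact (hX.continuous.measurable.inner D.measurable_normal).aestronglyMeasurable
  refine (integral_mono_ae hi1 hi2 (hae.mono fun x hx => (le_abs_self _).trans hx)).trans ?_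
  rw [integral_indicator hms, setIntegral_const, smul_eq_mul, mul_one]

end Pool.Agent.RH
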