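import Pool.Agent.H.MP_1b807b_an.HO.Defs
import Pool.Agent.H.MP_1b807b_an.G.GaussBall

/-! MP_1b807b_an, balls with holes, module SurfOut: the surface of a sphere, domain outside -/

set_option autoImplicit false

namespace Pool.Agent.RH

open MeasureTheory Metric Set Filter Pool.Agent.RG
open scoped RealInnerProductSpace Topology

variable {n : ℕ}

/-- the bump function of the vector field -/
private noncomputable def so_b (ρ ε : ℝ) (h : 0 < ρ * ε) : ContDiffBump (ρ ^ 2 : ℝ) where
  rIn := ρ * ε / 2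
  rOut := ρ * ε
  rIn_pos := by linarith
  rIn_lt_rOut := by linarith

/-- the vector field -/
private noncomputable def so_Z (n : ℕ) (ρ ε : ℝ) (h : 0 < ρ * ε) (z : E n) : E n :=
  (so_b ρ ε h (‖z‖ ^ 2)) • (ρ⁻¹ • z)

private theorem so_Z_contDiff {ρ ε : ℝ} (h : 0 < ρ * ε) : ContDiff ℝ 1 (so_Z n ρ ε h) := by
  unfold so_Z
  have h1 : ContDiff ℝ 1 fun z : E n => (so_b ρ ε h) (‖z‖ ^ 2) :=
    (so_b ρ ε h).contDiff.comp (contDiff_norm_sq ℝ)
  have h2 : ContDiff ℝ 1 fun z : E n => ρ⁻¹ • z := contDiff_const_smul ρ⁻¹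
  exact h1.smul h2

private theorem so_Z_zero {ρ ε : ℝ} (h : 0 < ρ * ε) {z : E n}
    (hz : ρ * ε ≤ |‖z‖ ^ 2 - ρ ^ 2|) : so_Z n ρ ε h z = 0 := by
  unfold so_Z
  rw [(so_b ρ ε h).zero_of_le_dist (by rw [Real.dist_eq]; exact hz), zero_smul]

private theorem so_Z_one {ρ ε : ℝ} (h : 0 < ρ * ε) {z : E n}
    (hz : ‖z‖ = ρ) : so_Z n ρ ε h z = ρ⁻¹ • z := by
  unfold so_Z
  rw [(so_b ρ ε h).one_of_mem_closedBall, one_smul]
  rw [hz]
  exact mem_closedBall_self (so_b ρ ε h).rIn_pos.le

private theorem so_Z_le {ρ ε : ℝ} (hρ : 0 < ρ) (hερ : ε < ρ) (h : 0 < ρ * ε) (z : E n) :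
    ‖so_Z n ρ ε h z‖ ≤ 2 := by
  by_cases hz : ρ * ε ≤ |‖z‖ ^ 2 - ρ ^ 2|
  · rw [so_Z_zero h hz, norm_zero]
    norm_num
  · have h1 : ‖z‖ ^ 2 - ρ ^ 2 < ρ * ε := (le_abs_self _).trans_lt (not_le.1 hz)
    have h2 : ‖z‖ ≤ 2 * ρ := by
      by_contra h3
      have h4 : 2 * ρ < ‖z‖ := not_le.1 h3
      nlinarith [norm_nonneg z]
    unfold so_Z
    rw [norm_smul, norm_smul, norm_inv, Real.norm_eq_abs, Real.norm_eq_abs, abs_of_pos hρ,
      abs_of_nonneg (so_b ρ ε h).nonneg]
    have h5 : ρ⁻¹ * ‖z‖ ≤ 2 := by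
      rw [inv_mul_le_iff₀ hρ]
      linarith
    calc (so_b ρ ε h) (‖z‖ ^ 2) * (ρ⁻¹ * ‖z‖) ≤ 1 * (ρ⁻¹ * ‖z‖) :=
          mul_le_mul_of_nonneg_right (so_b ρ ε h).le_one (by positivity)
      _ ≤ 2 := by rw [one_mul]; exact h5

private theorem so_div_zero {ρ ε : ℝ} (h : 0 < ρ * ε) {z : E n}
    (hz : ρ * ε < |‖z‖ ^ 2 - ρ ^ 2|) : divg (so_Z n ρ ε h) z = 0 := by
  have h2 : Continuous fun z : E n => |‖z‖ ^ 2 - ρ ^ 2| := by fun_prop
  have h1 : so_Z n ρ ε h =ᶠ[𝓝 z] fun _ => 0 := by
    filter_upwards [(isOpen_lt continuous_const h2).mem_nhds hz] with w hw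
    exact so_Z_zero h (le_of_lt hw)
  unfold divg tr
  rw [h1.fderiv_eq]
  simp

private theorem so_far {ρ ε : ℝ} (hε : 0 < ε) (hερ : ε < ρ) {t : ℝ} (ht : 0 ≤ t)
    (h : t ≤ ρ - ε ∨ ρ + ε ≤ t) : ρ * ε < |t ^ 2 - ρ ^ 2| := by
  rcases h with h | h
  · rw [lt_abs]
    right
    nlinarith
  · rw [lt_abs]
    left
    nlinarith

private theorem so_mass (hn : 1 ≤ n) {ρ : ℝ} (hρ : 0 < ρ) :
    (sphereMeasure n ρ).real univ = n * om n * ρ ^ (n - 1) := by
  have h := perimeter_ball hn hρ
  have h1 : (ballDomain n hn ρ hρ).perimeter = (sphereMeasure n ρ).real univ := rfl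
  rw [h1] at h
  have h2 : volume.real (ball (0 : E n) ρ) = ρ ^ n * om n := by
    unfold om Measure.real
    rw [Measure.addHaar_ball_of_pos volume (0 : E n) hρ, ENNReal.toReal_mul,
      ENNReal.toReal_ofReal (by positivity), finrank_euclideanSpace_fin]
  have h3 : ρ ^ n = ρ * ρ ^ (n - 1) := by
    rw [← pow_succ']
    congr 1
    omega
  rw [h2, h3] at h
  apply mul_left_cancel₀ hρ.ne'
  rw [h]
  ring

private theorem so_small {ρ ε : ℝ} (hn : 1 ≤ n) (hρ : 0 < ρ) (h : 0 < ρ * ε) :
    ∫ x in ball (0 : E n) ρ, divg (so_Z n ρ ε h) x = n * om n * ρ ^ (n - 1) := by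
  rw [gauss_ball hn hρ (so_Z_contDiff h), ← so_mass hn hρ]
  have hfin := sphereMeasure_finite n ρ
  have h1 : ∀ᵐ x ∂(sphereMeasure n ρ), ⟪so_Z n ρ ε h x, ρ⁻¹ • x⟫ = 1 := by
    have h2 : ∀ᵐ x ∂(sphereMeasure n ρ), x ∈ sphere (0 : E n) ρ := sphereMeasure_support n hρ
    filter_upwards [h2] with x hx
    have h3 : ‖x‖ = ρ := by simpa using hx
    rw [so_Z_one h h3, real_inner_self_eq_norm_sq, norm_smul, h3, norm_inv, Real.norm_eq_abs,
      abs_of_pos hρ, inv_mul_cancel₀ hρ.ne', one_pow]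
  rw [integral_congr_ae h1]
  simp

private theorem so_big {ρ ε : ℝ} (hn : 1 ≤ n) (hε : 0 < ε) (hερ : ε < ρ) (h : 0 < ρ * ε) :
    ∫ x in ball (0 : E n) (ρ + ε), divg (so_Z n ρ ε h) x = 0 := by
  have hρ : 0 < ρ + ε := by linarith
  rw [gauss_ball hn hρ (so_Z_contDiff h)]
  have h1 : ∀ᵐ x ∂(sphereMeasure n (ρ + ε)), ⟪so_Z n ρ ε h x, (ρ + ε)⁻¹ • x⟫ = 0 := by
    have h2 : ∀ᵐ x ∂(sphereMeasure n (ρ + ε)), x ∈ sphere (0 : E n) (ρ + ε) :=
      sphereMeasure_support n hρ
    filter_upwards [h2] with x hx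
    have h3 : ‖x‖ = ρ + ε := by simpa using hx
    rw [so_Z_zero h (so_far hε hερ (norm_nonneg x) (Or.inr h3.ge)).le, inner_zero_left]
  rw [integral_congr_ae h1]
  simp

private theorem so_cont {ρ ε : ℝ} (h : 0 < ρ * ε) : Continuous (divg (so_Z n ρ ε h)) := by
  unfold divg tr
  refine continuous_finsetSum _ fun i _ => ?_
  exact (EuclideanSpace.proj i : E n →L[ℝ] ℝ).continuous.comp
    (((so_Z_contDiff h).continuous_fderiv one_ne_zero).clm_apply continuous_const)

private theorem so_shell {ρ ε : ℝ} (hn : 1 ≤ n) (hε : 0 < ε) (hερ : ε < ρ) (h : 0 < ρ * ε) :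
    ∫ x in ball (0 : E n) (ρ + ε) \ closedBall 0 ρ, divg (so_Z n ρ ε h) x =
      - (n * om n * ρ ^ (n - 1)) := by
  have hρ : 0 < ρ := by linarith
  have hint : IntegrableOn (divg (so_Z n ρ ε h)) (ball (0 : E n) (ρ + ε)) :=
    ((so_cont h).continuousOn.integrableOn_compact (isCompact_closedBall 0 (ρ + ε))).mono_set
      ball_subset_closedBall
  have hsub : closedBall (0 : E n) ρ ⊆ ball (0 : E n) (ρ + ε) :=
    closedBall_subset_ball (by linarith)
  rw [setIntegral_sdiff isClosed_closedBall.measurableSet hint hsub, so_big hn hε hερ h]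
  have h1 : ∫ x in closedBall (0 : E n) ρ, divg (so_Z n ρ ε h) x =
      ∫ x in ball (0 : E n) ρ, divg (so_Z n ρ ε h) x := by
    apply setIntegral_congr_set
    refine Filter.EventuallyLE.antisymm (ae_le_set.2 ?_)
      (Eventually.of_forall ball_subset_closedBall)
    rw [closedBall_sdiff_ball]
    exact Measure.addHaar_sphere_of_ne_zero volume 0 hρ.ne'
  rw [h1, so_small hn hρ h, zero_sub]

/-- `D` is outside of the sphere of centre `y` and radius `ρ`, near that sphere.
PROOF: as `surf_inside`, with `∫_D div X = ∫_{ball y (ρ + ε)} div X - ∫_{ball y ρ} div X = - n om ρ ^ (n-1)`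
(`X = 0` on the larger sphere) and `∫ ⟪X, normal⟫ ≥ - D.surface.real (sphere y ρ)`. -/
theorem surf_outside (hn : 2 ≤ n) (D : Domain n) {y : E n} {ρ ε : ℝ} (hε : 0 < ε) (hερ : ε < ρ)
    (h : ∀ x, ρ - ε < dist x y → dist x y < ρ + ε → (x ∈ D.carrier ↔ ρ < dist x y)) :
    n * om n * ρ ^ (n - 1) ≤ D.surface.real (sphere y ρ) := by
  have hn1 : 1 ≤ n := by omega
  have hρ : 0 < ρ := by linarith
  have hp : 0 < ρ * ε := mul_pos hρ hε
  have hfin : IsFiniteMeasure D.surface := D.isFinite
  set X : E n → E n := fun x => so_Z n ρ ε hp (x - y) with hX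
  have hXc : ContDiff ℝ 1 X := (so_Z_contDiff hp).comp (contDiff_id.sub contDiff_const)
  have hdiv : ∀ x, divg X x = divg (so_Z n ρ ε hp) (x - y) := by
    intro x
    unfold divg
    rw [hX, fderiv_comp_sub]
  -- the integral over the domain
  have h1 : ∫ x in D.carrier, divg X x = - (n * om n * ρ ^ (n - 1)) := by
    rw [← so_shell hn1 hε hερ hp, ← integral_indicator D.isOpen.measurableSet,
      ← integral_indicator (isOpen_ball.measurableSet.diff isClosed_closedBall.measurableSet),
      ← integral_sub_right_eq_self (μ := (volume : Measure (E n)))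
        ((ball (0 : E n) (ρ + ε) \ closedBall 0 ρ).indicator (divg (so_Z n ρ ε hp))) y]
    congr 1
    ext x
    by_cases hl : ρ - ε < dist x y ∧ dist x y < ρ + ε
    · have h2 := h x hl.1 hl.2
      by_cases h3 : x ∈ D.carrier
      · have h4 : x - y ∈ ball (0 : E n) (ρ + ε) \ closedBall 0 ρ := by
          rw [Set.mem_sdiff, mem_ball_zero_iff, mem_closedBall_zero_iff, ← dist_eq_norm, not_le]
          exact ⟨hl.2, h2.1 h3⟩
        rw [indicator_of_mem h3, indicator_of_mem h4, hdiv]
      · have h4 : x - y ∉ ball (0 : E n) (ρ + ε) \ closedBall 0 ρ := by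
          rw [Set.mem_sdiff, mem_ball_zero_iff, mem_closedBall_zero_iff, ← dist_eq_norm, not_le]
          rintro ⟨-, h5⟩
          exact h3 (h2.2 h5)
        rw [indicator_of_notMem h3, indicator_of_notMem h4]
    · have h2 : divg (so_Z n ρ ε hp) (x - y) = 0 := by
        apply so_div_zero hp
        apply so_far hε hερ (norm_nonneg _)
        rw [← dist_eq_norm]
        rcases le_or_gt (dist x y) (ρ - ε) with h3 | h3
        · exact Or.inl h3
        · rcases le_or_gt (ρ + ε) (dist x y) with h4 | h4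
          · exact Or.inr h4
          · exact absurd ⟨h3, h4⟩ hl
      have h3 : divg X x = 0 := by rw [hdiv, h2]
      have h5 : D.carrier.indicator (fun x => divg X x) x = 0 := by
        by_cases h6 : x ∈ D.carrier
        · rw [indicator_of_mem h6, h3]
        · rw [indicator_of_notMem h6]
      have h7 : (ball (0 : E n) (ρ + ε) \ closedBall 0 ρ).indicator
          (divg (so_Z n ρ ε hp)) (x - y) = 0 := by
        by_cases h6 : x - y ∈ ball (0 : E n) (ρ + ε) \ closedBall 0 ρ
        · rw [indicator_of_mem h6, h2]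
        · rw [indicator_of_notMem h6]
      rw [h5, h7]
  -- the integral over the surface
  have h2 : - D.surface.real (sphere y ρ) ≤ ∫ x, ⟪X x, D.normal x⟫ ∂D.surface := by
    have h3 : ∀ᵐ x ∂D.surface, (sphere y ρ).indicator (fun _ => (-1 : ℝ)) x ≤
        ⟪X x, D.normal x⟫ := by
      have h4 : ∀ᵐ x ∂D.surface, x ∈ frontier D.carrier := D.support
      filter_upwards [h4, D.norm_normal] with x hx hx1
      by_cases hs : x ∈ sphere y ρ
      · rw [indicator_of_mem hs]
        have h5 : ‖x - y‖ = ρ := by rw [← dist_eq_norm]; exact hs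
        have h6 : ‖X x‖ = 1 := by
          rw [hX]
          simp only
          rw [so_Z_one hp h5, norm_smul, h5, norm_inv, Real.norm_eq_abs, abs_of_pos hρ,
            inv_mul_cancel₀ hρ.ne']
        have h7 := abs_real_inner_le_norm (X x) (D.normal x)
        rw [h6, hx1, one_mul] at h7
        exact (abs_le.1 h7).1
      · rw [indicator_of_notMem hs]
        have h5 : X x = 0 := by
          rw [hX]
          simp only
          apply so_Z_zero hp
          apply (so_far hε hερ (norm_nonneg _) ?_).le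
          rw [← dist_eq_norm]
          rcases le_or_gt (dist x y) (ρ - ε) with h6 | h6
          · exact Or.inl h6
          rcases le_or_gt (ρ + ε) (dist x y) with h6' | h6'
          · exact Or.inr h6'
          exfalso
          rcases lt_trichotomy (dist x y) ρ with h7 | h7 | h7
          · -- near `x` there is nothing of `D`
            have c1 : Continuous fun w : E n => dist w y := continuous_id.dist continuous_const
            have h9 : {w : E n | ρ - ε < dist w y} ∩ {w : E n | dist w y < ρ} ∈ 𝓝 x :=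
              ((isOpen_lt continuous_const c1).inter (isOpen_lt c1 continuous_const)).mem_nhds
                ⟨h6, h7⟩
            obtain ⟨w, hw1, hw2⟩ := mem_closure_iff_nhds.1 hx.1 _ h9
            have hw3 : ρ - ε < dist w y := hw1.1
            have hw4 : dist w y < ρ := hw1.2
            have h10 := (h w hw3 (by linarith)).1 hw2
            linarith
          · exact hs h7
          · have h8 : x ∈ D.carrier := (h x h6 h6').2 h7
            exact hx.2 (by rw [D.isOpen.interior_eq]; exact h8)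
        rw [h5, inner_zero_left]
    have h4 : ∫ x, (sphere y ρ).indicator (fun _ => (-1 : ℝ)) x ∂D.surface =
        - D.surface.real (sphere y ρ) := by
      rw [integral_indicator isClosed_sphere.measurableSet]
      simp
    rw [← h4]
    apply integral_mono_ae _ _ h3
    · exact (integrable_const _).indicator isClosed_sphere.measurableSet
    · refine Integrable.mono' (integrable_const (2 : ℝ)) ?_ ?_
      · exact (hXc.continuous.measurable.inner D.measurable_normal).aestronglyMeasurable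
      · filter_upwards [D.norm_normal] with x hx1
        have h7 := abs_real_inner_le_norm (X x) (D.normal x)
        rw [hx1, mul_one] at h7
        rw [Real.norm_eq_abs]
        exact h7.trans (so_Z_le hρ hερ hp _)
  rw [← D.divergence X hXc, h1] at h2
  linarith

end Pool.Agent.RH
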