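import Pool.Agent.H.MP_1b807b_an.HO.Defs
import Pool.Agent.H.MP_1b807b_an.HO.SurfIn
import Pool.Agent.H.MP_1b807b_an.HO.SurfOut

/-! MP_1b807b_an, balls with holes, module SphSurf: the surface of spherical boundary components -/

set_option autoImplicit false

namespace Pool.Agent.RH

open MeasureTheory Metric Set Filter Pool.Agent.RG
open scoped RealInnerProductSpace Topology

variable {n : ℕ}

/-- PROOF: `surf_inside` for `x₀, R` and `surf_outside` for `y i, r i`, with `ε` small: the closed balls
are compact, disjoint and inside the open ball `ball x₀ R`, so they have positive distance from each other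
and from the sphere of radius `R`; the spheres are contained in `(ball x₀ R)ᶜ` and `closedBall`. -/
theorem sph_surface (hn : 2 ≤ n) (D : Domain n) {x₀ : E n} {R : ℝ} {m : ℕ} {y : Fin m → E n}
    {r : Fin m → ℝ} (h : SphHoles D.carrier x₀ R m y r) :
    n * om n * R ^ (n - 1) ≤ D.surface.real (ball x₀ R)ᶜ ∧
      ∀ i, n * om n * r i ^ (n - 1) ≤ D.surface.real (closedBall (y i) (r i)) := by
  have := D.isFinite
  constructor
  · -- the holes are inside a smaller ball
    have hcl : IsClosed (⋃ i, closedBall (y i) (r i)) :=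
      isClosed_iUnion_of_finite fun i => isClosed_closedBall
    obtain ⟨R', hR', hsub⟩ := exists_lt_subset_ball hcl (iUnion_subset h.sub)
    have hR := h.Rpos
    have hε : 0 < min (R / 2) (R - R') := lt_min (by linarith) (by linarith)
    have hεR : min (R / 2) (R - R') < R := lt_of_le_of_lt (min_le_left _ _) (by linarith)
    have hε2 : min (R / 2) (R - R') ≤ R - R' := min_le_right _ _
    refine (surf_inside (y := x₀) hn D hε hεR fun x hx1 _ => ?_).trans ?_
    · have hx3 : x ∉ ⋃ i, closedBall (y i) (r i) := fun hx4 => by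
        have hx5 := mem_ball.1 (hsub hx4)
        linarith
      rw [h.eq, Set.mem_sdiff, mem_ball]
      exact ⟨fun hx => hx.1, fun hx => ⟨hx, hx3⟩⟩
    · refine measureReal_mono (fun x hx => ?_)
      rw [mem_sphere] at hx
      rw [mem_compl_iff, mem_ball, hx]
      exact lt_irrefl _
  · intro i
    have hU : IsOpen (ball x₀ R \ ⋃ (j : Fin m) (_ : j ≠ i), closedBall (y j) (r j)) :=
      isOpen_ball.sdiff (isClosed_iUnion_of_finite fun j =>
        isClosed_iUnion_of_finite fun _ => isClosed_closedBall)
    have hKU : closedBall (y i) (r i) ⊆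
        ball x₀ R \ ⋃ (j : Fin m) (_ : j ≠ i), closedBall (y j) (r j) := by
      intro x hx
      refine ⟨h.sub i hx, fun hx2 => ?_⟩
      obtain ⟨j, hx3⟩ := mem_iUnion.1 hx2
      obtain ⟨hj, hx4⟩ := mem_iUnion.1 hx3
      exact Set.disjoint_left.1 (h.disj j i hj) hx4 hx
    obtain ⟨δ, hδ, hsub⟩ := (isCompact_closedBall (y i) (r i)).exists_cthickening_subset_open hU hKU
    rw [cthickening_closedBall hδ.le (h.rpos i).le] at hsub
    have hr := h.rpos i
    have hε : 0 < min δ (r i / 2) := lt_min hδ (by linarith)
    have hεr : min δ (r i / 2) < r i := lt_of_le_of_lt (min_le_right _ _) (by linarith)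
    have hε2 : min δ (r i / 2) ≤ δ := min_le_left _ _
    refine (surf_outside (y := y i) hn D hε hεr fun x _ hx1 => ?_).trans
      (measureReal_mono sphere_subset_closedBall)
    have hx2 := hsub (mem_closedBall.2 (by linarith : dist x (y i) ≤ δ + r i))
    rw [h.eq, Set.mem_sdiff]
    constructor
    · rintro ⟨_, hx3⟩
      by_contra hc
      exact hx3 (mem_iUnion.2 ⟨i, mem_closedBall.2 (not_lt.1 hc)⟩)
    · intro hx3
      refine ⟨hx2.1, fun hx4 => ?_⟩
      obtain ⟨j, hx5⟩ := mem_iUnion.1 hx4
      by_cases hj : j = i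
      · subst hj
        exact absurd (mem_closedBall.1 hx5) (not_le.2 hx3)
      · exact hx2.2 (mem_iUnion.2 ⟨j, mem_iUnion.2 ⟨hj, hx5⟩⟩)

end Pool.Agent.RH
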