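import Pool.Agent.H.MP_1b807b_an.HO.Core
import Pool.Agent.H.MP_1b807b_an.HO.SphSurf
import Pool.Agent.H.MP_1b807b_an.HO.SphVol

/-! MP_1b807b_an, balls with holes, module SphMain: balls with spherical holes -/

set_option autoImplicit false

namespace Pool.Agent.RH

open MeasureTheory Metric Set Filter Pool.Agent.RG Pool.Agent.H.MP_1b807b_an
open scoped Topology

variable {n : ℕ}

/-- a single hole that is not concentric: the two collars overlap.
PROOF: let `d = dist y x₀ > 0`, `r₁ + d < R` (as `closedBall y r₁ ⊆ ball x₀ R`, `n ≥ 2`: the point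
`y + r₁ (y - x₀)/d` is in the closed ball). Choose `ρ` with `max r₁ (r - d) < ρ < min r (R - d)` and
`x = y + (ρ / d) (y - x₀)`: `dist x y = ρ`, `dist x x₀ = d + ρ`. So `x ∈ ball x₀ R`, `x ∉ closedBall y r₁`,
`infDist x (ball x₀ R)ᶜ ≤ R - dist x x₀ = R - d - ρ < R - r` (the nearest point of the sphere is
`x₀ + R (x - x₀)/‖x - x₀‖`) and `infDist x (closedBall y r₁) ≤ ρ - r₁ < r - r₁`. The set is open and
contains `x`: `IsOpen.measure_pos`. -/
theorem overlap (hn : 2 ≤ n) {x₀ y : E n} {R r₁ : ℝ} (hR : 0 < R) (hr₁ : 0 < r₁)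
    (hsub : closedBall y r₁ ⊆ ball x₀ R) (hne : y ≠ x₀) {r : ℝ} (h1 : r₁ < r) (h2 : r < R) :
    0 < volume ((ball x₀ R \ closedBall y r₁) ∩
      {x | infDist x (ball x₀ R)ᶜ < R - r ∧ infDist x (closedBall y r₁) < r - r₁}) := by
  obtain ⟨d, hd⟩ : ∃ d, d = ‖y - x₀‖ := ⟨_, rfl⟩
  have hd0 : 0 < d := by
    rw [hd]
    exact norm_pos_iff.2 (sub_ne_zero.2 hne)
  obtain ⟨v, hv⟩ : ∃ v, v = (1 / d) • (y - x₀) := ⟨_, rfl⟩
  have hv1 : ‖v‖ = 1 := by
    rw [hv, norm_smul, ← hd, Real.norm_eq_abs, abs_of_pos (by positivity)]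
    field_simp
  have hyv : y - x₀ = d • v := by
    rw [hv, smul_smul, mul_one_div_cancel hd0.ne', one_smul]
  have key : ∀ s t : ℝ, dist (y + s • v) (x₀ + t • v) = |d + s - t| := by
    intro s t
    rw [dist_eq_norm]
    have e : y + s • v - (x₀ + t • v) = (d + s - t) • v := by
      calc y + s • v - (x₀ + t • v) = (y - x₀) + s • v - t • v := by abel
        _ = (d + s - t) • v := by rw [hyv]; module
    rw [e, norm_smul, hv1, mul_one, Real.norm_eq_abs]
  have keyy : ∀ s t : ℝ, dist (y + s • v) (y + t • v) = |s - t| := by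
    intro s t
    rw [dist_eq_norm]
    have e : y + s • v - (y + t • v) = (s - t) • v := by module
    rw [e, norm_smul, hv1, mul_one, Real.norm_eq_abs]
  have hrd : r₁ + d < R := by
    have hm : y + r₁ • v ∈ closedBall y r₁ := by
      rw [mem_closedBall]
      have := keyy r₁ 0
      rw [zero_smul, add_zero] at this
      rw [this, sub_zero, abs_of_pos hr₁]
    have hm2 := hsub hm
    rw [mem_ball] at hm2
    have := key r₁ 0
    rw [zero_smul, add_zero] at this
    rw [this, sub_zero, abs_of_pos (by linarith)] at hm2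
    linarith
  obtain ⟨ρ, hρ1, hρ2⟩ : ∃ ρ, max r₁ (r - d) < ρ ∧ ρ < min r (R - d) := by
    refine exists_between ?_
    rw [max_lt_iff, lt_min_iff, lt_min_iff]
    exact ⟨⟨h1, by linarith⟩, ⟨by linarith, by linarith⟩⟩
  rw [max_lt_iff] at hρ1
  rw [lt_min_iff] at hρ2
  have hρ0 : 0 < ρ := hr₁.trans hρ1.1
  refine IsOpen.measure_pos volume ?_ ⟨y + ρ • v, ⟨?_, ?_⟩, ?_, ?_⟩
  · refine (isOpen_ball.sdiff isClosed_closedBall).inter ?_
    exact (isOpen_lt (continuous_infDist_pt _) continuous_const).inter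
      (isOpen_lt (continuous_infDist_pt _) continuous_const)
  · rw [mem_ball]
    have := key ρ 0
    rw [zero_smul, add_zero] at this
    rw [this, sub_zero, abs_of_pos (by linarith)]
    linarith
  · rw [mem_closedBall, not_le]
    have := keyy ρ 0
    rw [zero_smul, add_zero] at this
    rw [this, sub_zero, abs_of_pos hρ0]
    exact hρ1.1
  · have hm : x₀ + R • v ∈ (ball x₀ R)ᶜ := by
      rw [mem_compl_iff, mem_ball, not_lt, dist_eq_norm]
      have e : x₀ + R • v - x₀ = R • v := by abel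
      rw [e, norm_smul, hv1, mul_one, Real.norm_eq_abs, abs_of_pos hR]
    have h3 := infDist_le_dist_of_mem (x := y + ρ • v) hm
    rw [key ρ R, abs_of_neg (by linarith)] at h3
    show infDist (y + ρ • v) (ball x₀ R)ᶜ < R - r
    linarith
  · have hm : y + r₁ • v ∈ closedBall y r₁ := by
      rw [mem_closedBall]
      have := keyy r₁ 0
      rw [zero_smul, add_zero] at this
      rw [this, sub_zero, abs_of_pos hr₁]
    have h3 := infDist_le_dist_of_mem (x := y + ρ • v) hm
    rw [keyy ρ r₁, abs_of_pos (by linarith)] at h3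
    show infDist (y + ρ • v) (closedBall y r₁) < r - r₁
    linarith

/-- PROOF: `core` with `S₀ = (ball x₀ R)ᶜ`, `K i = closedBall (y i) (r i)`, `ρ = r`, `sph_surface`,
`sph_vol`, `ball_collar`, `hole_collar`. Strict case: if some `r i ≠ r₁`, `core`. Otherwise all
`r i = r₁`, and `r₁ ^ n = ∑ r i ^ n = m r₁ ^ n`. If `m = 0` then `D` is a ball, excluded. So `r₁ > 0`,
`m = 1`; if `y 0 = x₀` then `D` is a shell, excluded; else `overlap` and the second strict case. -/
theorem sph_main (hn : 2 ≤ n) (D : Domain n) {x₀ : E n} {R : ℝ} {m : ℕ} {y : Fin m → E n}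
    {r : Fin m → ℝ} (h : SphHoles D.carrier x₀ R m y r) {β k r₁ : ℝ} {u p : ℝ → ℝ} (hβ : 0 < β)
    (hk : 0 < k) (h0 : 0 ≤ r₁) (h12 : r₁ < R) (hr₁ : r₁ ^ n = ∑ i, r i ^ n)
    (g : GS (n - 1) r₁ R β k u p) :
    D.robin (-β) ≤ ((-k ^ 2 : ℝ) : EReal) ∧
      (¬ IsBallSet D.carrier → ¬ IsShellSet D.carrier →
        D.robin (-β) < ((-k ^ 2 : ℝ) : EReal)) := by
  have hsurf := sph_surface hn D h
  have hcarr : D.carrier ⊆ ball x₀ R := by
    rw [h.eq]
    exact diff_subset
  have hdis : ∀ i, Disjoint D.carrier (closedBall (y i) (r i)) := by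
    intro i
    rw [h.eq]
    exact (disjoint_sdiff_left).mono_right (subset_iUnion (fun i => closedBall (y i) (r i)) i)
  have hcore := core hn D hβ hk h0 h12 g (S₀ := (ball x₀ R)ᶜ) isOpen_ball.isClosed_compl
    hsurf.1 (fun t ht => ball_collar hn h.Rpos hcarr ht.1 ht.2)
    (fun i => closedBall (y i) (r i)) r (fun i => isClosed_closedBall)
    (fun i => disjoint_compl_right_iff_subset.2 (h.sub i)) h.disj h.rpos hsurf.2
    (fun i t ht => hole_collar hn (h.rpos i) (hdis i) ht) hr₁.le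
    (by rw [sph_vol hn h, hr₁])
  refine ⟨hcore.1, fun hnb hns => hcore.2 ?_⟩
  by_cases hall : ∃ i, r i ≠ r₁
  · exact Or.inl hall
  right
  push Not at hall
  rcases m.eq_zero_or_pos with hm | hm
  · exfalso
    subst hm
    refine hnb ⟨x₀, R, h.Rpos, ?_⟩
    rw [h.eq, iUnion_of_empty, diff_empty]
  have hr0 : 0 < r₁ := by
    rw [← hall ⟨0, hm⟩]
    exact h.rpos _
  have hm1 : m = 1 := by
    have h4 : ∑ i, r i ^ n = (m : ℝ) * r₁ ^ n := by
      rw [Finset.sum_congr rfl fun i _ => by rw [hall i], Finset.sum_const, Finset.card_univ,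
        Fintype.card_fin, nsmul_eq_mul]
    rw [h4] at hr₁
    have h5 : 0 < r₁ ^ n := pow_pos hr0 n
    have h6 : (m : ℝ) = 1 := by
      have h7 : ((m : ℝ) - 1) * r₁ ^ n = 0 := by linarith
      rcases mul_eq_zero.1 h7 with h8 | h8
      · linarith
      · exact absurd h8 h5.ne'
    exact_mod_cast h6
  subst hm1
  have heq : D.carrier = ball x₀ R \ closedBall (y 0) r₁ := by
    rw [h.eq]
    congr 1
    ext x
    rw [mem_iUnion]
    constructor
    · rintro ⟨i, hi⟩
      rw [Subsingleton.elim i 0, hall 0] at hi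
      exact hi
    · intro hx
      exact ⟨0, by rw [hall 0]; exact hx⟩
  refine ⟨0, fun s hs1 hs2 => ?_⟩
  have hy : y 0 ≠ x₀ := by
    intro hy
    refine hns ⟨x₀, r₁, R, hr0, h12, ?_⟩
    rw [heq, hy]
    ext x
    rw [mem_diff, mem_ball, mem_closedBall, not_le]
    exact and_comm
  have hsub0 : closedBall (y 0) r₁ ⊆ ball x₀ R := by
    have := h.sub 0
    rwa [hall 0] at this
  have := overlap hn h.Rpos hr0 hsub0 hy hs1 hs2
  rw [heq]
  show 0 < volume ((ball x₀ R \ closedBall (y 0) r₁) ∩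
      {x | infDist x (ball x₀ R)ᶜ < R - s ∧ infDist x (closedBall (y 0) (r 0)) < s - r₁})
  rw [hall 0]
  exact this

end Pool.Agent.RH
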