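import Pool.Agent.H.MP_1b807b_an.HO.CoreW
import Pool.Agent.H.MP_1b807b_an.HO.CvxCollar
import Pool.Agent.H.MP_1b807b_an.HO.CvxGeo
import Pool.Agent.H.MP_1b807b_an.HO.HoleIso
import Pool.Agent.H.MP_1b807b_an.HO.RigB
import Pool.Agent.H.MP_1b807b_an.HO.RigC
import Pool.Agent.H.MP_1b807b_an.HO.SphMain

/-! MP_1b807b_an, balls with holes, module CvxMain: balls with convex holes -/

set_option autoImplicit false

namespace Pool.Agent.RH

open MeasureTheory Metric Set Filter Pool.Agent.RG Pool.Agent.H.MP_1b807b_an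
open scoped Topology

variable {n : ℕ}

private theorem cvxmain_radius (hn : 2 ≤ n) {v : ℝ} (hv : 0 < v) :
    ∃ r : ℝ, 0 < r ∧ v = om n * r ^ n := by
  have hom := om_pos n
  refine ⟨(v / om n) ^ ((1 : ℝ) / (n : ℝ)), by positivity, ?_⟩
  rw [one_div, Real.rpow_inv_natCast_pow (by positivity) (by omega)]
  field_simp

theorem cvx_main (hn : 2 ≤ n) (D : Domain n) {x₀ : E n} {R : ℝ} {m : ℕ} {K : Fin m → Set (E n)}
    (h : CvxHoles D.carrier x₀ R m K) {β k r₁ : ℝ} {u p : ℝ → ℝ} (hβ : 0 < β) (hk : 0 < k)
    (h0 : 0 ≤ r₁) (h12 : r₁ < R) (hr₁ : om n * r₁ ^ n = ∑ i, volume.real (K i))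
    (g : GS (n - 1) r₁ R β k u p) :
    D.robin (-β) ≤ ((-k ^ 2 : ℝ) : EReal) ∧
      (¬ IsBallSet D.carrier → ¬ IsShellSet D.carrier →
        D.robin (-β) < ((-k ^ 2 : ℝ) : EReal)) := by
  have hom := om_pos n
  have hn0 : (0 : ℝ) < n := by exact_mod_cast (by omega : 0 < n)
  have hn1 : n - 1 + 1 = n := by omega
  obtain ⟨ε, hε, hεR, hiso, -⟩ := cvx_iso h
  have hKD : ∀ i, Disjoint (K i) D.carrier := fun i => by
    rw [Set.disjoint_left]
    intro x hx hxD
    rw [h.eq] at hxD
    exact hxD.2 (mem_iUnion.2 ⟨i, hx⟩)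
  have hnull : ∀ i, volume (frontier (K i)) = 0 := fun i => (h.convex i).addHaar_frontier volume
  have hfin : ∀ i, volume (K i) ≠ ⊤ := fun i => (h.compact i).measure_lt_top.ne
  have hvpos : ∀ i, 0 < volume.real (K i) := fun i => by
    rw [measureReal_def]
    refine ENNReal.toReal_pos ?_ (hfin i)
    exact (lt_of_lt_of_le (isOpen_interior.measure_pos volume (h.int i))
      (measure_mono interior_subset)).ne'
  choose r hr hvr using fun i => cvxmain_radius hn (hvpos i)
  have hP := fun i => hole_iso hn D (h.compact i) (hKD i) hε (hiso i) (hnull i) (hr i).le (hvr i)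
  have hden : ∀ i, 0 < n * om n * r i ^ (n - 1) := fun i => by
    have := hr i
    positivity
  obtain ⟨q, hq⟩ : ∃ q : Fin m → ℝ, ∀ i, n * om n * r i ^ (n - 1) * q i = D.surface.real (K i) :=
    ⟨fun i => D.surface.real (K i) / (n * om n * r i ^ (n - 1)), fun i => by
      rw [mul_comm, div_mul_cancel₀ _ (hden i).ne']⟩
  have hq1 : ∀ i, 1 ≤ q i := fun i => by
    have h1 := hP i
    rw [← hq i] at h1
    by_contra hc
    push Not at hc
    nlinarith [hden i]
  have hq0 : ∀ i, 0 < q i := fun i => zero_lt_one.trans_le (hq1 i)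
  have hpowq : ∀ i, q i ^ n = q i ^ (n - 1) * q i := fun i => by rw [← pow_succ, hn1]
  have hw : ∀ i, q i ^ n * (r i / q i) ^ n = r i ^ n := fun i => by
    have := (hq0 i).ne'
    rw [div_pow]
    field_simp
  have hsum : r₁ ^ n = ∑ i, r i ^ n := by
    have h1 : om n * r₁ ^ n = om n * ∑ i, r i ^ n := by
      rw [hr₁, Finset.mul_sum]
      exact Finset.sum_congr rfl fun i _ => hvr i
    exact mul_left_cancel₀ hom.ne' h1
  have hvol : volume.real D.carrier = om n * (R ^ n - r₁ ^ n) := by
    rw [cvx_vol hn h, mul_sub, hr₁]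
  have hsubD : D.carrier ⊆ ball x₀ R := by
    rw [h.eq]
    exact sdiff_subset
  have hcore := core_w hn D hβ hk h0 h12 g (S₀ := (ball x₀ R)ᶜ) isOpen_ball.isClosed_compl
    (cvx_surf0 hn D h) (fun t ht => ball_collar hn h.Rpos hsubD ht.1 ht.2) K
    (fun i => r i / q i) (fun i => q i ^ n) (fun i => (h.compact i).isClosed)
    (fun i => by
      rw [Set.disjoint_left]
      intro x hx hx'
      exact hx' (h.sub i hx)) h.disj (fun i => div_pos (hr i) (hq0 i))
    (fun i => one_le_pow₀ (hq1 i))
    (fun i => by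
      rw [← hq i]
      apply le_of_eq
      have := (hq0 i).ne'
      rw [div_pow, hpowq]
      field_simp)
    (fun i t ht => by
      have h1 := convex_collar hn D (h.compact i) (hKD i) hε (hiso i) (h.convex i) (h.int i) (hr i)
        (hvr i) (hq i) ht
      have hsub : D.carrier ∩ {x | infDist x (K i) ≤ t} ⊆ {x | infDist x (K i) ≤ t} \ K i :=
        fun x hx => ⟨hx.2, fun hxK => (Set.disjoint_left.1 (hKD i)) hxK hx.1⟩
      have hbd : Bornology.IsBounded {x : E n | infDist x (K i) ≤ t} := by
        obtain ⟨M, hM⟩ := (h.compact i).isBounded.subset_closedBall x₀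
        refine (isBounded_closedBall (x := x₀) (r := t + M)).subset fun x hx => ?_
        obtain ⟨y, hy, hxy⟩ := (h.compact i).exists_infDist_eq_dist
          ((h.int i).mono interior_subset) x
        have h2 : dist x y ≤ t := by
          rw [← hxy]
          exact hx
        have h3 := hM hy
        rw [mem_closedBall] at h3 ⊢
        linarith [dist_triangle x y x₀]
      have hKsub : K i ⊆ {x : E n | infDist x (K i) ≤ t} := fun x hx => by
        show infDist x (K i) ≤ t
        rw [infDist_zero_of_mem hx]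
        exact ht
      have h3 : volume.real ({x : E n | infDist x (K i) ≤ t} \ K i) =
          volume.real {x : E n | infDist x (K i) ≤ t} - volume.real (K i) :=
        measureReal_sdiff hKsub (h.compact i).isClosed.measurableSet
          hbd.measure_lt_top.ne
      have h4 : volume.real (D.carrier ∩ {x | infDist x (K i) ≤ t}) ≤
          volume.real ({x : E n | infDist x (K i) ≤ t} \ K i) :=
        measureReal_mono hsub ((hbd.subset sdiff_subset).measure_lt_top.ne)
      have h5 : q i ^ n * (om n * ((r i / q i + t) ^ n - (r i / q i) ^ n)) =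
          om n * (r i + q i * t) ^ n - om n * r i ^ n := by
        have h6 : r i + q i * t = q i * (r i / q i + t) := by
          have := (hq0 i).ne'
          field_simp
        rw [h6, mul_pow, ← hw i]
        ring
      rw [h5]
      rw [h3, hvr i] at h4
      linarith)
    (by
      rw [hsum]
      exact (Finset.sum_congr rfl fun i _ => (hw i).symm).le)
    hvol.le
  refine ⟨hcore.1, fun hnb hns => ?_⟩
  by_cases hex : ∃ i, r i / q i ≠ r₁
  · exact hcore.2 hex
  push Not at hex
  have hrle : ∀ i, r i ≤ r₁ := fun i => by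
    have h1 : r i ^ n ≤ r₁ ^ n := by
      rw [hsum]
      exact Finset.single_le_sum (f := fun i => r i ^ n) (fun j _ => pow_nonneg (hr j).le n)
        (Finset.mem_univ i)
    exact le_of_pow_le_pow_left₀ (by omega) h0 h1
  have hqe : ∀ i, q i = 1 := fun i => by
    have h1 := hex i
    rw [div_eq_iff (hq0 i).ne'] at h1
    have h2 := hrle i
    have h3 := hq1 i
    have h4 : 0 < r₁ := (hr i).trans_le h2
    by_contra hne
    have h5 : 1 < q i := lt_of_le_of_ne h3 (Ne.symm hne)
    nlinarith
  have hball : ∀ i, ∃ a : E n, K i = closedBall a (r i) := fun i => by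
    have hPi : D.surface.real (K i) ≤ n * om n * r i ^ (n - 1) := by
      rw [← hq i, hqe i, mul_one]
    obtain ⟨L, T, hT, hTR, hid, hfr⟩ := rig_map hn D (h.compact i) (hKD i) hε (hiso i) (hnull i)
      (cvx_supp hn D h) (hr i) (hvr i) hPi
    obtain ⟨a, ha⟩ := rig_ball hn (h.compact i) (hnull i) (hr i) (hvr i) hT hTR hid hfr
    exact ⟨a, rig_closed hn D (h.compact i) (hKD i) hε (hiso i) (hnull i) (cvx_supp hn D h) (hr i)
      ha hPi⟩
  choose a ha using hball
  have hS : SphHoles D.carrier x₀ R m a r :=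
    { Rpos := h.Rpos
      rpos := hr
      sub := fun i => ha i ▸ h.sub i
      disj := fun i j hij => by
        rw [← ha i, ← ha j]
        exact h.disj i j hij
      eq := by
        rw [h.eq]
        congr 1
        exact iUnion_congr fun i => ha i }
  exact (sph_main hn D hS hβ hk h0 h12 hsum g).2 hnb hns

end Pool.Agent.RH
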