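import Pool.Agent.H.MP_1b807b_an.G.Defs
import Pool.Agent.H.MP_1b807b_an.OneD

/-! MP_1b807b_an, balls with holes, module Defs -/

set_option autoImplicit false

namespace Pool.Agent.RH

open MeasureTheory Metric Set Pool.Agent.RG

variable {n : ℕ}

/-- the volume of the unit ball of `ℝⁿ` -/
noncomputable def om (n : ℕ) : ℝ := volume.real (ball (0 : E n) 1)

/-- `S` is a ball of `ℝⁿ` -/
def IsBallSet (S : Set (E n)) : Prop := ∃ (x₀ : E n) (R : ℝ), 0 < R ∧ S = ball x₀ R

/-- `S` is a spherical shell of `ℝⁿ` -/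
def IsShellSet (S : Set (E n)) : Prop :=
  ∃ (x₀ : E n) (r₁ r₂ : ℝ), 0 < r₁ ∧ r₁ < r₂ ∧ S = {x | r₁ < dist x x₀ ∧ dist x x₀ < r₂}

/-- `S` is the open ball of centre `x₀` and radius `R` with the `m` pairwise disjoint closed balls
of centres `y i` and radii `r i` removed -/
structure SphHoles (S : Set (E n)) (x₀ : E n) (R : ℝ) (m : ℕ) (y : Fin m → E n)
    (r : Fin m → ℝ) : Prop where
  Rpos : 0 < R
  rpos : ∀ i, 0 < r i
  sub : ∀ i, closedBall (y i) (r i) ⊆ ball x₀ R
  disj : ∀ i j, i ≠ j → Disjoint (closedBall (y i) (r i)) (closedBall (y j) (r j))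
  eq : S = ball x₀ R \ ⋃ i, closedBall (y i) (r i)

/-- the holes of a domain: the bounded connected components of its complement -/
def holes (D : Domain n) : Set (Set (E n)) :=
  {K | Bornology.IsBounded K ∧ ∃ x ∈ D.carrierᶜ, K = connectedComponentIn D.carrierᶜ x}

/-- the energy density of a profile -/
def enr (k μ : ℝ) (f f' : ℝ → ℝ) (t : ℝ) : ℝ := f' t ^ 2 + k ^ 2 * (f t ^ 2 - μ ^ 2)

/-- a collar profile: a `C¹` function that equals `μ` from `T` on, with nonincreasing energy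
density -/
structure Prof (k μ T : ℝ) (f f' : ℝ → ℝ) : Prop where
  Tnn : 0 ≤ T
  der : ∀ t, HasDerivAt f (f' t) t
  cont : Continuous f'
  bdd : ∃ C, ∀ t, |f' t| ≤ C
  tail : ∀ t, T ≤ t → f t = μ ∧ f' t = 0
  gt : ∀ t, 0 ≤ t → t < T → μ < f t
  anti : AntitoneOn (enr k μ f f') (Icc 0 T)

end Pool.Agent.RH
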