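import Pool.Agent.H.MP_1b807b_an.HO.PlanarData
import Pool.Agent.H.MP_1b807b_an.HO.SphVol
import Pool.Agent.H.MP_1b807b_an.HO.HoleIso

/-! MP_1b807b_an, balls with holes, module DiscCase: discs with holes of any shape -/

set_option autoImplicit false

namespace Pool.Agent.RH

open MeasureTheory Metric Set Filter Pool.Agent.RG Pool.Agent.RA Pool.Agent.RP
open scoped Topology

private theorem DiscCase_null {D : Domain 2} {K : Set (E 2)} (hK : IsCompact K)
    (hKD : Disjoint K D.carrier) {ε : ℝ} (hε : 0 < ε)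
    (hiso : ∀ x, infDist x K < ε → x ∉ K → x ∈ D.carrier)
    (hnull : volume (frontier D.carrier) = 0) : volume (frontier K) = 0 := by
  refine measure_mono_null ?_ hnull
  intro x hx
  have hxK : x ∈ K := hK.isClosed.frontier_subset hx
  rw [D.isOpen.frontier_eq]
  refine ⟨?_, fun h => (disjoint_left.1 hKD hxK h).elim⟩
  rw [Metric.mem_closure_iff]
  intro δ hδ
  have h1 : x ∉ interior K := by
    rw [frontier_eq_closure_inter_closure] at hx
    have h2 := hx.2
    rw [closure_compl] at h2
    exact h2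
  have h3 : ¬ ball x (min δ ε) ⊆ K := by
    intro h4
    exact h1 (mem_interior.2 ⟨_, h4, isOpen_ball, mem_ball_self (lt_min hδ hε)⟩)
  rw [not_subset] at h3
  obtain ⟨y, hy, hyK⟩ := h3
  rw [mem_ball] at hy
  refine ⟨y, hiso y ?_ hyK, ?_⟩
  · exact (infDist_le_dist_of_mem hxK).trans_lt (hy.trans_le (min_le_right _ _))
  · rw [dist_comm]
    exact hy.trans_le (min_le_left _ _)

/-- The outer radius `r₂` and the condition on the holes, first case: `D` is a disc with holes.
PROOF: `S₀ᶜ = ball x₀ R` (`PData.cover`, `range_eq`), `r₂ = R`. `D.surface.real S₀ ≥ 2 π R`: `Outer.vol`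
and `r = R` (`Outer.le`, `Outer.att`: `infDist x (ball x₀ R)ᶜ ≤ R` with equality at `x₀`) give
`π R ^ 2 ≤ ℓ R - π R ^ 2`. Collar: `ball_collar`. Holes: with `ρ i = D.surface.real (K i) / (2 π)`,
`hole_iso` for `ρ' = sqrt (|K i| / π)` gives `2 π ρ' ≤ D.surface.real (K i)`, so `|K i| ≤ π ρ i ^ 2`
(`frontier (K i) ⊆ frontier D.carrier`-null: `K i` is closed, and by `PData.iso` points of `K i` that are
not interior are limits of points of `D`), and `∑ |K i| = π R ^ 2 - |D|`. -/
theorem disc_case {D : Domain 2} {S₀ : Set (E 2)} {r : ℝ} {N : ℕ} {K : Fin N → Set (E 2)}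
    (P : PData D S₀ r N K) {x₀ : E 2} {R : ℝ} (hR : 0 < R)
    (h : D.carrier ∪ ⋃₀ holes D = ball x₀ R) :
    2 * Real.pi * R ≤ D.surface.real S₀ ∧
      (∀ t ∈ Icc 0 R, volume.real (D.carrier ∩ {x | infDist x S₀ ≤ t}) ≤
        Real.pi * (R ^ 2 - (R - t) ^ 2)) ∧
      volume.real D.carrier ≤ Real.pi * R ^ 2 ∧
      R ^ 2 - volume.real D.carrier / Real.pi ≤
        ∑ i, (D.surface.real (K i) / (2 * Real.pi)) ^ 2 := by
  have hpi := Real.pi_pos
  have hU : D.carrier ∪ ⋃ i, K i = ball x₀ R := by
    rw [← h, ← P.range_eq, sUnion_range]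
  have hS : S₀ᶜ = ball x₀ R := by rw [← P.cover, hU]
  have hS' : S₀ = (ball x₀ R)ᶜ := by rw [← hS, compl_compl]
  have hsub : D.carrier ⊆ ball x₀ R := by
    rw [← hU]
    exact subset_union_left
  have hball : volume.real (ball x₀ R) = Real.pi * R ^ 2 := by
    rw [(vol_ball le_rfl x₀ hR.le).1, om_two]
  refine ⟨?_, ?_, ?_, ?_⟩
  · have h1 := P.outer.vol
    have h2 := P.outer.rpos
    rw [hS, hball] at h1
    have h3 : 2 * Real.pi * R * r ≤ D.surface.real S₀ * r := by
      nlinarith [mul_nonneg hpi.le (sq_nonneg (R - r))]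
    exact le_of_mul_le_mul_right h3 h2
  · intro t ht
    have h1 := ball_collar (le_refl 2) hR hsub ht.1 ht.2
    rw [om_two] at h1
    rw [hS']
    exact h1
  · rw [← hball]
    exact measureReal_mono hsub measure_ball_lt_top.ne
  · obtain ⟨ε, hε, hiso⟩ := P.iso
    have h1 : ∀ i, volume.real (K i) ≤ Real.pi * (D.surface.real (K i) / (2 * Real.pi)) ^ 2 := by
      intro i
      obtain ⟨V, hV⟩ : ∃ V, V = volume.real (K i) := ⟨_, rfl⟩
      have hV0 : 0 ≤ V := by
        rw [hV]
        exact measureReal_nonneg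
      have h2 : 0 ≤ √(V / Real.pi) := Real.sqrt_nonneg _
      have h3 : √(V / Real.pi) ^ 2 = V / Real.pi := Real.sq_sqrt (by positivity)
      have h4 := hole_iso (le_refl 2) D (P.compact i) (P.disjD i) hε (hiso i)
        (DiscCase_null (P.compact i) (P.disjD i) hε (hiso i) P.null) h2 (by
          rw [om_two, h3, ← hV]
          field_simp)
      rw [om_two] at h4
      norm_num at h4
      rw [← hV]
      have h5 : √(V / Real.pi) ≤ D.surface.real (K i) / (2 * Real.pi) := by
        rw [le_div_iff₀ (by positivity)]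
        linarith
      have h6 := pow_le_pow_left₀ h2 h5 2
      rw [h3, div_le_iff₀ hpi] at h6
      linarith
    have h2 : Real.pi * R ^ 2 ≤ volume.real D.carrier + ∑ i, volume.real (K i) := by
      rw [← hball, ← hU]
      refine (measureReal_union_le _ _).trans (add_le_add le_rfl ?_)
      exact measureReal_iUnion_fintype_le _
    have h3 : ∑ i, volume.real (K i) ≤
        Real.pi * ∑ i, (D.surface.real (K i) / (2 * Real.pi)) ^ 2 := by
      rw [Finset.mul_sum]
      exact Finset.sum_le_sum fun i _ => h1 i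
    have h4 : R ^ 2 - volume.real D.carrier / Real.pi =
        (Real.pi * R ^ 2 - volume.real D.carrier) / Real.pi := by
      field_simp
    rw [h4, div_le_iff₀ hpi]
    linarith

end Pool.Agent.RH
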