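import Pool.Agent.H.MP_1b807b_an.HO.Defs

/-! MP_1b807b_an, balls with holes, module Ext: `C¹` extension of a profile -/

set_option autoImplicit false

namespace Pool.Agent.RH

open MeasureTheory Set

/-- the derivative of the extended profile is continuous -/
private theorem Ext_cont {T : ℝ} (hT : 0 ≤ T) {F₁ : ℝ → ℝ} (hc : ContinuousOn F₁ (Icc 0 T)) :
    Continuous (fun t : ℝ => F₁ (max 0 (min t T))) := by
  have h1 : Continuous (fun t : ℝ => max (0 : ℝ) (min t T)) :=
    continuous_const.max (continuous_id.min continuous_const)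
  exact hc.comp_continuous h1 (fun t => ⟨le_max_left _ _, max_le hT (min_le_right _ _)⟩)

/-- PROOF: `f' t = F₁ (max 0 (min t T))` (continuous, bounded by compactness of `[0,T]`),
`f t = F 0 + ∫ s in 0..t, f' s`; `intervalIntegral.integral_hasDerivAt_right`; `f = F` on `[0,T]` by
`intervalIntegral.integral_eq_sub_of_hasDerivAt`; `f' = F₁ T = 0` beyond `T`. -/
theorem ext_prof {T : ℝ} (hT : 0 ≤ T) {F F₁ : ℝ → ℝ} (hF : ∀ t ∈ Icc 0 T, HasDerivAt F (F₁ t) t)
    (hc : ContinuousOn F₁ (Icc 0 T)) (h0 : F₁ T = 0) :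
    ∃ f f' : ℝ → ℝ, (∀ t, HasDerivAt f (f' t) t) ∧ Continuous f' ∧ (∃ C, ∀ t, |f' t| ≤ C) ∧
      (∀ t ∈ Icc 0 T, f t = F t ∧ f' t = F₁ t) ∧ (∀ t, T ≤ t → f t = F T ∧ f' t = 0) := by
  set f' : ℝ → ℝ := fun t => F₁ (max 0 (min t T)) with hf'
  have hcf' : Continuous f' := Ext_cont hT hc
  have hin : ∀ t ∈ Icc (0 : ℝ) T, f' t = F₁ t := by
    intro t ht
    have : max (0 : ℝ) (min t T) = t := by
      rw [min_eq_left ht.2, max_eq_right ht.1]
    simp only [hf', this]
  have hout : ∀ t, T ≤ t → f' t = 0 := by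
    intro t ht
    have : max (0 : ℝ) (min t T) = T := by
      rw [min_eq_right ht, max_eq_right hT]
    simp only [hf', this, h0]
  set f : ℝ → ℝ := fun t => F 0 + ∫ s in (0 : ℝ)..t, f' s with hf
  have hder : ∀ t, HasDerivAt f (f' t) t := by
    intro t
    have h := intervalIntegral.integral_hasDerivAt_right (hcf'.intervalIntegrable 0 t)
      (hcf'.stronglyMeasurableAtFilter _ _) hcf'.continuousAt
    simpa [hf] using h.const_add (F 0)
  have hfF : ∀ t ∈ Icc (0 : ℝ) T, f t = F t := by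
    intro t ht
    have hsub : ∀ s ∈ uIcc (0 : ℝ) t, s ∈ Icc (0 : ℝ) T := by
      intro s hs
      rw [uIcc_of_le ht.1] at hs
      exact ⟨hs.1, hs.2.trans ht.2⟩
    have h1 : ∀ s ∈ uIcc (0 : ℝ) t, HasDerivAt F (f' s) s := by
      intro s hs
      rw [hin s (hsub s hs)]
      exact hF s (hsub s hs)
    have h2 := intervalIntegral.integral_eq_sub_of_hasDerivAt h1 (hcf'.intervalIntegrable 0 t)
    simp only [hf, h2]
    ring
  refine ⟨f, f', hder, hcf', ?_, fun t ht => ⟨hfF t ht, hin t ht⟩, ?_⟩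
  · obtain ⟨C, hC⟩ := isCompact_Icc.exists_bound_of_continuousOn hc
    refine ⟨C, fun t => ?_⟩
    have := hC (max 0 (min t T)) ⟨le_max_left _ _, max_le hT (min_le_right _ _)⟩
    simpa [hf', Real.norm_eq_abs] using this
  · intro t ht
    refine ⟨?_, hout t ht⟩
    have h1 : ∫ s in T..t, f' s = 0 := by
      have : ∫ s in T..t, f' s = ∫ s in T..t, (0 : ℝ) := by
        refine intervalIntegral.integral_congr (fun s hs => ?_)
        rw [uIcc_of_le ht] at hs
        exact hout s hs.1
      rw [this]; simp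
    have h2 : f t = f T := by
      have h3 := intervalIntegral.integral_add_adjacent_intervals
        (hcf'.intervalIntegrable (μ := volume) 0 T) (hcf'.intervalIntegrable (μ := volume) T t)
      simp only [hf]
      rw [← h3, h1, add_zero]
    rw [h2, hfF T ⟨hT, le_refl T⟩]

end Pool.Agent.RH
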