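import Pool.Agent.H.MP_1b807b_an.A.TubeUUB

/-! MP_1b807b_an, balls with holes, module SuppP: the support of the length measure -/

set_option autoImplicit false

namespace Pool.Agent.RH

open MeasureTheory Metric Set Filter Pool.Agent.RG Pool.Agent.RA
open scoped Topology

/-- PROOF: `z = J.curve i s` (`frontier_eq`), by periodicity `s ∈ Ico 0 (len i)`; the curve is 1-Lipschitz, so
`J.curve i ⁻¹' ball z δ` contains `Ico s (s + η)` for small `η`, of positive measure in `Ico 0 (len i)`;
`surface_eq` / `surface_apply`. -/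
theorem supp_pos {D : Domain 2} (J : JordanBoundary D) :
    ∀ z ∈ frontier D.carrier, ∀ δ : ℝ, 0 < δ → 0 < D.surface (ball z δ) := by
  intro z hz δ hδ
  rw [J.frontier_eq, mem_iUnion] at hz
  obtain ⟨i, s, hs⟩ := hz
  obtain ⟨s', hs', hss⟩ := (J.periodic i).exists_mem_Ico₀ (J.len_pos i) s
  rw [hs] at hss
  have h0 : 0 < min δ (J.len i - s') := lt_min hδ (by linarith [hs'.2])
  have h1 : 0 < volume (Ico s' (s' + min δ (J.len i - s'))) := by
    rw [Real.volume_Ico]
    simpa using h0
  have h2 : Ico s' (s' + min δ (J.len i - s')) ⊆ Ico 0 (J.len i) ∩ J.curve i ⁻¹' ball z δ := by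
    intro t ht
    have h3 := min_le_left δ (J.len i - s')
    have h4 := min_le_right δ (J.len i - s')
    refine ⟨⟨hs'.1.trans ht.1, by linarith [ht.2]⟩, ?_⟩
    rw [mem_preimage, mem_ball, hss]
    have h5 := (J.lipschitz i).dist_le_mul t s'
    rw [NNReal.coe_one, one_mul, Real.dist_eq, abs_of_nonneg (by linarith [ht.1])] at h5
    linarith [ht.2]
  rw [surface_apply J isOpen_ball.measurableSet]
  have h3 := h1.trans_le (measure_mono h2)
  exact h3.trans_le (Finset.single_le_sum
    (f := fun j => volume (Ico 0 (J.len j) ∩ J.curve j ⁻¹' ball z δ))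
    (fun _ _ => zero_le) (Finset.mem_univ i))

end Pool.Agent.RH
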