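import Pool.Agent.H.MP_1b807b_an.HO.Core
import Pool.Agent.H.MP_1b807b_an.HO.DiscCase
import Pool.Agent.H.MP_1b807b_an.HO.RigB
import Pool.Agent.H.MP_1b807b_an.HO.RigC
import Pool.Agent.H.MP_1b807b_an.HO.SuppP
import Pool.Agent.H.MP_1b807b_an.Min

/-! MP_1b807b_an, balls with holes, module PlanarDisc: discs with holes, strict inequality -/

set_option autoImplicit false

namespace Pool.Agent.RH

open MeasureTheory Metric Set Filter Pool.Agent.RG Pool.Agent.RA Pool.Agent.RP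
  Pool.Agent.H.MP_1b807b_an
open scoped Topology

/-- PROOF: `exists_pdata`, `disc_case`. Let `x = sqrt (R ^ 2 - R₀ ^ 2)`, `R = outer 1 R₀ x`
(`outer_unique`), `kk_spec` gives the ground state on `[x, R]`, `ρ i = D.surface.real (K i) / (2 π)`,
`x ^ 2 ≤ ∑ ρ i ^ 2`. If `N = 0`: `D.carrier = ball x₀ R` (`PData.range_eq`: no holes), `SphHoles` with `m = 0`. If
some `ρ i ≠ x` or `x ^ 2 < ∑ ρ i ^ 2` (and `0 < x`): `core_full`, strict. Otherwise all `ρ i = x > 0` and
`N x ^ 2 = x ^ 2`, so `N = 1`; `D.surface.real (K 0) = 2 π x`, `volume.real (K 0) = π R ^ 2 - |D| = π x ^ 2`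
(`D.carrier ∪ K 0 = ball x₀ R`, disjoint). `rig_map`, `rig_ball`, `rig_closed` with `n = 2` (`supp_pos`,
`PData.iso`, `frontier (K 0) ⊆ frontier D.carrier` by `rig_frontier`, null by `PData.null`) give
`K 0 = closedBall a x`, so `D.carrier = ball x₀ R \ closedBall a x`: `SphHoles` with `m = 1`. -/
theorem planar_disc {D : Domain 2} (J : JordanBoundary D) {x₀ : E 2} {R : ℝ} (hR : 0 < R)
    (h : D.carrier ∪ ⋃₀ holes D = ball x₀ R) {R₀ : ℝ} (hR₀ : 0 < R₀)
    (hvol : volume.real D.carrier = om 2 * R₀ ^ 2) {β : ℝ} (hβ : 0 < β) :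
    (∃ (x₁ : E 2) (R₁ : ℝ) (m : ℕ) (y : Fin m → E 2) (r : Fin m → ℝ),
      SphHoles D.carrier x₁ R₁ m y r) ∨
      ∃ x : ℝ, 0 ≤ x ∧ D.robin (-β) < ((-kk 1 R₀ β x ^ 2 : ℝ) : EReal) := by
  classical
  have hpi := Real.pi_pos
  obtain ⟨S₀, r, N, K, P⟩ := exists_pdata J
  obtain ⟨hS1, hS2, hS3, hS4⟩ := disc_case P hR h
  rw [om_two] at hvol
  have hU : D.carrier ∪ ⋃ i, K i = ball x₀ R := by
    rw [← h, ← P.range_eq, sUnion_range]
  have hS : S₀ = (ball x₀ R)ᶜ := by
    rw [← hU, P.cover, compl_compl]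
  have hR2 : R₀ ^ 2 ≤ R ^ 2 := by
    rw [hvol] at hS3
    exact le_of_mul_le_mul_left hS3 hpi
  obtain ⟨x, hx⟩ : ∃ x, x = √(R ^ 2 - R₀ ^ 2) := ⟨_, rfl⟩
  have hx0 : 0 ≤ x := by
    rw [hx]
    exact Real.sqrt_nonneg _
  have hx2 : x ^ 2 = R ^ 2 - R₀ ^ 2 := by
    rw [hx]
    exact Real.sq_sqrt (by linarith)
  have hRo : R = outer 1 R₀ x := outer_unique 1 hR₀ hx0 hR (by
    show R ^ 2 - x ^ 2 = R₀ ^ 2
    linarith)
  have hxR : x < R := by
    rw [hRo]
    exact lt_outer 1 hR₀ hx0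
  obtain ⟨hk, u, p, g⟩ := kk_spec (m := 1) le_rfl hR₀ hβ hx0
  rw [← hRo] at g
  obtain ⟨ρ, hρdef⟩ : ∃ ρ : Fin N → ℝ, ρ = fun i => D.surface.real (K i) / (2 * Real.pi) :=
    ⟨_, rfl⟩
  have hρs : ∀ i, 2 * Real.pi * ρ i = D.surface.real (K i) := by
    intro i
    rw [hρdef]
    field_simp
  have hρ : ∀ i, 0 < ρ i := by
    intro i
    rw [hρdef]
    exact div_pos (P.pos i) (by positivity)
  have hsum : x ^ 2 ≤ ∑ i, ρ i ^ 2 := by
    have h1 : R ^ 2 - volume.real D.carrier / Real.pi = x ^ 2 := by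
      rw [hvol, hx2]
      field_simp
    rw [h1] at hS4
    rw [hρdef]
    exact hS4
  have hcast : ((2 : ℕ) : ℝ) = 2 := by norm_num
  have hcore := core_full (n := 2) le_rfl D hβ hk hx0 hxR g (S₀ := S₀)
    (by rw [hS]; exact isOpen_ball.isClosed_compl)
    (by
      rw [om_two, hcast]
      norm_num
      exact hS1)
    (by
      intro t ht
      rw [om_two]
      exact hS2 t ht)
    K ρ (fun i => (P.compact i).isClosed) P.disj0 P.disj hρ
    (by
      intro i
      rw [om_two, hcast]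
      norm_num
      exact (hρs i).le)
    (by
      intro i t ht
      rw [om_two]
      refine (P.tube i t ht).trans (le_of_eq ?_)
      rw [← hρs i]
      ring)
    hsum
    (by
      rw [om_two, hvol]
      exact le_of_eq (by rw [hx2]; ring))
  by_cases hstrict : (∃ i, ρ i ≠ x) ∨ (0 < x ∧ x ^ 2 < ∑ i, ρ i ^ 2)
  · refine Or.inr ⟨x, hx0, hcore.2 ?_⟩
    rcases hstrict with h1 | h1
    · exact Or.inl h1
    · exact Or.inr (Or.inr h1)
  left
  push Not at hstrict
  obtain ⟨hall, hle⟩ := hstrict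
  rcases N.eq_zero_or_pos with hN | hN
  · subst hN
    refine ⟨x₀, R, 0, Fin.elim0, Fin.elim0, hR, fun i => i.elim0, fun i => i.elim0,
      fun i => i.elim0, ?_⟩
    rw [iUnion_of_empty, union_empty] at hU
    rw [hU, iUnion_of_empty, sdiff_empty]
  have hxp : 0 < x := by
    rw [← hall ⟨0, hN⟩]
    exact hρ _
  have hN1 : N = 1 := by
    have h4 : ∑ i, ρ i ^ 2 = (N : ℝ) * x ^ 2 := by
      rw [Finset.sum_congr rfl fun i _ => by rw [hall i], Finset.sum_const, Finset.card_univ,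
        Fintype.card_fin, nsmul_eq_mul]
    have h5 := hle hxp
    rw [h4] at h5 hsum
    have h6 : 0 < x ^ 2 := by positivity
    have h7 : (N : ℝ) = 1 := by
      have h8 : ((N : ℝ) - 1) * x ^ 2 = 0 := by linarith
      rcases mul_eq_zero.1 h8 with h9 | h9
      · linarith
      · exact absurd h9 h6.ne'
    exact_mod_cast h7
  subst hN1
  have hK1 : ⋃ i, K i = K 0 := by
    ext z
    rw [mem_iUnion]
    constructor
    · rintro ⟨i, hi⟩
      rwa [Subsingleton.elim i 0] at hi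
    · intro hz
      exact ⟨0, hz⟩
  rw [hK1] at hU
  have hsurf : D.surface.real (K 0) ≤ (2 : ℕ) * om 2 * x ^ (2 - 1) := by
    rw [om_two, hcast, ← hρs 0, hall 0]
    norm_num
  have hball : volume.real (ball x₀ R) = Real.pi * R ^ 2 := by
    rw [(vol_ball le_rfl x₀ hR.le).1, om_two]
  have hv : volume.real (K 0) = om 2 * x ^ 2 := by
    have h1 : volume.real (D.carrier ∪ K 0) = volume.real D.carrier + volume.real (K 0) :=
      measureReal_union (P.disjD 0).symm (P.compact 0).isClosed.measurableSet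
        D.isBounded.measure_lt_top.ne (P.compact 0).measure_lt_top.ne
    rw [hU, hball, hvol] at h1
    rw [om_two, hx2]
    linarith
  obtain ⟨ε, hε, hiso⟩ := P.iso
  have hnull : volume (frontier (K 0)) = 0 :=
    measure_mono_null (rig_frontier D (P.compact 0) (P.disjD 0) hε (hiso 0)) P.null
  obtain ⟨L, T, hT, hTR, hid, hfr⟩ := rig_map le_rfl D (P.compact 0) (P.disjD 0) hε (hiso 0) hnull
    (supp_pos J) hxp hv hsurf
  obtain ⟨a, ha⟩ := rig_ball le_rfl (P.compact 0) hnull hxp hv hT hTR hid hfr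
  have hKa := rig_closed le_rfl D (P.compact 0) (P.disjD 0) hε (hiso 0) hnull (supp_pos J) hxp ha
    hsurf
  refine ⟨x₀, R, 1, fun _ => a, fun _ => x, hR, fun _ => hxp, fun _ => ?_, ?_, ?_⟩
  · rw [← hKa, ← hU]
    exact subset_union_right
  · intro i j hij
    exact absurd (Subsingleton.elim i j) hij
  · rw [iUnion_const, ← hKa, ← hU, union_sdiff_right]
    exact ((P.disjD 0).symm.sdiff_eq_left).symm

end Pool.Agent.RH
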