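import Pool.Agent.H.MP_1b807b_an.HO.PlanarData
import Pool.Agent.H.MP_1b807b_an.HO.SphVol

/-! MP_1b807b_an, balls with holes, module LenCase: the condition on the lengths -/

set_option autoImplicit false

namespace Pool.Agent.RH

open MeasureTheory Metric Set Filter Pool.Agent.RG Pool.Agent.RA Pool.Agent.RP
open scoped Topology

/-- Second case, `r₂ = D.surface.real S₀ / (2 π)`.
PROOF: `|D| ≤ |S₀ᶜ| ≤ ℓ r - π r ^ 2 ≤ π r₂ ^ 2` (`Outer.vol`); the collar inequality for `t < r` is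
`Outer.tube`, for `r ≤ t ≤ r₂` it follows from `|D| ≤ ℓ r - π r ^ 2` and monotonicity of
`ℓ t - π t ^ 2` on `[0, r₂]`. The finsum is `∑ i, D.surface.real (K i) ^ 2` (`PData.inj`, `range_eq`:
`finsum_mem_range`). -/
theorem length_case {D : Domain 2} {S₀ : Set (E 2)} {r : ℝ} {N : ℕ} {K : Fin N → Set (E 2)}
    (P : PData D S₀ r N K)
    (h : D.surface.real (⋃₀ holes D)ᶜ ^ 2 ≤
      4 * Real.pi * volume.real D.carrier + ∑ᶠ K ∈ holes D, D.surface.real K ^ 2) :
    ∃ R : ℝ, 0 < R ∧ 2 * Real.pi * R = D.surface.real S₀ ∧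
      (∀ t ∈ Icc 0 R, volume.real (D.carrier ∩ {x | infDist x S₀ ≤ t}) ≤
        Real.pi * (R ^ 2 - (R - t) ^ 2)) ∧
      volume.real D.carrier ≤ Real.pi * R ^ 2 ∧
      R ^ 2 - volume.real D.carrier / Real.pi ≤
        ∑ i, (D.surface.real (K i) / (2 * Real.pi)) ^ 2 := by
  have hpi := Real.pi_pos
  obtain ⟨ℓ, hℓ⟩ : ∃ ℓ, ℓ = D.surface.real S₀ := ⟨_, rfl⟩
  obtain ⟨A, hA⟩ : ∃ A, A = volume.real D.carrier := ⟨_, rfl⟩
  obtain ⟨R, hR⟩ : ∃ R, R = ℓ / (2 * Real.pi) := ⟨_, rfl⟩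
  have hR2 : 2 * Real.pi * R = ℓ := by
    rw [hR]
    field_simp
  have hr := P.outer.rpos
  have hvol := P.outer.vol
  rw [← hℓ] at hvol
  have hfin : volume S₀ᶜ ≠ ⊤ := P.outer.bdd.measure_lt_top.ne
  have hDS : A ≤ ℓ * r - Real.pi * r ^ 2 := by
    rw [hA]
    exact (measureReal_mono P.outer.sub hfin).trans hvol
  have hA0 : 0 ≤ A := by
    rw [hA]
    exact measureReal_nonneg
  have hRpos : 0 < R := by
    have h1 : 0 ≤ volume.real S₀ᶜ := measureReal_nonneg
    have h2 : 0 < Real.pi * r ^ 2 := by positivity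
    have h3 : 0 < 2 * Real.pi * R * r := by
      rw [hR2]
      linarith
    by_contra hcon
    push Not at hcon
    have h4 : 2 * Real.pi * R * r ≤ 0 := by
      have h5 : 0 ≤ 2 * Real.pi * r := by positivity
      nlinarith
    linarith
  refine ⟨R, hRpos, ?_, ?_, ?_, ?_⟩
  · rw [← hℓ]
    exact hR2
  · intro t ht
    have hDfin : volume D.carrier ≠ ⊤ := ((measure_mono P.outer.sub).trans_lt
      P.outer.bdd.measure_lt_top).ne
    have heq : Real.pi * (R ^ 2 - (R - t) ^ 2) = ℓ * t - Real.pi * t ^ 2 := by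
      rw [← hR2]
      ring
    rw [heq]
    rcases lt_or_ge t r with h1 | h1
    · have h2 := P.outer.tube t ht.1 h1
      rwa [← hℓ] at h2
    · have h2 : volume.real (D.carrier ∩ {x | infDist x S₀ ≤ t}) ≤ A := by
        rw [hA]
        exact measureReal_mono inter_subset_left hDfin
      have h3 : 0 ≤ (t - r) * (ℓ - Real.pi * (t + r)) := by
        refine mul_nonneg (by linarith) ?_
        have h4 : Real.pi * (t + r) ≤ Real.pi * (2 * R) :=
          mul_le_mul_of_nonneg_left (by linarith [ht.2]) hpi.le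
        linarith
      nlinarith
  · rw [← hA]
    have h1 : 0 ≤ Real.pi * (R - r) ^ 2 := by positivity
    have h2 : ℓ * r - Real.pi * r ^ 2 = Real.pi * R ^ 2 - Real.pi * (R - r) ^ 2 := by
      rw [← hR2]
      ring
    linarith
  · have hsum : ∑ᶠ K ∈ holes D, D.surface.real K ^ 2 = ∑ i, D.surface.real (K i) ^ 2 := by
      rw [← P.range_eq, finsum_mem_range P.inj, finsum_eq_sum_of_fintype]
    rw [hsum, ← P.surf0, ← hℓ, ← hA] at h
    rw [← hA]
    have h1 : ∑ i, (D.surface.real (K i) / (2 * Real.pi)) ^ 2 =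
        (∑ i, D.surface.real (K i) ^ 2) / (4 * Real.pi ^ 2) := by
      rw [Finset.sum_div]
      refine Finset.sum_congr rfl fun i _ => ?_
      rw [div_pow]
      ring
    rw [h1, sub_le_iff_le_add]
    have h2 : R ^ 2 = ℓ ^ 2 / (4 * Real.pi ^ 2) := by
      rw [← hR2]
      field_simp
      ring
    have h3 : (∑ i, D.surface.real (K i) ^ 2) / (4 * Real.pi ^ 2) + A / Real.pi =
        (4 * Real.pi * A + ∑ i, D.surface.real (K i) ^ 2) / (4 * Real.pi ^ 2) := by
      field_simp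
      ring
    rw [h2, h3]
    exact div_le_div_of_nonneg_right h (by positivity)

end Pool.Agent.RH
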