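import Pool.Agent.H.MP_1b807b_an.HO.Core
import Pool.Agent.H.MP_1b807b_an.HO.DiscCase
import Pool.Agent.H.MP_1b807b_an.HO.LenCase
import Pool.Agent.H.MP_1b807b_an.P.StabP
import Pool.Agent.H.MP_1b807b_an.Min
import Pool.Agent.H.MP_1b807b_an.HO.Class

/-! MP_1b807b_an, balls with holes, module PlanarMain: planar domains -/

set_option autoImplicit false

namespace Pool.Agent.RH

open MeasureTheory Metric Set Filter Pool.Agent.RG Pool.Agent.RA Pool.Agent.RP
  Pool.Agent.H.MP_1b807b_an
open scoped Topology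

/-- PROOF: `exists_pdata`, `disc_case` or `length_case` give `R` (`= r₂`). Let
`x = sqrt (R ^ 2 - R₀ ^ 2)`, so `R = outer 1 R₀ x` (`outer_unique`), `kk_spec` gives the ground state on
`[x, R]`; `core` with `n = 2`, `om_two`, `ρ i = D.surface.real (K i) / (2 π)`: `2 π ρ i = D.surface.real (K i)`,
`π ((ρ + t) ^ 2 - ρ ^ 2) = D.surface.real (K i) t + π t ^ 2`. If `x = 0` and there is a hole
(`N > 0`), `ρ i > 0 = x`: strict by `core`. If `x = 0` and `N = 0`: in the first case `D.carrier = ball x₀ R`.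
In general: `D.carrier = S₀ᶜ` (`cover`), `volume.real D.carrier = π R ^ 2` and `Outer.vol`:
`π R ^ 2 ≤ ℓ r - π r ^ 2`; `planar_eq` (`P/StabP.lean`) applies if `D.perimeter = 2 π R`: in the second case
`ℓ = 2 π R`, `D.perimeter = D.surface.real S₀` as the surface lives on the frontier, contained in
`S₀` when there are no holes. -/
theorem planar_class {D : Domain 2} (hD : PlanarClass D) {R₀ : ℝ} (hR₀ : 0 < R₀)
    (hvol : volume.real D.carrier = om 2 * R₀ ^ 2) {β : ℝ} (hβ : 0 < β) :
    ∃ x : ℝ, 0 ≤ x ∧ D.robin (-β) ≤ ((-kk 1 R₀ β x ^ 2 : ℝ) : EReal) ∧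
      (x = 0 → ¬ IsBallSet D.carrier → D.robin (-β) < ((-kk 1 R₀ β x ^ 2 : ℝ) : EReal)) := by
  have hpi := Real.pi_pos
  have hfin' := D.isFinite
  rw [om_two] at hvol
  obtain ⟨⟨J⟩, hcl⟩ := hD
  obtain ⟨S₀, r, N, K, P⟩ := exists_pdata J
  obtain ⟨R, hR, hP₀, hc₀, hv, hs, hball⟩ : ∃ R : ℝ, 0 < R ∧
      2 * Real.pi * R ≤ D.surface.real S₀ ∧
      (∀ t ∈ Icc 0 R, volume.real (D.carrier ∩ {x | infDist x S₀ ≤ t}) ≤
        Real.pi * (R ^ 2 - (R - t) ^ 2)) ∧
      volume.real D.carrier ≤ Real.pi * R ^ 2 ∧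
      R ^ 2 - volume.real D.carrier / Real.pi ≤
        ∑ i, (D.surface.real (K i) / (2 * Real.pi)) ^ 2 ∧
      (N = 0 → R = R₀ → IsBallSet D.carrier) := by
    rcases hcl with ⟨x₀, R, hR, h⟩ | h
    · obtain ⟨h1, h2, h3, h4⟩ := disc_case P hR h
      refine ⟨R, hR, h1, h2, h3, h4, fun hN _ => ⟨x₀, R, hR, ?_⟩⟩
      subst hN
      have h5 : holes D = ∅ := by
        rw [← P.range_eq]
        exact range_eq_empty K
      rw [h5, sUnion_empty, union_empty] at h
      exact h
    · obtain ⟨R, hR, h1, h2, h3, h4⟩ := length_case P h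
      refine ⟨R, hR, h1.le, h2, h3, h4, fun hN hRR => ?_⟩
      subst hN
      subst hRR
      have h5 : D.carrier = S₀ᶜ := by
        rw [← P.cover, iUnion_of_empty, union_empty]
      have h6 : D.surface.real S₀ᶜ = 0 := by
        rw [← h5, measureReal_def]
        have h7 : D.surface D.carrier = 0 := by
          refine measure_mono_null ?_ D.support
          intro y hy hyf
          rw [D.isOpen.frontier_eq] at hyf
          exact hyf.2 hy
        rw [h7, ENNReal.toReal_zero]
      have h8 : D.perimeter = 2 * Real.pi * R := by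
        rw [perimeter_split P.outer, h6, add_zero, h1]
      have h9 : volume D.carrier = volume (ball (0 : E 2) R) := by
        rw [← ENNReal.toReal_eq_toReal_iff' D.isBounded.measure_lt_top.ne
          measure_ball_lt_top.ne]
        change volume.real D.carrier = volume.real (ball (0 : E 2) R)
        rw [(vol_ball le_rfl (0 : E 2) hR.le).1, om_two, hvol]
      obtain ⟨x₀, hx₀⟩ := planar_eq J hR h9 (by rw [perimeter_disc hR, h8])
      exact ⟨x₀, R, hR, hx₀⟩
  have hRR : R₀ ^ 2 ≤ R ^ 2 := by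
    rw [hvol] at hv
    exact le_of_mul_le_mul_left hv hpi
  set x : ℝ := Real.sqrt (R ^ 2 - R₀ ^ 2) with hxd
  have hx0 : 0 ≤ x := Real.sqrt_nonneg _
  have hx2 : x ^ 2 = R ^ 2 - R₀ ^ 2 := Real.sq_sqrt (by linarith)
  have hout : R = outer 1 R₀ x := outer_unique 1 hR₀ hx0 hR (by
    rw [show (1 + 1 : ℕ) = 2 from rfl, hx2]
    ring)
  have hxR : x < R := by
    rw [hout]
    exact lt_outer 1 hR₀ hx0
  obtain ⟨hk, u, p, g⟩ := kk_spec (m := 1) le_rfl hR₀ hβ hx0
  rw [← hout] at g
  set ρ : Fin N → ℝ := fun i => D.surface.real (K i) / (2 * Real.pi) with hρd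
  have hρ : ∀ i, 0 < ρ i := fun i => div_pos (P.pos i) (by positivity)
  have hρ2 : ∀ i, D.surface.real (K i) = 2 * Real.pi * ρ i := fun i => by
    rw [hρd]
    field_simp
  have hcore := core (n := 2) le_rfl D hβ hk hx0 hxR g P.outer.closed
    (by
      rw [om_two]
      simpa using hP₀)
    (fun t ht => by
      rw [om_two]
      exact hc₀ t ht)
    K ρ (fun i => (P.compact i).isClosed) P.disj0 P.disj hρ
    (fun i => by
      rw [om_two, hρ2 i]
      simp)
    (fun i t ht => by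
      rw [om_two]
      refine (P.tube i t ht).trans (le_of_eq ?_)
      rw [hρ2 i]
      ring)
    (by
      rw [hx2]
      refine le_trans (le_of_eq ?_) hs
      rw [hvol]
      field_simp)
    (by
      rw [om_two, hx2, hvol]
      refine le_of_eq ?_
      ring)
  refine ⟨x, hx0, hcore.1, fun hx hnb => hcore.2 (Or.inl ?_)⟩
  by_contra hne
  push Not at hne
  have hN : N = 0 := by
    by_contra hN0
    have h1 := hne ⟨0, Nat.pos_of_ne_zero hN0⟩
    have h2 := hρ ⟨0, Nat.pos_of_ne_zero hN0⟩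
    rw [h1, hx] at h2
    exact lt_irrefl _ h2
  refine hnb (hball hN ?_)
  rw [hx] at hx2
  have h3 : R ^ 2 = R₀ ^ 2 := by
    rw [zero_pow two_ne_zero] at hx2
    linarith
  exact (pow_left_inj₀ hR.le hR₀.le two_ne_zero).1 h3

end Pool.Agent.RH
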