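import Pool.Agent.H.MP_1b807b_an.HO.Defs
import Pool.Agent.H.MP_1b807b_an.U.ShellDom
import Pool.Agent.H.MP_1b807b_an.G.GaussBall
import Pool.Agent.H.MP_1b807b_an.Link
import Pool.Agent.H.MP_1b807b_an.Exist

/-! MP_1b807b_an, balls with holes, module RadDom: balls and shells as domains -/

set_option autoImplicit false

namespace Pool.Agent.RH

open MeasureTheory Metric Set Filter Pool.Agent.RG Pool.Agent.H.MP_1b807b_an
open scoped RealInnerProductSpace Topology

variable {n : ℕ}

/-- the ball (`r₁ = 0`) or the shell of centre `x₀` -/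
def radSet (x₀ : E n) (r₁ r₂ : ℝ) : Set (E n) :=
  if r₁ = 0 then ball x₀ r₂ else {x | r₁ < dist x x₀ ∧ dist x x₀ < r₂}

private theorem raddom_int {r : ℝ} {w : E n → ℝ} (hw : Continuous w) :
    Integrable w (sphereMeasure n r) := by
  unfold sphereMeasure
  refine Integrable.smul_measure ?_ ENNReal.ofReal_ne_top
  have hc : Continuous fun ω : sphere (0 : E n) 1 => r • (ω : E n) := by fun_prop
  rw [integrable_map_measure hw.aestronglyMeasurable hc.measurable.aemeasurable]
  exact sphere_integrable (hw.comp hc)

private theorem raddom_sph {r : ℝ} (hr : 0 ≤ r) {w : E n → ℝ} (hw : Continuous w) :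
    ∫ x, w x ∂(sphereMeasure n r) = sphI n r w := by
  have hc : Continuous fun ω : sphere (0 : E n) 1 => r • (ω : E n) := by fun_prop
  unfold sphereMeasure sphI
  rw [integral_smul_measure, integral_map hc.measurable.aemeasurable hw.aestronglyMeasurable,
    ENNReal.toReal_ofReal (pow_nonneg hr _), smul_eq_mul]

private theorem raddom_base (hn : 2 ≤ n) {r₁ r₂ : ℝ} (h0 : 0 ≤ r₁) (h12 : r₁ < r₂) :
    ∃ D : Domain n, (∀ x, x ∈ D.carrier ↔ (r₁ = 0 ∨ r₁ < ‖x‖) ∧ ‖x‖ < r₂) ∧
      ∀ w : E n → ℝ, Continuous w → ∫ x, w x ∂D.surface = sphI n r₁ w + sphI n r₂ w := by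
  rcases eq_or_lt_of_le h0 with h | h
  · subst h
    refine ⟨ballDomain n (by omega) r₂ h12, fun x => ?_, fun w hw => ?_⟩
    · show x ∈ ball (0 : E n) r₂ ↔ _
      rw [mem_ball_zero_iff]
      constructor
      · exact fun hx => ⟨Or.inl rfl, hx⟩
      · exact fun hx => hx.2
    · show ∫ x, w x ∂(sphereMeasure n r₂) = _
      rw [raddom_sph h12.le hw]
      have h3 : sphI n 0 w = 0 := by
        unfold sphI
        rw [zero_pow (by omega), zero_mul]
      rw [h3, zero_add]
  · obtain ⟨D, hD, hS, -, -⟩ := Pool.Agent.RU.exists_shell hn h h12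
    refine ⟨D, fun x => ?_, fun w hw => ?_⟩
    · rw [hD]
      constructor
      · exact fun hx => ⟨Or.inr hx.1, hx.2⟩
      · rintro ⟨hx | hx, hx2⟩
        · exact absurd hx h.ne'
        · exact ⟨hx, hx2⟩
    · rw [hS, integral_add_measure (raddom_int hw) (raddom_int hw), raddom_sph (h.trans h12).le hw,
        raddom_sph h.le hw, add_comm]

private theorem raddom_shift (D : Domain n) (x₀ : E n) :
    ∃ D' : Domain n, D'.carrier = {x | x - x₀ ∈ D.carrier} ∧
      ∀ w : E n → ℝ, ∫ x, w x ∂D'.surface = ∫ x, w (x + x₀) ∂D.surface := by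
  have hme : MeasurableEmbedding fun x : E n => x + x₀ :=
    (MeasurableEquiv.addRight x₀).measurableEmbedding
  have hme2 : Measurable fun x : E n => x - x₀ := measurable_id.sub_const x₀
  have hmp : MeasurePreserving (fun x : E n => x + x₀) volume volume :=
    measurePreserving_add_right volume x₀
  haveI := D.isFinite
  have hpre : {x : E n | x - x₀ ∈ D.carrier} = (Homeomorph.subRight x₀) ⁻¹' D.carrier := rfl
  refine ⟨{ carrier := {x | x - x₀ ∈ D.carrier}
            isOpen := D.isOpen.preimage (continuous_id.sub continuous_const)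
            isConnected := ?_
            isBounded := ?_
            surface := D.surface.map fun x => x + x₀
            isFinite := inferInstance
            support := ?_
            normal := fun x => D.normal (x - x₀)
            measurable_normal := D.measurable_normal.comp hme2
            norm_normal := ?_
            divergence := ?_ }, rfl, fun w => hme.integral_map w⟩
  · have h1 : {x : E n | x - x₀ ∈ D.carrier} = (fun x => x + x₀) '' D.carrier := by
      ext x
      constructor
      · exact fun hx => ⟨x - x₀, hx, sub_add_cancel _ _⟩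
      · rintro ⟨y, hy, rfl⟩
        show y + x₀ - x₀ ∈ D.carrier
        rwa [add_sub_cancel_right]
    rw [h1]
    exact D.isConnected.image _ (continuous_id.add continuous_const).continuousOn
  · obtain ⟨R, hR⟩ := D.isBounded.subset_closedBall 0
    refine (isBounded_closedBall (x := x₀) (r := R)).subset fun x hx => ?_
    have h2 := hR hx
    rw [mem_closedBall_zero_iff] at h2
    rw [mem_closedBall, dist_eq_norm]
    exact h2
  · rw [hme.map_apply, hpre, ← Homeomorph.preimage_frontier]
    have h1 : (fun x : E n => x + x₀) ⁻¹' ((Homeomorph.subRight x₀) ⁻¹' frontier D.carrier)ᶜ =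
        (frontier D.carrier)ᶜ := by
      ext x
      show ¬ (x + x₀ - x₀ ∈ frontier D.carrier) ↔ ¬ (x ∈ frontier D.carrier)
      rw [add_sub_cancel_right]
    rw [h1]
    exact D.support
  · rw [hme.ae_map_iff]
    filter_upwards [D.norm_normal] with x hx
    rw [add_sub_cancel_right]
    exact hx
  · intro X hX
    have hX' : ContDiff ℝ 1 fun y : E n => X (y + x₀) := hX.comp (contDiff_id.add contDiff_const)
    have h1 := D.divergence _ hX'
    have h2 : ∀ y : E n, divg (fun y : E n => X (y + x₀)) y = divg X (y + x₀) := by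
      intro y
      unfold divg
      rw [fderiv_comp_add_right]
    have h3 := hmp.setIntegral_preimage_emb hme (divg X) {x | x - x₀ ∈ D.carrier}
    have h4 : (fun x : E n => x + x₀) ⁻¹' {x | x - x₀ ∈ D.carrier} = D.carrier := by
      ext x
      show x + x₀ - x₀ ∈ D.carrier ↔ _
      rw [add_sub_cancel_right]
    rw [h4] at h3
    rw [← h3, hme.integral_map]
    simp only [h2] at h1
    rw [h1]
    simp only [add_sub_cancel_right]

/-- the explicit radial domains with centre `x₀`.
PROOF: for `x₀ = 0`: `ballDomain` (`r₁ = 0`) and `Pool.Agent.RU.exists_shell`; `sphereMeasure` is by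
definition `r ^ (n-1)` times the image of `toSphere`, so `∫ w ∂(sphereMeasure n r) = sphI n r w`
(`integral_smul_measure`, `integral_map`). General `x₀`: translate (image under `x ↦ x + x₀`, surface
`map`, normal `x ↦ normal (x - x₀)`; the divergence theorem for `X` is that for `X (· + x₀)`). -/
theorem exists_radDomain (hn : 2 ≤ n) (x₀ : E n) {r₁ r₂ : ℝ} (h0 : 0 ≤ r₁) (h12 : r₁ < r₂) :
    ∃ D : Domain n, D.carrier = radSet x₀ r₁ r₂ ∧ ∀ w : E n → ℝ, Continuous w →
      ∫ x, w x ∂D.surface = sphI n r₁ (fun x => w (x + x₀)) + sphI n r₂ (fun x => w (x + x₀)) := by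
  obtain ⟨D, hD, hS⟩ := raddom_base hn h0 h12
  obtain ⟨D', hD', hS'⟩ := raddom_shift D x₀
  refine ⟨D', ?_, fun w hw => ?_⟩
  · rw [hD']
    ext x
    rw [mem_setOf_eq, hD, ← dist_eq_norm]
    unfold radSet
    by_cases h : r₁ = 0
    · rw [if_pos h, mem_ball]
      constructor
      · exact fun hx => hx.2
      · exact fun hx => ⟨Or.inl h, hx⟩
    · rw [if_neg h]
      constructor
      · rintro ⟨hx | hx, hx2⟩
        · exact absurd hx h
        · exact ⟨hx, hx2⟩
      · exact fun hx => ⟨Or.inr hx.1, hx.2⟩
  · rw [hS' w]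
    exact hS (fun x => w (x + x₀)) (hw.comp (continuous_id.add continuous_const))

end Pool.Agent.RH
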