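import Pool.Agent.H.MP_1b807b_an.HO.SurfUniq
import Pool.Agent.H.MP_1b807b_an.HO.RadDom
import Pool.Agent.H.MP_1b807b_an.U.ShellDom
import Pool.Agent.H.MP_1b807b_an.G.GaussBall
import Pool.Agent.H.MP_1b807b_an.Link
import Pool.Agent.H.MP_1b807b_an.Exist
import Pool.Agent.H.MP_1b807b_an.Fin1

/-! MP_1b807b_an, balls with holes, module RadVal: the eigenvalue of balls and shells -/

set_option autoImplicit false

namespace Pool.Agent.RH

open MeasureTheory Metric Set Filter Pool.Agent.RG Pool.Agent.H.MP_1b807b_an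
open scoped RealInnerProductSpace Topology

variable {n : ℕ}

private lemma radval_translate (s : Set (E n)) (x₀ : E n) (f : E n → ℝ) :
    ∫ x in s, f x = ∫ x in (fun x => x + x₀) ⁻¹' s, f (x + x₀) :=
  ((measurePreserving_add_right (volume : Measure (E n)) x₀).setIntegral_preimage_emb
    (measurableEmbedding_addRight x₀) f s).symm

private lemma radval_ball_ae (hn : 2 ≤ n) (R : ℝ) :
    (Metric.ball (0 : E n) R : Set (E n)) =ᵐ[volume] shell0 n 0 R := by
  have : Nonempty (Fin n) := ⟨⟨0, by omega⟩⟩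
  have : Nontrivial (E n) := inferInstance
  have h : (shell0 n 0 R) = Metric.ball (0 : E n) R \ {0} := by
    ext x
    have hx : x ∈ Metric.ball (0 : E n) R ↔ ‖x‖ < R := mem_ball_zero_iff
    have h1 : x ∈ (shell0 n 0 R) ↔ 0 < ‖x‖ ∧ ‖x‖ < R := Iff.rfl
    have h2 : x ∈ Metric.ball (0 : E n) R \ {0} ↔ x ∈ Metric.ball (0 : E n) R ∧ x ≠ 0 := Iff.rfl
    rw [h1, h2, hx, norm_pos_iff]
    tauto
  rw [h]
  exact (sdiff_null_ae_eq_self (measure_singleton _)).symm

private lemma radval_int (hn : 2 ≤ n) (x₀ : E n) (r₁ r₂ : ℝ) (f : E n → ℝ) :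
    ∫ x in radSet x₀ r₁ r₂, f x = ∫ x in shell0 n r₁ r₂, f (x + x₀) := by
  unfold radSet
  split_ifs with h0
  · subst h0
    rw [radval_translate (Metric.ball x₀ r₂) x₀ f]
    have h : (fun x : E n => x + x₀) ⁻¹' Metric.ball x₀ r₂ = Metric.ball 0 r₂ := by
      ext x
      simp [dist_eq_norm]
    rw [h]
    exact setIntegral_congr_set (radval_ball_ae hn r₂)
  · rw [radval_translate _ x₀ f]
    have h : (fun x : E n => x + x₀) ⁻¹' {x | r₁ < dist x x₀ ∧ dist x x₀ < r₂} =
        shell0 n r₁ r₂ := by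
      ext x
      simp [dist_eq_norm, shell0]
    rw [h]

/-- PROOF: `robin_unique`, `rayleigh_unique` and the explicit domain of `exists_radDomain`; then as
`isLeast_of_GS` in `Pool/Agent/Results/MP_1b807b_an/RadialTransition.lean` (`nd_lower`,
`exists_test_ball`, `exists_test_shell`, `radial_values`, `integral_carrier`; you may copy from there,
never import it). -/
theorem rad_val (hn : 2 ≤ n) (D : Domain n) {x₀ : E n} {r₁ r₂ : ℝ} (h0 : 0 ≤ r₁) (h12 : r₁ < r₂)
    (hD : D.carrier = radSet x₀ r₁ r₂) {β k : ℝ} {u p : ℝ → ℝ} (hβ : 0 < β) (hk : 0 < k)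
    (g : GS (n - 1) r₁ r₂ β k u p) :
    D.robin (-β) = ((-k ^ 2 : ℝ) : EReal) ∧
      ∃ U : E n → ℝ, ContDiff ℝ 1 U ∧ 0 < (∫ x in D.carrier, U x ^ 2) ∧
        D.rayleigh (-β) U = -k ^ 2 := by
  obtain ⟨D', hD', hS⟩ := exists_radDomain hn x₀ h0 h12
  have hDD : D.carrier = D'.carrier := hD.trans hD'.symm
  have hatt : ∃ U : E n → ℝ, ContDiff ℝ 1 U ∧ 0 < (∫ x in D.carrier, U x ^ 2) ∧
      D.rayleigh (-β) U = -k ^ 2 := by
    obtain ⟨l, u', p', U, g', hT⟩ : ∃ (l : ℝ) (u' p' : ℝ → ℝ) (U : E n → ℝ),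
        GS (n - 1) r₁ r₂ β l u' p' ∧ RadialTest n r₁ r₂ u' p' U := by
      rcases eq_or_lt_of_le h0 with h | h
      · subst h
        obtain ⟨l, hl, hlβ⟩ := exists_ball (n - 1) h12 hβ
        obtain ⟨U, hU⟩ := exists_test_ball (n := n) (m := n - 1) (R := r₂) (k := l)
        refine ⟨l, _, _, U, ?_, hU⟩
        rw [← hlβ]
        exact GS_ball (by omega) hl
      · obtain ⟨U, hU⟩ := exists_test_shell (n := n) (m := n - 1) h h12 g
        exact ⟨k, u, p, U, g, hU⟩
    have hkl : k ^ 2 = l ^ 2 := g.unique g' h0 h12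
    obtain ⟨hpos, hval⟩ := radial_values hn h0 h12 g' hT
    have hU1 : ContDiff ℝ 1 (fun x => U (x - x₀)) :=
      hT.1.comp (contDiff_id.sub contDiff_const)
    refine ⟨fun x => U (x - x₀), hU1, ?_, ?_⟩
    · rw [hD, radval_int hn]
      simpa using hpos
    · rw [rayleigh_unique D D' hDD (-β) hU1.continuous]
      unfold Domain.rayleigh
      rw [hD', radval_int hn, radval_int hn,
        hS (fun x => U (x - x₀) ^ 2) (hU1.continuous.pow 2)]
      have hfd : ∀ x : E n, fderiv ℝ (fun x => U (x - x₀)) (x + x₀) = fderiv ℝ U x := by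
        intro x
        have h := fderiv_comp_add_right (𝕜 := ℝ) (f := U) (x := x + x₀) (-x₀)
        simp only [← sub_eq_add_neg, add_sub_cancel_right] at h
        exact h
      simp only [hfd, add_sub_cancel_right]
      rw [hval, hkl]
      field_simp
  refine ⟨?_, hatt⟩
  apply le_antisymm
  · obtain ⟨U, hU, hUp, hUv⟩ := hatt
    refine sInf_le ⟨U, hU, hUp, ?_⟩
    rw [hUv]
  · refine le_sInf ?_
    rintro q ⟨v, hv, hpos, rfl⟩
    rw [rayleigh_unique D D' hDD (-β) hv.continuous]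
    apply EReal.coe_le_coe_iff.2
    unfold Domain.rayleigh
    rw [hDD, hD', radval_int hn] at hpos
    rw [hD', radval_int hn, radval_int hn, hS (fun x => v x ^ 2) (hv.continuous.pow 2),
      le_div_iff₀ hpos]
    have hV : ContDiff ℝ 1 (fun x => v (x + x₀)) := hv.comp (contDiff_id.add contDiff_const)
    have h := nd_lower hn h0 h12 g hV
    have hfd : ∀ x : E n, fderiv ℝ (fun x => v (x + x₀)) x = fderiv ℝ v (x + x₀) := by
      intro x
      exact fderiv_comp_add_right (𝕜 := ℝ) (f := v) (x := x) x₀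
    simp only [hfd] at h
    linarith

end Pool.Agent.RH
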