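import Pool.Agent.H.MP_1b807b_an.HO.CvxMain
import Pool.Agent.H.MP_1b807b_an.HO.RadVal
import Pool.Agent.H.MP_1b807b_an.HO.PlanarMain
import Pool.Agent.H.MP_1b807b_an.HO.PlanarDisc
import Pool.Agent.H.MP_1b807b_an.Fin1
import Pool.Agent.H.MP_1b807b_an.HO.Class

/-! MP_1b807b_an, balls with holes, module Final -/

set_option autoImplicit false

namespace Pool.Agent.RH

open MeasureTheory Metric Set Filter Pool.Agent.RG Pool.Agent.RA Pool.Agent.H.MP_1b807b_an

variable {n : ℕ}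

theorem cls_of_ne {D : Domain n} (h : n ≠ 2) (hD : Cls n D) : ConvexHoles D := by
  match n, D, h, hD with
  | 0, _, _, hD => exact hD
  | 1, _, _, hD => exact hD
  | 2, _, h, _ => exact absurd rfl h
  | _ + 3, _, _, hD => exact hD

theorem cls_of_sph {D : Domain n} (hD : ConvexHoles D) : Cls n D := by
  match n, D, hD with
  | 0, _, hD => exact hD
  | 1, _, hD => exact hD
  | 2, _, hD => exact Or.inl hD
  | _ + 3, _, hD => exact hD

theorem sph_of_ball {S : Set (E n)} {x₀ : E n} {R : ℝ} (hR : 0 < R) (h : S = ball x₀ R) :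
    SphHoles S x₀ R 0 Fin.elim0 Fin.elim0 where
  Rpos := hR
  rpos := fun i => i.elim0
  sub := fun i => i.elim0
  disj := fun i => i.elim0
  eq := by
    rw [h, iUnion_of_empty, sdiff_empty]

theorem sph_of_shell {S : Set (E n)} {x₀ : E n} {r₁ r₂ : ℝ} (h1 : 0 < r₁) (h12 : r₁ < r₂)
    (h : S = {x | r₁ < dist x x₀ ∧ dist x x₀ < r₂}) :
    SphHoles S x₀ r₂ 1 (fun _ => x₀) (fun _ => r₁) where
  Rpos := h1.trans h12
  rpos := fun _ => h1
  sub := fun _ => closedBall_subset_ball h12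
  disj := fun i j hij => absurd (Subsingleton.elim i j) hij
  eq := by
    rw [h]
    ext x
    simp only [mem_ofPred_eq, Set.mem_sdiff, mem_ball, mem_iUnion, mem_closedBall, exists_const, not_le]
    exact and_comm

theorem cvx_of_sph {S : Set (E n)} {x₀ : E n} {R : ℝ} {m : ℕ} {y : Fin m → E n}
    {r : Fin m → ℝ} (h : SphHoles S x₀ R m y r) :
    CvxHoles S x₀ R m (fun i => closedBall (y i) (r i)) where
  Rpos := h.Rpos
  compact := fun i => isCompact_closedBall _ _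
  convex := fun i => convex_closedBall _ _
  int := fun i => ⟨y i, by
    rw [interior_closedBall _ (h.rpos i).ne']
    exact mem_ball_self (h.rpos i)⟩
  sub := h.sub
  disj := h.disj
  eq := h.eq

theorem sph_of_ballSet {D : Domain n} (h : IsBallSet D.carrier) : ConvexHoles D := by
  obtain ⟨x₀, R, hR, h⟩ := h
  exact ⟨x₀, R, 0, _, cvx_of_sph (sph_of_ball hR h)⟩

theorem sph_of_shellSet {D : Domain n} (h : IsShellSet D.carrier) : ConvexHoles D := by
  obtain ⟨x₀, r₁, r₂, h1, h12, h⟩ := h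
  exact ⟨x₀, r₂, 1, _, cvx_of_sph (sph_of_shell h1 h12 h)⟩

theorem exists_radius (hn : 2 ≤ n) {V : ℝ} (hV : 0 < V) : ∃ R₀ : ℝ, 0 < R₀ ∧ om n * R₀ ^ n = V := by
  have hom := om_pos n
  refine ⟨(V / om n) ^ ((1 : ℝ) / (n : ℝ)), by positivity, ?_⟩
  rw [one_div, Real.rpow_inv_natCast_pow (by positivity) (by omega)]
  field_simp

theorem real_of_vol {S : Set (E n)} {V : ℝ} (hV : 0 < V) (h : volume S = ENNReal.ofReal V) :
    volume.real S = V := by
  rw [measureReal_def, h, ENNReal.toReal_ofReal hV.le]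

theorem vol_of_real {D : Domain n} {V : ℝ} (h : volume.real D.carrier = V) :
    volume D.carrier = ENNReal.ofReal V := by
  rw [← h, measureReal_def, ENNReal.ofReal_toReal D.isBounded.measure_lt_top.ne]

theorem ball_val (hn : 2 ≤ n) {R₀ : ℝ} (hR₀ : 0 < R₀) {D : Domain n} (hD : IsBallSet D.carrier)
    (hvol : volume.real D.carrier = om n * R₀ ^ n) {β : ℝ} (hβ : 0 < β) :
    D.robin (-β) = ((-kk (n - 1) R₀ β 0 ^ 2 : ℝ) : EReal) := by
  obtain ⟨x₀, R, hR, h⟩ := hD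
  have hom := om_pos n
  have h1 := sph_vol hn (sph_of_ball hR h)
  rw [hvol, Finset.univ_eq_empty, Finset.sum_empty, sub_zero] at h1
  have h2 : R₀ = R := (pow_left_inj₀ hR₀.le hR.le (by omega)).1 (mul_left_cancel₀ hom.ne' h1)
  subst h2
  obtain ⟨hk, u, p, g⟩ := kk_spec (m := n - 1) (by omega) hR₀ hβ (le_refl (0 : ℝ))
  rw [outer_zero _ hR₀] at g
  refine (rad_val hn D le_rfl hR₀ (x₀ := x₀) ?_ hβ hk g).1
  unfold radSet
  rw [if_pos rfl]
  exact h

theorem shell_val (hn : 2 ≤ n) {R₀ : ℝ} (hR₀ : 0 < R₀) {D : Domain n} {x₀ : E n} {x : ℝ}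
    (hx : 0 < x) (hD : D.carrier = {z | x < dist z x₀ ∧ dist z x₀ < outer (n - 1) R₀ x}) {β : ℝ}
    (hβ : 0 < β) : D.robin (-β) = ((-kk (n - 1) R₀ β x ^ 2 : ℝ) : EReal) := by
  obtain ⟨hk, u, p, g⟩ := kk_spec (m := n - 1) (by omega) hR₀ hβ hx.le
  refine (rad_val hn D hx.le (lt_outer _ hR₀ hx.le) (x₀ := x₀) ?_ hβ hk g).1
  unfold radSet
  rw [if_neg hx.ne']
  exact hD

theorem exists_ballD (hn : 2 ≤ n) {R₀ : ℝ} (hR₀ : 0 < R₀) : ∃ D : Domain n,
    IsBallSet D.carrier ∧ volume.real D.carrier = om n * R₀ ^ n := by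
  obtain ⟨D, hD, -⟩ := exists_radDomain hn (0 : E n) (le_refl (0 : ℝ)) hR₀
  unfold radSet at hD
  rw [if_pos rfl] at hD
  exact ⟨D, ⟨0, R₀, hR₀, hD⟩, by rw [hD]; exact (vol_ball hn 0 hR₀.le).1⟩

theorem exists_shellD (hn : 2 ≤ n) {R₀ x : ℝ} (hR₀ : 0 < R₀) (hx : 0 < x) : ∃ D : Domain n,
    D.carrier = {z | x < dist z (0 : E n) ∧ dist z 0 < outer (n - 1) R₀ x} ∧
      IsShellSet D.carrier ∧ volume.real D.carrier = om n * R₀ ^ n := by
  have hlt := lt_outer (n - 1) hR₀ hx.le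
  obtain ⟨D, hD, -⟩ := exists_radDomain hn (0 : E n) hx.le hlt
  unfold radSet at hD
  rw [if_neg hx.ne'] at hD
  refine ⟨D, hD, ⟨0, x, _, hx, hlt, hD⟩, ?_⟩
  have h1 := sph_vol hn (sph_of_shell hx hlt hD)
  have h2 := outer_pow (n - 1) hR₀ hx.le
  rw [show n - 1 + 1 = n by omega] at h2
  rw [h1, h2]
  simp

/-- the bound in the class -/
theorem cls_bound (hn : 2 ≤ n) {R₀ : ℝ} (hR₀ : 0 < R₀) {D : Domain n} (hD : Cls n D)
    (hvol : volume.real D.carrier = om n * R₀ ^ n) {β : ℝ} (hβ : 0 < β) :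
    ∃ x : ℝ, 0 ≤ x ∧ D.robin (-β) ≤ ((-kk (n - 1) R₀ β x ^ 2 : ℝ) : EReal) ∧
      (x = 0 → ¬ IsBallSet D.carrier →
        D.robin (-β) < ((-kk (n - 1) R₀ β x ^ 2 : ℝ) : EReal)) ∧
      (ConvexHoles D → ¬ IsBallSet D.carrier → ¬ IsShellSet D.carrier →
        D.robin (-β) < ((-kk (n - 1) R₀ β x ^ 2 : ℝ) : EReal)) := by
  have hom := om_pos n
  by_cases hS : ConvexHoles D
  · obtain ⟨x₀, R, m, K, h⟩ := hS
    have h1 := cvx_vol hn h
    rw [hvol] at h1
    have hs : 0 ≤ ∑ i, volume.real (K i) := Finset.sum_nonneg fun i _ => measureReal_nonneg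
    set x : ℝ := ((∑ i, volume.real (K i)) / om n) ^ ((1 : ℝ) / (n : ℝ)) with hx
    have hx0 : 0 ≤ x := Real.rpow_nonneg (div_nonneg hs hom.le) _
    have hxn : om n * x ^ n = ∑ i, volume.real (K i) := by
      rw [hx, one_div, Real.rpow_inv_natCast_pow (div_nonneg hs hom.le) (by omega)]
      field_simp
    have hR : R = outer (n - 1) R₀ x := by
      refine outer_unique (n - 1) hR₀ hx0 h.Rpos ?_
      rw [show n - 1 + 1 = n by omega]
      rw [← hxn] at h1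
      have h2 : om n * (R ^ n - x ^ n) = om n * R₀ ^ n := by linarith
      exact mul_left_cancel₀ hom.ne' h2
    obtain ⟨hk, u, p, g⟩ := kk_spec (m := n - 1) (by omega) hR₀ hβ hx0
    rw [← hR] at g
    obtain ⟨m1, m2⟩ := cvx_main hn D h hβ hk hx0 (hR ▸ lt_outer _ hR₀ hx0) hxn g
    refine ⟨x, hx0, m1, fun hx00 hnb => ?_, fun _ => m2⟩
    exfalso
    apply hnb
    rcases m with _ | m
    · refine ⟨x₀, R, h.Rpos, ?_⟩
      rw [h.eq, iUnion_of_empty, sdiff_empty]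
    · exfalso
      rw [hx00, zero_pow (by omega), mul_zero] at hxn
      have h3 : 0 < ∑ i, volume.real (K i) :=
        Finset.sum_pos (fun i _ => by
          rw [measureReal_def]
          refine ENNReal.toReal_pos ?_ (h.compact i).measure_lt_top.ne
          exact (lt_of_lt_of_le (isOpen_interior.measure_pos volume (h.int i))
            (measure_mono interior_subset)).ne') ⟨0, Finset.mem_univ _⟩
      linarith
  · by_cases hn2 : n = 2
    · subst hn2
      obtain ⟨x, hx0, hx1, hx2⟩ := planar_class (hD.resolve_left hS) hR₀ hvol hβ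
      exact ⟨x, hx0, hx1, hx2, fun h => absurd h hS⟩
    · exact absurd (cls_of_ne hn2 hD) hS

/-- the strict inequality for balls with holes -/
theorem cls_strict (hn : 2 ≤ n) {R₀ : ℝ} (hR₀ : 0 < R₀) {D : Domain n} (hD : Cls n D)
    (hb : ConvexHoles D ∨ BallWithHoles D)
    (hvol : volume.real D.carrier = om n * R₀ ^ n) {β : ℝ} (hβ : 0 < β)
    (hnb : ¬ IsBallSet D.carrier) (hns : ¬ IsShellSet D.carrier) :
    ∃ y : ℝ, 0 ≤ y ∧ D.robin (-β) < ((-kk (n - 1) R₀ β y ^ 2 : ℝ) : EReal) := by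
  by_cases hS : ConvexHoles D
  · obtain ⟨y, hy, -, -, h⟩ := cls_bound hn hR₀ hD hvol hβ
    exact ⟨y, hy, h hS hnb hns⟩
  · by_cases hn2 : n = 2
    · subst hn2
      obtain ⟨⟨J⟩, -⟩ := hD.resolve_left hS
      obtain ⟨x₀, R, hR, h⟩ := hb.resolve_left hS
      rcases planar_disc J hR h hR₀ hvol hβ with ⟨x₁, R₁, m, y, r, h1⟩ | h1
      · exact absurd ⟨x₁, R₁, m, _, cvx_of_sph h1⟩ hS
      · exact h1
    · exact absurd (cls_of_ne hn2 hD) hS

theorem neg_coe_le {a b : ℝ} (h : a ^ 2 ≤ b ^ 2) : ((-b ^ 2 : ℝ) : EReal) ≤ ((-a ^ 2 : ℝ) : EReal) :=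
  EReal.coe_le_coe_iff.2 (by linarith)

theorem neg_coe_lt {a b : ℝ} (h : a ^ 2 < b ^ 2) : ((-b ^ 2 : ℝ) : EReal) < ((-a ^ 2 : ℝ) : EReal) :=
  EReal.coe_lt_coe_iff.2 (by linarith)

/-- the transition theorem in the class -/
theorem transition (n : ℕ) (hn : 2 ≤ n) (V : ℝ) (hV : 0 < V) : ∃ αs : ℝ, αs < 0 ∧
    (∀ α, αs < α → α < 0 → ∀ D : Domain n,
      IsMax n V α D ↔ IsBallSet D.carrier ∧ volume D.carrier = ENNReal.ofReal V) ∧
    (∀ α, α < αs → (∃ D : Domain n, IsShellSet D.carrier ∧ IsMax n V α D) ∧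
      ∀ D : Domain n, IsMax n V α D →
        ¬ IsBallSet D.carrier ∧ (ConvexHoles D ∨ BallWithHoles D → IsShellSet D.carrier)) ∧
    (∀ D : Domain n, IsBallSet D.carrier → volume D.carrier = ENNReal.ofReal V →
      IsMax n V αs D) ∧
    (∃ D : Domain n, IsShellSet D.carrier ∧ IsMax n V αs D) ∧
    (∀ D : Domain n, IsMax n V αs D → ConvexHoles D ∨ BallWithHoles D →
      IsBallSet D.carrier ∨ IsShellSet D.carrier) ∧
    (∀ α, α < 0 → ∀ D : Domain n, IsBallSet D.carrier ∨ IsShellSet D.carrier →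
      ∃ u : E n → ℝ, ContDiff ℝ 1 u ∧ 0 < (∫ x in D.carrier, u x ^ 2) ∧
        D.robin α = (D.rayleigh α u : EReal)) := by
  have hom := om_pos n
  obtain ⟨R₀, hR₀, hRV⟩ := exists_radius hn hV
  have hvol : ∀ D : Domain n, volume D.carrier = ENNReal.ofReal V →
      volume.real D.carrier = om n * R₀ ^ n := fun D hD => by rw [real_of_vol hV hD, hRV]
  have hvol' : ∀ D : Domain n, volume.real D.carrier = om n * R₀ ^ n →
      volume D.carrier = ENNReal.ofReal V := fun D hD => vol_of_real (by rw [hD, hRV])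
  obtain ⟨βs, hβs, hA, hB, hC, hE⟩ := transition1d (m := n - 1) (by omega) hR₀
  obtain ⟨B, hB1, hB2⟩ := exists_ballD hn hR₀
  -- a radial domain with the best value is a maximiser
  have hmax : ∀ (D : Domain n) (β x : ℝ), 0 < β → ConvexHoles D →
      volume D.carrier = ENNReal.ofReal V →
      D.robin (-β) = ((-kk (n - 1) R₀ β x ^ 2 : ℝ) : EReal) →
      (∀ y, 0 ≤ y → kk (n - 1) R₀ β x ^ 2 ≤ kk (n - 1) R₀ β y ^ 2) → IsMax n V (-β) D := by
    intro D β x hβ hS hv hval hmin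
    refine ⟨cls_of_sph hS, hv, fun D' hD' hv' => ?_⟩
    obtain ⟨y, hy, h1, -, -⟩ := cls_bound hn hR₀ hD' (hvol D' hv') hβ
    rw [hval]
    exact h1.trans (neg_coe_le (hmin y hy))
  refine ⟨-βs, by linarith, ?_, ?_, ?_, ?_, ?_, ?_⟩
  · intro α hα1 hα2 D
    obtain ⟨β, rfl⟩ : ∃ β, α = -β := ⟨-α, by ring⟩
    have hβ : 0 < β := by linarith
    have hββ : β < βs := by linarith
    constructor
    · rintro ⟨hDc, hDv, hDm⟩
      refine ⟨?_, hDv⟩
      by_contra hnb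
      obtain ⟨x, hx, h1, h2, -⟩ := cls_bound hn hR₀ hDc (hvol D hDv) hβ
      have h3 := hDm B (cls_of_sph (sph_of_ballSet hB1)) (hvol' B hB2)
      rw [ball_val hn hR₀ hB1 hB2 hβ] at h3
      rcases hx.eq_or_lt with h | h
      · subst h
        exact absurd (h3.trans_lt (h2 rfl hnb)) (lt_irrefl _)
      · exact absurd (h3.trans_lt (h1.trans_lt (neg_coe_lt (hA β hβ hββ x h)))) (lt_irrefl _)
    · rintro ⟨hDb, hDv⟩
      refine hmax D β 0 hβ (sph_of_ballSet hDb) hDv (ball_val hn hR₀ hDb (hvol D hDv) hβ)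
        fun y hy => ?_
      rcases hy.eq_or_lt with h | h
      · rw [← h]
      · exact (hA β hβ hββ y h).le
  · intro α hα
    obtain ⟨β, rfl⟩ : ∃ β, α = -β := ⟨-α, by ring⟩
    have hββ : βs < β := by linarith
    have hβ : 0 < β := hβs.trans hββ
    obtain ⟨x, hx, hx1, hx2⟩ := hB β hββ
    obtain ⟨S, hS1, hS2, hS3⟩ := exists_shellD hn hR₀ hx
    have hSv := shell_val hn hR₀ hx hS1 hβ
    refine ⟨⟨S, hS2, hmax S β x hβ (sph_of_shellSet hS2) (hvol' S hS3) hSv hx2⟩, ?_⟩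
    rintro D ⟨hDc, hDv, hDm⟩
    have h3 := hDm S (cls_of_sph (sph_of_shellSet hS2)) (hvol' S hS3)
    rw [hSv] at h3
    have hnb : ¬ IsBallSet D.carrier := fun hDb => by
      rw [ball_val hn hR₀ hDb (hvol D hDv) hβ] at h3
      exact absurd (h3.trans_lt (neg_coe_lt hx1)) (lt_irrefl _)
    refine ⟨hnb, fun hDs => ?_⟩
    by_contra hns
    obtain ⟨y, hy, h4⟩ := cls_strict hn hR₀ hDc hDs (hvol D hDv) hβ hnb hns
    exact absurd (h3.trans_lt (h4.trans_le (neg_coe_le (hx2 y hy)))) (lt_irrefl _)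
  · intro D hDb hDv
    exact hmax D βs 0 hβs (sph_of_ballSet hDb) hDv (ball_val hn hR₀ hDb (hvol D hDv) hβs) hC
  · obtain ⟨x, hx, hxe⟩ := hE
    obtain ⟨S, hS1, hS2, hS3⟩ := exists_shellD hn hR₀ hx
    refine ⟨S, hS2, hmax S βs x hβs (sph_of_shellSet hS2) (hvol' S hS3)
      (shell_val hn hR₀ hx hS1 hβs) fun y hy => ?_⟩
    rw [hxe]
    exact hC y hy
  · rintro D ⟨hDc, hDv, hDm⟩ hDs
    by_contra hcon
    push Not at hcon
    obtain ⟨y, hy, h4⟩ := cls_strict hn hR₀ hDc hDs (hvol D hDv) hβs hcon.1 hcon.2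
    have h3 := hDm B (cls_of_sph (sph_of_ballSet hB1)) (hvol' B hB2)
    rw [ball_val hn hR₀ hB1 hB2 hβs] at h3
    exact absurd (h3.trans_lt (h4.trans_le (neg_coe_le (hC y hy)))) (lt_irrefl _)
  · intro α hα D hD
    obtain ⟨β, rfl⟩ : ∃ β, α = -β := ⟨-α, by ring⟩
    have hβ : 0 < β := by linarith
    rcases hD with hD | hD
    · obtain ⟨x₀, R, hR, h⟩ := hD
      obtain ⟨l, hl, hlβ⟩ := exists_ball (n - 1) hR hβ
      have g : GS (n - 1) 0 R β l (fun r => Pool.Agent.H.MP_1b807b_an.V (n - 1) (l * r))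
          (fun r => l * W (n - 1) (l * r)) := by
        rw [← hlβ]
        exact GS_ball (by omega) hl
      obtain ⟨h1, U, hU1, hU2, hU3⟩ := rad_val hn D (le_refl (0 : ℝ)) hR (x₀ := x₀) (by
        unfold radSet
        rw [if_pos rfl]
        exact h) hβ hl g
      exact ⟨U, hU1, hU2, by rw [h1, hU3]⟩
    · obtain ⟨x₀, r₁, r₂, hr1, hr12, h⟩ := hD
      obtain ⟨l, u, p, hl, g⟩ := Pool.Agent.H.MP_1b807b_an.exists_shell (n - 1) hr1 hr12 hβ
      obtain ⟨h1, U, hU1, hU2, hU3⟩ := rad_val hn D hr1.le hr12 (x₀ := x₀) (by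
        unfold radSet
        rw [if_neg hr1.ne']
        exact h) hβ hl g
      exact ⟨U, hU1, hU2, by rw [h1, hU3]⟩

end Pool.Agent.RH
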