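import Pool.Agent.H.MP_1b807b_an.HO.Defs

/-! MP_1b807b_an, balls with holes, module GradMax: the maximum of functions of distances -/

set_option autoImplicit false

namespace Pool.Agent.RH

open MeasureTheory Metric Set Filter Pool.Agent.RG
open scoped Topology

variable {n : ℕ}

/-- the test function: the maximum of the profiles -/
noncomputable def vmax {ι : Type} [Fintype ι] [Nonempty ι] (S : ι → Set (E n)) (f : ι → ℝ → ℝ)
    (x : E n) : ℝ :=
  Finset.univ.sup' Finset.univ_nonempty fun i => f i (infDist x (S i))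

theorem le_vmax {ι : Type} [Fintype ι] [Nonempty ι] (S : ι → Set (E n)) (f : ι → ℝ → ℝ)
    (x : E n) (i : ι) : f i (infDist x (S i)) ≤ vmax S f x :=
  Finset.le_sup' (fun i => f i (infDist x (S i))) (Finset.mem_univ i)

theorem exists_vmax {ι : Type} [Fintype ι] [Nonempty ι] (S : ι → Set (E n)) (f : ι → ℝ → ℝ)
    (x : E n) : ∃ i, vmax S f x = f i (infDist x (S i)) := by
  obtain ⟨i, _, hi⟩ := Finset.exists_mem_eq_sup' (Finset.univ_nonempty (α := ι))
    (fun i => f i (infDist x (S i)))
  exact ⟨i, hi⟩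

/-- PROOF: each `f i` is `C i`-Lipschitz (`|f' i| ≤ C i`, mean value), `x ↦ infDist x (S i)` is
1-Lipschitz (`Metric.infDist_le_infDist_add_dist`); take `C = ∑ i, |C i|`; with `i` of
`exists_vmax` at `x`: `v x - v x' ≤ f i (d x) - f i (d x')`, and symmetric. -/
theorem vmax_lip {ι : Type} [Fintype ι] [Nonempty ι] {k μ : ℝ} (S : ι → Set (E n)) {T : ι → ℝ}
    {f f' : ι → ℝ → ℝ} (hf : ∀ i, Prof k μ (T i) (f i) (f' i)) :
    ∃ C : ℝ, 0 ≤ C ∧ ∀ x x', |vmax S f x - vmax S f x'| ≤ C * ‖x - x'‖ := by
  choose B hB using fun i => (hf i).bdd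
  have hB0 : ∀ i, 0 ≤ B i := fun i => le_trans (abs_nonneg _) (hB i 0)
  have hlip : ∀ i a b, |f i a - f i b| ≤ B i * |a - b| := by
    intro i a b
    have h := Convex.norm_image_sub_le_of_norm_hasDerivWithin_le (f := f i) (f' := f' i)
      (C := B i) (s := Set.univ) (x := b) (y := a)
      (fun t _ => ((hf i).der t).hasDerivWithinAt) (fun t _ => hB i t) convex_univ
      (Set.mem_univ _) (Set.mem_univ _)
    simpa only [Real.norm_eq_abs] using h
  have hone : ∀ i (x x' : E n), f i (infDist x (S i)) - f i (infDist x' (S i)) ≤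
      (∑ j, B j) * ‖x - x'‖ := by
    intro i x x'
    have h1 : |infDist x (S i) - infDist x' (S i)| ≤ ‖x - x'‖ := by
      have := (Metric.lipschitz_infDist_pt (S i)).dist_le_mul x x'
      simpa [Real.dist_eq, dist_eq_norm] using this
    have h2 : B i ≤ ∑ j, B j := Finset.single_le_sum (fun j _ => hB0 j) (Finset.mem_univ i)
    calc f i (infDist x (S i)) - f i (infDist x' (S i))
        ≤ |f i (infDist x (S i)) - f i (infDist x' (S i))| := le_abs_self _
      _ ≤ B i * |infDist x (S i) - infDist x' (S i)| := hlip i _ _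
      _ ≤ B i * ‖x - x'‖ := mul_le_mul_of_nonneg_left h1 (hB0 i)
      _ ≤ (∑ j, B j) * ‖x - x'‖ := mul_le_mul_of_nonneg_right h2 (norm_nonneg _)
  have hv : ∀ x x' : E n, vmax S f x - vmax S f x' ≤ (∑ j, B j) * ‖x - x'‖ := by
    intro x x'
    obtain ⟨i, hi⟩ := exists_vmax S f x
    have h1 := le_vmax S f x' i
    have h2 := hone i x x'
    linarith
  refine ⟨∑ j, B j, Finset.sum_nonneg fun j _ => hB0 j, fun x x' => ?_⟩
  rw [abs_le]
  have h1 := hv x x'
  have h2 := hv x' x
  rw [norm_sub_rev x' x] at h2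
  constructor <;> linarith

/-- PROOF: let `i` be an index of the maximum at `x` (`exists_vmax`), `d = infDist · (S i)`,
`M = |f' i (d x)|`. If `v` is not differentiable at `x` its `fderiv` is `0`. Otherwise let
`L = fderiv ℝ v x`. For `e > 0`: near `x`, `f i (d y) ≥ f i (d x) - (M + e) ‖y - x‖` (`f i` has
derivative `f' i (d x)` at `d x` and `|d y - d x| ≤ ‖y - x‖`), so `v y ≥ v x - (M + e) ‖y - x‖`.
Hence for every vector `h`: `L h ≥ -(M + e) ‖h‖` (take `y = x + t h`, `t ↓ 0`), and with `-h`:
`|L h| ≤ (M + e) ‖h‖`; so `‖L‖ ≤ M + e`. -/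
theorem grad_vmax {ι : Type} [Fintype ι] [Nonempty ι] {k μ : ℝ} (S : ι → Set (E n)) {T : ι → ℝ}
    {f f' : ι → ℝ → ℝ} (hf : ∀ i, Prof k μ (T i) (f i) (f' i)) (x : E n) :
    ∃ i, vmax S f x = f i (infDist x (S i)) ∧
      ‖fderiv ℝ (vmax S f) x‖ ≤ |f' i (infDist x (S i))| := by
  obtain ⟨i, hi⟩ := exists_vmax S f x
  refine ⟨i, hi, ?_⟩
  by_cases hd : DifferentiableAt ℝ (vmax S f) x
  swap
  · rw [fderiv_zero_of_not_differentiableAt hd, norm_zero]
    exact abs_nonneg _
  set M : ℝ := |f' i (infDist x (S i))| with hM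
  have hM0 : 0 ≤ M := abs_nonneg _
  have key : ∀ e : ℝ, 0 < e → ‖fderiv ℝ (vmax S f) x‖ ≤ M + 2 * e := by
    intro e he
    have hL := (hasFDerivAt_iff_isLittleO_nhds_zero.mp hd.hasFDerivAt).def he
    have hD := (hasDerivAt_iff_isLittleO_nhds_zero.mp
      ((hf i).der (infDist x (S i)))).def he
    have htend : Tendsto (fun h : E n => infDist (x + h) (S i) - infDist x (S i)) (𝓝 0)
        (𝓝 0) := by
      have hc : Continuous fun h : E n => infDist (x + h) (S i) - infDist x (S i) :=
        ((Metric.continuous_infDist_pt (S i)).comp (continuous_const.add continuous_id)).sub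
          continuous_const
      have := hc.tendsto 0
      simpa using this
    have hD' := htend.eventually hD
    have hlow : ∀ᶠ h : E n in 𝓝 0, -(fderiv ℝ (vmax S f) x h) ≤ (M + 2 * e) * ‖h‖ := by
      filter_upwards [hL, hD'] with h h1 h2
      have h3 : |infDist (x + h) (S i) - infDist x (S i)| ≤ ‖h‖ := by
        have := (Metric.lipschitz_infDist_pt (S i)).dist_le_mul (x + h) x
        simpa [Real.dist_eq, dist_eq_norm] using this
      have h4 := le_vmax S f (x + h) i
      rw [Real.norm_eq_abs] at h1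
      rw [Real.norm_eq_abs, Real.norm_eq_abs, smul_eq_mul] at h2
      have h1' := (abs_le.mp h1).2
      have h2' := (abs_le.mp h2).1
      have e1 : infDist x (S i) + (infDist (x + h) (S i) - infDist x (S i)) =
          infDist (x + h) (S i) := by ring
      rw [e1] at h2'
      have h5 : -(M * ‖h‖) ≤
          (infDist (x + h) (S i) - infDist x (S i)) * f' i (infDist x (S i)) := by
        have : |(infDist (x + h) (S i) - infDist x (S i)) * f' i (infDist x (S i))| ≤
            M * ‖h‖ := by
          rw [abs_mul, mul_comm]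
          exact mul_le_mul_of_nonneg_left h3 hM0
        exact (abs_le.mp this).1
      have h6 : e * |infDist (x + h) (S i) - infDist x (S i)| ≤ e * ‖h‖ :=
        mul_le_mul_of_nonneg_left h3 he.le
      rw [hi] at h1'
      nlinarith
    refine ContinuousLinearMap.opNorm_le_of_nhds_zero (by positivity) ?_
    have hneg : Tendsto (fun h : E n => -h) (𝓝 0) (𝓝 0) := by
      have := (continuous_neg (G := E n)).tendsto 0
      simpa using this
    filter_upwards [hlow, hneg.eventually hlow] with h h1 h2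
    rw [map_neg, neg_neg, norm_neg] at h2
    rw [Real.norm_eq_abs, abs_le]
    constructor <;> linarith
  refine le_of_forall_pos_le_add fun e he => ?_
  have := key (e / 2) (by positivity)
  linarith

end Pool.Agent.RH
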