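import Pool.Agent.H.MP_1b807b_an.HO.Defs
import Pool.Agent.H.MP_1b807b_an.G.GaussBall
import Pool.Agent.H.MP_1b807b_an.G.Limit

/-! MP_1b807b_an, balls with holes, module HoleDiv: the divergence theorem on a hole -/

set_option autoImplicit false

namespace Pool.Agent.RH

open MeasureTheory Metric Set Filter Pool.Agent.RG
open scoped RealInnerProductSpace Topology NNReal

variable {n : ℕ}

/-- the cutoff function: one where the distance from `K` is at most `ε / 4` and zero where it is
at least `ε / 2` -/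
private noncomputable def HoleDiv_chi (K : Set (E n)) (ε : ℝ) (x : E n) : ℝ :=
  max 0 (min 1 (2 - 4 / ε * infDist x K))

private theorem HoleDiv_chi_nonneg (K : Set (E n)) (ε : ℝ) (x : E n) : 0 ≤ HoleDiv_chi K ε x :=
  le_max_left _ _

private theorem HoleDiv_chi_le (K : Set (E n)) (ε : ℝ) (x : E n) : HoleDiv_chi K ε x ≤ 1 :=
  max_le zero_le_one (min_le_left _ _)

private theorem HoleDiv_chi_one {K : Set (E n)} {ε : ℝ} (hε : 0 < ε) {x : E n}
    (h : infDist x K ≤ ε / 4) : HoleDiv_chi K ε x = 1 := by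
  have h1 : 4 / ε * infDist x K ≤ 1 := by
    have h2 : 4 / ε * infDist x K ≤ 4 / ε * (ε / 4) :=
      mul_le_mul_of_nonneg_left h (by positivity)
    have h3 : 4 / ε * (ε / 4) = 1 := by field_simp
    linarith
  unfold HoleDiv_chi
  rw [min_eq_left (by linarith), max_eq_right zero_le_one]

private theorem HoleDiv_chi_zero {K : Set (E n)} {ε : ℝ} (hε : 0 < ε) {x : E n}
    (h : ε / 2 ≤ infDist x K) : HoleDiv_chi K ε x = 0 := by
  have h1 : 2 ≤ 4 / ε * infDist x K := by
    have h2 : 4 / ε * (ε / 2) ≤ 4 / ε * infDist x K :=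
      mul_le_mul_of_nonneg_left h (by positivity)
    have h3 : 4 / ε * (ε / 2) = 2 := by field_simp; norm_num
    linarith
  unfold HoleDiv_chi
  rw [min_eq_right (by linarith), max_eq_left (by linarith)]

private theorem HoleDiv_chi_sub {K : Set (E n)} {ε : ℝ} (hε : 0 < ε) (x y : E n) :
    |HoleDiv_chi K ε x - HoleDiv_chi K ε y| ≤ 4 / ε * dist x y := by
  unfold HoleDiv_chi
  have h1 : |max 0 (min 1 (2 - 4 / ε * infDist x K)) - max 0 (min 1 (2 - 4 / ε * infDist y K))| ≤
      |min 1 (2 - 4 / ε * infDist x K) - min 1 (2 - 4 / ε * infDist y K)| := by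
    rw [max_comm 0, max_comm 0]
    exact abs_max_sub_max_le_abs _ _ _
  have h2 : |min 1 (2 - 4 / ε * infDist x K) - min 1 (2 - 4 / ε * infDist y K)| ≤
      |(2 - 4 / ε * infDist x K) - (2 - 4 / ε * infDist y K)| := by
    have h5 := abs_min_sub_min_le_max 1 (2 - 4 / ε * infDist x K) 1 (2 - 4 / ε * infDist y K)
    rw [sub_self, abs_zero, max_eq_right (abs_nonneg _)] at h5
    exact h5
  have h3 : |infDist x K - infDist y K| ≤ dist x y := by
    have h4 := (lipschitz_infDist_pt K).dist_le_mul x y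
    rwa [NNReal.coe_one, one_mul, Real.dist_eq] at h4
  have h4 : |(2 - 4 / ε * infDist x K) - (2 - 4 / ε * infDist y K)| =
      4 / ε * |infDist x K - infDist y K| := by
    have h5 : (2 - 4 / ε * infDist x K) - (2 - 4 / ε * infDist y K) =
        -(4 / ε * (infDist x K - infDist y K)) := by ring
    rw [h5, abs_neg, abs_mul, abs_of_pos (by positivity : 0 < 4 / ε)]
  have h6 : 4 / ε * |infDist x K - infDist y K| ≤ 4 / ε * dist x y :=
    mul_le_mul_of_nonneg_left h3 (by positivity)
  linarith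

/-- the localised field -/
private noncomputable def HoleDiv_Y (K : Set (E n)) (ε : ℝ) (T : E n → E n) (x : E n) : E n :=
  HoleDiv_chi K ε x • T x

private theorem HoleDiv_Y_norm {K : Set (E n)} {ε R : ℝ} {T : E n → E n}
    (hTR : ∀ x, ‖T x‖ ≤ R) (x : E n) : ‖HoleDiv_Y K ε T x‖ ≤ R := by
  unfold HoleDiv_Y
  rw [norm_smul, Real.norm_of_nonneg (HoleDiv_chi_nonneg K ε x)]
  exact (mul_le_of_le_one_left (norm_nonneg _) (HoleDiv_chi_le K ε x)).trans (hTR x)

private theorem HoleDiv_Y_lip {K : Set (E n)} {ε : ℝ} (hε : 0 < ε) {L : ℝ≥0} {R : ℝ}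
    {T : E n → E n} (hT : LipschitzWith L T) (hTR : ∀ x, ‖T x‖ ≤ R) :
    LipschitzWith (Real.toNNReal (4 / ε * R + L)) (HoleDiv_Y K ε T) := by
  have hR0 : 0 ≤ R := (norm_nonneg _).trans (hTR 0)
  refine LipschitzWith.of_dist_le_mul fun x y => ?_
  rw [Real.coe_toNNReal _ (by positivity), dist_eq_norm]
  unfold HoleDiv_Y
  have h1 : HoleDiv_chi K ε x • T x - HoleDiv_chi K ε y • T y =
      (HoleDiv_chi K ε x - HoleDiv_chi K ε y) • T x + HoleDiv_chi K ε y • (T x - T y) := by
    rw [sub_smul, smul_sub]; abel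
  rw [h1]
  refine (norm_add_le _ _).trans ?_
  rw [norm_smul, norm_smul, Real.norm_eq_abs, Real.norm_of_nonneg (HoleDiv_chi_nonneg K ε y),
    add_mul]
  have h2 : |HoleDiv_chi K ε x - HoleDiv_chi K ε y| * ‖T x‖ ≤ 4 / ε * dist x y * R :=
    mul_le_mul (HoleDiv_chi_sub hε x y) (hTR x) (norm_nonneg _) (by positivity)
  have h3 : HoleDiv_chi K ε y * ‖T x - T y‖ ≤ L * dist x y := by
    have h4 : ‖T x - T y‖ ≤ L * dist x y := by
      rw [← dist_eq_norm]; exact hT.dist_le_mul x y
    exact (mul_le_of_le_one_left (norm_nonneg _) (HoleDiv_chi_le K ε y)).trans h4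
  have h5 : 4 / ε * dist x y * R = 4 / ε * R * dist x y := by ring
  linarith

private theorem HoleDiv_tr_cont : Continuous (tr : (E n →L[ℝ] E n) → ℝ) := by
  unfold tr
  refine continuous_finsetSum _ fun i _ => ?_
  have h1 : Continuous fun A : E n →L[ℝ] E n => A (EuclideanSpace.single i 1) :=
    continuous_id.clm_apply continuous_const
  exact (EuclideanSpace.proj (𝕜 := ℝ) i).continuous.comp h1

private theorem HoleDiv_int {C : ℝ≥0} {Y : E n → E n} (hY : LipschitzWith C Y) {S : Set (E n)}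
    (hS : Bornology.IsBounded S) : IntegrableOn (fun x => tr (fderiv ℝ Y x)) S := by
  have : IsFiniteMeasure (volume.restrict S) :=
    ⟨by rw [Measure.restrict_apply_univ]; exact hS.measure_lt_top⟩
  have hcomp : IsCompact (closedBall (0 : E n →L[ℝ] E n) C) := isCompact_closedBall _ _
  obtain ⟨B, hB⟩ := hcomp.exists_bound_of_continuousOn
    (HoleDiv_tr_cont (n := n)).continuousOn
  refine Integrable.of_bound ?_ B (Eventually.of_forall fun x => ?_)
  · exact ((HoleDiv_tr_cont (n := n)).measurable.comp (measurable_fderiv ℝ Y)).aestronglyMeasurable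
  · apply hB
    rw [mem_closedBall, dist_zero_right]
    exact norm_fderiv_le_of_lipschitz ℝ hY

private theorem HoleDiv_tr_zero : tr (0 : E n →L[ℝ] E n) = 0 := by
  unfold tr
  simp

/-- the divergence theorem on a hole.
PROOF: let `χ` be the Lipschitz cutoff function of the distance from `K`, one where the distance is
at most `ε / 4` and zero where it is at least `ε / 2`. The field `χ T` is bounded, Lipschitz and zero
outside a big ball, so the integral of its divergence over the big ball is zero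
(`Domain.divergence_lip` for the ball); the divergence is zero outside `D.carrier ∪ K`
and equals that of `T` on `K`, so
`∫ x in K, tr (fderiv T x) = - ∫ x in D.carrier, tr (fderiv (χ T) x) = - ∫ ⟪χ T, normal⟫ ∂D.surface
= - ∫ x in K, ⟪T x, normal x⟫ ∂D.surface`, since on the frontier of `D` outside `K` the distance from
`K` is `≥ ε` (points of `D` are interior), where `χ = 0`. -/
theorem hole_div (hn : 2 ≤ n) (D : Domain n) {K : Set (E n)} (hK : IsCompact K)
    (hKD : Disjoint K D.carrier) {ε : ℝ} (hε : 0 < ε)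
    (hiso : ∀ x, infDist x K < ε → x ∉ K → x ∈ D.carrier) {L : ℝ≥0} {R : ℝ} {T : E n → E n}
    (hT : LipschitzWith L T) (hTR : ∀ x, ‖T x‖ ≤ R) :
    ∫ x in K, tr (fderiv ℝ T x) = - ∫ x in K, ⟪T x, D.normal x⟫ ∂D.surface := by
  have hYL := HoleDiv_Y_lip (K := K) hε hT hTR
  have hYR := HoleDiv_Y_norm (K := K) (ε := ε) hTR
  -- the field is zero far from `K`
  have hfar : ∀ x, x ∉ D.carrier → x ∉ K → ε ≤ infDist x K := by
    intro x hx1 hx2
    by_contra hlt
    exact hx1 (hiso x (not_le.1 hlt) hx2)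
  have hY0 : ∀ x, x ∉ D.carrier → x ∉ K → HoleDiv_Y K ε T x = 0 := by
    intro x hx1 hx2
    unfold HoleDiv_Y
    rw [HoleDiv_chi_zero hε (by have := hfar x hx1 hx2; linarith), zero_smul]
  have hdY0 : ∀ x, x ∉ D.carrier → x ∉ K → tr (fderiv ℝ (HoleDiv_Y K ε T) x) = 0 := by
    intro x hx1 hx2
    have hop : IsOpen {z : E n | ε / 2 < infDist z K} :=
      isOpen_lt continuous_const (continuous_infDist_pt K)
    have hmem : x ∈ {z : E n | ε / 2 < infDist z K} := by
      have := hfar x hx1 hx2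
      show ε / 2 < infDist x K
      linarith
    have hev : HoleDiv_Y K ε T =ᶠ[𝓝 x] fun _ => 0 := by
      filter_upwards [hop.mem_nhds hmem] with z hz
      unfold HoleDiv_Y
      rw [HoleDiv_chi_zero hε (le_of_lt hz), zero_smul]
    rw [hev.fderiv_eq, fderiv_const_apply, HoleDiv_tr_zero]
  -- the field near `K`
  have hYK : ∀ x ∈ K, HoleDiv_Y K ε T x = T x := by
    intro x hx
    unfold HoleDiv_Y
    rw [HoleDiv_chi_one hε (by rw [infDist_zero_of_mem hx]; positivity), one_smul]
  have hdYK : ∀ x ∈ K, tr (fderiv ℝ (HoleDiv_Y K ε T) x) = tr (fderiv ℝ T x) := by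
    intro x hx
    have hop : IsOpen {z : E n | infDist z K < ε / 4} :=
      isOpen_lt (continuous_infDist_pt K) continuous_const
    have hmem : x ∈ {z : E n | infDist z K < ε / 4} := by
      show infDist x K < ε / 4
      rw [infDist_zero_of_mem hx]; positivity
    have hev : HoleDiv_Y K ε T =ᶠ[𝓝 x] T := by
      filter_upwards [hop.mem_nhds hmem] with z hz
      unfold HoleDiv_Y
      rw [HoleDiv_chi_one hε (le_of_lt hz), one_smul]
    rw [hev.fderiv_eq]
  -- a big ball
  obtain ⟨ρ, hρ⟩ := (D.isBounded.union hK.isBounded).subset_ball (0 : E n)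
  have hρ0 : 0 < ρ := by
    obtain ⟨z, hz⟩ := D.isConnected.nonempty
    have := hρ (Or.inl hz)
    exact pos_of_mem_ball this
  have hball : ∫ x in ball (0 : E n) ρ, tr (fderiv ℝ (HoleDiv_Y K ε T) x) = 0 := by
    have h1 := (ballDomain n (by omega) ρ hρ0).divergence_lip hYL hYR
    refine Eq.trans h1 ?_
    apply integral_eq_zero_of_ae
    have h3 : ∀ᵐ x ∂(sphereMeasure n ρ), x ∈ sphere (0 : E n) ρ := by
      rw [ae_iff]
      exact sphereMeasure_support n hρ0
    have h4 : ∀ᵐ x ∂(ballDomain n (by omega) ρ hρ0).surface, x ∈ sphere (0 : E n) ρ := h3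
    filter_upwards [h4] with x hx
    have hx1 : x ∉ D.carrier ∪ K := by
      intro hmem
      have h5 := hρ hmem
      rw [mem_ball_zero_iff] at h5
      rw [mem_sphere_zero_iff_norm] at hx
      linarith
    rw [hY0 x (fun h => hx1 (Or.inl h)) (fun h => hx1 (Or.inr h)), inner_zero_left]
    rfl
  have hKm : MeasurableSet K := hK.isClosed.measurableSet
  have hsplit : ∫ x in ball (0 : E n) ρ, tr (fderiv ℝ (HoleDiv_Y K ε T) x) =
      (∫ x in D.carrier, tr (fderiv ℝ (HoleDiv_Y K ε T) x)) +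
        ∫ x in K, tr (fderiv ℝ (HoleDiv_Y K ε T) x) := by
    rw [← setIntegral_union hKD.symm hKm (HoleDiv_int hYL D.isBounded)
      (HoleDiv_int hYL hK.isBounded)]
    have hz : ∀ x ∈ ball (0 : E n) ρ \ (D.carrier ∪ K),
        tr (fderiv ℝ (HoleDiv_Y K ε T) x) = 0 := fun x hx =>
      hdY0 x (fun h => hx.2 (Or.inl h)) (fun h => hx.2 (Or.inr h))
    exact setIntegral_eq_of_subset_of_forall_sdiff_eq_zero measurableSet_ball hρ hz
  have hKint : ∫ x in K, tr (fderiv ℝ (HoleDiv_Y K ε T) x) = ∫ x in K, tr (fderiv ℝ T x) :=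
    setIntegral_congr_fun hKm fun x hx => hdYK x hx
  have hsurf : ∫ x, ⟪HoleDiv_Y K ε T x, D.normal x⟫ ∂D.surface =
      ∫ x in K, ⟪T x, D.normal x⟫ ∂D.surface := by
    rw [← integral_indicator hKm]
    refine integral_congr_ae ?_
    have h3 : ∀ᵐ x ∂D.surface, x ∈ frontier D.carrier := by
      rw [ae_iff]
      exact D.support
    filter_upwards [h3] with x hx
    have hx1 : x ∉ D.carrier := by
      rw [D.isOpen.frontier_eq] at hx
      exact hx.2
    by_cases hx2 : x ∈ K
    · rw [indicator_of_mem hx2, hYK x hx2]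
    · rw [indicator_of_notMem hx2, hY0 x hx1 hx2, inner_zero_left]
  have hD := D.divergence_lip hYL hYR
  rw [hball, hD, hsurf, hKint] at hsplit
  linarith

end Pool.Agent.RH
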