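import Pool.Agent.H.MP_1b807b_an.HO.Defs
import Pool.Agent.H.MP_1b807b_an.G.Moll

/-! MP_1b807b_an, balls with holes, module LipN: Lipschitz test functions in dimension `n` -/

set_option autoImplicit false

namespace Pool.Agent.RH

open MeasureTheory Metric Set Filter Pool.Agent.RG
open scoped RealInnerProductSpace Topology NNReal ENNReal

variable {n : ℕ}

/-- smooth approximation of a scalar Lipschitz function on a bounded open set -/
private theorem LipN_smooth (hn : 0 < n) {v : E n → ℝ} {K : ℝ≥0} (hv : LipschitzWith K v) {S : Set (E n)}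
    (hS : Bornology.IsBounded S) :
    ∃ (w : ℕ → E n → ℝ) (R : ℝ), (∀ j, ContDiff ℝ 1 (w j)) ∧ (∀ j x, |w j x| ≤ R) ∧
      (∀ j x, ‖fderiv ℝ (w j) x‖ ≤ R) ∧
      (∀ x ∈ closure S, Tendsto (fun j => w j x) atTop (𝓝 (v x))) ∧
      ∀ᵐ x : E n, x ∈ S → Tendsto (fun j => fderiv ℝ (w j) x) atTop (𝓝 (fderiv ℝ v x)) := by
  obtain ⟨ρ, hρ⟩ := hS.subset_closedBall (0 : E n)
  obtain ⟨R, hR⟩ := (isCompact_closedBall (0 : E n) (ρ + 1)).exists_bound_of_continuousOn
    hv.continuous.continuousOn
  set e0 : E n := EuclideanSpace.single (⟨0, hn⟩ : Fin n) 1 with he0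
  have hne : ‖e0‖ = 1 := by simp [he0]
  set v' : E n → ℝ := fun x => max (min (v x) R) (-R) with hv'
  have hv'L : LipschitzWith K v' := (hv.min_const R).max_const (-R)
  have hv'R : ∀ x, |v' x| ≤ |R| := by
    intro x
    rw [hv']
    simp only
    rw [abs_le]
    constructor
    · exact (neg_le_neg (le_abs_self R)).trans (le_max_right _ _)
    · exact max_le ((min_le_right _ _).trans (le_abs_self R)) (neg_le_abs R)
  have hv'eq : ∀ x ∈ closedBall (0 : E n) (ρ + 1), v' x = v x := by
    intro x hx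
    have h1 := hR x hx
    rw [Real.norm_eq_abs, abs_le] at h1
    rw [hv']
    simp only
    rw [min_eq_left h1.2, max_eq_left h1.1]
  set T : E n → E n := fun x => v' x • e0 with hT
  have hTL : LipschitzWith K T := by
    refine LipschitzWith.of_dist_le_mul fun x y => ?_
    rw [hT]
    simp only
    rw [dist_eq_norm, ← sub_smul, norm_smul, hne, mul_one, ← dist_eq_norm]
    exact hv'L.dist_le_mul x y
  have hTR : ∀ x, ‖T x‖ ≤ |R| := by
    intro x
    rw [hT]
    simp only
    rw [norm_smul, hne, mul_one, Real.norm_eq_abs]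
    exact hv'R x
  obtain ⟨S', hS1, hS2, hS3, hS4, hS5⟩ := exists_smooth hTL hTR
  set P : E n →L[ℝ] ℝ := EuclideanSpace.proj (𝕜 := ℝ) (⟨0, hn⟩ : Fin n) with hP
  have hPe : P e0 = 1 := by simp [hP, he0]
  have hfd : ∀ j x, fderiv ℝ (fun x => P (S' j x)) x = P.comp (fderiv ℝ (S' j) x) := by
    intro j x
    exact (P.hasFDerivAt.comp x (((hS1 j).differentiable one_ne_zero) x).hasFDerivAt).fderiv
  have hcl : closure S ⊆ closedBall (0 : E n) ρ := closure_minimal hρ isClosed_closedBall
  refine ⟨fun j x => P (S' j x), max (‖P‖ * |R|) (‖P‖ * K), fun j => P.contDiff.comp (hS1 j),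
    fun j x => ?_, fun j x => ?_, fun x hx => ?_, ?_⟩
  · refine le_trans ?_ (le_max_left _ _)
    rw [← Real.norm_eq_abs]
    exact (P.le_opNorm _).trans (mul_le_mul_of_nonneg_left (hS2 j x) (norm_nonneg _))
  · refine le_trans ?_ (le_max_right _ _)
    rw [hfd]
    exact (ContinuousLinearMap.opNorm_comp_le _ _).trans
      (mul_le_mul_of_nonneg_left (hS3 j x) (norm_nonneg _))
  · have h1 : v x = P (T x) := by
      rw [hT]
      simp only
      rw [map_smul, hPe, smul_eq_mul, mul_one, hv'eq x]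
      exact closedBall_subset_closedBall (by linarith) (hcl hx)
    rw [h1]
    exact (P.continuous.tendsto _).comp (hS4 x)
  · filter_upwards [hS5, hv.ae_differentiableAt] with x hx hdx hxS
    have h2 : HasFDerivAt (fun y => v y • e0) ((fderiv ℝ v x).smulRight e0) x :=
      hdx.hasFDerivAt.smul_const e0
    have h3 : T =ᶠ[𝓝 x] fun y => v y • e0 := by
      have hxb : x ∈ ball (0 : E n) (ρ + 1) := by
        have := hρ hxS
        rw [mem_closedBall] at this
        rw [mem_ball]
        linarith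
      filter_upwards [isOpen_ball.mem_nhds hxb] with y hy
      rw [hT]
      simp only
      rw [hv'eq y (ball_subset_closedBall hy)]
    have h4 : fderiv ℝ T x = (fderiv ℝ v x).smulRight e0 := (h2.congr_of_eventuallyEq h3).fderiv
    have h5 : fderiv ℝ v x = P.comp (fderiv ℝ T x) := by
      rw [h4]
      ext w
      simp [hPe]
    rw [h5]
    simp_rw [hfd]
    have hc : Continuous fun A : E n →L[ℝ] E n => P.comp A :=
      (ContinuousLinearMap.compL ℝ (E n) (E n) ℝ P).continuous
    exact (hc.tendsto _).comp hx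

/-- Lipschitz functions are admissible in the Rayleigh quotient.
PROOF: word for word `robin_lip` of `P/LipTest.lean` (there `n = 2`); in `lt_smooth` take
`e0 = EuclideanSpace.single ⟨0, hn⟩ 1` and the projection on that coordinate; `exists_smooth`
(`G/Moll.lean`) is stated for every `n`. -/
theorem robin_lipN (hn : 0 < n) (D : Domain n) {β Q C : ℝ} {v : E n → ℝ} (hC0 : 0 ≤ C)
    (hv : ∀ x x', |v x - v x'| ≤ C * ‖x - x'‖)
    (hpos : 0 < ∫ x in D.carrier, v x ^ 2)
    (hQ : (∫ x in D.carrier, ‖fderiv ℝ v x‖ ^ 2) - β * (∫ x, v x ^ 2 ∂D.surface) ≤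
      Q * ∫ x in D.carrier, v x ^ 2) :
    D.robin (-β) ≤ (Q : EReal) := by
  have hvL : LipschitzWith ⟨C, hC0⟩ v := by
    refine LipschitzWith.of_dist_le_mul fun x y => ?_
    rw [Real.dist_eq, dist_eq_norm]
    exact hv x y
  obtain ⟨w, R, hw1, hwR, hwR', hwt, hwd⟩ := LipN_smooth hn hvL D.isBounded
  have hR0 : 0 ≤ R := (abs_nonneg _).trans (hwR 0 0)
  have hfin : IsFiniteMeasure (volume.restrict D.carrier) :=
    ⟨by rw [Measure.restrict_apply_univ]; exact D.isBounded.measure_lt_top⟩
  have hfin' := D.isFinite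
  have hms : MeasurableSet D.carrier := D.isOpen.measurableSet
  have hsupp : ∀ᵐ x ∂D.surface, x ∈ frontier D.carrier := D.support
  have hmem : ∀ᵐ x ∂(volume.restrict D.carrier), x ∈ D.carrier := ae_restrict_mem hms
  have hw2 : ∀ j x, w j x ^ 2 ≤ R ^ 2 := by
    intro j x
    rw [← sq_abs]
    exact pow_le_pow_left₀ (abs_nonneg _) (hwR j x) 2
  have l1 : Tendsto (fun j => ∫ x in D.carrier, ‖fderiv ℝ (w j) x‖ ^ 2) atTop
      (𝓝 (∫ x in D.carrier, ‖fderiv ℝ v x‖ ^ 2)) := by
    refine tendsto_integral_of_dominated_convergence (fun _ => R ^ 2) (fun j => ?_)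
      (integrable_const _) (fun j => ?_) ?_
    · exact (((hw1 j).continuous_fderiv one_ne_zero).norm.pow 2).aestronglyMeasurable
    · filter_upwards with x
      rw [Real.norm_of_nonneg (by positivity)]
      exact pow_le_pow_left₀ (norm_nonneg _) (hwR' j x) 2
    · filter_upwards [hmem, ae_restrict_of_ae hwd] with x hx hx'
      exact (hx' hx).norm.pow 2
  have l4 : Tendsto (fun j => ∫ x, w j x ^ 2 ∂D.surface) atTop
      (𝓝 (∫ x, v x ^ 2 ∂D.surface)) := by
    refine tendsto_integral_of_dominated_convergence (fun _ => R ^ 2) (fun j => ?_)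
      (integrable_const _) (fun j => ?_) ?_
    · exact ((hw1 j).continuous.pow 2).aestronglyMeasurable
    · filter_upwards with x
      rw [Real.norm_of_nonneg (by positivity)]
      exact hw2 j x
    · filter_upwards [hsupp] with x hx
      exact (hwt x (frontier_subset_closure hx)).pow 2
  have l5 : Tendsto (fun j => ∫ x in D.carrier, w j x ^ 2) atTop
      (𝓝 (∫ x in D.carrier, v x ^ 2)) := by
    refine tendsto_integral_of_dominated_convergence (fun _ => R ^ 2) (fun j => ?_)
      (integrable_const _) (fun j => ?_) ?_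
    · exact ((hw1 j).continuous.pow 2).aestronglyMeasurable
    · filter_upwards with x
      rw [Real.norm_of_nonneg (by positivity)]
      exact hw2 j x
    · filter_upwards [hmem] with x hx
      exact (hwt x (subset_closure hx)).pow 2
  set A : ℝ := ∫ x in D.carrier, v x ^ 2 with hA
  set N : ℝ := (∫ x in D.carrier, ‖fderiv ℝ v x‖ ^ 2) + (-β) * ∫ x, v x ^ 2 ∂D.surface with hN
  have lq : Tendsto (fun j => D.rayleigh (-β) (w j)) atTop (𝓝 (N / A)) := by
    unfold Domain.rayleigh
    exact Tendsto.div (Tendsto.add l1 (l4.const_mul _)) l5 hpos.ne'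
  have hev : ∀ᶠ j in atTop, D.robin (-β) ≤ (D.rayleigh (-β) (w j) : EReal) := by
    filter_upwards [l5.eventually (lt_mem_nhds hpos)] with j hj
    exact sInf_le ⟨w j, hw1 j, hj, rfl⟩
  have lq' : Tendsto (fun j => (D.rayleigh (-β) (w j) : EReal)) atTop
      (𝓝 ((N / A : ℝ) : EReal)) := (continuous_coe_real_ereal.tendsto _).comp lq
  have h1 : D.robin (-β) ≤ ((N / A : ℝ) : EReal) := ge_of_tendsto lq' hev
  refine h1.trans (EReal.coe_le_coe_iff.2 ?_)
  rw [div_le_iff₀ hpos]
  linarith

end Pool.Agent.RH
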