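import Pool.Agent.H.MP_1b807b_an.HO.Defs

/-! MP_1b807b_an, balls with holes, module Zero: the minimum of a ground state -/

set_option autoImplicit false

namespace Pool.Agent.RH

open MeasureTheory Set Pool.Agent.H.MP_1b807b_an

private theorem Zero_W {m : ℕ} (hm : 1 ≤ m) {r₁ r₂ β k : ℝ} {u p : ℝ → ℝ}
    (h0 : 0 ≤ r₁) (g : GS m r₁ r₂ β k u p) {r : ℝ} (hr : r ∈ Ioo r₁ r₂) :
    HasDerivAt (fun r => r ^ m * p r) (r ^ m * (k ^ 2 * u r)) r := by
  have hr0 : 0 < r := lt_of_le_of_lt h0 hr.1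
  have h1 := (hasDerivAt_pow m r).mul (g.dp r hr)
  have h2 : (m : ℝ) * r ^ (m - 1) * p r + r ^ m * (k ^ 2 * u r - m / r * p r) =
      r ^ m * (k ^ 2 * u r) := by
    have h3 : r ^ m = r ^ (m - 1) * r := by
      rw [← pow_succ, Nat.sub_add_cancel hm]
    rw [h3]
    field_simp
    ring
  rw [h2] at h1
  exact h1

private theorem Zero_mono {m : ℕ} (hm : 1 ≤ m) {r₁ r₂ β k : ℝ} {u p : ℝ → ℝ} (hk : 0 < k)
    (h0 : 0 ≤ r₁) (g : GS m r₁ r₂ β k u p) :
    StrictMonoOn (fun r => r ^ m * p r) (Icc r₁ r₂) := by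
  apply strictMonoOn_of_deriv_pos (convex_Icc _ _)
  · exact (continuousOn_pow m).mul g.cp
  · intro r hr
    rw [interior_Icc] at hr
    have hr0 : 0 < r := lt_of_le_of_lt h0 hr.1
    have hu := g.pos r (Ioo_subset_Icc_self hr)
    rw [(Zero_W hm h0 g hr).deriv]
    positivity

private theorem Zero_zero {m : ℕ} (hm : 1 ≤ m) {r₂ β k : ℝ} {u p : ℝ → ℝ}
    (h12 : 0 < r₂) (g : GS m 0 r₂ β k u p) (hp : ∀ r ∈ Ioc 0 r₂, 0 < p r) : p 0 = 0 := by
  have hmem : (0 : ℝ) ∈ closure (Ioo 0 r₂) := by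
    rw [closure_Ioo h12.ne]
    exact ⟨le_rfl, h12.le⟩
  have hcp : ContinuousOn p (closure (Ioo 0 r₂)) := by
    rw [closure_Ioo h12.ne]
    exact g.cp
  apply le_antisymm
  · obtain ⟨M, hM⟩ := isCompact_Icc.exists_bound_of_continuousOn g.cu
    have hM' : ∀ r ∈ Icc 0 r₂, u r ≤ M := fun r hr =>
      (le_abs_self _).trans (by simpa using hM r hr)
    have hanti : AntitoneOn (fun r => r ^ m * p r - k ^ 2 * M * (r ^ (m + 1) / (m + 1)))
        (Icc 0 r₂) := by
      apply antitoneOn_of_deriv_nonpos (convex_Icc _ _)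
      · apply ContinuousOn.sub
        · exact (continuousOn_pow m).mul g.cp
        · fun_prop
      · intro r hr
        rw [interior_Icc] at hr
        have h1 := (Zero_W hm le_rfl g hr).sub
          (((hasDerivAt_pow (m + 1) r).div_const ((m : ℝ) + 1)).const_mul (k ^ 2 * M))
        exact h1.differentiableAt.differentiableWithinAt
      · intro r hr
        rw [interior_Icc] at hr
        have h1 := (Zero_W hm le_rfl g hr).sub
          (((hasDerivAt_pow (m + 1) r).div_const ((m : ℝ) + 1)).const_mul (k ^ 2 * M))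
        have h2 : deriv (fun r => r ^ m * p r - k ^ 2 * M * (r ^ (m + 1) / (m + 1))) r =
            r ^ m * (k ^ 2 * u r) - k ^ 2 * M * (((m + 1 : ℕ) : ℝ) * r ^ (m + 1 - 1) /
              ((m : ℝ) + 1)) := h1.deriv
        rw [h2]
        have h3 : ((m + 1 : ℕ) : ℝ) * r ^ (m + 1 - 1) / ((m : ℝ) + 1) = r ^ m := by
          rw [Nat.add_sub_cancel]
          push_cast
          field_simp
        rw [h3]
        have h4 := hM' r (Ioo_subset_Icc_self hr)
        have h5 : 0 < r ^ m := pow_pos hr.1 m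
        have h6 : 0 ≤ r ^ m * k ^ 2 := by positivity
        nlinarith [mul_le_mul_of_nonneg_left h4 h6]
    have hle : ∀ r ∈ Ioo 0 r₂, p r ≤ k ^ 2 * M * (r / (m + 1)) := by
      intro r hr
      have h1 := hanti (left_mem_Icc.2 h12.le) (Ioo_subset_Icc_self hr) hr.1.le
      have h2 : (0 : ℝ) ^ m = 0 := zero_pow (by omega)
      have h3 : (0 : ℝ) ^ (m + 1) = 0 := zero_pow (by omega)
      simp only [h2, h3, zero_mul, zero_div, mul_zero, sub_zero] at h1
      have h5 : 0 < r ^ m := pow_pos hr.1 m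
      have h4 : r ^ m * p r ≤ r ^ m * (k ^ 2 * M * (r / (m + 1))) := by
        have h6 : r ^ m * (k ^ 2 * M * (r / (m + 1))) = k ^ 2 * M * (r ^ (m + 1) / (m + 1)) := by
          ring
        rw [h6]
        linarith
      exact le_of_mul_le_mul_left h4 h5
    have h1 := le_on_closure hle hcp (by fun_prop) hmem
    simpa using h1
  · have hge : ∀ r ∈ Ioo 0 r₂, (fun _ => (0 : ℝ)) r ≤ p r := fun r hr =>
      (hp r ⟨hr.1, hr.2.le⟩).le
    exact le_on_closure hge continuousOn_const hcp hmem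

/-- PROOF: `W r = r ^ m * p r` is continuous on `[r₁,r₂]` with derivative `r ^ m * k ^ 2 * u r > 0` on
`(r₁,r₂)`, so it is strictly increasing; `W r₂ = r₂ ^ m β u r₂ > 0`, `W r₁ = -r₁ ^ m β u r₁` (`GS.left`),
which is `< 0` if `r₁ > 0` and `= 0` if `r₁ = 0` (`m ≥ 1`). If `r₁ > 0` take the zero of `W` by the
intermediate value theorem. If `r₁ = 0` take `rm = 0`; `p 0 = 0`: for `0 < r`,
`r ^ m * p r = ∫_0^r s ^ m k ^ 2 u ≤ r ^ (m+1) k ^ 2 M`, so `0 ≤ p r ≤ k ^ 2 M r` and `p` is continuous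
at `0` within `[0,r₂]`. -/
theorem exists_zero {m : ℕ} (hm : 1 ≤ m) {r₁ r₂ β k : ℝ} {u p : ℝ → ℝ} (hβ : 0 < β) (hk : 0 < k)
    (h0 : 0 ≤ r₁) (h12 : r₁ < r₂) (g : GS m r₁ r₂ β k u p) :
    ∃ rm : ℝ, r₁ ≤ rm ∧ rm < r₂ ∧ (0 < r₁ → r₁ < rm) ∧ (r₁ = 0 → rm = 0) ∧ p rm = 0 ∧
      (∀ r, rm < r → r ≤ r₂ → 0 < p r) ∧ (∀ r, r₁ ≤ r → r < rm → p r < 0) := by
  have hmono := Zero_mono hm hk h0 g
  have hr2 : 0 < r₂ := lt_of_le_of_lt h0 h12
  have hW2 : 0 < r₂ ^ m * p r₂ := by
    rw [g.right]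
    have := g.pos r₂ (right_mem_Icc.2 h12.le)
    positivity
  rcases h0.eq_or_lt with h | h
  · subst h
    have hpos : ∀ r ∈ Ioc 0 r₂, 0 < p r := by
      intro r hr
      have h1 := hmono (left_mem_Icc.2 h12.le) (Ioc_subset_Icc_self hr) hr.1
      have h2 : (0 : ℝ) ^ m = 0 := zero_pow (by omega)
      simp only [h2, zero_mul] at h1
      exact pos_of_mul_pos_right h1 (pow_pos hr.1 m).le
    refine ⟨0, le_rfl, h12, fun h => h, fun _ => rfl, Zero_zero hm h12 g hpos,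
      fun r h1 h2 => hpos r ⟨h1, h2⟩, fun r h1 h2 => absurd h2 (not_lt.2 h1)⟩
  · have hW1 : r₁ ^ m * p r₁ < 0 := by
      have h1 : p r₁ + β * u r₁ = 0 := by
        rcases mul_eq_zero.1 g.left with h2 | h2
        · exact absurd h2 (pow_pos h m).ne'
        · exact h2
      have h2 : p r₁ = -(β * u r₁) := by linarith
      rw [h2]
      have h3 := g.pos r₁ (left_mem_Icc.2 h12.le)
      have h4 : 0 < r₁ ^ m * (β * u r₁) := by positivity
      linarith
    have hc : ContinuousOn (fun r => r ^ m * p r) (Icc r₁ r₂) := (continuousOn_pow m).mul g.cp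
    obtain ⟨rm, hrm, hrm0⟩ := intermediate_value_Icc h12.le hc ⟨hW1.le, hW2.le⟩
    simp only at hrm0
    have h1 : r₁ < rm := by
      rcases hrm.1.eq_or_lt with h2 | h2
      · rw [← h2] at hrm0
        exact absurd hrm0 hW1.ne
      · exact h2
    have h2 : rm < r₂ := by
      rcases hrm.2.eq_or_lt with h3 | h3
      · rw [h3] at hrm0
        exact absurd hrm0 hW2.ne'
      · exact h3
    have hrmp : 0 < rm := h.trans h1
    refine ⟨rm, hrm.1, h2, fun _ => h1, fun h3 => absurd h3 h.ne', ?_, ?_, ?_⟩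
    · rcases mul_eq_zero.1 hrm0 with h3 | h3
      · exact absurd h3 (pow_pos hrmp m).ne'
      · exact h3
    · intro r h3 h4
      have h5 := hmono hrm ⟨(h1.trans h3).le, h4⟩ h3
      simp only [hrm0] at h5
      exact pos_of_mul_pos_right h5 (pow_pos (hrmp.trans h3) m).le
    · intro r h3 h4
      have h5 := hmono ⟨h3, (h4.trans h2).le⟩ hrm h4
      simp only [hrm0] at h5
      have h6 : 0 < r := lt_of_lt_of_le h h3
      have h7 : 0 < r ^ m := pow_pos h6 m
      by_contra hcon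
      have h8 : 0 ≤ r ^ m * p r := mul_nonneg h7.le (not_lt.1 hcon)
      linarith

end Pool.Agent.RH
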