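import Pool.Agent.H.MP_1b807b_an.HO.Defs

/-! MP_1b807b_an, balls with holes, module Overlap: overlapping collars -/

set_option autoImplicit false

namespace Pool.Agent.RH

open MeasureTheory Metric Set Filter Pool.Agent.RG
open scoped Topology

variable {n : ℕ}

/-- a single hole that is not concentric: the two collars overlap.
PROOF: let `d = dist y x₀ > 0`, `r₁ + d < R` (as `closedBall y r₁ ⊆ ball x₀ R`, `n ≥ 2`: the point
`y + r₁ (y - x₀)/d` is in the closed ball). Choose `ρ` with `max r₁ (r - d) < ρ < min r (R - d)` and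
`x = y + (ρ / d) (y - x₀)`: `dist x y = ρ`, `dist x x₀ = d + ρ`. So `x ∈ ball x₀ R`, `x ∉ closedBall y r₁`,
`infDist x (ball x₀ R)ᶜ ≤ R - dist x x₀ = R - d - ρ < R - r` (the nearest point of the sphere is
`x₀ + R (x - x₀)/‖x - x₀‖`) and `infDist x (closedBall y r₁) ≤ ρ - r₁ < r - r₁`. The set is open and
contains `x`: `IsOpen.measure_pos`. -/
theorem overlap (hn : 2 ≤ n) {x₀ y : E n} {R r₁ : ℝ} (hR : 0 < R) (hr₁ : 0 < r₁)
    (hsub : closedBall y r₁ ⊆ ball x₀ R) (hne : y ≠ x₀) {r : ℝ} (h1 : r₁ < r) (h2 : r < R) :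
    0 < volume ((ball x₀ R \ closedBall y r₁) ∩
      {x | infDist x (ball x₀ R)ᶜ < R - r ∧ infDist x (closedBall y r₁) < r - r₁}) := by
  set d := dist y x₀ with hd
  have hd0 : 0 < d := dist_pos.2 hne
  set u : E n := d⁻¹ • (y - x₀) with hu
  have hun : ‖u‖ = 1 := by
    rw [hu, norm_smul, norm_inv, Real.norm_eq_abs, abs_of_pos hd0, ← dist_eq_norm, ← hd]
    exact inv_mul_cancel₀ hd0.ne'
  have hyu : y = x₀ + d • u := by
    rw [hu, smul_smul, mul_inv_cancel₀ hd0.ne', one_smul]
    abel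
  have hdist : ∀ s : ℝ, 0 ≤ s → dist (y + s • u) x₀ = d + s := by
    intro s hs
    have e : y + s • u - x₀ = (d + s) • u := by
      rw [hyu, add_smul]
      abel
    rw [dist_eq_norm, e, norm_smul, hun, mul_one, Real.norm_eq_abs, abs_of_nonneg (by linarith)]
  have hR1 : d + r₁ < R := by
    have h3 : y + r₁ • u ∈ closedBall y r₁ := by
      rw [mem_closedBall, dist_eq_norm, add_sub_cancel_left, norm_smul, hun, mul_one,
        Real.norm_eq_abs, abs_of_pos hr₁]
    have h4 := hsub h3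
    rw [mem_ball, hdist r₁ hr₁.le] at h4
    exact h4
  obtain ⟨ρ, hρ1, hρ2⟩ : ∃ ρ, max r₁ (r - d) < ρ ∧ ρ < min r (R - d) := by
    apply exists_between
    rw [max_lt_iff, lt_min_iff, lt_min_iff]
    refine ⟨⟨h1, by linarith⟩, by linarith, by linarith⟩
  rw [max_lt_iff] at hρ1
  rw [lt_min_iff] at hρ2
  have hρ0 : 0 < ρ := hr₁.trans hρ1.1
  have hopen : IsOpen ((ball x₀ R \ closedBall y r₁) ∩
      {x | infDist x (ball x₀ R)ᶜ < R - r ∧ infDist x (closedBall y r₁) < r - r₁}) := by
    refine (isOpen_ball.sdiff isClosed_closedBall).inter (IsOpen.inter ?_ ?_)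
    · exact isOpen_lt (continuous_infDist_pt _) continuous_const
    · exact isOpen_lt (continuous_infDist_pt _) continuous_const
  refine hopen.measure_pos volume ⟨y + ρ • u, ⟨?_, ?_⟩, ?_, ?_⟩
  · rw [mem_ball, hdist ρ hρ0.le]
    linarith
  · rw [mem_closedBall, dist_eq_norm, add_sub_cancel_left, norm_smul, hun, mul_one,
      Real.norm_eq_abs, abs_of_pos hρ0]
    linarith
  · show infDist (y + ρ • u) (ball x₀ R)ᶜ < R - r
    have h3 : y + (R - d) • u ∈ (ball x₀ R)ᶜ := by
      rw [mem_compl_iff, mem_ball, hdist (R - d) (by linarith)]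
      linarith
    refine (infDist_le_dist_of_mem h3).trans_lt ?_
    have e : y + ρ • u - (y + (R - d) • u) = (ρ - (R - d)) • u := by
      rw [add_sub_add_left_eq_sub, ← sub_smul]
    rw [dist_eq_norm, e, norm_smul, hun, mul_one, Real.norm_eq_abs,
      abs_of_nonpos (by linarith)]
    linarith
  · show infDist (y + ρ • u) (closedBall y r₁) < r - r₁
    have h3 : y + r₁ • u ∈ closedBall y r₁ := by
      rw [mem_closedBall, dist_eq_norm, add_sub_cancel_left, norm_smul, hun, mul_one,
        Real.norm_eq_abs, abs_of_pos hr₁]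
    refine (infDist_le_dist_of_mem h3).trans_lt ?_
    have e : y + ρ • u - (y + r₁ • u) = (ρ - r₁) • u := by
      rw [add_sub_add_left_eq_sub, ← sub_smul]
    rw [dist_eq_norm, e, norm_smul, hun, mul_one, Real.norm_eq_abs,
      abs_of_nonneg (by linarith)]
    linarith

end Pool.Agent.RH
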