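import Pool.Agent.H.MP_1b807b_an.HO.Defs
import Pool.Agent.H.MP_1b807b_an.P.DepthP

/-! MP_1b807b_an, balls with holes, module PlanarData: the components of the complement -/

set_option autoImplicit false

namespace Pool.Agent.RH

open MeasureTheory Metric Set Filter Pool.Agent.RG Pool.Agent.RA Pool.Agent.RP
open scoped Topology

/-- the data of the complement of a planar domain -/
structure PData (D : Domain 2) (S₀ : Set (E 2)) (r : ℝ) (N : ℕ) (K : Fin N → Set (E 2)) : Prop where
  outer : Outer D S₀ (D.surface.real S₀) r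
  inj : Function.Injective K
  range_eq : range K = holes D
  compact : ∀ i, IsCompact (K i)
  disj0 : ∀ i, Disjoint (K i) S₀
  disj : ∀ i j, i ≠ j → Disjoint (K i) (K j)
  disjD : ∀ i, Disjoint (K i) D.carrier
  pos : ∀ i, 0 < D.surface.real (K i)
  cover : D.carrier ∪ ⋃ i, K i = S₀ᶜ
  surf0 : D.surface.real S₀ = D.surface.real (⋃₀ holes D)ᶜ
  tube : ∀ i t, 0 ≤ t → volume.real (D.carrier ∩ {x | infDist x (K i) ≤ t}) ≤
    D.surface.real (K i) * t + Real.pi * t ^ 2
  iso : ∃ ε : ℝ, 0 < ε ∧ ∀ i x, infDist x (K i) < ε → x ∉ K i → x ∈ D.carrier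
  null : volume (frontier D.carrier) = 0

private theorem pd_holes {D : Domain 2} (J : JordanBoundary D) :
    holes D = {K | ∃ j, Bornology.IsBounded (J.comp j) ∧ K = J.comp j} := by
  ext C
  constructor
  · rintro ⟨hb, x, hx, rfl⟩
    obtain ⟨j, hj⟩ := exists_comp J hx
    have h1 : J.comp j = connectedComponentIn D.carrierᶜ x := connectedComponentIn_eq hj
    exact ⟨j, h1 ▸ hb, h1.symm⟩
  · rintro ⟨j, hb, rfl⟩
    exact ⟨hb, J.curve j 0, curve_mem_compl J j 0, rfl⟩

private theorem pd_finite {D : Domain 2} (J : JordanBoundary D) : (holes D).Finite := by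
  refine (Set.finite_range J.comp).subset ?_
  rw [pd_holes J]
  rintro C ⟨j, -, rfl⟩
  exact mem_range_self j

private theorem pd_pos {D : Domain 2} (J : JordanBoundary D) (j : Fin J.N) :
    0 < D.surface.real (J.comp j) := by
  classical
  rw [surface_comp J j]
  unfold JordanBoundary.clen
  have h0 : J.curve j 0 ∈ J.comp j := mem_connectedComponentIn (curve_mem_compl J j 0)
  refine Finset.sum_pos' ?_ ⟨j, Finset.mem_univ j, ?_⟩
  · intro i _
    split_ifs
    · exact (J.len_pos i).le
    · exact le_rfl
  · rw [if_pos h0]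
    exact J.len_pos j

private theorem pd_null {D : Domain 2} (J : JordanBoundary D) : volume (frontier D.carrier) = 0 := by
  rw [J.frontier_eq, measure_iUnion_null_iff]
  intro i
  have h1 : Module.finrank ℝ (E 2) = 2 := by simp
  have h2 : (volume : Measure (E 2)) ≪ Measure.hausdorffMeasure (((2 : NNReal) : ℝ)) := by
    have h3 := MeasureTheory.isAddHaarMeasure_hausdorffMeasure (E := E 2)
    rw [h1] at h3
    have h4 : (((2 : NNReal) : ℝ)) = ((2 : ℕ) : ℝ) := by norm_num
    rw [h4]
    exact Measure.absolutelyContinuous_isAddHaarMeasure _ _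
  refine measure_zero_of_dimH_lt h2 ?_
  calc dimH (range (J.curve i)) ≤ dimH (univ : Set ℝ) := (J.lipschitz i).dimH_range_le
    _ = 1 := Real.dimH_univ
    _ < _ := by norm_num

/-- PROOF: `S₀ = J.comp i₀` with `i₀` of `exists_unbdd`, `exists_outer`. Every component `C` of
`D.carrierᶜ` is some `J.comp j`: `C` meets `frontier D.carrier` (otherwise `C` is a component of the
open set `(closure D.carrier)ᶜ` too, so it is open, and it is closed, nonempty and not the whole plane),
and a frontier point lies on some curve `j` (`frontier_eq`), which is contained in one component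
(`curve_sub_comp`, `curve_mem_compl`, `comp_eq`). So `holes D` is the finite set of the bounded
`J.comp j`; the unbounded one is unique (`comp_unbdd_eq`). `comp_isClosed`, `comp_conn`, `comp_dich`,
`tube_comp` (its set contains `D.carrier ∩ {..}`), `surface_comp`, positivity: `J.len j > 0` is one of the
terms of `J.clen j`. Distinct components are disjoint (`comp_eq`), finitely many closed sets, the bounded
ones compact, so they have positive distances (`iso`; also from `S₀`). `null`: the range of a Lipschitz
curve on a bounded interval has measure 0 in the plane (a lemma exists in `A/`, e.g. used for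
`volume (frontier D.carrier) = 0`; search). `surf0`: `(⋃₀ holes D)ᶜ = S₀ ∪ D.carrier` and
`D.surface (D.carrier) = 0` by `D.support` (`D.carrier` is open, disjoint from its frontier). -/
theorem exists_pdata {D : Domain 2} (J : JordanBoundary D) :
    ∃ (S₀ : Set (E 2)) (r : ℝ) (N : ℕ) (K : Fin N → Set (E 2)), PData D S₀ r N K := by
  obtain ⟨i₀, hi₀⟩ := exists_unbdd J
  obtain ⟨r, hr⟩ := exists_outer J hi₀
  have hfin := pd_finite J
  set T : Finset (Set (E 2)) := hfin.toFinset with hT
  have hTmem : ∀ C : Set (E 2), C ∈ T ↔ C ∈ holes D := fun C => hfin.mem_toFinset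
  set K : Fin T.card → Set (E 2) := fun i => (T.equivFin.symm i : Set (E 2)) with hK
  have hKinj : Function.Injective K := Subtype.val_injective.comp T.equivFin.symm.injective
  have hrange : range K = holes D := by
    ext C
    rw [mem_range]
    constructor
    · rintro ⟨i, rfl⟩
      exact (hTmem _).1 (T.equivFin.symm i).2
    · intro hC
      exact ⟨T.equivFin ⟨C, (hTmem C).2 hC⟩, by simp [hK]⟩
  have hKc : ∀ i, ∃ j, Bornology.IsBounded (J.comp j) ∧ K i = J.comp j := by
    intro i
    have h1 : K i ∈ holes D := hrange ▸ mem_range_self i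
    rw [pd_holes J] at h1
    exact h1
  have hdisj0 : ∀ i, Disjoint (K i) (J.comp i₀) := by
    intro i
    obtain ⟨j, hj, hij⟩ := hKc i
    rw [Set.disjoint_left, hij]
    intro x hx hx0
    exact hi₀ (comp_eq J hx hx0 ▸ hj)
  have hdisj : ∀ i j, i ≠ j → Disjoint (K i) (K j) := by
    intro i j hne
    obtain ⟨a, -, ha⟩ := hKc i
    obtain ⟨b, -, hb⟩ := hKc j
    rw [Set.disjoint_left]
    intro x hx hx'
    apply hne
    apply hKinj
    rw [ha] at hx ⊢
    rw [hb] at hx' ⊢
    exact comp_eq J hx hx'
  have hclosed : ∀ i, IsClosed (K i) := by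
    intro i
    obtain ⟨j, -, hij⟩ := hKc i
    rw [hij]
    exact comp_isClosed J j
  have hcompact : ∀ i, IsCompact (K i) := by
    intro i
    obtain ⟨j, hj, hij⟩ := hKc i
    rw [hij]
    exact Metric.isCompact_of_isClosed_isBounded (comp_isClosed J j) hj
  have hne : ∀ i, (K i).Nonempty := by
    intro i
    obtain ⟨j, -, hij⟩ := hKc i
    rw [hij]
    exact (comp_conn J j).nonempty
  have hdisjD : ∀ i, Disjoint (K i) D.carrier := by
    intro i
    obtain ⟨j, -, hij⟩ := hKc i
    rw [hij, Set.disjoint_left]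
    intro x hx hxD
    exact comp_sub J j hx hxD
  have hcov : D.carrier ∪ ⋃ i, K i = (J.comp i₀)ᶜ := by
    ext x
    constructor
    · rintro (hx | hx)
      · exact hr.sub hx
      · obtain ⟨i, hi⟩ := mem_iUnion.1 hx
        exact Set.disjoint_left.1 (hdisj0 i) hi
    · intro hx
      by_cases hxD : x ∈ D.carrier
      · exact Or.inl hxD
      · right
        obtain ⟨j, hj⟩ := exists_comp J hxD
        have hb : Bornology.IsBounded (J.comp j) := by
          by_contra hnb
          exact hx (comp_unbdd_eq J hnb hi₀ ▸ hj)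
        have h1 : J.comp j ∈ range K := by
          rw [hrange, pd_holes J]
          exact ⟨j, hb, rfl⟩
        obtain ⟨i, hi⟩ := h1
        exact mem_iUnion.2 ⟨i, hi ▸ hj⟩
  refine ⟨J.comp i₀, r, T.card, K, hr, hKinj, hrange, hcompact, hdisj0, hdisj, hdisjD, ?_, hcov,
    ?_, ?_, ?_, pd_null J⟩
  · intro i
    obtain ⟨j, -, hij⟩ := hKc i
    rw [hij]
    exact pd_pos J j
  · have h1 : (⋃₀ holes D)ᶜ = J.comp i₀ ∪ D.carrier := by
      rw [← hrange, sUnion_range]
      ext x
      have h2 : x ∈ D.carrier ∪ ⋃ i, K i ↔ x ∉ J.comp i₀ := by rw [hcov]; rfl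
      constructor
      · intro hx
        by_cases hx0 : x ∈ J.comp i₀
        · exact Or.inl hx0
        · rcases h2.2 hx0 with h | h
          · exact Or.inr h
          · exact absurd h hx
      · rintro (hx | hx) hxK
        · exact (h2.1 (Or.inr hxK)) hx
        · obtain ⟨i, hi⟩ := mem_iUnion.1 hxK
          exact Set.disjoint_left.1 (hdisjD i) hi hx
    have h3 : D.surface D.carrier = 0 := by
      refine measure_mono_null ?_ D.support
      intro x hx hxf
      rw [D.isOpen.frontier_eq] at hxf
      exact hxf.2 hx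
    rw [h1, Measure.real, Measure.real]
    congr 1
    refine le_antisymm (measure_mono subset_union_left) ?_
    calc D.surface (J.comp i₀ ∪ D.carrier) ≤ D.surface (J.comp i₀) + D.surface D.carrier :=
          measure_union_le _ _
      _ = D.surface (J.comp i₀) := by rw [h3, add_zero]
  · intro i t ht
    obtain ⟨j, -, hij⟩ := hKc i
    have h1 := tube_comp J j ht
    have hnn : 0 ≤ D.surface.real (J.comp j) * t + Real.pi * t ^ 2 := by
      have := measureReal_nonneg (μ := D.surface) (s := J.comp j)
      positivity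
    have h2 : volume (D.carrier ∩ {x | infDist x (J.comp j) ≤ t}) ≤
        ENNReal.ofReal (D.surface.real (J.comp j) * t + Real.pi * t ^ 2) := by
      refine (measure_mono ?_).trans h1
      intro x hx
      exact ⟨hx.2, fun hxj => comp_sub J j hxj hx.1⟩
    rw [hij, Measure.real]
    exact ENNReal.toReal_le_of_le_ofReal hnn h2
  · have h1 : ∀ i, ∀ᶠ ε : ℝ in 𝓝[>] 0, ∀ x, infDist x (K i) < ε → x ∉ K i → x ∈ D.carrier := by
      intro i
      have hcl : IsClosed (J.comp i₀ ∪ ⋃ j ∈ {j | j ≠ i}, K j) :=
        (comp_isClosed J i₀).union ((Set.toFinite _).isClosed_biUnion fun j _ => hclosed j)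
      have hsub : K i ⊆ (J.comp i₀ ∪ ⋃ j ∈ {j | j ≠ i}, K j)ᶜ := by
        intro x hx hx'
        rcases hx' with h | h
        · exact Set.disjoint_left.1 (hdisj0 i) hx h
        · obtain ⟨j, hj, hxj⟩ := mem_iUnion₂.1 h
          exact Set.disjoint_left.1 (hdisj j i hj) hxj hx
      obtain ⟨δ, hδ, hδ2⟩ := (hcompact i).exists_thickening_subset_open hcl.isOpen_compl hsub
      filter_upwards [Ioo_mem_nhdsGT hδ] with ε hε x hx hxK
      have h2 : x ∈ thickening δ (K i) :=
        (mem_thickening_iff_infDist_lt (hne i)).2 (hx.trans hε.2)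
      have h3 := hδ2 h2
      have h4 : x ∈ D.carrier ∪ ⋃ i, K i := by
        rw [hcov]
        exact fun h => h3 (Or.inl h)
      rcases h4 with h | h
      · exact h
      · obtain ⟨j, hj⟩ := mem_iUnion.1 h
        by_cases hji : j = i
        · exact absurd (hji ▸ hj) hxK
        · exact absurd (Or.inr (mem_iUnion₂.2 ⟨j, hji, hj⟩)) h3
    have h2 := (Filter.eventually_all.2 h1).and (self_mem_nhdsWithin : Ioi (0 : ℝ) ∈ 𝓝[>] 0)
    obtain ⟨ε, hε1, hε2⟩ := h2.exists
    exact ⟨ε, hε2, hε1⟩

end Pool.Agent.RH
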