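import Pool.Agent.H.MP_1b807b_an.HO.HoleDiv
import Pool.Agent.H.MP_1b807b_an.HO.SphVol
import Pool.Agent.H.MP_1b807b_an.G.Transport
import Pool.Agent.H.MP_1b807b_an.G.Limit

/-! MP_1b807b_an, balls with holes, module RigA: equality in the isoperimetric inequality of a hole,
the transport map -/

set_option autoImplicit false

namespace Pool.Agent.RH

open MeasureTheory Metric Set Filter Pool.Agent.RG
open scoped RealInnerProductSpace Topology NNReal

variable {n : ℕ}

private theorem RigA_tr : Continuous (tr : (E n →L[ℝ] E n) → ℝ) := by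
  unfold tr
  refine continuous_finsetSum _ fun i _ => ?_
  have h1 : Continuous fun A : E n →L[ℝ] E n => A (EuclideanSpace.single i 1) :=
    continuous_id.clm_apply continuous_const
  exact (EuclideanSpace.proj (𝕜 := ℝ) i).continuous.comp h1

private theorem RigA_bd {A : E n →L[ℝ] E n} {C : ℝ≥0} (h : ‖A‖ ≤ C) :
    ‖tr A‖ ≤ ∑ _i : Fin n, (C : ℝ) := by
  unfold tr
  refine (norm_sum_le _ _).trans (Finset.sum_le_sum fun i _ => ?_)
  refine (PiLp.norm_apply_le _ i).trans ((A.le_opNorm _).trans ?_)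
  rw [EuclideanSpace.norm_single, norm_one, mul_one]
  exact h

/-- PROOF: near `z` there are points outside `K` at distance `< ε` from `K`: they are in `D`; and
`z ∈ K` is not in `D`. -/
theorem rig_frontier (D : Domain n) {K : Set (E n)} (hK : IsCompact K)
    (hKD : Disjoint K D.carrier) {ε : ℝ} (hε : 0 < ε)
    (hiso : ∀ x, infDist x K < ε → x ∉ K → x ∈ D.carrier) :
    frontier K ⊆ frontier D.carrier := by
  intro z hz
  have hzK : z ∈ K := hK.isClosed.frontier_subset hz
  rw [D.isOpen.frontier_eq]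
  refine ⟨?_, fun h => Set.disjoint_left.1 hKD hzK h⟩
  rw [frontier_eq_closure_inter_closure] at hz
  rw [Metric.mem_closure_iff]
  intro δ hδ
  obtain ⟨b, hb, hzb⟩ := Metric.mem_closure_iff.1 hz.2 (min δ ε) (lt_min hδ hε)
  refine ⟨b, hiso b ?_ hb, hzb.trans_le (min_le_left _ _)⟩
  refine (infDist_le_dist_of_mem hzK).trans_lt ?_
  rw [dist_comm]
  exact hzb.trans_le (min_le_right _ _)

/-- PROOF: `Ω = interior K` has the volume of `ball 0 ρ`; `exists_transport` gives `T`. By `hole_div`:
`n |K| ≤ ∫_K tr (fderiv T) = - ∫_K ⟪T, normal⟫ ≤ ρ D.surface.real K ≤ n om ρ ^ n = n |K|`, so equality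
holds: `tr (fderiv T) = n` a.e. on `interior K`, hence `fderiv T = id` by `IsTransport.dist_le` (see the end
of `G/Main.lean`), and `- ⟪T, normal⟫ = ρ`, so `‖T‖ = ρ`, a.e. on `K` for `D.surface`. If `z ∈ frontier K` and
`‖T z‖ < ρ`, then `‖T‖ < ρ` on `ball z δ` for some `δ < ε`; `D.surface (ball z δ) > 0` (`rig_frontier`, `hsupp`),
and almost all points of `ball z δ` for `D.surface` are in `frontier D.carrier` (`D.support`), so not in
`D.carrier` (open), at distance `< ε` from `z ∈ K`, so they are in `K` by `hiso`: contradiction. -/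
theorem rig_map (hn : 2 ≤ n) (D : Domain n) {K : Set (E n)} (hK : IsCompact K)
    (hKD : Disjoint K D.carrier) {ε : ℝ} (hε : 0 < ε)
    (hiso : ∀ x, infDist x K < ε → x ∉ K → x ∈ D.carrier) (hnull : volume (frontier K) = 0)
    (hsupp : ∀ z ∈ frontier D.carrier, ∀ δ : ℝ, 0 < δ → 0 < D.surface (ball z δ))
    {ρ : ℝ} (hρ : 0 < ρ) (hv : volume.real K = om n * ρ ^ n)
    (hP : D.surface.real K ≤ n * om n * ρ ^ (n - 1)) :
    ∃ (L : ℝ≥0) (T : E n → E n), LipschitzWith L T ∧ (∀ x, ‖T x‖ ≤ ρ) ∧
      (∀ᵐ x ∂(volume.restrict (interior K)), fderiv ℝ T x = ContinuousLinearMap.id ℝ (E n)) ∧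
      ∀ z ∈ frontier K, ‖T z‖ = ρ := by
  have hDf := D.isFinite
  have hKfin : volume K ≠ ⊤ := hK.measure_lt_top.ne
  -- the interior
  have hae : interior K =ᵐ[volume] K := by
    have hfr : frontier K = K \ interior K := by
      rw [frontier, hK.isClosed.closure_eq]
    rw [hfr] at hnull
    refine (ae_eq_set.2 ⟨?_, hnull⟩)
    rw [diff_eq_empty.2 interior_subset]
    exact measure_empty
  have hvi : volume (interior K) = volume (ball (0 : E n) ρ) := by
    rw [measure_congr hae]
    have h1 : volume.real K = volume.real (ball (0 : E n) ρ) := by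
      rw [hv, (vol_ball hn 0 hρ.le).1]
    rw [measureReal_def, measureReal_def] at h1
    exact (ENNReal.toReal_eq_toReal_iff' hKfin measure_ball_lt_top.ne).1 h1
  obtain ⟨A, T, hT⟩ := exists_transport (by omega : 1 ≤ n) hρ isOpen_interior
    (hK.isBounded.subset interior_subset) hvi
  have hdiv := hole_div hn D hK hKD hε hiso hT.lip hT.norm_le
  -- the lower bound
  have htr := hT.tr_ge
  have hdl := hT.dist_le
  rw [Measure.restrict_congr_set hae] at htr hdl
  have hfin : IsFiniteMeasure (volume.restrict K) :=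
    ⟨by rw [Measure.restrict_apply_univ]; exact hK.measure_lt_top⟩
  have hint : Integrable (fun x => tr (fderiv ℝ T x)) (volume.restrict K) := by
    refine Integrable.of_bound (C := ∑ _i : Fin n, ((2 * n : ℝ≥0) : ℝ))
      (RigA_tr.measurable.comp (measurable_fderiv ℝ T)).aestronglyMeasurable
      (Eventually.of_forall fun x => ?_)
    exact RigA_bd (norm_fderiv_le_of_lipschitz ℝ hT.lip)
  have hcn : ∫ _x in K, (n : ℝ) = n * volume.real K := by
    rw [integral_const, measureReal_restrict_apply_univ, smul_eq_mul, mul_comm]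
  have hcr : ∫ _x in K, ρ ∂D.surface = ρ * D.surface.real K := by
    rw [integral_const, measureReal_restrict_apply_univ, smul_eq_mul, mul_comm]
  -- the upper bound
  have hfs : IsFiniteMeasure (D.surface.restrict K) := inferInstance
  have hnb : ∀ᵐ x ∂(D.surface.restrict K), |⟪T x, D.normal x⟫| ≤ ‖T x‖ := by
    refine (ae_restrict_of_ae D.norm_normal).mono fun x hx => ?_
    refine (abs_real_inner_le_norm _ _).trans ?_
    rw [hx, mul_one]
  have hint2 : Integrable (fun x => ⟪T x, D.normal x⟫) (D.surface.restrict K) :=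
    Integrable.of_bound (C := ρ)
      ((hT.lip.continuous.measurable.inner D.measurable_normal).aestronglyMeasurable)
      (hnb.mono fun x hx => hx.trans (hT.norm_le x))
  have h6 : ρ ^ n = ρ * ρ ^ (n - 1) := by
    rw [← pow_succ']
    congr 1
    omega
  have hup : ρ * D.surface.real K ≤ n * volume.real K := by
    rw [hv, h6]
    calc ρ * D.surface.real K ≤ ρ * (n * om n * ρ ^ (n - 1)) :=
          mul_le_mul_of_nonneg_left hP hρ.le
      _ = n * (om n * (ρ * ρ ^ (n - 1))) := by ring
  -- the two deficits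
  have hd1 : ∫ x in K, (tr (fderiv ℝ T x) - n)
      = (∫ x in K, tr (fderiv ℝ T x)) - n * volume.real K := by
    rw [integral_sub hint (integrable_const _), hcn]
  have hd2 : ∫ x in K, (ρ + ⟪T x, D.normal x⟫) ∂D.surface
      = ρ * D.surface.real K + ∫ x in K, ⟪T x, D.normal x⟫ ∂D.surface := by
    rw [integral_add (integrable_const _) hint2, hcr]
  have hn1 : 0 ≤ᵐ[volume.restrict K] fun x => tr (fderiv ℝ T x) - (n : ℝ) :=
    htr.mono fun x hx => sub_nonneg.2 hx
  have hn2 : 0 ≤ᵐ[D.surface.restrict K] fun x => ρ + ⟪T x, D.normal x⟫ :=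
    hnb.mono fun x hx => by
      have h1 := (abs_le.1 (hx.trans (hT.norm_le x))).1
      change (0 : ℝ) ≤ ρ + ⟪T x, D.normal x⟫
      linarith
  have hi1 : 0 ≤ ∫ x in K, (tr (fderiv ℝ T x) - n) := integral_nonneg_of_ae hn1
  have hi2 : 0 ≤ ∫ x in K, (ρ + ⟪T x, D.normal x⟫) ∂D.surface := integral_nonneg_of_ae hn2
  have hz1 : ∫ x in K, (tr (fderiv ℝ T x) - n) = 0 := by
    rw [hd1] at hi1 ⊢
    rw [hd2] at hi2
    rw [hdiv] at hi1 ⊢
    linarith
  have hz2 : ∫ x in K, (ρ + ⟪T x, D.normal x⟫) ∂D.surface = 0 := by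
    rw [hd1] at hi1
    rw [hd2] at hi2 ⊢
    rw [hdiv] at hi1
    linarith
  -- the derivative
  have ha1 := (integral_eq_zero_iff_of_nonneg_ae hn1 (hint.sub (integrable_const _))).1 hz1
  have ha2 := (integral_eq_zero_iff_of_nonneg_ae hn2 ((integrable_const _).add hint2)).1 hz2
  have hid : ∀ᵐ x ∂(volume.restrict K), fderiv ℝ T x = ContinuousLinearMap.id ℝ (E n) := by
    filter_upwards [ha1, hdl] with x hx1 hx2
    have hx1' : tr (fderiv ℝ T x) - (n : ℝ) = 0 := hx1
    rw [hx1', mul_zero] at hx2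
    have h4 := norm_nonneg (fderiv ℝ T x - ContinuousLinearMap.id ℝ (E n))
    have h3 : ‖fderiv ℝ T x - ContinuousLinearMap.id ℝ (E n)‖ = 0 := by nlinarith
    exact sub_eq_zero.1 (norm_eq_zero.1 h3)
  have hnorm : ∀ᵐ x ∂(D.surface.restrict K), ‖T x‖ = ρ := by
    filter_upwards [ha2, hnb] with x hx1 hx2
    have hx1' : ρ + ⟪T x, D.normal x⟫ = 0 := hx1
    refine le_antisymm (hT.norm_le x) (le_trans ?_ hx2)
    have h1 := neg_le_abs ⟪T x, D.normal x⟫
    linarith
  refine ⟨_, T, hT.lip, hT.norm_le, ?_, ?_⟩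
  · rw [Measure.restrict_congr_set hae]
    exact hid
  · intro z hz
    by_contra hne
    have hlt : ‖T z‖ < ρ := lt_of_le_of_ne (hT.norm_le z) hne
    have hzK : z ∈ K := hK.isClosed.frontier_subset hz
    have hop : IsOpen {x : E n | ‖T x‖ < ρ} :=
      isOpen_lt hT.lip.continuous.norm continuous_const
    obtain ⟨δ₀, hδ₀, hball⟩ := Metric.isOpen_iff.1 hop z hlt
    have hδ : 0 < min δ₀ ε := lt_min hδ₀ hε
    have hpos := hsupp z (rig_frontier D hK hKD hε hiso hz) _ hδ
    refine hpos.ne' ?_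
    rw [ae_restrict_iff' hK.measurableSet] at hnorm
    have hfr : ∀ᵐ x ∂D.surface, x ∈ frontier D.carrier := by
      rw [ae_iff]
      exact D.support
    have hall : ∀ᵐ x ∂D.surface, x ∉ ball z (min δ₀ ε) := by
      filter_upwards [hnorm, hfr] with x hx1 hx2 hx3
      have hxD : x ∉ D.carrier := by
        rw [D.isOpen.frontier_eq] at hx2
        exact hx2.2
      have hxε : infDist x K < ε :=
        (infDist_le_dist_of_mem hzK).trans_lt ((mem_ball.1 hx3).trans_le (min_le_right _ _))
      have hxK : x ∈ K := by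
        by_contra hxK
        exact hxD (hiso x hxε hxK)
      have h1 : ‖T x‖ < ρ := hball (ball_subset_ball (min_le_left _ _) hx3)
      exact h1.ne (hx1 hxK)
    rw [ae_iff] at hall
    have hset : {x : E n | ¬ x ∉ ball z (min δ₀ ε)} = ball z (min δ₀ ε) := by
      ext x
      exact not_not
    rw [← hset]
    exact hall

end Pool.Agent.RH
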