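import Pool.Agent.H.MP_1b807b_an.HO.Defs
import Pool.Agent.H.MP_1b807b_an.G.Moll

/-! MP_1b807b_an, balls with holes, module SurfUniq: the surface measure is determined by the set -/

set_option autoImplicit false

namespace Pool.Agent.RH

open MeasureTheory Metric Set Filter Pool.Agent.RG
open scoped RealInnerProductSpace Topology

variable {n : ℕ}

/-- the sequence of bump functions -/
private noncomputable def SurfUniq_bump (n : ℕ) (j : ℕ) : ContDiffBump (0 : E n) where
  rIn := 1 / ((j : ℝ) + 1) / 2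
  rOut := 1 / ((j : ℝ) + 1)
  rIn_pos := by positivity
  rIn_lt_rOut := half_lt_self (by positivity)

/-- smooth approximation of bounded continuous maps -/
private theorem SurfUniq_moll {X : E n → E n} (hX : Continuous X) {C : ℝ}
    (hC : ∀ x, ‖X x‖ ≤ C) :
    ∃ S : ℕ → E n → E n, (∀ j, ContDiff ℝ 1 (S j)) ∧ (∀ j x, ‖S j x‖ ≤ C) ∧
      ∀ x, Tendsto (fun j => S j x) atTop (𝓝 (X x)) := by
  refine ⟨fun j => convolution ((SurfUniq_bump n j).normed volume) X
    (ContinuousLinearMap.lsmul ℝ ℝ) volume, fun j => ?_, fun j x => ?_, fun x => ?_⟩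
  · exact ((SurfUniq_bump n j).hasCompactSupport_normed).contDiff_convolution_left (n := 1)
      (ContinuousLinearMap.lsmul ℝ ℝ) ((SurfUniq_bump n j).contDiff_normed)
      hX.locallyIntegrable
  · show ‖∫ y, (SurfUniq_bump n j).normed volume y • X (x - y)‖ ≤ C
    have h1 : ‖∫ y, (SurfUniq_bump n j).normed volume y • X (x - y)‖ ≤
        ∫ y, (SurfUniq_bump n j).normed volume y * C := by
      refine norm_integral_le_of_norm_le ((SurfUniq_bump n j).integrable_normed.mul_const C)
        (Eventually.of_forall fun y => ?_)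
      rw [norm_smul, Real.norm_of_nonneg ((SurfUniq_bump n j).nonneg_normed y)]
      exact mul_le_mul_of_nonneg_left (hC _) ((SurfUniq_bump n j).nonneg_normed y)
    rwa [integral_mul_const, (SurfUniq_bump n j).integral_normed, one_mul] at h1
  · exact ContDiffBump.convolution_tendsto_right_of_continuous
      (tendsto_one_div_add_atTop_nhds_zero_nat : Tendsto (fun j => (SurfUniq_bump n j).rOut)
        atTop (𝓝 0)) hX x

/-- the surface integral of the normal part of smooth approximations converges -/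
private theorem SurfUniq_lim (D : Domain n) {X : E n → E n} {S : ℕ → E n → E n} {C : ℝ}
    (hS : ∀ j, ContDiff ℝ 1 (S j)) (hC : ∀ j x, ‖S j x‖ ≤ C)
    (hlim : ∀ x, Tendsto (fun j => S j x) atTop (𝓝 (X x))) :
    Tendsto (fun j => ∫ x in D.carrier, divg (S j) x) atTop
      (𝓝 (∫ x, ⟪X x, D.normal x⟫ ∂D.surface)) := by
  have := D.isFinite
  have h1 : ∀ j, ∫ x in D.carrier, divg (S j) x = ∫ x, ⟪S j x, D.normal x⟫ ∂D.surface :=
    fun j => D.divergence (S j) (hS j)
  simp only [h1]
  refine tendsto_integral_of_dominated_convergence (fun _ => C) (fun j => ?_)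
    (integrable_const C) (fun j => ?_) (Eventually.of_forall fun x => ?_)
  · exact (hS j).continuous.aestronglyMeasurable.inner
      D.measurable_normal.aestronglyMeasurable
  · filter_upwards [D.norm_normal] with x hx
    refine (norm_inner_le_norm _ _).trans ?_
    rw [hx, mul_one]
    exact hC j x
  · exact (hlim x).inner tendsto_const_nhds

/-- the integrals of the normal parts of a bounded continuous field agree -/
private theorem SurfUniq_cont (D D' : Domain n) (h : D.carrier = D'.carrier) {X : E n → E n}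
    (hX : Continuous X) {C : ℝ} (hC : ∀ x, ‖X x‖ ≤ C) :
    ∫ x, ⟪X x, D.normal x⟫ ∂D.surface = ∫ x, ⟪X x, D'.normal x⟫ ∂D'.surface := by
  obtain ⟨S, h1, h2, h3⟩ := SurfUniq_moll hX hC
  have e1 := SurfUniq_lim D h1 h2 h3
  have e2 := SurfUniq_lim D' h1 h2 h3
  rw [h] at e1
  exact tendsto_nhds_unique e1 e2

/-- the projection to the unit ball -/
private theorem SurfUniq_proj (Y : E n → E n) (hY : Continuous Y) :
    ∃ Z : E n → E n, Continuous Z ∧ (∀ x, ‖Z x‖ ≤ 1) ∧
      ∀ x, ∀ v : E n, ‖v‖ = 1 → ‖v - Z x‖ ≤ 2 * ‖v - Y x‖ := by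
  have hpos : ∀ x, 0 < max 1 ‖Y x‖ := fun x => lt_of_lt_of_le one_pos (le_max_left _ _)
  refine ⟨fun x => (max 1 ‖Y x‖)⁻¹ • Y x, ?_, fun x => ?_, fun x v hv => ?_⟩
  · exact ((continuous_const.max hY.norm).inv₀ fun x => (hpos x).ne').smul hY
  · rw [norm_smul, Real.norm_of_nonneg (inv_nonneg.2 (hpos x).le), inv_mul_le_iff₀ (hpos x),
      mul_one]
    exact le_max_right _ _
  · have h1 : ‖(max 1 ‖Y x‖)⁻¹ • Y x - Y x‖ ≤ ‖v - Y x‖ := by
      rcases le_total ‖Y x‖ 1 with h2 | h2
      · rw [max_eq_left h2, inv_one, one_smul, sub_self, norm_zero]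
        exact norm_nonneg _
      · have h3 : (max 1 ‖Y x‖)⁻¹ • Y x - Y x = -((1 - ‖Y x‖⁻¹) • Y x) := by
          rw [max_eq_right h2, sub_smul, one_smul]
          abel
        have h4 : 0 < ‖Y x‖ := lt_of_lt_of_le one_pos h2
        have h5 : 0 ≤ 1 - ‖Y x‖⁻¹ := by
          rw [sub_nonneg]
          exact inv_le_one_of_one_le₀ h2
        rw [h3, norm_neg, norm_smul, Real.norm_of_nonneg h5, sub_mul, inv_mul_cancel₀ h4.ne',
          one_mul]
        have h6 := norm_sub_norm_le (Y x) v
        rw [hv, norm_sub_rev] at h6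
        exact h6
    calc ‖v - (max 1 ‖Y x‖)⁻¹ • Y x‖
        = ‖(v - Y x) - ((max 1 ‖Y x‖)⁻¹ • Y x - Y x)‖ := by
          congr 1
          abel
      _ ≤ ‖v - Y x‖ + ‖(max 1 ‖Y x‖)⁻¹ • Y x - Y x‖ := norm_sub_le _ _
      _ ≤ 2 * ‖v - Y x‖ := by linarith

/-- one inequality, for bounded functions -/
private theorem SurfUniq_le (D D' : Domain n) (h : D.carrier = D'.carrier) {g : E n → ℝ}
    (hg : Continuous g) (hg0 : ∀ x, 0 ≤ g x) {C : ℝ} (hgC : ∀ x, g x ≤ C) :
    ∫ x, g x ∂D.surface ≤ ∫ x, g x ∂D'.surface := by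
  have := D.isFinite
  have := D'.isFinite
  have hC0 : 0 ≤ C := (hg0 0).trans (hgC 0)
  have hgn : ∀ x, ‖g x‖ ≤ C := fun x => by
    rw [Real.norm_of_nonneg (hg0 x)]
    exact hgC x
  have hgi : ∀ μ : Measure (E n), IsFiniteMeasure μ → Integrable g μ := fun μ _ =>
    Integrable.of_bound hg.aestronglyMeasurable C (Eventually.of_forall hgn)
  refine le_of_forall_pos_le_add fun ε hε => ?_
  have hνi : Integrable D.normal D.surface :=
    Integrable.of_bound D.measurable_normal.aestronglyMeasurable 1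
      (D.norm_normal.mono fun x hx => hx.le)
  have hδ : 0 < ε / (2 * (C + 1)) := by positivity
  obtain ⟨Y, hY, hYi⟩ := hνi.exists_boundedContinuous_integral_sub_le hδ
  obtain ⟨Z, hZc, hZ1, hZ2⟩ := SurfUniq_proj Y Y.continuous
  have hgZc : Continuous fun x => g x • Z x := hg.smul hZc
  have hgZn : ∀ x, ‖g x • Z x‖ ≤ C := by
    intro x
    rw [norm_smul]
    calc ‖g x‖ * ‖Z x‖ ≤ C * 1 := mul_le_mul (hgn x) (hZ1 x) (norm_nonneg _) hC0
      _ = C := mul_one C
  have hkey := SurfUniq_cont D D' h hgZc hgZn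
  have hi : ∀ D₀ : Domain n, Integrable (fun x => ⟪g x • Z x, D₀.normal x⟫) D₀.surface := by
    intro D₀
    have := D₀.isFinite
    refine Integrable.of_bound (hgZc.aestronglyMeasurable.inner
      D₀.measurable_normal.aestronglyMeasurable) C ?_
    filter_upwards [D₀.norm_normal] with x hx
    refine (norm_inner_le_norm _ _).trans ?_
    rw [hx, mul_one]
    exact hgZn x
  have hdi : Integrable (fun x => ‖D.normal x - Y x‖) D.surface := (hνi.sub hYi).norm
  -- the left integral
  have h1 : ∫ x, g x ∂D.surface ≤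
      (∫ x, ⟪g x • Z x, D.normal x⟫ ∂D.surface) + C * (2 * (ε / (2 * (C + 1)))) := by
    have h2 : ∫ x, g x ∂D.surface ≤
        ∫ x, (⟪g x • Z x, D.normal x⟫ + C * (2 * ‖D.normal x - Y x‖)) ∂D.surface := by
      refine integral_mono_ae (hgi _ D.isFinite)
        ((hi D).add ((hdi.const_mul 2).const_mul C)) ?_
      filter_upwards [D.norm_normal] with x hx
      have h3 : ⟪D.normal x, D.normal x⟫ = 1 := by
        rw [real_inner_self_eq_norm_sq, hx, one_pow]
      have h4 : ⟪g x • Z x, D.normal x⟫ = g x - g x * ⟪D.normal x - Z x, D.normal x⟫ := by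
        rw [real_inner_smul_left, inner_sub_left, h3]
        ring
      have h5 : ⟪D.normal x - Z x, D.normal x⟫ ≤ 2 * ‖D.normal x - Y x‖ := by
        have h6 := real_inner_le_norm (D.normal x - Z x) (D.normal x)
        rw [hx, mul_one] at h6
        exact h6.trans (hZ2 x (D.normal x) hx)
      have h7 : g x * ⟪D.normal x - Z x, D.normal x⟫ ≤ C * (2 * ‖D.normal x - Y x‖) := by
        calc g x * ⟪D.normal x - Z x, D.normal x⟫
            ≤ g x * (2 * ‖D.normal x - Y x‖) := mul_le_mul_of_nonneg_left h5 (hg0 x)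
          _ ≤ C * (2 * ‖D.normal x - Y x‖) :=
            mul_le_mul_of_nonneg_right (hgC x) (by positivity)
      show g x ≤ ⟪g x • Z x, D.normal x⟫ + C * (2 * ‖D.normal x - Y x‖)
      rw [h4]
      linarith
    rw [integral_add (hi D) ((hdi.const_mul 2).const_mul C), integral_const_mul,
      integral_const_mul] at h2
    have h8 : C * (2 * ∫ x, ‖D.normal x - Y x‖ ∂D.surface) ≤ C * (2 * (ε / (2 * (C + 1)))) :=
      mul_le_mul_of_nonneg_left (mul_le_mul_of_nonneg_left hY (by norm_num)) hC0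
    linarith
  -- the right integral
  have h2 : ∫ x, ⟪g x • Z x, D'.normal x⟫ ∂D'.surface ≤ ∫ x, g x ∂D'.surface := by
    refine integral_mono_ae (hi D') (hgi _ D'.isFinite) ?_
    filter_upwards [D'.norm_normal] with x hx
    have h3 := real_inner_le_norm (g x • Z x) (D'.normal x)
    rw [hx, mul_one, norm_smul, Real.norm_of_nonneg (hg0 x)] at h3
    refine h3.trans ?_
    calc g x * ‖Z x‖ ≤ g x * 1 := mul_le_mul_of_nonneg_left (hZ1 x) (hg0 x)
      _ = g x := mul_one _
  have h3 : C * (2 * (ε / (2 * (C + 1)))) ≤ ε := by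
    have h4 : C * (2 * (ε / (2 * (C + 1)))) = ε * (C / (C + 1)) := by
      field_simp
    rw [h4]
    have h5 : C / (C + 1) ≤ 1 := by
      rw [div_le_one (by positivity)]
      linarith
    calc ε * (C / (C + 1)) ≤ ε * 1 := mul_le_mul_of_nonneg_left h5 hε.le
      _ = ε := mul_one ε
  rw [hkey] at h1
  linarith

/-- one inequality -/
private theorem SurfUniq_le' (D D' : Domain n) (h : D.carrier = D'.carrier) {g : E n → ℝ}
    (hg : Continuous g) (hg0 : ∀ x, 0 ≤ g x) :
    ∫ x, g x ∂D.surface ≤ ∫ x, g x ∂D'.surface := by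
  have hK : IsCompact (frontier D.carrier) :=
    Metric.isCompact_of_isClosed_isBounded isClosed_frontier
      (D.isBounded.closure.subset frontier_subset_closure)
  obtain ⟨C, hC⟩ := hK.exists_bound_of_continuousOn hg.continuousOn
  have hmin : ∀ x ∈ frontier D.carrier, g x = min (g x) (max C 0) := by
    intro x hx
    have h1 := hC x hx
    rw [Real.norm_of_nonneg (hg0 x)] at h1
    rw [min_eq_left (h1.trans (le_max_left _ _))]
  have hae : ∀ D₀ : Domain n, ∀ᵐ x ∂D₀.surface, x ∈ frontier D₀.carrier := fun D₀ =>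
    mem_ae_iff.2 D₀.support
  have e1 : ∫ x, g x ∂D.surface = ∫ x, min (g x) (max C 0) ∂D.surface :=
    integral_congr_ae ((hae D).mono fun x hx => hmin x hx)
  have e2 : ∫ x, g x ∂D'.surface = ∫ x, min (g x) (max C 0) ∂D'.surface := by
    refine integral_congr_ae ((hae D').mono fun x hx => hmin x ?_)
    rw [h]
    exact hx
  rw [e1, e2]
  exact SurfUniq_le D D' h (hg.min continuous_const)
    (fun x => le_min (hg0 x) (le_max_right _ _)) (C := max C 0) fun x => min_le_right _ _

/-- PROOF: by symmetry `≤` suffices. Let `g ≥ 0` be continuous. For `ε > 0` there is a continuous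
`Y : E n → E n` with `∫ ‖Y - D.normal‖ ∂D.surface < ε` (continuous functions are dense in `L¹` of a finite
measure, e.g. `Memℒp.exists_boundedContinuous_eLpNorm_sub_le`), and after the projection to the unit
ball `‖Y‖ ≤ 1` (the normal has norm 1 a.e., the projection is 1-Lipschitz); mollification
(or `exists_smooth` of `G/Moll.lean` for Lipschitz approximations) makes it `C¹`, uniformly close on the
compact frontier, still `‖Y‖ ≤ 1`. First approximate `g` uniformly on the frontier by `C¹` functions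
`g' ≥ 0` so that `g' • Y` is `C¹`. Then `∫ g ∂D.surface = ∫ g ⟪normal, normal⟫ ≤ ∫ ⟪g Y, normal⟫ ∂D.surface
+ M ε = ∫_D div (g Y) + M ε = ∫ ⟪g Y, D'.normal⟫ ∂D'.surface + M ε ≤ ∫ g ∂D'.surface + M ε`. -/
theorem surface_unique (D D' : Domain n) (h : D.carrier = D'.carrier) {g : E n → ℝ}
    (hg : Continuous g) (hg0 : ∀ x, 0 ≤ g x) :
    ∫ x, g x ∂D.surface = ∫ x, g x ∂D'.surface :=
  le_antisymm (SurfUniq_le' D D' h hg hg0) (SurfUniq_le' D' D h.symm hg hg0)

/-- PROOF: `surface_unique` with `g = u ^ 2`. -/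
theorem rayleigh_unique (D D' : Domain n) (h : D.carrier = D'.carrier) (α : ℝ) {u : E n → ℝ}
    (hu : Continuous u) : D.rayleigh α u = D'.rayleigh α u := by
  unfold Domain.rayleigh
  rw [surface_unique D D' h (g := fun x => u x ^ 2) (hu.pow 2) (fun x => sq_nonneg _), h]

theorem robin_unique (D D' : Domain n) (h : D.carrier = D'.carrier) (α : ℝ) :
    D.robin α = D'.robin α := by
  unfold Domain.robin
  congr 1
  ext q
  constructor
  · rintro ⟨u, hu, hp, rfl⟩
    exact ⟨u, hu, h ▸ hp, by rw [rayleigh_unique D D' h α hu.continuous]⟩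
  · rintro ⟨u, hu, hp, rfl⟩
    exact ⟨u, hu, h ▸ hp, by rw [rayleigh_unique D D' h α hu.continuous]⟩

end Pool.Agent.RH
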